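import Pool.Agent.Lib.Hecke59.Base

/-! The action of the Hecke algebra with parameter `z = q - q⁻¹` on functions on words. -/

namespace Pool.Agent.Lib.Hecke59

universe u v

/-- Words: infinite sequences of letters. -/
abbrev Wd : Type := ℕ → ℕ

/-- Exchange of the letters at positions `i` and `i + 1`. -/
def sw (i : ℕ) (w : Wd) : Wd := w ∘ Equiv.swap i (i + 1)

@[simp] theorem sw_left (i : ℕ) (w : Wd) : sw i w i = w (i + 1) := by simp [sw]
@[simp] theorem sw_right (i : ℕ) (w : Wd) : sw i w (i + 1) = w i := by simp [sw]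
theorem sw_ne {i j : ℕ} (w : Wd) (h : j ≠ i) (h' : j ≠ i + 1) : sw i w j = w j := by
  simp [sw, Equiv.swap_apply_of_ne_of_ne h h']

@[simp] theorem sw_sw (i : ℕ) (w : Wd) : sw i (sw i w) = w := by
  funext j; simp [sw]

theorem sw_comm {i j : ℕ} (h : i + 2 ≤ j) (w : Wd) : sw i (sw j w) = sw j (sw i w) := by
  funext k
  simp only [sw, Function.comp_apply]
  congr 1
  simp only [Equiv.swap_apply_def]
  split_ifs <;> omega

theorem sw_braid (i : ℕ) (w : Wd) :
    sw i (sw (i + 1) (sw i w)) = sw (i + 1) (sw i (sw (i + 1) w)) := by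
  funext k
  simp only [sw, Function.comp_apply]
  congr 1
  simp only [Equiv.swap_apply_def]
  split_ifs <;> omega

variable {R : Type u} [CommRing R]

/-- The operator of a generator on functions on words. -/
def actT (q qi : R) (i : ℕ) : Module.End R (Wd → R) where
  toFun F w := if w i = w (i + 1) then q * F w
    else if w (i + 1) < w i then F (sw i w) + (q - qi) * F w else F (sw i w)
  map_add' F G := by
    funext w
    simp only [Pi.add_apply]
    split_ifs <;> ring
  map_smul' r F := by
    funext w
    simp only [Pi.smul_apply, smul_eq_mul, RingHom.id_apply]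
    split_ifs <;> ring

theorem actT_eq {q qi : R} {i : ℕ} {F : Wd → R} {w : Wd} (h : w i = w (i + 1)) :
    actT q qi i F w = q * F w := by simp [actT, h]

theorem actT_gt {q qi : R} {i : ℕ} {F : Wd → R} {w : Wd} (h : w (i + 1) < w i) :
    actT q qi i F w = F (sw i w) + (q - qi) * F w := by simp [actT, h, h.ne']

theorem actT_lt {q qi : R} {i : ℕ} {F : Wd → R} {w : Wd} (h : w i < w (i + 1)) :
    actT q qi i F w = F (sw i w) := by simp [actT, h.ne, h.le]

theorem actT_quad {q qi : R} (hq : q * qi = 1) (i : ℕ) :
    actT q qi i * actT q qi i = (q - qi) • actT q qi i + 1 := by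
  ext F w
  simp only [Module.End.mul_apply, LinearMap.add_apply, LinearMap.smul_apply, Pi.add_apply,
    Pi.smul_apply, smul_eq_mul, Module.End.one_apply]
  rcases lt_trichotomy (w i) (w (i + 1)) with h | h | h
  · rw [actT_lt h, actT_gt (w := sw i w) (by simpa using h), actT_lt h, sw_sw]; ring
  · rw [actT_eq h, actT_eq h]; linear_combination (-F w) * (-hq)
  · rw [actT_gt h, actT_lt (w := sw i w) (by simpa using h), actT_gt h, sw_sw]; ring

theorem actT_far {q qi : R} {i j : ℕ} (h : i + 2 ≤ j) :
    actT q qi i * actT q qi j = actT q qi j * actT q qi i := by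
  ext F w
  simp only [Module.End.mul_apply]
  have a1 : sw i w j = w j := sw_ne _ (by omega) (by omega)
  have a2 : sw i w (j + 1) = w (j + 1) := sw_ne _ (by omega) (by omega)
  have a3 : sw j w i = w i := sw_ne _ (by omega) (by omega)
  have a4 : sw j w (i + 1) = w (i + 1) := sw_ne _ (by omega) (by omega)
  have a5 := sw_comm h w
  simp only [actT, LinearMap.coe_mk, AddHom.coe_mk, a1, a2, a3, a4, a5]
  split_ifs <;> ring

theorem actT_braid {q qi : R} (hq : q * qi = 1) (i : ℕ) :
    actT q qi i * actT q qi (i + 1) * actT q qi i =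
      actT q qi (i + 1) * actT q qi i * actT q qi (i + 1) := by
  ext F w
  simp only [Module.End.mul_apply]
  have b1 : ∀ w : Wd, sw i w (i + 1 + 1) = w (i + 1 + 1) := fun w => sw_ne _ (by omega) (by omega)
  have b2 : ∀ w : Wd, sw (i + 1) w i = w i := fun w => sw_ne _ (by omega) (by omega)
  have b3 := sw_braid i w
  have b4 : ∀ w : Wd, sw (i + 1) w (i + 1) = w (i + 1 + 1) := fun w => sw_left _ _
  have b5 : ∀ w : Wd, sw (i + 1) w (i + 1 + 1) = w (i + 1) := fun w => sw_right _ _
  simp only [actT, LinearMap.coe_mk, AddHom.coe_mk, b1, b2, b4, b5, sw_left, sw_right, sw_sw]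
  rcases lt_trichotomy (w i) (w (i + 1)) with h1 | h1 | h1 <;>
  rcases lt_trichotomy (w (i + 1)) (w (i + 1 + 1)) with h2 | h2 | h2 <;>
  rcases lt_trichotomy (w i) (w (i + 1 + 1)) with h3 | h3 | h3 <;>
  first
    | (exfalso; omega)
    | skip
  all_goals
    simp (disch := omega) only [if_pos, if_neg, b3]
    try first
      | ring1
      | linear_combination ((q - qi) * F w) * hq
      | linear_combination (-(q - qi) * F w) * hq

/-- The action of the Hecke algebra on functions on words. -/
noncomputable def act {q qi : R} (hq : q * qi = 1) :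
    Hk R (q - qi) →ₐ[R] Module.End R (Wd → R) :=
  lift (actT q qi) (actT_quad hq) (fun _ _ h => actT_far h) (actT_braid hq)

@[simp] theorem act_T {q qi : R} (hq : q * qi = 1) (i : ℕ) : act hq (T i) = actT q qi i :=
  lift_T _ _ _ _ _

open Classical in
/-- The matrix entry of `x` at the words `v`, `w`. -/
noncomputable def ent {q qi : R} (hq : q * qi = 1) (v w : Wd) : Hk R (q - qi) →ₗ[R] R where
  toFun x := act hq x (Pi.single w 1) v
  map_add' x y := by rw [map_add]; rfl
  map_smul' r x := by rw [map_smul]; rfl

/-- Sum of `B v` over the words `v` which agree with `w` from position `m` on and whose first `m`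
letters are `< s`, with exactly `μ x` letters `x` for all `x < s`. -/
def S {V : Type v} [AddCommMonoid V] (s : ℕ) : ℕ → (ℕ → ℕ) → Wd → (Wd → V) → V
  | 0, μ, w, B => if ∀ x < s, μ x = 0 then B w else 0
  | m + 1, μ, w, B => ∑ x ∈ Finset.range s,
      if 0 < μ x then S s m (Function.update μ x (μ x - 1)) (Function.update w m x) B else 0

end Pool.Agent.Lib.Hecke59
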