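import Mathlib

/-! The Hecke algebra on infinitely many strands: generators `T i` (`i : ℕ`), relations
`T i * T i = z • T i + 1`, far commutation and the braid relation, over a commutative ring. -/

namespace Pool.Agent.Lib.Hecke59

open scoped TensorProduct

universe u v

section defs

variable (R : Type u) [CommRing R] (z : R)

/-- The defining relations of the Hecke algebra. -/
inductive Rel : FreeAlgebra R ℕ → FreeAlgebra R ℕ → Prop
  | quad (i : ℕ) : Rel (FreeAlgebra.ι R i * FreeAlgebra.ι R i) (z • FreeAlgebra.ι R i + 1)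
  | far (i j : ℕ) (h : i + 2 ≤ j) :
      Rel (FreeAlgebra.ι R i * FreeAlgebra.ι R j) (FreeAlgebra.ι R j * FreeAlgebra.ι R i)
  | braid (i : ℕ) :
      Rel (FreeAlgebra.ι R i * FreeAlgebra.ι R (i + 1) * FreeAlgebra.ι R i)
        (FreeAlgebra.ι R (i + 1) * FreeAlgebra.ι R i * FreeAlgebra.ι R (i + 1))

/-- The Hecke algebra on infinitely many strands. -/
def Hk : Type u := RingQuot (Rel R z)

instance : Ring (Hk R z) := inferInstanceAs (Ring (RingQuot (Rel R z)))
instance : Algebra R (Hk R z) := inferInstanceAs (Algebra R (RingQuot (Rel R z)))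

end defs

variable {R : Type u} [CommRing R] {z : R}

/-- The generators. -/
def T (i : ℕ) : Hk R z := RingQuot.mkAlgHom R (Rel R z) (FreeAlgebra.ι R i)

/-- The inverses of the generators. -/
def Ti (i : ℕ) : Hk R z := T i - algebraMap R (Hk R z) z

theorem T_sq (i : ℕ) : (T i : Hk R z) * T i = z • T i + 1 := by
  have h := RingQuot.mkAlgHom_rel (S := R) (s := Rel R z) (Rel.quad (R := R) (z := z) i)
  rw [map_mul, map_add, map_smul, map_one] at h
  exact h

theorem T_comm {i j : ℕ} (h : i + 2 ≤ j) : (T i : Hk R z) * T j = T j * T i := by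
  have h := RingQuot.mkAlgHom_rel (S := R) (s := Rel R z) (Rel.far (R := R) (z := z) i j h)
  rw [map_mul, map_mul] at h
  exact h

theorem T_comm' {i j : ℕ} (h : i + 2 ≤ j ∨ j + 2 ≤ i) : (T i : Hk R z) * T j = T j * T i := by
  rcases h with h | h
  · exact T_comm h
  · exact (T_comm h).symm

theorem T_braid (i : ℕ) : (T i : Hk R z) * T (i + 1) * T i = T (i + 1) * T i * T (i + 1) := by
  have h := RingQuot.mkAlgHom_rel (S := R) (s := Rel R z) (Rel.braid (R := R) (z := z) i)
  simp only [map_mul] at h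
  exact h

/-- The universal property. -/
def lift {B : Type v} [Ring B] [Algebra R B] (f : ℕ → B)
    (h1 : ∀ i, f i * f i = z • f i + 1) (h2 : ∀ i j, i + 2 ≤ j → f i * f j = f j * f i)
    (h3 : ∀ i, f i * f (i + 1) * f i = f (i + 1) * f i * f (i + 1)) : Hk R z →ₐ[R] B :=
  RingQuot.liftAlgHom R ⟨FreeAlgebra.lift R f, by
    intro x y h
    cases h with
    | quad i => simp [h1]
    | far i j h => simp [h2 i j h]
    | braid i => simp [h3]⟩

@[simp] theorem lift_T {B : Type v} [Ring B] [Algebra R B] (f : ℕ → B)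
    (h1 : ∀ i, f i * f i = z • f i + 1) (h2 : ∀ i j, i + 2 ≤ j → f i * f j = f j * f i)
    (h3 : ∀ i, f i * f (i + 1) * f i = f (i + 1) * f i * f (i + 1)) (i : ℕ) :
    lift (z := z) f h1 h2 h3 (T i) = f i := by
  exact (RingQuot.liftAlgHom_mkAlgHom_apply R (s := Rel R z) (FreeAlgebra.lift R f) _
    (FreeAlgebra.ι R i)).trans (by simp)

@[ext] theorem hom_ext {B : Type v} [Ring B] [Algebra R B] {f g : Hk R z →ₐ[R] B}
    (h : ∀ i, f (T i) = g (T i)) : f = g := by
  apply RingQuot.ringQuot_ext'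
  apply FreeAlgebra.hom_ext
  funext i
  exact h i

/-- Induction on the elements of the Hecke algebra. -/
theorem Hk_induction {P : Hk R z → Prop} (h0 : ∀ r : R, P (algebraMap R _ r))
    (h1 : ∀ i, P (T i)) (ha : ∀ x y, P x → P y → P (x + y)) (hm : ∀ x y, P x → P y → P (x * y))
    (x : Hk R z) : P x := by
  obtain ⟨y, rfl⟩ := RingQuot.mkAlgHom_surjective R (Rel R z) x
  induction y using FreeAlgebra.induction with
  | grade0 r => rw [AlgHom.commutes]; exact h0 r
  | grade1 i => exact h1 i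
  | mul a b ha' hb' => rw [map_mul]; exact hm _ _ ha' hb'
  | add a b ha' hb' => rw [map_add]; exact ha _ _ ha' hb'

theorem T_mul_Ti (i : ℕ) : (T i : Hk R z) * Ti i = 1 := by
  unfold Ti
  rw [mul_sub, T_sq, ← Algebra.commutes, ← Algebra.smul_def, add_sub_cancel_left]

theorem Ti_mul_T (i : ℕ) : (Ti i : Hk R z) * T i = 1 := by
  unfold Ti
  rw [sub_mul, T_sq, ← Algebra.smul_def, add_sub_cancel_left]

theorem T_sub_Ti (i : ℕ) : (T i : Hk R z) - Ti i = algebraMap R _ z := by
  unfold Ti; abel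

/-- The shift by `k` strands. -/
def sh (k : ℕ) : Hk R z →ₐ[R] Hk R z :=
  lift (fun i => T (i + k)) (fun i => T_sq _)
    (fun i j h => T_comm (by omega)) (fun i => by
      have := T_braid (R := R) (z := z) (i + k)
      rw [show i + 1 + k = i + k + 1 by omega]; exact this)

@[simp] theorem sh_T (k i : ℕ) : sh k (T i : Hk R z) = T (i + k) := lift_T _ _ _ _ _

@[simp] theorem sh_Ti (k i : ℕ) : sh k (Ti i : Hk R z) = Ti (i + k) := by
  unfold Ti; rw [map_sub, sh_T, AlgHom.commutes]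

theorem sh_sh (k l : ℕ) (x : Hk R z) : sh k (sh l x) = sh (l + k) x := by
  have : (sh k).comp (sh l) = (sh (l + k) : Hk R z →ₐ[R] Hk R z) := by
    ext i
    simp [add_assoc]
  exact DFunLike.congr_fun this x

@[simp] theorem sh_zero (x : Hk R z) : sh 0 x = x := by
  have : (sh 0 : Hk R z →ₐ[R] Hk R z) = AlgHom.id R _ := by
    ext i
    simp
  exact DFunLike.congr_fun this x

/-- The reversal, as an algebra homomorphism to the opposite algebra. -/
def revHom : Hk R z →ₐ[R] (Hk R z)ᵐᵒᵖ :=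
  lift (fun i => MulOpposite.op (T i))
    (fun i => by rw [← MulOpposite.op_mul, T_sq]; rfl)
    (fun i j h => by rw [← MulOpposite.op_mul, ← MulOpposite.op_mul, T_comm h])
    (fun i => by
      simp only [← MulOpposite.op_mul]
      rw [← mul_assoc, T_braid, mul_assoc])

/-- The reversal: the linear anti-automorphism fixing all generators. -/
def rev : Hk R z →ₗ[R] Hk R z :=
  (MulOpposite.opLinearEquiv R).symm.toLinearMap ∘ₗ (revHom (R := R) (z := z)).toLinearMap

theorem rev_def (x : Hk R z) : rev x = MulOpposite.unop (revHom x) := rfl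

@[simp] theorem rev_T (i : ℕ) : rev (T i : Hk R z) = T i := by
  rw [rev_def, revHom, lift_T]; rfl

@[simp] theorem rev_one : rev (1 : Hk R z) = 1 := by
  rw [rev_def, map_one]; rfl

theorem rev_mul (x y : Hk R z) : rev (x * y) = rev y * rev x := by
  rw [rev_def, map_mul, MulOpposite.unop_mul]; rfl

@[simp] theorem rev_algebraMap (r : R) : rev (algebraMap R (Hk R z) r) = algebraMap R _ r := by
  rw [rev_def, AlgHom.commutes]; rfl

@[simp] theorem rev_Ti (i : ℕ) : rev (Ti i : Hk R z) = Ti i := by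
  unfold Ti; rw [map_sub, rev_T, rev_algebraMap]

theorem rev_rev (x : Hk R z) : rev (rev x) = x := by
  refine Hk_induction (P := fun x => rev (rev x) = x) ?_ ?_ ?_ ?_ x
  · intro r; simp
  · intro i; simp
  · intro x y hx hy; simp only [map_add, hx, hy]
  · intro x y hx hy; simp only [rev_mul, hx, hy]

section HH

variable (R z)

/-- The Hecke algebra on the first `n` strands. -/
def HH (n : ℕ) : Subalgebra R (Hk R z) := Algebra.adjoin R {x | ∃ i, i + 1 < n ∧ x = T i}

end HH

theorem T_mem {i n : ℕ} (h : i + 1 < n) : (T i : Hk R z) ∈ HH R z n :=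
  Algebra.subset_adjoin ⟨i, h, rfl⟩

theorem Ti_mem {i n : ℕ} (h : i + 1 < n) : (Ti i : Hk R z) ∈ HH R z n :=
  sub_mem (T_mem h) (algebraMap_mem _ _)

theorem HH_mono {m n : ℕ} (h : m ≤ n) : HH R z m ≤ HH R z n :=
  Algebra.adjoin_mono (by rintro x ⟨i, hi, rfl⟩; exact ⟨i, by omega, rfl⟩)

theorem HH_induction {n : ℕ} {P : Hk R z → Prop} (h0 : ∀ r : R, P (algebraMap R _ r))
    (h1 : ∀ i, i + 1 < n → P (T i)) (ha : ∀ x y, P x → P y → P (x + y))
    (hm : ∀ x y, P x → P y → P (x * y)) {x : Hk R z} (hx : x ∈ HH R z n) : P x := by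
  refine Algebra.adjoin_induction (p := fun x _ => P x) ?_ h0 (fun x y _ _ => ha x y)
    (fun x y _ _ => hm x y) hx
  rintro x ⟨i, hi, rfl⟩
  exact h1 i hi

/-- Induction by multiplication by generators on the left. -/
theorem HH_induction_left {n : ℕ} {P : Hk R z → Prop} (h1 : P 1)
    (hs : ∀ (r : R) x, P x → P (r • x)) (ha : ∀ x y, P x → P y → P (x + y))
    (hm : ∀ i, i + 1 < n → ∀ x ∈ HH R z n, P x → P (T i * x)) {x : Hk R z}
    (hx : x ∈ HH R z n) : P x := by
  have key : ∀ y ∈ HH R z n, (y ∈ HH R z n) ∧ ∀ x ∈ HH R z n, P x → P (y * x) := by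
    intro y hy
    refine Algebra.adjoin_induction
      (p := fun y _ => (y ∈ HH R z n) ∧ ∀ x ∈ HH R z n, P x → P (y * x)) ?_ ?_ ?_ ?_ hy
    · rintro y ⟨i, hi, rfl⟩
      exact ⟨T_mem hi, hm i hi⟩
    · intro r
      refine ⟨algebraMap_mem _ _, fun x _ hPx => ?_⟩
      rw [← Algebra.smul_def]
      exact hs r x hPx
    · rintro x y _ _ ⟨hx, h1⟩ ⟨hy, h2⟩
      refine ⟨add_mem hx hy, fun w hw hPw => ?_⟩
      rw [add_mul]; exact ha _ _ (h1 w hw hPw) (h2 w hw hPw)
    · rintro x y _ _ ⟨hx, h1⟩ ⟨hy, h2⟩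
      refine ⟨mul_mem hx hy, fun w hw hPw => ?_⟩
      rw [mul_assoc]; exact h1 _ (mul_mem hy hw) (h2 w hw hPw)
  have := (key x hx).2 1 (one_mem _) h1
  simpa using this

/-- Induction by multiplication by generators on the right. -/
theorem HH_induction_right {n : ℕ} {P : Hk R z → Prop} (h1 : P 1)
    (hs : ∀ (r : R) x, P x → P (r • x)) (ha : ∀ x y, P x → P y → P (x + y))
    (hm : ∀ i, i + 1 < n → ∀ x ∈ HH R z n, P x → P (x * T i)) {x : Hk R z}
    (hx : x ∈ HH R z n) : P x := by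
  have key : ∀ y ∈ HH R z n, (y ∈ HH R z n) ∧ ∀ x ∈ HH R z n, P x → P (x * y) := by
    intro y hy
    refine Algebra.adjoin_induction
      (p := fun y _ => (y ∈ HH R z n) ∧ ∀ x ∈ HH R z n, P x → P (x * y)) ?_ ?_ ?_ ?_ hy
    · rintro y ⟨i, hi, rfl⟩
      exact ⟨T_mem hi, hm i hi⟩
    · intro r
      refine ⟨algebraMap_mem _ _, fun x _ hPx => ?_⟩
      rw [← Algebra.commutes, ← Algebra.smul_def]
      exact hs r x hPx
    · rintro x y _ _ ⟨hx, h1⟩ ⟨hy, h2⟩
      refine ⟨add_mem hx hy, fun w hw hPw => ?_⟩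
      rw [mul_add]; exact ha _ _ (h1 w hw hPw) (h2 w hw hPw)
    · rintro x y _ _ ⟨hx, h1⟩ ⟨hy, h2⟩
      refine ⟨mul_mem hx hy, fun w hw hPw => ?_⟩
      rw [← mul_assoc]; exact h2 _ (mul_mem hw hx) (h1 w hw hPw)
  have := (key x hx).2 1 (one_mem _) h1
  simpa using this

theorem sh_mem {n k : ℕ} {x : Hk R z} (hx : x ∈ HH R z n) : sh k x ∈ HH R z (n + k) := by
  refine HH_induction (P := fun x => sh k x ∈ HH R z (n + k)) ?_ ?_ ?_ ?_ hx
  · intro r; rw [AlgHom.commutes]; exact algebraMap_mem _ _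
  · intro i hi; rw [sh_T]; exact T_mem (by omega)
  · intro x y hx hy; rw [map_add]; exact add_mem hx hy
  · intro x y hx hy; rw [map_mul]; exact mul_mem hx hy

theorem rev_mem {n : ℕ} {x : Hk R z} (hx : x ∈ HH R z n) : rev x ∈ HH R z n := by
  refine HH_induction (P := fun x => rev x ∈ HH R z n) ?_ ?_ ?_ ?_ hx
  · intro r; rw [rev_algebraMap]; exact algebraMap_mem _ _
  · intro i hi; rw [rev_T]; exact T_mem (by omega)
  · intro x y hx hy; rw [map_add]; exact add_mem hx hy
  · intro x y hx hy; rw [rev_mul]; exact mul_mem hy hx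

/-- Elements on the first `m` strands commute with elements shifted by at least `m`. -/
theorem comm_sh {m k : ℕ} (h : m ≤ k) {x : Hk R z} (hx : x ∈ HH R z m) (y : Hk R z) :
    x * sh k y = sh k y * x := by
  refine HH_induction (P := fun x => x * sh k y = sh k y * x) ?_ ?_ ?_ ?_ hx
  · intro r; exact Algebra.commutes _ _
  · intro i hi
    refine Hk_induction (P := fun y => T i * sh k y = sh k y * T i) ?_ ?_ ?_ ?_ y
    · intro r; rw [AlgHom.commutes]; exact (Algebra.commutes _ _).symm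
    · intro j; rw [sh_T]; exact T_comm (by omega)
    · intro x y hx hy; rw [map_add, mul_add, add_mul, hx, hy]
    · intro x y hx hy; rw [map_mul, ← mul_assoc, hx, mul_assoc, hy, mul_assoc]
  · intro x w hx hw; rw [add_mul, mul_add, hx, hw]
  · intro x w hx hw; rw [mul_assoc, hw, ← mul_assoc, hx, mul_assoc]

theorem comm_T {m j : ℕ} (h : m ≤ j) {x : Hk R z} (hx : x ∈ HH R z m) :
    x * T j = T j * x := by
  have := comm_sh h hx (T 0)
  rwa [sh_T, zero_add] at this

theorem comm_Ti {m j : ℕ} (h : m ≤ j) {x : Hk R z} (hx : x ∈ HH R z m) :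
    x * Ti j = Ti j * x := by
  have := comm_sh h hx (Ti 0)
  rwa [sh_Ti, zero_add] at this

theorem HH_zero : HH R z 0 = ⊥ := by
  have : {x : Hk R z | ∃ i, i + 1 < 0 ∧ x = T i} = ∅ := by
    ext x; simp
  rw [HH, this, Algebra.adjoin_empty]

theorem HH_one : HH R z 1 = ⊥ := by
  have : {x : Hk R z | ∃ i, i + 1 < 1 ∧ x = T i} = ∅ := by
    ext x; simp
  rw [HH, this, Algebra.adjoin_empty]

theorem mem_HH_one {x : Hk R z} : x ∈ HH R z 1 ↔ ∃ r : R, x = algebraMap R _ r := by
  rw [HH_one, Algebra.mem_bot]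
  constructor
  · rintro ⟨r, rfl⟩; exact ⟨r, rfl⟩
  · rintro ⟨r, rfl⟩; exact ⟨r, rfl⟩

theorem exists_HH (x : Hk R z) : ∃ n, x ∈ HH R z n := by
  refine Hk_induction (P := fun x => ∃ n, x ∈ HH R z n) ?_ ?_ ?_ ?_ x
  · intro r; exact ⟨0, algebraMap_mem _ _⟩
  · intro i; exact ⟨i + 2, T_mem (by omega)⟩
  · rintro x y ⟨m, hx⟩ ⟨n, hy⟩
    exact ⟨max m n, add_mem (HH_mono (le_max_left _ _) hx) (HH_mono (le_max_right _ _) hy)⟩
  · rintro x y ⟨m, hx⟩ ⟨n, hy⟩
    exact ⟨max m n, mul_mem (HH_mono (le_max_left _ _) hx) (HH_mono (le_max_right _ _) hy)⟩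

/-- Sums of elements of `H_{n+1}` and of `H_{n+1} T_n H_{n+1}`. -/
def Cl (R : Type u) [CommRing R] (z : R) (n : ℕ) : AddSubmonoid (Hk R z) :=
  AddSubmonoid.closure ((HH R z (n + 1) : Set (Hk R z)) ∪
    {x | ∃ a ∈ HH R z (n + 1), ∃ b ∈ HH R z (n + 1), x = a * T n * b})

theorem Cl_of_mem {n : ℕ} {x : Hk R z} (hx : x ∈ HH R z (n + 1)) : x ∈ Cl R z n :=
  AddSubmonoid.subset_closure (Or.inl hx)

theorem Cl_of_mul {n : ℕ} {a b : Hk R z} (ha : a ∈ HH R z (n + 1)) (hb : b ∈ HH R z (n + 1)) :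
    a * T n * b ∈ Cl R z n :=
  AddSubmonoid.subset_closure (Or.inr ⟨a, ha, b, hb, rfl⟩)

theorem Cl_mul {n : ℕ} {a x b : Hk R z} (ha : a ∈ HH R z (n + 1)) (hx : x ∈ Cl R z n)
    (hb : b ∈ HH R z (n + 1)) : a * x * b ∈ Cl R z n := by
  refine AddSubmonoid.closure_induction (motive := fun x _ => a * x * b ∈ Cl R z n) ?_ ?_ ?_ hx
  · rintro x (h | ⟨c, hc, d, hd, rfl⟩)
    · exact Cl_of_mem (mul_mem (mul_mem ha h) hb)
    · have : a * (c * T n * d) * b = (a * c) * T n * (d * b) := by simp only [mul_assoc]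
      rw [this]; exact Cl_of_mul (mul_mem ha hc) (mul_mem hd hb)
  · simp
  · intro x y _ _ hx hy
    rw [mul_add, add_mul]; exact add_mem hx hy

theorem Cl_T_mul_T (n : ℕ) : ∀ a ∈ HH R z (n + 1), (T n : Hk R z) * a * T n ∈ Cl R z n := by
  have hT : (T n : Hk R z) ∈ Cl R z n := by
    have := Cl_of_mul (n := n) (one_mem (HH R z (n + 1))) (one_mem (HH R z (n + 1)))
    simpa using this
  have hq : ∀ a ∈ HH R z (n + 1), a * (T n * T n) ∈ Cl R z n := by
    intro a ha
    rw [T_sq, mul_add, mul_one, mul_smul_comm]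
    refine add_mem ?_ (Cl_of_mem ha)
    have := Cl_of_mul (n := n) (Subalgebra.smul_mem _ ha z) (one_mem (HH R z (n + 1)))
    simpa using this
  cases n with
  | zero =>
    intro a ha
    obtain ⟨r, rfl⟩ := mem_HH_one.1 ha
    rw [← Algebra.commutes, mul_assoc]
    exact hq _ ha
  | succ m =>
    have key : ∀ a ∈ Cl R z m, (T (m + 1) : Hk R z) * a * T (m + 1) ∈ Cl R z (m + 1) := by
      intro a ha
      refine AddSubmonoid.closure_induction
        (motive := fun a _ => (T (m + 1) : Hk R z) * a * T (m + 1) ∈ Cl R z (m + 1)) ?_ ?_ ?_ ha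
      · rintro x (h | ⟨c, hc, d, hd, rfl⟩)
        · have h' : x ∈ HH R z (m + 1) := h
          rw [← comm_T le_rfl h', mul_assoc]
          exact hq _ (HH_mono (by omega) h')
        · have e : (T (m + 1) : Hk R z) * (c * T m * d) * T (m + 1) =
              c * (T m * T (m + 1) * T m) * d := by
            calc (T (m + 1) : Hk R z) * (c * T m * d) * T (m + 1)
                = (T (m + 1) * c) * T m * (d * T (m + 1)) := by simp only [mul_assoc]
              _ = (c * T (m + 1)) * T m * (T (m + 1) * d) := by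
                  rw [comm_T le_rfl hc, comm_T le_rfl hd]
              _ = c * (T (m + 1) * T m * T (m + 1)) * d := by simp only [mul_assoc]
              _ = _ := by rw [T_braid]
          rw [e]
          refine Cl_mul (HH_mono (by omega) hc) ?_ (HH_mono (by omega) hd)
          exact Cl_of_mul (T_mem (by omega)) (T_mem (by omega))
      · simp
      · intro x y _ _ hx hy
        rw [mul_add, add_mul]; exact add_mem hx hy
    have key2 : ∀ a ∈ HH R z (m + 2), a ∈ Cl R z m := by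
      intro a ha
      have ih := Cl_T_mul_T m
      refine HH_induction_left (P := fun a => a ∈ Cl R z m) (Cl_of_mem (one_mem _)) ?_
        (fun x y hx hy => add_mem hx hy) ?_ ha
      · intro r x hx
        have := Cl_mul (n := m) (algebraMap_mem (HH R z (m + 1)) r) hx (one_mem _)
        rwa [mul_one, ← Algebra.smul_def] at this
      · intro i hi x _ hx
        rcases Nat.lt_or_ge i m with h | h
        · have := Cl_mul (n := m) (T_mem (R := R) (z := z) (show i + 1 < m + 1 by omega)) hx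
            (one_mem _)
          rwa [mul_one] at this
        · have hi' : i = m := by omega
          subst hi'
          refine AddSubmonoid.closure_induction (motive := fun x _ => T i * x ∈ Cl R z i) ?_ ?_ ?_ hx
          · rintro x (h | ⟨c, hc, d, hd, rfl⟩)
            · have := Cl_of_mul (n := i) (one_mem (HH R z (i + 1))) h
              simpa using this
            · have := Cl_mul (n := i) (one_mem _) (ih c hc) hd
              rw [one_mul] at this
              simpa only [mul_assoc] using this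
          · simp
          · intro x y _ _ hx hy
            rw [mul_add]; exact add_mem hx hy
    intro a ha
    exact key a (key2 a ha)

theorem mem_Cl {n : ℕ} {a : Hk R z} (ha : a ∈ HH R z (n + 2)) : a ∈ Cl R z n := by
  refine HH_induction_left (P := fun a => a ∈ Cl R z n) (Cl_of_mem (one_mem _)) ?_
    (fun x y hx hy => add_mem hx hy) ?_ ha
  · intro r x hx
    have := Cl_mul (n := n) (algebraMap_mem (HH R z (n + 1)) r) hx (one_mem _)
    rwa [mul_one, ← Algebra.smul_def] at this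
  · intro i hi x _ hx
    rcases Nat.lt_or_ge i n with h | h
    · have := Cl_mul (n := n) (T_mem (R := R) (z := z) (show i + 1 < n + 1 by omega)) hx
        (one_mem _)
      rwa [mul_one] at this
    · have hi' : i = n := by omega
      subst hi'
      refine AddSubmonoid.closure_induction (motive := fun x _ => T i * x ∈ Cl R z i) ?_ ?_ ?_ hx
      · rintro x (h | ⟨c, hc, d, hd, rfl⟩)
        · have := Cl_of_mul (n := i) (one_mem (HH R z (i + 1))) h
          simpa using this
        · have := Cl_mul (n := i) (one_mem _) (Cl_T_mul_T i c hc) hd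
          rw [one_mul] at this
          simpa only [mul_assoc] using this
      · simp
      · intro x y _ _ hx hy
        rw [mul_add]; exact add_mem hx hy

/-- The basic decomposition `H_{n+2} = H_{n+1} + H_{n+1} T_n H_{n+1}`. -/
theorem HH_succ_induction {n : ℕ} {P : Hk R z → Prop} (h0 : ∀ x ∈ HH R z (n + 1), P x)
    (ha : ∀ x y, P x → P y → P (x + y))
    (hm : ∀ x ∈ HH R z (n + 1), ∀ y ∈ HH R z (n + 1), P (x * T n * y)) {x : Hk R z}
    (hx : x ∈ HH R z (n + 2)) : P x := by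
  refine AddSubmonoid.closure_induction (motive := fun x _ => P x) ?_ (h0 0 (zero_mem _))
    (fun x y _ _ => ha x y) (mem_Cl hx)
  rintro x (h | ⟨c, hc, d, hd, rfl⟩)
  · exact h0 x h
  · exact hm c hc d hd

/-- `D i k = T_i T_{i+1} ⋯ T_{i+k-1}`. -/
def D (i : ℕ) : ℕ → Hk R z
  | 0 => 1
  | k + 1 => D i k * T (i + k)

/-- `E i k = T_{i+k-1} ⋯ T_{i+1} T_i`. -/
def E (i : ℕ) : ℕ → Hk R z
  | 0 => 1
  | k + 1 => T (i + k) * E i k

/-- `Dm i k = T_i⁻¹ T_{i+1}⁻¹ ⋯ T_{i+k-1}⁻¹`. -/
def Dm (i : ℕ) : ℕ → Hk R z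
  | 0 => 1
  | k + 1 => Dm i k * Ti (i + k)

/-- `Em i k = T_{i+k-1}⁻¹ ⋯ T_{i+1}⁻¹ T_i⁻¹`. -/
def Em (i : ℕ) : ℕ → Hk R z
  | 0 => 1
  | k + 1 => Ti (i + k) * Em i k

/-- `AA k = ∑_{j < k} T_0 ⋯ T_{j-1} T_j⁻¹ ⋯ T_{k-2}⁻¹` (an element on `k` strands). -/
def AA : ℕ → Hk R z
  | 0 => 0
  | 1 => 1
  | k + 2 => AA (k + 1) * Ti k + D 0 (k + 1)

section cas

variable (R z)

/-- The Casimir element `∑_{w ∈ S_n} T_w ⊗ T_{w⁻¹}`. -/
noncomputable def Cas : ℕ → Hk R z ⊗[R] Hk R z
  | 0 => 1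
  | n + 1 => ∑ i ∈ Finset.range (n + 1),
      (D i (n - i) ⊗ₜ[R] 1) * Cas n * (1 ⊗ₜ[R] E i (n - i))

end cas

/-- The linear map `a ⊗ b ↦ f a * y * g b`. -/
noncomputable def sand {B : Type v} [Ring B] [Algebra R B] (f g : Hk R z →ₐ[R] B) (y : B) :
    Hk R z ⊗[R] Hk R z →ₗ[R] B :=
  TensorProduct.lift (((LinearMap.mul R B).compl₂ g.toLinearMap).comp
    ((LinearMap.mulRight R y).comp f.toLinearMap))

@[simp] theorem sand_tmul {B : Type v} [Ring B] [Algebra R B] (f g : Hk R z →ₐ[R] B) (y : B)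
    (a b : Hk R z) : sand f g y (a ⊗ₜ[R] b) = f a * y * g b := rfl

/-- The norm `∑_{w ∈ S_n} f (T_w) * y * g (T_{w⁻¹})`. -/
noncomputable def Nm {B : Type v} [Ring B] [Algebra R B] (n : ℕ) (f g : Hk R z →ₐ[R] B) (y : B) :
    B := sand f g y (Cas R z n)

/-- The norm `∑_{w ∈ S_n} T_w * x * T_{w⁻¹}`. -/
noncomputable def N (n : ℕ) (x : Hk R z) : Hk R z :=
  Nm n (AlgHom.id R _) (AlgHom.id R _) x

/-- The relative restriction `∑_{i ≤ n} T_{n-1} ⋯ T_i * x * T_i ⋯ T_{n-1}`. -/
noncomputable def rho (n : ℕ) (x : Hk R z) : Hk R z :=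
  ∑ i ∈ Finset.range (n + 1), E i (n - i) * x * D i (n - i)

end Pool.Agent.Lib.Hecke59
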