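import Pool.Agent.Lib.Hecke59.Defs

/-! Block crossings in the Hecke algebra. -/

namespace Pool.Agent.Lib.Hecke59

open scoped TensorProduct

universe u v

variable {R : Type u} [CommRing R] {z : R}

theorem Xp_succ (m n : ℕ) : (Xp m (n + 1) : Hk R z) = D n m * Xp m n := rfl
theorem Xm_succ (m n : ℕ) : (Xm m (n + 1) : Hk R z) = Dm n m * Xm m n := rfl
@[simp] theorem Xp_zero (m : ℕ) : (Xp m 0 : Hk R z) = 1 := rfl
@[simp] theorem Xm_zero (m : ℕ) : (Xm m 0 : Hk R z) = 1 := rfl

theorem Xp_mem (m n : ℕ) : (Xp m n : Hk R z) ∈ HH R z (m + n) := by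
  induction n with
  | zero => exact one_mem _
  | succ n ih =>
    exact mul_mem (D_mem (by omega)) (HH_mono (by omega) ih)

theorem Xm_mem (m n : ℕ) : (Xm m n : Hk R z) ∈ HH R z (m + n) := by
  induction n with
  | zero => exact one_mem _
  | succ n ih =>
    exact mul_mem (Dm_mem (by omega)) (HH_mono (by omega) ih)

/-! ### The mirror image -/

theorem Ti_sq (i : ℕ) : (Ti i : Hk R z) * Ti i = (-z) • Ti i + 1 := by
  have h : (Ti i : Hk R z) * T i = 1 := Ti_mul_T i
  have h2 : (T i : Hk R z) = Ti i + algebraMap R _ z := by unfold Ti; abel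
  rw [h2, mul_add, ← Algebra.commutes, ← Algebra.smul_def] at h
  rw [← h, neg_smul]; abel

theorem Ti_comm {i j : ℕ} (h : i + 2 ≤ j) : (Ti i : Hk R z) * Ti j = Ti j * Ti i :=
  comm_Ti (m := i + 2) h (Ti_mem (by omega))

theorem Ti_braid (i : ℕ) :
    (Ti i : Hk R z) * Ti (i + 1) * Ti i = Ti (i + 1) * Ti i * Ti (i + 1) := by
  have h1 : (Ti i : Hk R z) * Ti (i + 1) * Ti i * (T i * T (i + 1) * T i) = 1 := by
    calc (Ti i : Hk R z) * Ti (i + 1) * Ti i * (T i * T (i + 1) * T i)
        = Ti i * (Ti (i + 1) * (Ti i * T i) * T (i + 1)) * T i := by simp only [mul_assoc]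
      _ = 1 := by rw [Ti_mul_T, mul_one, Ti_mul_T, mul_one, Ti_mul_T]
  have h2 : (T (i + 1) : Hk R z) * T i * T (i + 1) * (Ti (i + 1) * Ti i * Ti (i + 1)) = 1 := by
    calc (T (i + 1) : Hk R z) * T i * T (i + 1) * (Ti (i + 1) * Ti i * Ti (i + 1))
        = T (i + 1) * (T i * (T (i + 1) * Ti (i + 1)) * Ti i) * Ti (i + 1) := by
          simp only [mul_assoc]
      _ = 1 := by rw [T_mul_Ti, mul_one, T_mul_Ti, mul_one, T_mul_Ti]
  rw [T_braid] at h1
  exact left_inv_eq_right_inv h1 h2

/-- The mirror image `T_i ↦ T_i⁻¹`. -/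
def mir {z w : R} (h : w = -z) : Hk R z →ₐ[R] Hk R w :=
  lift (fun i => Ti i) (fun i => by rw [Ti_sq, h, neg_neg]) (fun i j h => Ti_comm h) Ti_braid

section mir

variable {w : R} (h : w = -z)

@[simp] theorem mir_T (i : ℕ) : mir h (T i : Hk R z) = Ti i := lift_T _ _ _ _ _

@[simp] theorem mir_Ti (i : ℕ) : mir h (Ti i : Hk R z) = T i := by
  have h1 : (Ti i : Hk R z) = T i - algebraMap R _ z := rfl
  have h2 : (Ti i : Hk R w) = T i - algebraMap R _ w := rfl
  rw [h1, map_sub, mir_T, AlgHom.commutes, h2, h, map_neg]; abel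

@[simp] theorem mir_D (i k : ℕ) : mir h (D i k : Hk R z) = Dm i k := by
  induction k with
  | zero => simp
  | succ k ih => rw [D_succ, map_mul, ih, mir_T, Dm_succ]

@[simp] theorem mir_Dm (i k : ℕ) : mir h (Dm i k : Hk R z) = D i k := by
  induction k with
  | zero => simp
  | succ k ih => rw [Dm_succ, map_mul, ih, mir_Ti, D_succ]

@[simp] theorem mir_Xp (m n : ℕ) : mir h (Xp m n : Hk R z) = Xm m n := by
  induction n with
  | zero => simp
  | succ k ih => rw [Xp_succ, map_mul, ih, mir_D, Xm_succ]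

@[simp] theorem mir_Xm (m n : ℕ) : mir h (Xm m n : Hk R z) = Xp m n := by
  induction n with
  | zero => simp
  | succ k ih => rw [Xm_succ, map_mul, ih, mir_Dm, Xp_succ]

theorem mir_sh (k : ℕ) (x : Hk R z) : mir h (sh k x) = sh k (mir h x) := by
  refine Hk_induction (P := fun x => mir h (sh k x) = sh k (mir h x)) ?_ ?_ ?_ ?_ x
  · intro r; simp only [AlgHom.commutes]
  · intro i; simp
  · intro x y hx hy; simp only [map_add, hx, hy]
  · intro x y hx hy; simp only [map_mul, hx, hy]

theorem mir_mem {n : ℕ} {x : Hk R z} (hx : x ∈ HH R z n) : mir h x ∈ HH R w n := by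
  refine HH_induction (P := fun x => mir h x ∈ HH R w n) ?_ ?_ ?_ ?_ hx
  · intro r; rw [AlgHom.commutes]; exact algebraMap_mem _ _
  · intro i hi; rw [mir_T]; exact Ti_mem hi
  · intro x y hx hy; rw [map_add]; exact add_mem hx hy
  · intro x y hx hy; rw [map_mul]; exact mul_mem hx hy

theorem mir_mir (h' : z = -w) (x : Hk R z) : mir h' (mir h x) = x := by
  refine Hk_induction (P := fun x => mir h' (mir h x) = x) ?_ ?_ ?_ ?_ x
  · intro r; simp only [AlgHom.commutes]
  · intro i; simp
  · intro x y hx hy; simp only [map_add, hx, hy]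
  · intro x y hx hy; simp only [map_mul, hx, hy]

end mir

theorem D_mul {m : ℕ} {a : Hk R z} (ha : a ∈ HH R z m) : D 0 m * a = sh 1 a * D 0 m := by
  refine HH_induction (P := fun a => D 0 m * a = sh 1 a * D 0 m) ?_ ?_ ?_ ?_ ha
  · intro r; rw [AlgHom.commutes]; exact (Algebra.commutes _ _).symm
  · intro i hi; rw [sh_T]; exact (T_mul_D (Nat.zero_le i) (by omega)).symm
  · intro x y hx hy; rw [map_add, mul_add, add_mul, hx, hy]
  · intro x y hx hy; rw [map_mul, ← mul_assoc, hx, mul_assoc, hy, mul_assoc]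

theorem Dm_mul {m : ℕ} {a : Hk R z} (ha : a ∈ HH R z m) : Dm 0 m * a = sh 1 a * Dm 0 m := by
  have h : z = -(-z) := (neg_neg z).symm
  have := congrArg (mir h) (D_mul (mir_mem (w := -z) rfl ha))
  simpa only [map_mul, mir_D, mir_sh, mir_mir] using this

theorem Xp_succ' (m n : ℕ) : (Xp m (n + 1) : Hk R z) = sh 1 (Xp m n) * D 0 m := by
  induction n with
  | zero => simp [Xp_succ]
  | succ n ih =>
    rw [Xp_succ m (n + 1)]
    nth_rewrite 1 [ih]
    rw [Xp_succ m n, map_mul, sh_D, mul_assoc]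

theorem Xm_succ' (m n : ℕ) : (Xm m (n + 1) : Hk R z) = sh 1 (Xm m n) * Dm 0 m := by
  induction n with
  | zero => simp [Xm_succ]
  | succ n ih =>
    rw [Xm_succ m (n + 1)]
    nth_rewrite 1 [ih]
    rw [Xm_succ m n, map_mul, sh_Dm, mul_assoc]

theorem D_eq_sh (n m : ℕ) : (D n m : Hk R z) = sh n (D 0 m) := by
  rw [sh_D, Nat.zero_add]

theorem Xp_mul {m n : ℕ} {a : Hk R z} (ha : a ∈ HH R z m) : Xp m n * a = sh n a * Xp m n := by
  induction n with
  | zero => simp
  | succ n ih =>
    rw [Xp_succ, mul_assoc, ih, ← mul_assoc, D_eq_sh, ← map_mul, D_mul ha, map_mul, sh_sh,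
      mul_assoc, show 1 + n = n + 1 by omega]

theorem Xm_mul {m n : ℕ} {a : Hk R z} (ha : a ∈ HH R z m) : Xm m n * a = sh n a * Xm m n := by
  have h : z = -(-z) := (neg_neg z).symm
  have := congrArg (mir h) (Xp_mul (n := n) (mir_mem (w := -z) rfl ha))
  simpa only [map_mul, mir_Xp, mir_sh, mir_mir] using this

/-- `D 1 m * D 0 m * T m = T 0 * D 1 m * D 0 m`. -/
theorem D_D_T (m : ℕ) : (D 1 m : Hk R z) * D 0 m * T m = T 0 * D 1 m * D 0 m := by
  induction m with
  | zero => simp
  | succ m ih =>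
    have h2 : (D 0 m : Hk R z) * T (m + 1) = T (m + 1) * D 0 m :=
      comm_T (m := m + 1) le_rfl (D_mem (by omega))
    rw [D_succ, D_succ, Nat.zero_add, show 1 + m = m + 1 by omega]
    calc (D 1 m : Hk R z) * T (m + 1) * (D 0 m * T m) * T (m + 1)
        = D 1 m * (T (m + 1) * D 0 m) * T m * T (m + 1) := by simp only [mul_assoc]
      _ = D 1 m * D 0 m * (T (m + 1) * T m * T (m + 1)) := by
          rw [← h2]; simp only [mul_assoc]
      _ = (D 1 m * D 0 m * T m) * T (m + 1) * T m := by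
          rw [← T_braid]; simp only [mul_assoc]
      _ = T 0 * D 1 m * (D 0 m * T (m + 1)) * T m := by rw [ih]; simp only [mul_assoc]
      _ = T 0 * (D 1 m * T (m + 1)) * (D 0 m * T m) := by rw [h2]; simp only [mul_assoc]

theorem Xp_mul_T {m n j : ℕ} (hj : j + 1 < n) :
    (Xp m n : Hk R z) * T (j + m) = T j * Xp m n := by
  induction n with
  | zero => omega
  | succ n ih =>
    rcases Nat.lt_or_ge (j + 1) n with h | h
    · rw [Xp_succ, mul_assoc, ih h, ← mul_assoc, D_eq_sh, ← comm_sh le_rfl (T_mem h), mul_assoc]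
    · have hn : n = j + 1 := by omega
      subst hn
      rw [Xp_succ, Xp_succ]
      have h1 : (Xp m j : Hk R z) * T (j + m) = T (j + m) * Xp m j :=
        comm_T (m := m + j) (by omega) (Xp_mem m j)
      have h2 := congrArg (sh j) (D_D_T (R := R) (z := z) m)
      simp only [map_mul, sh_D, sh_T, Nat.zero_add] at h2
      rw [show 1 + j = j + 1 by omega, show m + j = j + m by omega] at h2
      calc (D (j + 1) m : Hk R z) * (D j m * Xp m j) * T (j + m)
          = D (j + 1) m * D j m * (Xp m j * T (j + m)) := by simp only [mul_assoc]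
        _ = (D (j + 1) m * D j m * T (j + m)) * Xp m j := by
            rw [h1]; simp only [mul_assoc]
        _ = _ := by rw [h2]; simp only [mul_assoc]

theorem Xp_mul_sh {m n : ℕ} {b : Hk R z} (hb : b ∈ HH R z n) :
    Xp m n * sh m b = b * Xp m n := by
  refine HH_induction (P := fun b => Xp m n * sh m b = b * Xp m n) ?_ ?_ ?_ ?_ hb
  · intro r; rw [AlgHom.commutes]; exact (Algebra.commutes _ _).symm
  · intro i hi; rw [sh_T]; exact Xp_mul_T hi
  · intro x y hx hy; rw [map_add, mul_add, add_mul, hx, hy]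
  · intro x y hx hy; rw [map_mul, ← mul_assoc, hx, mul_assoc, hy, mul_assoc]

theorem Xm_mul_sh {m n : ℕ} {b : Hk R z} (hb : b ∈ HH R z n) :
    Xm m n * sh m b = b * Xm m n := by
  have h : z = -(-z) := (neg_neg z).symm
  have := congrArg (mir h) (Xp_mul_sh (m := m) (mir_mem (w := -z) rfl hb))
  simpa only [map_mul, mir_Xp, mir_sh, mir_mir] using this

theorem Xm_add_one (m n : ℕ) : (Xm (m + 1) n : Hk R z) = Xm m n * Em m n := by
  induction n with
  | zero => simp
  | succ n ih =>
    rw [Xm_succ, ih, Dm_succ, Xm_succ, Em_succ, show n + m = m + n by omega]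
    have h := comm_Ti (j := m + n) le_rfl (Xm_mem (R := R) (z := z) m n)
    calc (Dm n m : Hk R z) * Ti (m + n) * (Xm m n * Em m n)
        = Dm n m * (Ti (m + n) * Xm m n) * Em m n := by simp only [mul_assoc]
      _ = Dm n m * Xm m n * (Ti (m + n) * Em m n) := by
          rw [← h]; simp only [mul_assoc]

theorem Xm_zero_left (n : ℕ) : (Xm 0 n : Hk R z) = 1 := by
  induction n with
  | zero => rfl
  | succ n ih => rw [Xm_succ, ih, Dm_zero, mul_one]

theorem Xp_mul_Xm (m n : ℕ) : (Xp m n : Hk R z) * Xm n m = 1 := by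
  induction n with
  | zero => rw [Xp_zero, Xm_zero_left, mul_one]
  | succ n ih =>
    rw [Xp_succ, Xm_add_one]
    calc (D n m : Hk R z) * Xp m n * (Xm n m * Em n m)
        = D n m * (Xp m n * Xm n m) * Em n m := by simp only [mul_assoc]
      _ = 1 := by rw [ih, mul_one, D_mul_Em]

theorem Xm_mul_Xp (m n : ℕ) : (Xm m n : Hk R z) * Xp n m = 1 := by
  have h : z = -(-z) := (neg_neg z).symm
  have := congrArg (mir h) (Xp_mul_Xm (R := R) (z := -z) m n)
  simpa only [map_mul, mir_Xp, mir_Xm, map_one] using this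

theorem tr_swap {V : Type v} [AddCommGroup V] [Module R V] {n s a b : ℕ} (h : s + a + b ≤ n)
    (f : Hk R z →ₗ[R] V) (hf : IsTr n f) {w x y v : Hk R z} (hw : w ∈ HH R z s)
    (hx : x ∈ HH R z a) (hy : y ∈ HH R z b) (hv : sh (s + a + b) v ∈ HH R z n) :
    f (w * sh s x * sh (s + a) y * sh (s + a + b) v) =
      f (w * sh s y * sh (s + b) x * sh (s + a + b) v) := by
  set P : Hk R z := sh s (Xp a b) with hP
  set Q : Hk R z := sh s (Xm b a) with hQ
  set u : Hk R z := sh (s + a + b) v with hu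
  have hPm : P ∈ HH R z (s + a + b) := HH_mono (by omega) (sh_mem (Xp_mem a b))
  have hQm : Q ∈ HH R z (s + a + b) := HH_mono (by omega) (sh_mem (Xm_mem b a))
  have hPQ : P * Q = 1 := by rw [hP, hQ, ← map_mul, Xp_mul_Xm, map_one]
  have hQP : Q * P = 1 := by rw [hP, hQ, ← map_mul, Xm_mul_Xp, map_one]
  have e1 : P * sh s x = sh (s + b) x * P := by
    rw [hP, ← map_mul, Xp_mul hx, map_mul, sh_sh, show b + s = s + b by omega]
  have e2 : P * sh (s + a) y = sh s y * P := by
    rw [hP, show s + a = a + s by omega, ← sh_sh, ← map_mul, Xp_mul_sh hy, map_mul]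
  have e3 : P * u = u * P := comm_sh le_rfl hPm v
  have e4 : P * w = w * P := (comm_sh le_rfl hw _).symm
  have e5 : sh (s + b) x * sh s y = sh s y * sh (s + b) x := by
    rw [show s + b = b + s by omega, ← sh_sh, ← map_mul, ← comm_sh le_rfl hy, map_mul]
  have key : P * (w * sh s x * sh (s + a) y * u) = w * sh s y * sh (s + b) x * u * P := by
    calc P * (w * sh s x * sh (s + a) y * u)
        = (P * w) * sh s x * sh (s + a) y * u := by simp only [mul_assoc]
      _ = w * (P * sh s x) * sh (s + a) y * u := by rw [e4]; simp only [mul_assoc]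
      _ = w * sh (s + b) x * (P * sh (s + a) y) * u := by rw [e1]; simp only [mul_assoc]
      _ = w * (sh (s + b) x * sh s y) * (P * u) := by rw [e2]; simp only [mul_assoc]
      _ = _ := by rw [e3, e5]; simp only [mul_assoc]
  have hR : w * sh s y * sh (s + b) x * u ∈ HH R z n :=
    mul_mem (mul_mem (mul_mem (HH_mono (by omega) hw) (HH_mono (by omega) (sh_mem hy)))
      (HH_mono (by omega) (sh_mem hx))) hv
  calc f (w * sh s x * sh (s + a) y * u)
      = f (Q * (w * sh s y * sh (s + b) x * u * P)) := by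
        rw [← key, ← mul_assoc, hQP, one_mul]
    _ = f (w * sh s y * sh (s + b) x * u * P * Q) :=
        hf _ (HH_mono h hQm) _ (mul_mem hR (HH_mono h hPm))
    _ = _ := by rw [mul_assoc, hPQ, mul_one]

theorem AAl_perm {V : Type v} [AddCommGroup V] [Module R V] {n : ℕ} (f : Hk R z →ₗ[R] V)
    (hf : IsTr n f) {l l' : List ℕ} (h : l.Perm l') (hs : l.sum = n) :
    f (AAl l) = f (AAl l') := by
  induction h generalizing n f with
  | nil => rfl
  | @cons k l l' h ih =>
    rw [List.sum_cons] at hs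
    have hsum : l.sum = l'.sum := h.sum_eq
    have hg : IsTr l.sum (f ∘ₗ LinearMap.mulRight R (sh l.sum (AA k : Hk R z))) := by
      intro x hx y hy
      have hA : (sh l.sum (AA k : Hk R z)) ∈ HH R z n := HH_mono (by omega) (sh_mem (AA_mem k))
      have e : (sh l.sum (AA k : Hk R z)) * x = x * sh l.sum (AA k) := (comm_sh le_rfl hx _).symm
      simp only [LinearMap.comp_apply, LinearMap.mulRight_apply]
      calc f (x * y * sh l.sum (AA k)) = f (x * (y * sh l.sum (AA k))) := by rw [mul_assoc]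
        _ = f (y * sh l.sum (AA k) * x) :=
            hf _ (HH_mono (by omega) hx) _ (mul_mem (HH_mono (by omega) hy) hA)
        _ = f (y * x * sh l.sum (AA k)) := by rw [mul_assoc, e, mul_assoc]
    have := ih _ hg rfl
    simp only [LinearMap.comp_apply, LinearMap.mulRight_apply] at this
    show f (AAl l * sh l.sum (AA k)) = f (AAl l' * sh l'.sum (AA k))
    rw [this, hsum]
  | swap j k l =>
    simp only [List.sum_cons] at hs
    have := tr_swap (s := l.sum) (a := j) (b := k) (n := n) (by omega) f hf (AAl_mem l)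
      (AA_mem j) (AA_mem k) (v := 1) (by rw [map_one]; exact one_mem _)
    rw [map_one, mul_one, mul_one] at this
    show f (AAl l * sh l.sum (AA j) * sh (j :: l).sum (AA k)) =
      f (AAl l * sh l.sum (AA k) * sh (k :: l).sum (AA j))
    rw [List.sum_cons, List.sum_cons, show k + l.sum = l.sum + k by omega,
      show j + l.sum = l.sum + j by omega]
    exact this
  | trans h1 h2 ih1 ih2 =>
    rw [ih1 f hf hs, ih2 f hf (by rw [← h1.sum_eq, hs])]

end Pool.Agent.Lib.Hecke59
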