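import Pool.Agent.Lib.Hecke59.Defs

/-! The Casimir element of the Hecke algebra and the norms. -/

namespace Pool.Agent.Lib.Hecke59

open scoped TensorProduct

universe u v

variable {R : Type u} [CommRing R] {z : R}

theorem cas_mem (n : ℕ) : Cas R z n ∈
    Submodule.span R {w | ∃ a ∈ HH R z n, ∃ b ∈ HH R z n, w = a ⊗ₜ[R] b} := by
  induction n with
  | zero =>
    refine Submodule.subset_span ⟨1, one_mem _, 1, one_mem _, ?_⟩
    rfl
  | succ n ih =>
    rw [Cas]
    refine Submodule.sum_mem _ fun i hi => ?_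
    rw [Finset.mem_range] at hi
    have hD : (D i (n - i) : Hk R z) ∈ HH R z (n + 1) := D_mem (by omega)
    have hE : (E i (n - i) : Hk R z) ∈ HH R z (n + 1) := E_mem (by omega)
    refine Submodule.span_induction
      (p := fun w _ => (D i (n - i) ⊗ₜ[R] 1) * w * (1 ⊗ₜ[R] E i (n - i)) ∈
        Submodule.span R {w | ∃ a ∈ HH R z (n + 1), ∃ b ∈ HH R z (n + 1), w = a ⊗ₜ[R] b})
      ?_ ?_ ?_ ?_ ih
    · rintro w ⟨a, ha, b, hb, rfl⟩
      rw [Algebra.TensorProduct.tmul_mul_tmul, Algebra.TensorProduct.tmul_mul_tmul, one_mul,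
        mul_one]
      exact Submodule.subset_span ⟨_, mul_mem hD (HH_mono (Nat.le_succ n) ha), _,
        mul_mem (HH_mono (Nat.le_succ n) hb) hE, rfl⟩
    · rw [mul_zero, zero_mul]; exact zero_mem _
    · intro x y _ _ hx hy
      rw [mul_add, add_mul]; exact add_mem hx hy
    · intro r x _ hx
      rw [mul_smul_comm, smul_mul_assoc]; exact Submodule.smul_mem _ r hx

section

variable {B : Type v} [Ring B] [Algebra R B] (f g : Hk R z →ₐ[R] B)

theorem sand_bi (y : B) (a b : Hk R z) (t : Hk R z ⊗[R] Hk R z) :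
    sand f g y ((a ⊗ₜ[R] 1) * t * (1 ⊗ₜ[R] b)) = f a * sand f g y t * g b := by
  induction t using TensorProduct.induction_on with
  | zero => simp
  | tmul c d =>
    rw [Algebra.TensorProduct.tmul_mul_tmul, Algebra.TensorProduct.tmul_mul_tmul, one_mul, mul_one,
      sand_tmul, sand_tmul, map_mul, map_mul]
    simp only [mul_assoc]
  | add s t hs ht => rw [mul_add, add_mul, map_add, hs, ht, map_add, mul_add, add_mul]

theorem Nm_zero (y : B) : Nm 0 f g y = y := by
  rw [Nm, Cas]
  change sand f g y (1 ⊗ₜ[R] 1) = y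
  rw [sand_tmul, map_one, map_one, one_mul, mul_one]

theorem Nm_succ (n : ℕ) (y : B) : Nm (n + 1) f g y =
    ∑ i ∈ Finset.range (n + 1), f (D i (n - i)) * Nm n f g y * g (E i (n - i)) := by
  rw [Nm, Cas, map_sum]
  exact Finset.sum_congr rfl fun i _ => sand_bi f g y _ _ _

theorem Nm_one (y : B) : Nm 1 f g y = y := by
  rw [Nm_succ]
  simp [Nm_zero]

theorem Nm_add (n : ℕ) (y y' : B) : Nm n f g (y + y') = Nm n f g y + Nm n f g y' := by
  induction n with
  | zero => simp only [Nm_zero]
  | succ n ih =>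
    simp only [Nm_succ, ih, mul_add, add_mul, Finset.sum_add_distrib]

theorem Nm_smul (n : ℕ) (r : R) (y : B) : Nm n f g (r • y) = r • Nm n f g y := by
  induction n with
  | zero => simp only [Nm_zero]
  | succ n ih =>
    simp only [Nm_succ, ih, mul_smul_comm, smul_mul_assoc, Finset.smul_sum]

theorem Nm_sum {ι : Type*} (s : Finset ι) (n : ℕ) (y : ι → B) :
    Nm n f g (∑ i ∈ s, y i) = ∑ i ∈ s, Nm n f g (y i) := by
  have h0 : Nm n f g 0 = 0 := by
    have := Nm_smul f g n (0 : R) 0
    simpa using this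
  classical
  induction s using Finset.induction_on with
  | empty => simpa using h0
  | insert a s ha ih => rw [Finset.sum_insert ha, Finset.sum_insert ha, Nm_add, ih]

theorem Nm_left (n : ℕ) {x : Hk R z} (hx : x ∈ HH R z n) (y : B) :
    f x * Nm n f g y = Nm n f g y * g x := by
  induction n generalizing x with
  | zero =>
    rw [HH_zero, Algebra.mem_bot] at hx
    obtain ⟨r, rfl⟩ := hx
    rw [AlgHom.commutes, AlgHom.commutes, Algebra.commutes]
  | succ n ih =>
    refine HH_induction (P := fun x => f x * Nm (n + 1) f g y = Nm (n + 1) f g y * g x)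
      ?_ ?_ ?_ ?_ hx
    · intro r
      rw [AlgHom.commutes, AlgHom.commutes, Algebra.commutes]
    · intro j hj
      have hj' : j < n := by omega
      rw [Nm_succ, Finset.mul_sum, Finset.sum_mul]
      generalize hY : Nm n f g y = Y at ih
      -- the two special indices
      have hgen : ∀ i ∈ Finset.range (n + 1), i ≠ j → i ≠ j + 1 →
          f (T j) * (f (D i (n - i)) * Y * g (E i (n - i))) =
            f (D i (n - i)) * Y * g (E i (n - i)) * g (T j) := by
        intro i hi h1 h2
        rw [Finset.mem_range] at hi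
        have key : ∃ k, k + 1 < n ∧ (T j : Hk R z) * D i (n - i) = D i (n - i) * T k ∧
            (E i (n - i) : Hk R z) * T j = T k * E i (n - i) := by
          rcases Nat.lt_or_ge i j with h | h
          · obtain ⟨k, rfl⟩ : ∃ k, j = k + 1 := ⟨j - 1, by omega⟩
            refine ⟨k, by omega, T_mul_D (by omega) (by omega), E_mul_T (by omega) (by omega)⟩
          · refine ⟨j, by omega, ?_, ?_⟩
            · have := comm_sh (R := R) (z := z) (m := j + 2) (k := i) (by omega)
                (T_mem (show j + 1 < j + 2 by omega)) (D 0 (n - i))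
              rwa [sh_D, zero_add] at this
            · have := comm_sh (R := R) (z := z) (m := j + 2) (k := i) (by omega)
                (T_mem (show j + 1 < j + 2 by omega)) (E 0 (n - i))
              rw [sh_E, zero_add] at this
              exact this.symm
        obtain ⟨k, hk, h3, h4⟩ := key
        have h5 := ih (T_mem hk)
        calc f (T j) * (f (D i (n - i)) * Y * g (E i (n - i)))
            = f (T j * D i (n - i)) * Y * g (E i (n - i)) := by
              rw [map_mul]; simp only [mul_assoc]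
          _ = f (D i (n - i)) * (f (T k) * Y) * g (E i (n - i)) := by
              rw [h3, map_mul]; simp only [mul_assoc]
          _ = f (D i (n - i)) * Y * g (T k * E i (n - i)) := by
              rw [h5, map_mul]; simp only [mul_assoc]
          _ = _ := by rw [← h4, map_mul]; simp only [mul_assoc]
      have hm1 : j ∈ Finset.range (n + 1) := Finset.mem_range.2 (by omega)
      have hm2 : j + 1 ∈ (Finset.range (n + 1)).erase j :=
        Finset.mem_erase.2 ⟨by omega, Finset.mem_range.2 (by omega)⟩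
      rw [← Finset.add_sum_erase _ _ hm1, ← Finset.add_sum_erase _ _ hm2,
        ← Finset.add_sum_erase _ _ hm1, ← Finset.add_sum_erase _ _ hm2]
      rw [← add_assoc, ← add_assoc]
      congr 1
      · obtain ⟨m, rfl⟩ : ∃ m, n = j + 1 + m := ⟨n - (j + 1), by omega⟩
        have e1 : j + 1 + m - j = m + 1 := by omega
        have e2 : j + 1 + m - (j + 1) = m := by omega
        rw [e1, e2]
        have hD : (T j : Hk R z) * D j (m + 1) = z • D j (m + 1) + D (j + 1) m := by
          rw [D_succ', ← mul_assoc, T_sq, add_mul, one_mul, smul_mul_assoc]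
        have hE : (E j (m + 1) : Hk R z) * T j = z • E j (m + 1) + E (j + 1) m := by
          rw [E_succ', mul_assoc, T_sq, mul_add, mul_one, mul_smul_comm]
        have hD1 : (T j : Hk R z) * D (j + 1) m = D j (m + 1) := (D_succ' _ _).symm
        have hE1 : (E (j + 1) m : Hk R z) * T j = E j (m + 1) := (E_succ' _ _).symm
        calc f (T j) * (f (D j (m + 1)) * Y * g (E j (m + 1))) +
              f (T j) * (f (D (j + 1) m) * Y * g (E (j + 1) m))
            = f (T j * D j (m + 1)) * Y * g (E j (m + 1)) +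
              f (T j * D (j + 1) m) * Y * g (E (j + 1) m) := by
              rw [map_mul, map_mul]; simp only [mul_assoc]
          _ = f (D j (m + 1)) * Y * g (E j (m + 1) * T j) +
              f (D (j + 1) m) * Y * g (E (j + 1) m * T j) := by
              rw [hD, hE, hD1, hE1]
              simp only [map_add, map_smul, add_mul, mul_add, smul_mul_assoc, mul_smul_comm]
              abel
          _ = _ := by
              rw [map_mul, map_mul]; simp only [mul_assoc]
      · refine Finset.sum_congr rfl fun i hi => ?_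
        rw [Finset.mem_erase, Finset.mem_erase] at hi
        exact hgen i hi.2.2 hi.2.1 hi.1
    · intro a b ha hb
      rw [map_add, map_add, add_mul, mul_add, ha, hb]
    · intro a b ha hb
      rw [map_mul, map_mul, mul_assoc, hb, ← mul_assoc, ha, mul_assoc]

theorem Nm_pull (n : ℕ) {u v : B} (hu : ∀ x ∈ HH R z n, f x * u = u * f x)
    (hv : ∀ x ∈ HH R z n, g x * v = v * g x) (y : B) :
    Nm n f g (u * y * v) = u * Nm n f g y * v := by
  induction n with
  | zero => simp only [Nm_zero]
  | succ n ih =>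
    have ih' := ih (fun x hx => hu x (HH_mono (Nat.le_succ n) hx))
      (fun x hx => hv x (HH_mono (Nat.le_succ n) hx))
    rw [Nm_succ, Nm_succ, ih', Finset.mul_sum, Finset.sum_mul]
    refine Finset.sum_congr rfl fun i hi => ?_
    rw [Finset.mem_range] at hi
    have h1 := hu (D i (n - i)) (D_mem (by omega))
    have h2 := hv (E i (n - i)) (E_mem (by omega))
    calc f (D i (n - i)) * (u * Nm n f g y * v) * g (E i (n - i))
        = (f (D i (n - i)) * u) * Nm n f g y * (v * g (E i (n - i))) := by
          simp only [mul_assoc]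
      _ = _ := by rw [h1, ← h2]; simp only [mul_assoc]

theorem Nm_pull_left (n : ℕ) (f' : Hk R z →ₐ[R] B) {u : B}
    (hu : ∀ x ∈ HH R z n, f x * u = u * f' x) (y : B) :
    Nm n f g (u * y) = u * Nm n f' g y := by
  induction n with
  | zero => simp only [Nm_zero]
  | succ n ih =>
    have ih' := ih (fun x hx => hu x (HH_mono (Nat.le_succ n) hx))
    rw [Nm_succ, Nm_succ, ih', Finset.mul_sum]
    refine Finset.sum_congr rfl fun i hi => ?_
    rw [Finset.mem_range] at hi
    have h1 := hu (D i (n - i)) (D_mem (by omega))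
    calc f (D i (n - i)) * (u * Nm n f' g y) * g (E i (n - i))
        = (f (D i (n - i)) * u) * Nm n f' g y * g (E i (n - i)) := by
          simp only [mul_assoc]
      _ = _ := by rw [h1]; simp only [mul_assoc]

theorem Nm_pull_right (n : ℕ) (g' : Hk R z →ₐ[R] B) {v : B}
    (hv : ∀ x ∈ HH R z n, v * g x = g' x * v) (y : B) :
    Nm n f g (y * v) = Nm n f g' y * v := by
  induction n with
  | zero => simp only [Nm_zero]
  | succ n ih =>
    have ih' := ih (fun x hx => hv x (HH_mono (Nat.le_succ n) hx))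
    rw [Nm_succ, Nm_succ, ih', Finset.sum_mul]
    refine Finset.sum_congr rfl fun i hi => ?_
    rw [Finset.mem_range] at hi
    have h1 := hv (E i (n - i)) (E_mem (by omega))
    calc f (D i (n - i)) * (Nm n f g' y * v) * g (E i (n - i))
        = f (D i (n - i)) * Nm n f g' y * (v * g (E i (n - i))) := by
          simp only [mul_assoc]
      _ = _ := by rw [h1]; simp only [mul_assoc]

theorem Nm_map {B' : Type*} [Ring B'] [Algebra R B'] (h : B →ₐ[R] B') (n : ℕ) (y : B) :
    h (Nm n f g y) = Nm n (h.comp f) (h.comp g) (h y) := by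
  induction n with
  | zero => simp only [Nm_zero]
  | succ n ih =>
    simp only [Nm_succ, map_sum, map_mul, ih, AlgHom.comp_apply]

theorem Nm_mem (n : ℕ) (y : B) : Nm n f g y ∈
    Submodule.span R {w | ∃ a ∈ HH R z n, ∃ b ∈ HH R z n, w = f a * y * g b} := by
  have h := Submodule.mem_map_of_mem (f := sand f g y) (cas_mem (R := R) (z := z) n)
  rw [Submodule.map_span] at h
  refine Submodule.span_mono ?_ h
  rintro _ ⟨w, ⟨a, ha, b, hb, rfl⟩, rfl⟩
  exact ⟨a, ha, b, hb, sand_tmul _ _ _ _ _⟩

/-- For `i ≤ j ≤ n`: `(T_i ⋯ T_n) (T_j ⋯ T_{n-1}) = (T_{j+1} ⋯ T_n) (T_i ⋯ T_{n-1}) T_n`. -/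
theorem D_mul_D {i j n : ℕ} (h : i ≤ j) (h' : j ≤ n) :
    (D i (n + 1 - i) : Hk R z) * D j (n - j) = D (j + 1) (n - j) * D i (n - i) * T n := by
  have h1 : ∀ k, j + k ≤ n → (D i (n + 1 - i) : Hk R z) * D j k
      = D (j + 1) k * D i (n + 1 - i) := by
    intro k
    induction k with
    | zero => intro _; simp
    | succ k ih =>
      intro hk
      rw [D_succ, ← mul_assoc, ih (by omega), mul_assoc,
        ← T_mul_D (show i ≤ j + k by omega) (by omega), ← mul_assoc, D_succ,
        show j + 1 + k = j + k + 1 by omega]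
  rw [h1 (n - j) (by omega), mul_assoc]
  congr 1
  rw [show n + 1 - i = n - i + 1 by omega, D_succ, show i + (n - i) = n by omega]

/-- The reversed identity. -/
theorem E_mul_E {i j n : ℕ} (h : i ≤ j) (h' : j ≤ n) :
    (E j (n - j) : Hk R z) * E i (n + 1 - i) = T n * (E i (n - i) * E (j + 1) (n - j)) := by
  have := congrArg (fun x => rev x) (D_mul_D (R := R) (z := z) h h')
  simpa [rev_mul, mul_assoc] using this

/-- Two steps of the recursion, symmetrised. -/
theorem Nm_succ_succ (n : ℕ) (y : B) : Nm (n + 2) f g y =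
    ∑ i ∈ Finset.range (n + 1), ∑ j ∈ Finset.range (i + 1),
      f (D (i + 1) (n - i) * D j (n - j)) *
        (Nm n f g y + f (T n) * Nm n f g y * g (T n)) *
        g (E j (n - j) * E (i + 1) (n - i)) := by
  have h1 : Nm (n + 2) f g y = ∑ i ∈ Finset.range (n + 2), ∑ j ∈ Finset.range (n + 1),
      f (D i (n + 1 - i) * D j (n - j)) * Nm n f g y * g (E j (n - j) * E i (n + 1 - i)) := by
    rw [Nm_succ, Nm_succ]
    refine Finset.sum_congr rfl fun i _ => ?_
    rw [Finset.mul_sum, Finset.sum_mul]
    refine Finset.sum_congr rfl fun j _ => ?_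
    rw [map_mul, map_mul]
    simp only [mul_assoc]
  generalize hY : Nm n f g y = Y at h1 ⊢
  -- split the pairs
  have h2 : ∀ i ∈ Finset.range (n + 2), ∑ j ∈ Finset.range (n + 1),
      f (D i (n + 1 - i) * D j (n - j)) * Y * g (E j (n - j) * E i (n + 1 - i)) =
      ∑ j ∈ Finset.range i,
        f (D i (n + 1 - i) * D j (n - j)) * Y * g (E j (n - j) * E i (n + 1 - i)) +
      ∑ j ∈ Finset.Ico i (n + 1),
        f (D i (n + 1 - i) * D j (n - j)) * Y * g (E j (n - j) * E i (n + 1 - i)) := by
    intro i hi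
    rw [Finset.mem_range] at hi
    rw [Finset.sum_range_add_sum_Ico _ (by omega)]
  rw [h1, Finset.sum_congr rfl h2, Finset.sum_add_distrib]
  have h3 : ∑ i ∈ Finset.range (n + 2), ∑ j ∈ Finset.range i,
        f (D i (n + 1 - i) * D j (n - j)) * Y * g (E j (n - j) * E i (n + 1 - i)) =
      ∑ i ∈ Finset.range (n + 1), ∑ j ∈ Finset.range (i + 1),
        f (D (i + 1) (n - i) * D j (n - j)) * Y * g (E j (n - j) * E (i + 1) (n - i)) := by
    rw [Finset.sum_range_succ']
    simp only [Finset.range_zero, Finset.sum_empty, add_zero, Nat.add_sub_add_right]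
  have h4 : ∑ i ∈ Finset.range (n + 2), ∑ j ∈ Finset.Ico i (n + 1),
        f (D i (n + 1 - i) * D j (n - j)) * Y * g (E j (n - j) * E i (n + 1 - i)) =
      ∑ i ∈ Finset.range (n + 1), ∑ j ∈ Finset.range (i + 1),
        f (D (i + 1) (n - i) * D j (n - j)) * (f (T n) * Y * g (T n)) *
          g (E j (n - j) * E (i + 1) (n - i)) := by
    rw [Finset.sum_range_succ]
    simp only [Finset.Ico_self, Finset.sum_empty, add_zero]
    rw [Finset.range_eq_Ico, Finset.sum_Ico_Ico_comm]
    refine Finset.sum_congr rfl fun j hj => ?_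
    rw [Finset.mem_Ico] at hj
    refine Finset.sum_congr (by rw [Finset.range_eq_Ico]) fun i hi => ?_
    rw [Finset.mem_range] at hi
    rw [D_mul_D (show i ≤ j by omega) (by omega), E_mul_E (show i ≤ j by omega) (by omega)]
    simp only [map_mul, mul_assoc]
  rw [h3, h4, ← Finset.sum_add_distrib]
  refine Finset.sum_congr rfl fun i _ => ?_
  rw [← Finset.sum_add_distrib]
  refine Finset.sum_congr rfl fun j _ => ?_
  rw [mul_add, add_mul]

theorem Nm_swap (n : ℕ) {x : Hk R z} (hx : x ∈ HH R z n) (y : B) :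
    Nm n f g (f x * y) = Nm n f g (y * g x) := by
  have hlin : ∀ (n : ℕ) (x : Hk R z), x ∈ HH R z n →
      (∀ i, i + 1 < n → ∀ y : B, Nm n f g (f (T i) * y) = Nm n f g (y * g (T i))) →
      ∀ y : B, Nm n f g (f x * y) = Nm n f g (y * g x) := by
    intro n x hx h
    refine HH_induction (P := fun x => ∀ y : B, Nm n f g (f x * y) = Nm n f g (y * g x))
      ?_ h ?_ ?_ hx
    · intro r y
      rw [AlgHom.commutes, AlgHom.commutes, Algebra.commutes]
    · intro a b ha hb y
      rw [map_add, map_add, add_mul, mul_add, Nm_add, Nm_add, ha, hb]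
    · intro a b ha hb y
      rw [map_mul, map_mul, mul_assoc, ha, mul_assoc, hb, mul_assoc]
  induction n generalizing x y with
  | zero => exact hlin 0 x hx (fun i hi => by omega) y
  | succ n ih =>
    refine hlin (n + 1) x hx (fun i hi y => ?_) y
    rcases Nat.lt_or_ge (i + 1) n with h | h
    · rw [Nm_succ, Nm_succ, ih (T_mem h)]
    · obtain ⟨k, rfl⟩ : ∃ k, n = k + 1 := ⟨n - 1, by omega⟩
      have hi' : i = k := by omega
      subst hi'
      have h1 : Nm i f g (f (T i) * y) = f (T i) * Nm i f g y := by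
        have := Nm_pull f g i (u := f (T i)) (v := 1)
          (fun x hx => by rw [← map_mul, ← map_mul, comm_T le_rfl hx])
          (fun x _ => by rw [mul_one, one_mul]) y
        simpa using this
      have h2 : Nm i f g (y * g (T i)) = Nm i f g y * g (T i) := by
        have := Nm_pull f g i (u := 1) (v := g (T i))
          (fun x _ => by rw [mul_one, one_mul])
          (fun x hx => by rw [← map_mul, ← map_mul, comm_T le_rfl hx]) y
        simpa using this
      rw [Nm_succ_succ, Nm_succ_succ, h1, h2]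
      have h3 : f (T i) * Nm i f g y + f (T i) * (f (T i) * Nm i f g y) * g (T i) =
          Nm i f g y * g (T i) + f (T i) * (Nm i f g y * g (T i)) * g (T i) := by
        have e1 : f (T i) * (f (T i) * Nm i f g y) * g (T i) =
            z • (f (T i) * Nm i f g y * g (T i)) + Nm i f g y * g (T i) := by
          rw [← mul_assoc, ← map_mul, T_sq, map_add, map_smul, map_one, add_mul, add_mul, one_mul,
            smul_mul_assoc, smul_mul_assoc]
        have e2 : f (T i) * (Nm i f g y * g (T i)) * g (T i) =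
            z • (f (T i) * Nm i f g y * g (T i)) + f (T i) * Nm i f g y := by
          rw [← mul_assoc, mul_assoc, ← map_mul, T_sq, map_add, map_smul, map_one, mul_add,
            mul_one, mul_smul_comm]
        rw [e1, e2]; abel
      rw [h3]

end

theorem cas_eq_Nm (n : ℕ) : Cas R z n =
    Nm n (Algebra.TensorProduct.includeLeft : Hk R z →ₐ[R] Hk R z ⊗[R] Hk R z)
      Algebra.TensorProduct.includeRight 1 := by
  induction n with
  | zero => rw [Nm_zero]; rfl
  | succ n ih =>
    rw [Nm_succ, ← ih, Cas]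
    rfl

theorem cas_left (n : ℕ) {x : Hk R z} (hx : x ∈ HH R z n) :
    (x ⊗ₜ[R] 1) * Cas R z n = Cas R z n * (1 ⊗ₜ[R] x) := by
  rw [cas_eq_Nm]
  exact Nm_left (Algebra.TensorProduct.includeLeft : Hk R z →ₐ[R] Hk R z ⊗[R] Hk R z)
    Algebra.TensorProduct.includeRight n hx 1

theorem cas_right (n : ℕ) {x : Hk R z} (hx : x ∈ HH R z n) :
    (1 ⊗ₜ[R] x) * Cas R z n = Cas R z n * (x ⊗ₜ[R] 1) := by
  have hc : ∀ a b : Hk R z, (a ⊗ₜ[R] (1 : Hk R z)) * ((1 : Hk R z) ⊗ₜ[R] b)
      = (1 ⊗ₜ[R] b) * (a ⊗ₜ[R] 1) := by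
    intro a b
    rw [Algebra.TensorProduct.tmul_mul_tmul, Algebra.TensorProduct.tmul_mul_tmul]
    simp
  rw [cas_eq_Nm]
  have h1 := Nm_pull (Algebra.TensorProduct.includeLeft : Hk R z →ₐ[R] Hk R z ⊗[R] Hk R z)
    Algebra.TensorProduct.includeRight n (u := 1 ⊗ₜ[R] x) (v := 1)
    (fun a _ => hc a x) (fun a _ => by rw [mul_one, one_mul]) 1
  have h2 := Nm_pull (Algebra.TensorProduct.includeLeft : Hk R z →ₐ[R] Hk R z ⊗[R] Hk R z)
    Algebra.TensorProduct.includeRight n (u := 1) (v := x ⊗ₜ[R] 1)
    (fun a _ => by rw [mul_one, one_mul]) (fun a _ => (hc x a).symm) 1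
  have h3 := Nm_swap (Algebra.TensorProduct.includeLeft : Hk R z →ₐ[R] Hk R z ⊗[R] Hk R z)
    Algebra.TensorProduct.includeRight n hx 1
  rw [mul_one, mul_one, mul_one] at h1
  rw [one_mul, one_mul, one_mul] at h2
  rw [← h1, ← h2]
  rw [mul_one, one_mul] at h3
  exact h3.symm

theorem N_mem {n : ℕ} {x : Hk R z} (hx : x ∈ HH R z n) : N n x ∈ HH R z n := by
  have h := Nm_mem (AlgHom.id R (Hk R z)) (AlgHom.id R (Hk R z)) n x
  refine (Submodule.span_le (p := Subalgebra.toSubmodule (HH R z n))).2 ?_ h
  rintro _ ⟨a, ha, b, hb, rfl⟩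
  have : a * x * b ∈ HH R z n := mul_mem (mul_mem ha hx) hb
  exact this

/-- the norm as a linear map -/
noncomputable def Nlin (R : Type u) [CommRing R] (z : R) (n : ℕ) : Hk R z →ₗ[R] Hk R z where
  toFun := N n
  map_add' := Nm_add _ _ n
  map_smul' := Nm_smul _ _ n

theorem Nlin_apply (n : ℕ) (x : Hk R z) : Nlin R z n x = N n x := rfl

theorem N_central {n : ℕ} (x : Hk R z) {a : Hk R z} (ha : a ∈ HH R z n) :
    a * N n x = N n x * a :=
  Nm_left (AlgHom.id R (Hk R z)) (AlgHom.id R (Hk R z)) n ha x

theorem N_comm {n : ℕ} (x : Hk R z) {a : Hk R z} (ha : a ∈ HH R z n) :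
    N n (a * x) = N n (x * a) :=
  Nm_swap (AlgHom.id R (Hk R z)) (AlgHom.id R (Hk R z)) n ha x

theorem N_succ (n : ℕ) (x : Hk R z) : N (n + 1) x =
    ∑ i ∈ Finset.range (n + 1), D i (n - i) * N n x * E i (n - i) :=
  Nm_succ (AlgHom.id R (Hk R z)) (AlgHom.id R (Hk R z)) n x

theorem rho_succ (n : ℕ) (x : Hk R z) : rho (n + 1) x = x + T n * rho n x * T n := by
  rw [rho, Finset.sum_range_succ, Nat.sub_self, E_zero, D_zero, one_mul, mul_one, add_comm, rho,
    Finset.mul_sum, Finset.sum_mul]
  congr 1
  refine Finset.sum_congr rfl fun i hi => ?_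
  rw [Finset.mem_range] at hi
  rw [show n + 1 - i = n - i + 1 by omega, D_succ, E_succ, show i + (n - i) = n by omega]
  simp only [mul_assoc]

theorem N_rho (n : ℕ) (x : Hk R z) : N (n + 1) x = N n (rho n x) := by
  induction n with
  | zero =>
    rw [rho]
    simp [N, Nm_zero, Nm_one]
  | succ n ih =>
    have hpull : ∀ y : Hk R z, N n (T n * y * T n) = T n * N n y * T n := fun y =>
      Nm_pull (AlgHom.id R (Hk R z)) (AlgHom.id R (Hk R z)) n
        (fun a ha => comm_T le_rfl ha) (fun a ha => comm_T le_rfl ha) y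
    rw [rho_succ]
    have hadd : N (n + 1) (x + T n * rho n x * T n) = N (n + 1) x
        + N (n + 1) (T n * rho n x * T n) := Nm_add _ _ _ _ _
    rw [hadd, N_succ (n + 1) x, Finset.sum_range_succ, Nat.sub_self, D_zero, E_zero, one_mul,
      mul_one, add_comm]
    congr 1
    rw [N_succ n (T n * rho n x * T n), hpull, ← ih]
    refine Finset.sum_congr rfl fun i hi => ?_
    rw [Finset.mem_range] at hi
    rw [show n + 1 - i = n - i + 1 by omega, D_succ, E_succ, show i + (n - i) = n by omega]
    simp only [mul_assoc]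

end Pool.Agent.Lib.Hecke59
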