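import Pool.Agent.Lib.Hecke59.Cas
import Pool.Agent.Lib.Hecke59.Block

/-! Decomposition of the positive block crossing into norms. -/

namespace Pool.Agent.Lib.Hecke59

open scoped TensorProduct

universe u v

variable {R : Type u} [CommRing R] {z : R}

/-- hypotheses coming from module Tau (they hold when z = q - q⁻¹) -/
def CasFlip (R : Type u) [CommRing R] (z : R) : Prop :=
  ∀ n, TensorProduct.comm R (Hk R z) (Hk R z) (Cas R z n) = Cas R z n

def CasLast (R : Type u) [CommRing R] (z : R) : Prop :=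
  ∀ n, Cas R z (n + 1) = ∑ i ∈ Finset.range (n + 1),
    (E 0 i ⊗ₜ[R] 1) * (Algebra.TensorProduct.map (sh 1) (sh 1) (Cas R z n)) * (1 ⊗ₜ[R] D 0 i)

namespace Cross

/-! ### Elementary facts -/

theorem Dm_mul_E (i k : ℕ) : (Dm i k : Hk R z) * E i k = 1 := by
  induction k with
  | zero => simp
  | succ k ih => rw [Dm_succ, E_succ, mul_assoc, ← mul_assoc (Ti _), Ti_mul_T, one_mul, ih]

theorem D_eq_sh (i k : ℕ) : (D i k : Hk R z) = sh i (D 0 k) := by rw [sh_D, zero_add]
theorem Dm_eq_sh (i k : ℕ) : (Dm i k : Hk R z) = sh i (Dm 0 k) := by rw [sh_Dm, zero_add]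
theorem Em_eq_sh (i k : ℕ) : (Em i k : Hk R z) = sh i (Em 0 k) := by rw [sh_Em, zero_add]

theorem comm_D {m i : ℕ} (k : ℕ) (h : m ≤ i) {x : Hk R z} (hx : x ∈ HH R z m) :
    x * D i k = D i k * x := by rw [D_eq_sh i k]; exact comm_sh h hx _

theorem comm_Dm {m i : ℕ} (k : ℕ) (h : m ≤ i) {x : Hk R z} (hx : x ∈ HH R z m) :
    x * Dm i k = Dm i k * x := by rw [Dm_eq_sh i k]; exact comm_sh h hx _

theorem comm_Em {m i : ℕ} (k : ℕ) (h : m ≤ i) {x : Hk R z} (hx : x ∈ HH R z m) :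
    x * Em i k = Em i k * x := by rw [Em_eq_sh i k]; exact comm_sh h hx _

theorem sh_comp (k l : ℕ) : ((sh k).comp (sh l) : Hk R z →ₐ[R] Hk R z) = sh (l + k) := by
  ext i
  simp [add_assoc]

theorem rowm (a : ℕ) : (T 0 : Hk R z) * (Dm 1 a * Dm 0 a) = Dm 1 a * Dm 0 a * T a := by
  have h := Xm_mul_sh (R := R) (z := z) (m := a) (n := 2) (b := T 0) (T_mem (by omega))
  have e : (Xm a 2 : Hk R z) = Dm 1 a * Dm 0 a := by
    show Dm 1 a * (Dm 0 a * 1) = _
    rw [mul_one]
  rw [e, sh_T, zero_add] at h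
  exact h.symm

theorem rowp (a j : ℕ) : (D (a + 1) j : Hk R z) * D a j * T (a + j) =
    T a * (D (a + 1) j * D a j) := by
  have h := Xp_mul_sh (R := R) (z := z) (m := j) (n := 2) (b := T 0) (T_mem (by omega))
  have e : (Xp j 2 : Hk R z) = D 1 j * D 0 j := by
    show D 1 j * (D 0 j * 1) = _
    rw [mul_one]
  rw [e, sh_T, zero_add] at h
  have h2 := congrArg (sh a) h
  simp only [map_mul, sh_D, sh_T, zero_add] at h2
  rw [add_comm 1 a, add_comm j a] at h2
  exact h2

/-! ### The relative norms -/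

/-- one step of the relative norm -/
noncomputable def Rst (r m : ℕ) : Hk R z →ₗ[R] Hk R z :=
  ∑ i ∈ Finset.range (m + 1),
    (LinearMap.mulLeft R (sh r (D i (m - i)))).comp (LinearMap.mulRight R (E i (m - i)))

theorem Rst_apply (r m : ℕ) (y : Hk R z) : Rst r m y =
    ∑ i ∈ Finset.range (m + 1), sh r (D i (m - i)) * (y * E i (m - i)) := by
  simp [Rst, LinearMap.sum_apply]

/-- the relative norm -/
noncomputable def RR (p r : ℕ) : ℕ → Hk R z →ₗ[R] Hk R z
  | 0 => LinearMap.id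
  | j + 1 => (RR p r j).comp (Rst r (p - (j + 1)))

theorem RR_zero (p r : ℕ) (y : Hk R z) : RR p r 0 y = y := rfl
theorem RR_succ (p r j : ℕ) (y : Hk R z) :
    RR p r (j + 1) y = RR p r j (Rst r (p - (j + 1)) y) := rfl

theorem Nm_succ_Rst (r m : ℕ) (y : Hk R z) :
    Nm (m + 1) (sh r) (AlgHom.id R _) y = Rst r m (Nm m (sh r) (AlgHom.id R _) y) := by
  rw [Nm_succ, Rst_apply]
  apply Finset.sum_congr rfl
  intro i _
  rw [mul_assoc]
  rfl

theorem RR_Nm (p r j : ℕ) (hj : j ≤ p) (y : Hk R z) :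
    RR p r j (Nm (p - j) (sh r) (AlgHom.id R _) y) = Nm p (sh r) (AlgHom.id R _) y := by
  induction j with
  | zero => rfl
  | succ j ih =>
    rw [RR_succ, ← Nm_succ_Rst, show p - (j + 1) + 1 = p - j by omega]
    exact ih (by omega)

theorem sh_Rst (p r m : ℕ) (hm : m < p) (y : Hk R z) :
    sh 1 (Rst r m y) * D 0 p = Rst (r + 1) m (sh 1 y * D 0 p) := by
  rw [Rst_apply, Rst_apply, map_sum, Finset.sum_mul]
  apply Finset.sum_congr rfl
  intro i hi
  rw [Finset.mem_range] at hi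
  have h : sh 1 (E i (m - i) : Hk R z) * D 0 p = D 0 p * E i (m - i) :=
    (D_mul (E_mem (by omega))).symm
  rw [map_mul, map_mul, sh_sh, mul_assoc, mul_assoc, h, mul_assoc]

theorem sh_RR (p r j : ℕ) (hj : j ≤ p) (y : Hk R z) :
    sh 1 (RR p r j y) * D 0 p = RR p (r + 1) j (sh 1 y * D 0 p) := by
  induction j generalizing y with
  | zero => rfl
  | succ j ih =>
    rw [RR_succ, RR_succ, ih (by omega), sh_Rst p r _ (by omega)]

theorem step0 (m : ℕ) : (D 0 (m + 1) : Hk R z) = Dm 0 (m + 1) + z • Rst 1 m (Dm 0 m) := by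
  have h1 : Rst 1 m (Dm 0 m : Hk R z) = ∑ i ∈ Finset.range (m + 1), Dm 0 i * D (i + 1) (m - i) := by
    rw [Rst_apply]
    apply Finset.sum_congr rfl
    intro i hi
    rw [Finset.mem_range] at hi
    have e : (Dm 0 m : Hk R z) = Dm 0 i * Dm i (m - i) := by
      have := Dm_add (R := R) (z := z) 0 i (m - i)
      rw [show i + (m - i) = m by omega, zero_add] at this
      exact this
    rw [e, mul_assoc (Dm 0 i), Dm_mul_E, mul_one, sh_D]
    exact (comm_D (m - i) le_rfl (Dm_mem (by omega))).symm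
  have h2 : ∀ k ∈ Finset.range (m + 1), (Dm 0 (k + 1) * D (k + 1) (m + 1 - (k + 1)) : Hk R z) -
      Dm 0 k * D k (m + 1 - k) = - (z • (Dm 0 k * D (k + 1) (m - k))) := by
    intro k hk
    rw [Finset.mem_range] at hk
    rw [Dm_succ, show m + 1 - (k + 1) = m - k by omega, show m + 1 - k = m - k + 1 by omega,
      D_succ', zero_add, mul_assoc, ← mul_sub, ← sub_mul,
      show (Ti k : Hk R z) - T k = - algebraMap R _ z by rw [← T_sub_Ti k]; abel,
      neg_mul, mul_neg, ← Algebra.smul_def, mul_smul_comm]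
  have h3 := Finset.sum_range_sub (fun k => (Dm 0 k * D k (m + 1 - k) : Hk R z)) (m + 1)
  rw [Finset.sum_congr rfl h2, Finset.sum_neg_distrib, ← Finset.smul_sum, ← h1] at h3
  simp only [Nat.sub_self, D_zero, Dm_zero, mul_one, one_mul, Nat.sub_zero] at h3
  rw [← sub_eq_iff_eq_add', ← neg_sub, ← h3, neg_neg]

/-! ### The elements `V` -/

/-- `pi_j` -/
def pj (p j : ℕ) : Hk R z := Dm 0 (p - j) * D (p - j) j

/-- `b_j` -/
def bj (p j : ℕ) : Hk R z := Dm 0 (p - (j + 1)) * D (p - (j + 1) + 1) j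

/-- `V j r` -/
def VV (p : ℕ) : ℕ → ℕ → Hk R z
  | 0, 0 => 1
  | _ + 1, 0 => 0
  | 0, r + 1 => sh 1 (VV p 0 r) * pj p 0
  | j + 1, r + 1 => sh 1 (VV p (j + 1) r) * pj p (j + 1) + sh 1 (VV p j r) * bj p j

theorem VV_zero_zero (p : ℕ) : (VV p 0 0 : Hk R z) = 1 := by rw [VV]
theorem VV_succ_zero (p j : ℕ) : (VV p (j + 1) 0 : Hk R z) = 0 := by rw [VV]
theorem VV_zero_succ (p r : ℕ) : (VV p 0 (r + 1) : Hk R z) = sh 1 (VV p 0 r) * pj p 0 := by
  rw [VV]
theorem VV_succ_succ (p j r : ℕ) : (VV p (j + 1) (r + 1) : Hk R z) =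
    sh 1 (VV p (j + 1) r) * pj p (j + 1) + sh 1 (VV p j r) * bj p j := by rw [VV]

theorem pj_left {p j : ℕ} {a : Hk R z} (ha : a ∈ HH R z (p - j)) :
    sh 1 a * pj p j = pj p j * a := by
  unfold pj
  rw [← mul_assoc, ← Dm_mul ha, mul_assoc, comm_D j le_rfl ha, mul_assoc]

theorem bj_left {p j : ℕ} {a : Hk R z} (ha : a ∈ HH R z (p - (j + 1))) :
    sh 1 a * bj p j = bj p j * a := by
  unfold bj
  rw [← mul_assoc, ← Dm_mul ha, mul_assoc, comm_D j (Nat.le_succ _) ha, mul_assoc]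

theorem pj_right {p j : ℕ} {a : Hk R z} (ha : a ∈ HH R z j) :
    pj p j * sh (p - j) a = sh (p - j + 1) a * pj p j := by
  unfold pj
  have h1 : (D (p - j) j : Hk R z) * sh (p - j) a = sh (p - j + 1) a * D (p - j) j := by
    rw [D_eq_sh (p - j) j, ← map_mul, D_mul ha, map_mul, sh_sh, add_comm 1]
  rw [mul_assoc, h1, ← mul_assoc, ← mul_assoc]
  congr 1
  exact comm_sh le_rfl (Dm_mem (by omega)) a

theorem bj_right {p j : ℕ} (hj : j < p) {a : Hk R z} (ha : a ∈ HH R z j) :
    bj p j * sh (p - j) a = sh (p - j + 1) a * bj p j := by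
  unfold bj
  obtain ⟨q, hq⟩ : ∃ q, p - (j + 1) = q := ⟨_, rfl⟩
  rw [hq, show p - j = q + 1 by omega]
  have h1 : (D (q + 1) j : Hk R z) * sh (q + 1) a = sh (q + 1 + 1) a * D (q + 1) j := by
    rw [D_eq_sh (q + 1) j, ← map_mul, D_mul ha, map_mul, sh_sh, add_comm 1]
  rw [mul_assoc, h1, ← mul_assoc, ← mul_assoc]
  congr 1
  exact comm_sh (by omega) (Dm_mem (n := q + 1) (by omega)) a

theorem pj_mem {p j : ℕ} (hj : j ≤ p) : (pj p j : Hk R z) ∈ HH R z (p + 1) :=
  mul_mem (Dm_mem (by omega)) (D_mem (by omega))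

theorem bj_mem {p j : ℕ} (hj : j < p) : (bj p j : Hk R z) ∈ HH R z (p + 1) :=
  mul_mem (Dm_mem (by omega)) (D_mem (by omega))

/-- Step 1 -/
theorem VV_left (p j r : ℕ) {a : Hk R z} (ha : a ∈ HH R z (p - j)) :
    sh r a * VV p j r = VV p j r * a := by
  induction r generalizing j with
  | zero =>
    cases j with
    | zero => rw [VV_zero_zero, sh_zero, mul_one, one_mul]
    | succ j => rw [VV_succ_zero, mul_zero, zero_mul]
  | succ r ih =>
    have key : ∀ j, a ∈ HH R z (p - j) → sh (r + 1) a * sh 1 (VV p j r) = sh 1 (VV p j r) * sh 1 a := by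
      intro j ha
      rw [← sh_sh 1 r, ← map_mul, ih j ha, map_mul]
    cases j with
    | zero =>
      rw [VV_zero_succ, ← mul_assoc, key 0 ha, mul_assoc, pj_left ha, mul_assoc]
    | succ j =>
      rw [VV_succ_succ, mul_add, add_mul, ← mul_assoc, key _ ha, mul_assoc, pj_left ha,
        ← mul_assoc (sh (r + 1) a), key j (HH_mono (by omega) ha), mul_assoc _ _ (bj p j),
        bj_left ha, mul_assoc, mul_assoc]

theorem VV_mem (p j r : ℕ) (hj : j ≤ p) : (VV p j r : Hk R z) ∈ HH R z (p + r) := by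
  induction r generalizing j with
  | zero =>
    cases j with
    | zero => rw [VV_zero_zero]; exact one_mem _
    | succ j => rw [VV_succ_zero]; exact zero_mem _
  | succ r ih =>
    have key : ∀ j, j ≤ p → sh 1 (VV p j r : Hk R z) ∈ HH R z (p + (r + 1)) := by
      intro j hj
      have h := sh_mem (k := 1) (ih j hj)
      rw [add_assoc] at h
      exact h
    have kp : ∀ j, j ≤ p → (pj p j : Hk R z) ∈ HH R z (p + (r + 1)) := fun j hj =>
      HH_mono (by omega) (pj_mem hj)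
    have kb : ∀ j, j < p → (bj p j : Hk R z) ∈ HH R z (p + (r + 1)) := fun j hj =>
      HH_mono (by omega) (bj_mem hj)
    cases j with
    | zero =>
      rw [VV_zero_succ]
      exact mul_mem (key 0 hj) (kp 0 hj)
    | succ j =>
      rw [VV_succ_succ]
      exact add_mem (mul_mem (key _ hj) (kp _ hj))
        (mul_mem (key j (by omega)) (kb j (by omega)))

theorem VV_zero (p r : ℕ) : (VV p 0 r : Hk R z) = Xm p r := by
  induction r with
  | zero => rw [VV_zero_zero, Xm]
  | succ r ih =>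
    rw [VV_zero_succ, ih, Xm_succ']
    unfold pj
    rw [Nat.sub_zero, D_zero, mul_one]

theorem VV_gt (p j r : ℕ) (h : r < j) : (VV p j r : Hk R z) = 0 := by
  induction r generalizing j with
  | zero =>
    obtain ⟨j, rfl⟩ : ∃ k, j = k + 1 := ⟨j - 1, by omega⟩
    rw [VV_succ_zero]
  | succ r ih =>
    obtain ⟨j, rfl⟩ : ∃ k, j = k + 1 := ⟨j - 1, by omega⟩
    rw [VV_succ_succ, ih _ (by omega), ih _ (by omega), map_zero, zero_mul, zero_mul, add_zero]

theorem Xm_zero (m : ℕ) : (Xm m 0 : Hk R z) = 1 := by rw [Xm]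
theorem Xm_succ (m n : ℕ) : (Xm m (n + 1) : Hk R z) = Dm n m * Xm m n := by rw [Xm]
theorem Xp_zero (m : ℕ) : (Xp m 0 : Hk R z) = 1 := by rw [Xp]

theorem Xm_succ_left (q j : ℕ) : (Xm (q + 1) j : Hk R z) = Xm q j * Em q j := by
  induction j with
  | zero => rw [Xm_zero, Xm_zero, Em_zero, mul_one]
  | succ j ih =>
    have h : (Xm q j : Hk R z) * Ti (q + j) = Ti (q + j) * Xm q j :=
      comm_Ti le_rfl (Xm_mem q j)
    rw [Xm_succ, Xm_succ, Dm_succ, ih, Em_succ, add_comm j q, mul_assoc, mul_assoc,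
      ← mul_assoc (Ti (q + j)), ← h, mul_assoc]

theorem VV_diag (p j : ℕ) (hj : j ≤ p) : (VV p j j : Hk R z) = Xm (p - j) j := by
  induction j with
  | zero => rw [VV_zero_zero, Xm_zero]
  | succ j ih =>
    obtain ⟨q, hq⟩ : ∃ q, p - (j + 1) = q := ⟨_, rfl⟩
    rw [VV_succ_succ, VV_gt p (j + 1) j (by omega), map_zero, zero_mul, zero_add,
      ih (by omega), Xm_succ']
    unfold bj
    rw [hq, show p - j = q + 1 by omega, Xm_succ_left, map_mul, sh_Em, mul_assoc,
      ← mul_assoc (Em (q + 1) j), ← comm_Em j le_rfl (Dm_mem (n := q + 1) (by omega)),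
      mul_assoc (Dm 0 q), Em_mul_D, mul_one]

/-- Step 2 -/
theorem Xp_expand (p r : ℕ) : (Xp p r : Hk R z) =
    ∑ j ∈ Finset.range (p + 1), z ^ j • RR p r j (VV p j r) := by
  induction r with
  | zero =>
    rw [Finset.sum_eq_single 0]
    · rw [pow_zero, one_smul, VV_zero_zero, Xp_zero, RR_zero]
    · intro j _ hj
      rw [VV_gt p j 0 (by omega), map_zero, smul_zero]
    · intro h
      exact absurd (Finset.mem_range.2 (by omega)) h
  | succ r ih =>
    have hterm : ∀ j, j < p → sh 1 (VV p j r : Hk R z) * D 0 p =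
        sh 1 (VV p j r) * pj p j + z • Rst (r + 1) (p - (j + 1)) (sh 1 (VV p j r) * bj p j) := by
      intro j hj
      obtain ⟨q, hq⟩ : ∃ q, p - (j + 1) = q := ⟨_, rfl⟩
      have e1 : (D 0 p : Hk R z) = D 0 (q + 1) * D (q + 1) j := by
        have := D_add (R := R) (z := z) 0 (q + 1) j
        rw [zero_add, show q + 1 + j = p by omega] at this
        exact this
      have e2 : (pj p j : Hk R z) = Dm 0 (q + 1) * D (q + 1) j := by
        unfold pj
        rw [show p - j = q + 1 by omega]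
      have e3 : sh 1 (VV p j r : Hk R z) * (Rst 1 q (Dm 0 q) * D (q + 1) j) =
          Rst (r + 1) q (sh 1 (VV p j r) * bj p j) := by
        rw [Rst_apply, Rst_apply, Finset.sum_mul, Finset.mul_sum]
        apply Finset.sum_congr rfl
        intro i hi
        rw [Finset.mem_range] at hi
        have hD : (D i (q - i) : Hk R z) ∈ HH R z (p - j) := D_mem (by omega)
        have hE : (E i (q - i) : Hk R z) ∈ HH R z (q + 1) := E_mem (by omega)
        have h1 : sh 1 (VV p j r : Hk R z) * sh 1 (D i (q - i)) =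
            sh (r + 1) (D i (q - i)) * sh 1 (VV p j r) := by
          rw [← map_mul, ← VV_left p j r hD, map_mul, sh_sh]
        have h2 : (E i (q - i) : Hk R z) * D (q + 1) j = D (q + 1) j * E i (q - i) :=
          comm_D j le_rfl hE
        unfold bj
        rw [hq, mul_assoc, ← mul_assoc (sh 1 (VV p j r)), h1, mul_assoc, mul_assoc (Dm 0 q), h2]
        simp only [mul_assoc]
      rw [hq, e2, ← e3, e1, step0 q, add_mul, mul_add, smul_mul_assoc, mul_smul_comm]
    rw [Xp_succ', ih, map_sum, Finset.sum_mul]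
    have h1 : ∀ j ∈ Finset.range (p + 1), sh 1 (z ^ j • RR p r j (VV p j r : Hk R z)) * D 0 p =
        z ^ j • RR p (r + 1) j (sh 1 (VV p j r) * D 0 p) := by
      intro j hj
      rw [Finset.mem_range] at hj
      rw [map_smul, smul_mul_assoc, sh_RR p r j (by omega)]
    rw [Finset.sum_congr rfl h1, Finset.sum_range_succ]
    have h2 : ∀ j ∈ Finset.range p, z ^ j • RR p (r + 1) j (sh 1 (VV p j r : Hk R z) * D 0 p) =
        z ^ j • RR p (r + 1) j (sh 1 (VV p j r) * pj p j) +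
          z ^ (j + 1) • RR p (r + 1) (j + 1) (sh 1 (VV p j r) * bj p j) := by
      intro j hj
      rw [Finset.mem_range] at hj
      rw [hterm j hj, map_add, smul_add, map_smul, smul_smul, ← pow_succ, RR_succ]
    have h3 : (D 0 p : Hk R z) = pj p p := by
      unfold pj
      rw [Nat.sub_self, Dm_zero, one_mul]
    rw [Finset.sum_congr rfl h2, Finset.sum_add_distrib, h3, add_right_comm,
      ← Finset.sum_range_succ (fun j => z ^ j • RR p (r + 1) j (sh 1 (VV p j r : Hk R z) * pj p j)),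
      Finset.sum_range_succ', Finset.sum_range_succ' (fun j => z ^ j • RR p (r + 1) j _),
      add_right_comm, ← Finset.sum_add_distrib, VV_zero_succ]
    congr 1
    apply Finset.sum_congr rfl
    intro j _
    rw [VV_succ_succ, map_add, smul_add]


theorem Xm_self_zero (n : ℕ) : (Xm 0 n : Hk R z) = 1 := by
  induction n with
  | zero => rw [Xm_zero]
  | succ n ih => rw [Xm_succ, ih, mul_one, Dm_zero]

/-- Step 4 -/
theorem RR_eq_Nm (p r j : ℕ) (hj : j ≤ p) {y u : Hk R z}
    (hy : ∀ a ∈ HH R z (p - j), sh r a * y = y * a) (hu : N (p - j) u = 1) :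
    RR p r j y = Nm p (sh r) (AlgHom.id R _) (y * u) := by
  rw [← RR_Nm p r j hj, Nm_pull_left (sh r) (AlgHom.id R _) (p - j) (AlgHom.id R _) hy u]
  show _ = RR p r j (y * N (p - j) u)
  rw [hu, mul_one]

/-! ### Local identities -/

theorem L0 (a j : ℕ) : (T 0 : Hk R z) * (Dm 1 a * D (a + 1) j * (Dm 0 a * D a j)) =
    Dm 1 a * D (a + 1) j * (Dm 0 a * D a j) * T (a + j) := by
  have h1 : (D (a + 1) j : Hk R z) * Dm 0 a = Dm 0 a * D (a + 1) j :=
    (comm_D j le_rfl (Dm_mem (by omega))).symm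
  have h2 := rowm (R := R) (z := z) a
  have h3 := rowp (R := R) (z := z) a j
  have e : (Dm 1 a * D (a + 1) j * (Dm 0 a * D a j) : Hk R z) =
      Dm 1 a * Dm 0 a * (D (a + 1) j * D a j) := by
    simp only [mul_assoc]
    rw [← mul_assoc (D (a + 1) j) (Dm 0 a), h1]
    simp only [mul_assoc]
  rw [e, ← mul_assoc (T 0), h2, mul_assoc (Dm 1 a * Dm 0 a) (T a), ← h3]
  simp only [mul_assoc]

theorem L1 (a l : ℕ) : (Dm 1 a * D (a + 2) l * (Dm 0 a * D a (l + 1)) : Hk R z) =
    T 0 * (Dm 1 (a + 1) * D (a + 2) l * (Dm 0 a * D (a + 1) l)) * T (a + l + 1) := by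
  have h1 : (D (a + 2) l : Hk R z) * Dm 0 a = Dm 0 a * D (a + 2) l :=
    (comm_D (m := a + 1) l (by omega) (Dm_mem (by omega))).symm
  have h2 := rowm (R := R) (z := z) a
  have h3 := rowp (R := R) (z := z) (a + 1) l
  rw [show a + 1 + 1 = a + 2 by omega, show a + 1 + l = a + l + 1 by omega] at h3
  have h4 : (D (a + 2) l : Hk R z) * T a = T a * D (a + 2) l :=
    (comm_D (m := a + 2) l le_rfl (T_mem (by omega))).symm
  have h5 : (Ti (a + 1) : Hk R z) * Dm 0 a = Dm 0 a * Ti (a + 1) :=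
    (comm_Ti (m := a + 1) le_rfl (Dm_mem (by omega))).symm
  have h6 : (D (a + 2) l : Hk R z) * Ti (a + 1) * 1 = D (a + 2) l * Ti (a + 1) := mul_one _
  have e1 : (Dm 1 a * D (a + 2) l * (Dm 0 a * D a (l + 1)) : Hk R z) =
      Dm 1 a * Dm 0 a * T a * (D (a + 2) l * D (a + 1) l) := by
    rw [D_succ']
    simp only [mul_assoc]
    rw [← mul_assoc (D (a + 2) l) (Dm 0 a), h1]
    simp only [mul_assoc]
    rw [← mul_assoc (D (a + 2) l) (T a), h4]
    simp only [mul_assoc]
  have e2 : (Dm 1 (a + 1) * D (a + 2) l * (Dm 0 a * D (a + 1) l) : Hk R z) =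
      Dm 1 a * Dm 0 a * Ti (a + 1) * (D (a + 2) l * D (a + 1) l) := by
    rw [Dm_succ, add_comm 1 a]
    simp only [mul_assoc]
    rw [← mul_assoc (D (a + 2) l) (Dm 0 a), h1]
    simp only [mul_assoc]
    rw [← mul_assoc (Ti (a + 1)) (Dm 0 a), h5]
    simp only [mul_assoc]
  rw [e1, e2]
  calc (Dm 1 a * Dm 0 a * T a * (D (a + 2) l * D (a + 1) l) : Hk R z)
      = Dm 1 a * Dm 0 a * T a * (Ti (a + 1) * T (a + 1)) * (D (a + 2) l * D (a + 1) l) := by
        rw [Ti_mul_T, mul_one]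
    _ = (Dm 1 a * Dm 0 a * T a) * Ti (a + 1) * (T (a + 1) * (D (a + 2) l * D (a + 1) l)) := by
        simp only [mul_assoc]
    _ = T 0 * (Dm 1 a * Dm 0 a) * Ti (a + 1) * (D (a + 2) l * D (a + 1) l * T (a + l + 1)) := by
        rw [← h2, ← h3]
    _ = _ := by simp only [mul_assoc]

theorem L2 (a l : ℕ) : (Dm 1 (a + 1) * D (a + 3) l * (Dm 0 a * D (a + 1) (l + 1)) : Hk R z) =
    Dm 1 a * Dm 0 a * (D (a + 3) l * D (a + 2) l) := by
  have h1 : (D (a + 3) l : Hk R z) * Dm 0 a = Dm 0 a * D (a + 3) l :=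
    (comm_D (m := a + 1) l (by omega) (Dm_mem (by omega))).symm
  have h5 : (Ti (a + 1) : Hk R z) * Dm 0 a = Dm 0 a * Ti (a + 1) :=
    (comm_Ti (m := a + 1) le_rfl (Dm_mem (by omega))).symm
  have h6 : (D (a + 3) l : Hk R z) * T (a + 1) = T (a + 1) * D (a + 3) l :=
    (comm_D (m := a + 3) l le_rfl (T_mem (by omega))).symm
  rw [Dm_succ, D_succ', add_comm 1 a]
  simp only [mul_assoc]
  rw [← mul_assoc (D (a + 3) l) (Dm 0 a), h1]
  simp only [mul_assoc]
  rw [← mul_assoc (D (a + 3) l) (T (a + 1)), h6, ← mul_assoc (Ti (a + 1)) (Dm 0 a), h5]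
  simp only [mul_assoc]
  rw [← mul_assoc (Ti (a + 1)) (T (a + 1)), Ti_mul_T, one_mul]

theorem L2_left (a l : ℕ) : (T 0 : Hk R z) * (Dm 1 a * Dm 0 a * (D (a + 3) l * D (a + 2) l)) =
    Dm 1 a * Dm 0 a * (D (a + 3) l * D (a + 2) l) * T a := by
  have h2 := rowm (R := R) (z := z) a
  have hT : (T a : Hk R z) ∈ HH R z (a + 2) := T_mem (by omega)
  have h3 := comm_D (z := z) l (show a + 2 ≤ a + 3 by omega) hT
  have h4 := comm_D (z := z) l (le_refl (a + 2)) hT
  rw [← mul_assoc (T 0), h2, mul_assoc (Dm 1 a * Dm 0 a) (T a), ← mul_assoc (T a), h3,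
    mul_assoc (D (a + 3) l), h4]
  simp only [mul_assoc]

theorem L2_right (a l : ℕ) : (Dm 1 a * Dm 0 a * (D (a + 3) l * D (a + 2) l) : Hk R z) *
    T (a + l + 2) = T (a + 2) * (Dm 1 a * Dm 0 a * (D (a + 3) l * D (a + 2) l)) := by
  have h3 := rowp (R := R) (z := z) (a + 2) l
  rw [show a + 2 + 1 = a + 3 by omega, show a + 2 + l = a + l + 2 by omega] at h3
  have hm : (Dm 1 a * Dm 0 a : Hk R z) ∈ HH R z (a + 2) :=
    mul_mem (Dm_mem (by omega)) (Dm_mem (by omega))
  have h4 := comm_T (le_refl (a + 2)) hm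
  rw [mul_assoc (Dm 1 a * Dm 0 a), h3, ← mul_assoc, h4, mul_assoc]

/-! ### Step 5 -/

theorem sand_last (s t : ℕ) (y a b : Hk R z) (w : Hk R z ⊗[R] Hk R z) :
    sand (sh s) (sh t) y ((a ⊗ₜ[R] 1) * (Algebra.TensorProduct.map (sh 1) (sh 1) w) *
      (1 ⊗ₜ[R] b)) = sh s a * sand (sh (s + 1)) (sh (t + 1)) y w * sh t b := by
  induction w using TensorProduct.induction_on with
  | zero => simp only [map_zero, mul_zero, zero_mul]
  | tmul c d =>
    rw [Algebra.TensorProduct.map_tmul, Algebra.TensorProduct.tmul_mul_tmul,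
      Algebra.TensorProduct.tmul_mul_tmul, sand_tmul, sand_tmul, one_mul, mul_one, map_mul,
      map_mul, sh_sh, sh_sh, add_comm 1 s, add_comm 1 t]
    simp only [mul_assoc]
  | add c d hc hd => simp only [map_add, mul_add, add_mul, hc, hd]

theorem Nm_last (hlast : CasLast R z) (n s t : ℕ) (y : Hk R z) :
    Nm (n + 1) (sh s) (sh t) y = ∑ i ∈ Finset.range (n + 1),
      sh s (E 0 i) * Nm n (sh (s + 1)) (sh (t + 1)) y * sh t (D 0 i) := by
  unfold Nm
  rw [hlast n, map_sum]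
  apply Finset.sum_congr rfl
  intro i _
  exact sand_last s t y _ _ _

theorem Nm_last_congr (hlast : CasLast R z) (n s t : ℕ) {y y' : Hk R z}
    (h : Nm n (sh (s + 1)) (sh (t + 1)) y = Nm n (sh (s + 1)) (sh (t + 1)) y') :
    Nm (n + 1) (sh s) (sh t) y = Nm (n + 1) (sh s) (sh t) y' := by
  rw [Nm_last hlast, Nm_last hlast, h]

/-- transport of an equality of norms -/
theorem Nm_transport (n s t : ℕ) {x y v : Hk R z}
    (hv : ∀ a ∈ HH R z n, v * sh t a = sh (t + 1) a * v)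
    (h : Nm n (sh s) (sh t) x = Nm n (sh s) (sh t) y) :
    Nm n (sh (s + 1)) (sh t) (sh 1 x * v) = Nm n (sh (s + 1)) (sh t) (sh 1 y * v) := by
  have key : ∀ x : Hk R z, Nm n (sh (s + 1)) (sh t) (sh 1 x * v) =
      sh 1 (Nm n (sh s) (sh t) x) * v := by
    intro x
    rw [Nm_pull_right (sh (s + 1)) (sh t) n (sh (t + 1)) hv (sh 1 x),
      Nm_map (sh s) (sh t) (sh 1) n x, sh_comp, sh_comp]
  rw [key, key, h]

/-- expansion over two steps -/
theorem VV_two_zero (p r : ℕ) : (VV p 0 (r + 2) : Hk R z) =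
    sh 2 (VV p 0 r) * (sh 1 (pj p 0) * pj p 0) := by
  rw [VV_zero_succ, VV_zero_succ, map_mul, sh_sh, mul_assoc]

theorem VV_two_one (p r : ℕ) : (VV p 1 (r + 2) : Hk R z) =
    sh 2 (VV p 1 r) * (sh 1 (pj p 1) * pj p 1) +
      sh 2 (VV p 0 r) * (sh 1 (bj p 0) * pj p 1 + sh 1 (pj p 0) * bj p 0) := by
  rw [VV_succ_succ p 0 (r + 1), VV_succ_succ p 0 r, VV_zero_succ, map_mul, map_add, map_mul,
    map_mul, sh_sh, sh_sh]
  simp only [zero_add, mul_add, add_mul, mul_assoc]
  abel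

theorem VV_two_two (p j r : ℕ) : (VV p (j + 2) (r + 2) : Hk R z) =
    sh 2 (VV p (j + 2) r) * (sh 1 (pj p (j + 2)) * pj p (j + 2)) +
      sh 2 (VV p (j + 1) r) * (sh 1 (bj p (j + 1)) * pj p (j + 2) +
        sh 1 (pj p (j + 1)) * bj p (j + 1)) +
      sh 2 (VV p j r) * (sh 1 (bj p j) * bj p (j + 1)) := by
  rw [VV_succ_succ p (j + 1) (r + 1), VV_succ_succ p (j + 1) r, VV_succ_succ p j r, map_add,
    map_add, map_mul, map_mul, map_mul, map_mul, sh_sh, sh_sh, sh_sh]
  simp only [mul_add, add_mul, mul_assoc]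
  abel

theorem T0_comm (y : Hk R z) : T 0 * sh 2 y = sh 2 y * T 0 :=
  comm_sh le_rfl (T_mem (by omega)) y

theorem term0 (p j : ℕ) (hj : j ≤ p) (y : Hk R z) :
    T 0 * (sh 2 y * (sh 1 (pj p j) * pj p j)) = sh 2 y * (sh 1 (pj p j) * pj p j) * T p := by
  obtain ⟨a, ha⟩ : ∃ a, p - j = a := ⟨_, rfl⟩
  have h := L0 (R := R) (z := z) a j
  rw [show a + j = p by omega] at h
  have e : (sh 1 (pj p j) * pj p j : Hk R z) = Dm 1 a * D (a + 1) j * (Dm 0 a * D a j) := by
    unfold pj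
    rw [ha, map_mul, sh_Dm, sh_D, zero_add]
  rw [e, ← mul_assoc, T0_comm, mul_assoc, h, ← mul_assoc]

theorem term1 (p j : ℕ) (hj : j < p) (y : Hk R z) :
    T 0 * (sh 2 y * (sh 1 (bj p j) * pj p (j + 1) + sh 1 (pj p j) * bj p j)) =
      sh 2 y * (sh 1 (bj p j) * pj p (j + 1) + sh 1 (pj p j) * bj p j) * T p := by
  obtain ⟨a, ha⟩ : ∃ a, p - (j + 1) = a := ⟨_, rfl⟩
  have h := L1 (R := R) (z := z) a j
  rw [show a + j + 1 = p by omega] at h
  have e1 : (sh 1 (bj p j) * pj p (j + 1) : Hk R z) =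
      Dm 1 a * D (a + 2) j * (Dm 0 a * D a (j + 1)) := by
    unfold pj bj
    rw [ha, map_mul, sh_Dm, sh_D, zero_add, add_assoc]
  have e2 : (sh 1 (pj p j) * bj p j : Hk R z) =
      Dm 1 (a + 1) * D (a + 2) j * (Dm 0 a * D (a + 1) j) := by
    unfold pj bj
    rw [ha, show p - j = a + 1 by omega, map_mul, sh_Dm, sh_D, zero_add, add_assoc]
  rw [e1, e2, h, ← mul_assoc, T0_comm, mul_assoc (sh 2 y), mul_assoc (sh 2 y)]
  congr 1
  generalize (Dm 1 (a + 1) * D (a + 2) j * (Dm 0 a * D (a + 1) j) : Hk R z) = X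
  rw [mul_add, add_mul, ← mul_assoc (T 0), ← mul_assoc (T 0), T_sq 0, mul_assoc (T 0 * X), T_sq p]
  simp only [add_mul, mul_add, one_mul, mul_one, smul_mul_assoc, mul_smul_comm]
  abel

theorem term2 (p j r : ℕ) (hj : j + 2 ≤ p) :
    Nm (j + 2) (sh (r + 2 + (p - (j + 2)))) (sh (p - (j + 2)))
      (T 0 * (sh 2 (VV p j r : Hk R z) * (sh 1 (bj p j) * bj p (j + 1)))) =
    Nm (j + 2) (sh (r + 2 + (p - (j + 2)))) (sh (p - (j + 2)))
      (sh 2 (VV p j r) * (sh 1 (bj p j) * bj p (j + 1)) * T p) := by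
  obtain ⟨a, ha⟩ : ∃ a, p - (j + 2) = a := ⟨_, rfl⟩
  have e1 : (sh 1 (bj p j) * bj p (j + 1) : Hk R z) =
      Dm 1 a * Dm 0 a * (D (a + 3) j * D (a + 2) j) := by
    rw [← L2]
    unfold bj
    rw [show p - (j + 1) = a + 1 by omega, show p - (j + 1 + 1) = a by omega, map_mul, sh_Dm,
      sh_D, zero_add]
  have h1 := L2_left (R := R) (z := z) a j
  have h2 := L2_right (R := R) (z := z) a j
  rw [show a + j + 2 = p by omega] at h2
  rw [e1, ha]
  generalize (Dm 1 a * Dm 0 a * (D (a + 3) j * D (a + 2) j) : Hk R z) = W at h1 h2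
  have h3 : sh 2 (VV p j r : Hk R z) * T (a + 2) = T (r + 2 + a) * sh 2 (VV p j r) := by
    have h := VV_left p j r (R := R) (z := z) (a := T a) (T_mem (by omega))
    have h' := congrArg (sh 2) h
    rw [map_mul, map_mul, sh_T, sh_T, sh_T] at h'
    rw [← h', show a + r + 2 = r + 2 + a by omega]
  have h4 : T 0 * (sh 2 (VV p j r : Hk R z) * W) = sh 2 (VV p j r) * W * sh a (T 0) := by
    rw [← mul_assoc, T0_comm, mul_assoc, h1, sh_T, zero_add, mul_assoc]
  have h5 : sh 2 (VV p j r : Hk R z) * W * T p =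
      sh (r + 2 + a) (T 0) * (sh 2 (VV p j r) * W) := by
    rw [mul_assoc, h2, ← mul_assoc, h3, sh_T, zero_add, mul_assoc]
  rw [h4, h5]
  exact (Nm_swap _ _ (j + 2) (T_mem (by omega)) _).symm

theorem VV_T (hlast : CasLast R z) (p j r k : ℕ) (hj : j ≤ p) (hk : k + 1 < r) :
    Nm j (sh (r + (p - j))) (sh (p - j)) (T k * VV p j r : Hk R z) =
      Nm j (sh (r + (p - j))) (sh (p - j)) (VV p j r * T (p + k)) := by
  induction r generalizing j k with
  | zero => omega
  | succ r ih =>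
    cases k with
    | zero =>
      obtain ⟨r, rfl⟩ : ∃ r', r = r' + 1 := ⟨r - 1, by omega⟩
      rw [add_zero, show r + 1 + 1 = r + 2 by omega]
      rcases j with _ | _ | j
      · rw [VV_two_zero, term0 p 0 hj]
      · rw [zero_add, VV_two_one, mul_add, term0 p 1 hj, term1 p 0 (by omega), add_mul]
      · rw [show j + 1 + 1 = j + 2 by omega, VV_two_two, mul_add, mul_add, term0 p (j + 2) hj,
          term1 p (j + 1) (by omega), add_mul, add_mul, Nm_add, Nm_add, Nm_add, Nm_add,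
          term2 p j r hj]
    | succ k =>
      have hpj : ∀ j, j ≤ p → (pj p j : Hk R z) * T (p + (k + 1)) = T (p + (k + 1)) * pj p j :=
        fun j hj => comm_T (by omega) (pj_mem hj)
      have hbj : ∀ j, j < p → (bj p j : Hk R z) * T (p + (k + 1)) = T (p + (k + 1)) * bj p j :=
        fun j hj => comm_T (by omega) (bj_mem hj)
      have e1 : ∀ j, ∀ v : Hk R z, T (k + 1) * (sh 1 (VV p j r) * v) =
          sh 1 (T k * VV p j r) * v := by
        intro j v
        rw [map_mul, sh_T, mul_assoc]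
      have e2 : ∀ j, ∀ v : Hk R z, v * T (p + (k + 1)) = T (p + (k + 1)) * v →
          sh 1 (VV p j r) * v * T (p + (k + 1)) = sh 1 (VV p j r * T (p + k)) * v := by
        intro j v hv
        rw [map_mul, sh_T, mul_assoc, hv, mul_assoc, add_assoc]
      have a1 : ∀ j, j ≤ p → Nm j (sh (r + 1 + (p - j))) (sh (p - j))
          (T (k + 1) * (sh 1 (VV p j r) * pj p j) : Hk R z) =
          Nm j (sh (r + 1 + (p - j))) (sh (p - j))
            (sh 1 (VV p j r) * pj p j * T (p + (k + 1))) := by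
        intro j hj
        rw [e1, e2 _ _ (hpj j hj), show r + 1 + (p - j) = r + (p - j) + 1 by omega]
        exact Nm_transport j _ _ (fun a ha => pj_right ha) (ih j k hj (by omega))
      have a2 : ∀ j, j < p → Nm (j + 1) (sh (r + 1 + (p - (j + 1)))) (sh (p - (j + 1)))
          (T (k + 1) * (sh 1 (VV p j r) * bj p j) : Hk R z) =
          Nm (j + 1) (sh (r + 1 + (p - (j + 1)))) (sh (p - (j + 1)))
            (sh 1 (VV p j r) * bj p j * T (p + (k + 1))) := by
        intro j hj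
        apply Nm_last_congr hlast
        rw [e1, e2 _ _ (hbj j hj), show p - (j + 1) + 1 = p - j by omega,
          show r + 1 + (p - (j + 1)) + 1 = r + (p - j) + 1 by omega]
        exact Nm_transport j _ _ (fun a ha => bj_right hj ha) (ih j k hj.le (by omega))
      cases j with
      | zero =>
        rw [VV_zero_succ]
        exact a1 0 hj
      | succ j =>
        rw [VV_succ_succ, mul_add, add_mul, Nm_add, Nm_add, a1 (j + 1) hj, a2 j hj]

/-- the norm over the last `j` strands -/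
noncomputable def FF (p j r : ℕ) : Hk R z := Nm j (sh (r + (p - j))) (sh (p - j)) (VV p j r)

theorem FF_T (hlast : CasLast R z) (p j r k : ℕ) (hj : j ≤ p) (hk : k + 1 < r) :
    (T k : Hk R z) * FF p j r = FF p j r * T (p + k) := by
  have h1 : ∀ x ∈ HH R z j, sh (r + (p - j)) x * T k = T k * sh (r + (p - j)) x := by
    intro x _
    exact (comm_sh (by omega) (T_mem (i := k) (n := k + 2) (by omega)) x).symm
  have h2 : ∀ x ∈ HH R z j, sh (p - j) x * T (p + k) = T (p + k) * sh (p - j) x := by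
    intro x hx
    have h := sh_mem (k := p - j) hx
    rw [show j + (p - j) = p by omega] at h
    exact comm_T (by omega) h
  unfold FF
  have h3 := Nm_pull (sh (r + (p - j))) (sh (p - j)) j h1 (v := 1)
    (fun x _ => by rw [mul_one, one_mul]) (VV p j r)
  have h4 := Nm_pull (sh (r + (p - j))) (sh (p - j)) j (u := 1)
    (fun x _ => by rw [mul_one, one_mul]) h2 (VV p j r)
  rw [mul_one, mul_one] at h3
  rw [one_mul, one_mul] at h4
  rw [← h3, ← h4]
  exact VV_T hlast p j r k hj hk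

theorem FF_mem (p j r : ℕ) (hj : j ≤ p) (hr : 0 < r) : (FF p j r : Hk R z) ∈ HH R z (p + r) := by
  have h := Nm_mem (sh (r + (p - j))) (sh (p - j)) j (VV p j r : Hk R z)
  have hle : Submodule.span R {w : Hk R z | ∃ a ∈ HH R z j, ∃ b ∈ HH R z j,
      w = sh (r + (p - j)) a * VV p j r * sh (p - j) b} ≤
      Subalgebra.toSubmodule (HH R z (p + r)) := by
    rw [Submodule.span_le]
    rintro w ⟨a, ha, b, hb, rfl⟩
    have h1 := sh_mem (k := r + (p - j)) ha
    rw [show j + (r + (p - j)) = p + r by omega] at h1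
    have h2 := sh_mem (k := p - j) hb
    have h3 : sh (p - j) b ∈ HH R z (p + r) := HH_mono (by omega) h2
    exact (mul_mem (mul_mem h1 (VV_mem p j r hj)) h3 :
      sh (r + (p - j)) a * VV p j r * sh (p - j) b ∈ HH R z (p + r))
  exact hle h

/-! ### Step 6 -/

theorem step6_aux (p j : ℕ) (hj : j ≤ p) (V : Hk R z) {u : Hk R z} (u' : Hk R z)
    (hu : u ∈ HH R z (p - j)) {w : Hk R z ⊗[R] Hk R z}
    (hw : w ∈ Submodule.span R {w | ∃ a ∈ HH R z j, ∃ b ∈ HH R z j, w = a ⊗ₜ[R] b}) :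
    Nm p (sh p) (AlgHom.id R _) (sand (sh (p + (p - j))) (sh (p - j)) V w *
      (u * sh (p - j) u')) =
    Nm p (sh p) (AlgHom.id R _) (V * u * sh (p - j)
      (sand (AlgHom.id R _) (AlgHom.id R _) u' (TensorProduct.comm R _ _ w))) := by
  induction hw using Submodule.span_induction with
  | mem w hw =>
    obtain ⟨a, ha, b, hb, rfl⟩ := hw
    rw [TensorProduct.comm_tmul, sand_tmul, sand_tmul]
    have h1 : sh (p + (p - j)) a = sh p (sh (p - j) a) := by rw [sh_sh, add_comm]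
    have h2 : sh (p - j) a ∈ HH R z p := by
      have := sh_mem (k := p - j) ha
      rwa [show j + (p - j) = p by omega] at this
    rw [h1]
    have h3 := Nm_swap (sh p) (AlgHom.id R (Hk R z)) p h2
      (V * sh (p - j) b * (u * sh (p - j) u'))
    rw [show sh p (sh (p - j) a) * V * sh (p - j) b * (u * sh (p - j) u') =
      sh p (sh (p - j) a) * (V * sh (p - j) b * (u * sh (p - j) u')) by simp only [mul_assoc],
      h3]
    congr 1
    simp only [AlgHom.id_apply, map_mul]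
    have h4 : sh (p - j) b * u = u * sh (p - j) b := (comm_sh le_rfl hu b).symm
    simp only [mul_assoc]
    rw [← mul_assoc (sh (p - j) b) u, h4, mul_assoc]
  | zero => simp only [map_zero, zero_mul, mul_zero]
  | add x y _ _ hx hy => simp only [map_add, add_mul, mul_add, Nm_add, hx, hy]
  | smul r x _ hx =>
    simp only [map_smul, smul_mul_assoc, mul_smul_comm, Nm_smul, hx]

theorem step6 (hflip : CasFlip R z) (p j : ℕ) (hj : j ≤ p) {u u' : Hk R z}
    (hu : u ∈ HH R z (p - j)) (hN : N j u' = 1) :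
    Nm p (sh p) (AlgHom.id R _) (FF p j p * (u * sh (p - j) u')) =
    Nm p (sh p) (AlgHom.id R _) (VV p j p * u) := by
  have h := step6_aux p j hj (VV p j p) u' hu (cas_mem (R := R) (z := z) j)
  rw [hflip j] at h
  have h2 : sand (AlgHom.id R _) (AlgHom.id R _) u' (Cas R z j) = N j u' := rfl
  rw [h2, hN, map_one, mul_one] at h
  exact h

theorem main (hflip : CasFlip R z) (hlast : CasLast R z) (p : ℕ) (hp : 0 < p)
    (hS : ∀ k, 0 < k → k < p → ∃ u ∈ HH R z k, N k u = 1) :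
    ∃ y : ℕ → Hk R z, (∀ j, y j ∈ HH R z (p + p)) ∧
      (∀ j, ∀ a ∈ HH R z p, a * y j = y j * sh p a) ∧
      (Xp p p : Hk R z) = Xm p p + ∑ j ∈ Finset.Ico 1 p, z ^ j • Nm p (sh p) (AlgHom.id R _) (y j) +
        z ^ p • Nm p (sh p) (AlgHom.id R _) 1 := by
  have hS' : ∀ k, ∃ u, 0 < k → k < p → u ∈ HH R z k ∧ N k u = 1 := by
    intro k
    by_cases h : 0 < k ∧ k < p
    · obtain ⟨u, h1, h2⟩ := hS k h.1 h.2
      exact ⟨u, fun _ _ => ⟨h1, h2⟩⟩
    · exact ⟨1, fun h1 h2 => absurd ⟨h1, h2⟩ h⟩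
  choose U hU using hS'
  refine ⟨fun j => if 0 < j ∧ j < p then FF p j p * (U (p - j) * sh (p - j) (U j)) else 0,
    ?_, ?_, ?_⟩
  · intro j
    simp only
    split_ifs with h
    · have h1 := (hU (p - j) (by omega) (by omega)).1
      have h2 := sh_mem (k := p - j) (hU j h.1 h.2).1
      exact mul_mem (FF_mem p j p (by omega) hp)
        (mul_mem (HH_mono (by omega) h1) (HH_mono (by omega) h2))
    · exact zero_mem _
  · intro j
    simp only
    split_ifs with h
    · have h1 := (hU (p - j) (by omega) (by omega)).1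
      have h2 := sh_mem (k := p - j) (hU j h.1 h.2).1
      rw [show j + (p - j) = p by omega] at h2
      have h3 : U (p - j) * sh (p - j) (U j) ∈ HH R z p :=
        mul_mem (HH_mono (by omega) h1) h2
      intro a ha
      refine HH_induction (P := fun a => a * (FF p j p * (U (p - j) * sh (p - j) (U j))) =
        FF p j p * (U (p - j) * sh (p - j) (U j)) * sh p a) ?_ ?_ ?_ ?_ ha
      · intro c
        rw [AlgHom.commutes]
        exact Algebra.commutes _ _
      · intro i hi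
        have h4 : U (p - j) * sh (p - j) (U j) * T (p + i) =
            T (p + i) * (U (p - j) * sh (p - j) (U j)) := comm_T (by omega) h3
        rw [← mul_assoc, FF_T hlast p j p i (by omega) hi, mul_assoc, sh_T, add_comm i p, ← h4]
        simp only [mul_assoc]
      · intro x y hx hy
        rw [add_mul, map_add, mul_add, hx, hy]
      · intro x y hx hy
        rw [mul_assoc, hy, ← mul_assoc, hx, map_mul, mul_assoc]
    · intro a _
      rw [mul_zero, zero_mul]
  · rw [Xp_expand, Finset.sum_range_succ, Finset.range_eq_Ico,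
      Finset.sum_eq_sum_Ico_succ_bot hp, RR_zero, pow_zero, one_smul, VV_zero]
    congr 1
    · congr 1
      apply Finset.sum_congr rfl
      intro j hj
      rw [Finset.mem_Ico] at hj
      simp only
      rw [if_pos ⟨by omega, hj.2⟩]
      congr 1
      rw [step6 hflip p j hj.2.le (hU (p - j) (by omega) (by omega)).1 (hU j (by omega) hj.2).2]
      exact RR_eq_Nm p p j hj.2.le (fun a ha => VV_left p j p ha)
        (hU (p - j) (by omega) (by omega)).2
    · congr 1
      rw [VV_diag p p le_rfl, Nat.sub_self, Xm_self_zero]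
      have h := RR_Nm p p p le_rfl (1 : Hk R z)
      rw [Nat.sub_self, Nm_zero] at h
      exact h

end Cross

theorem cross_decomp (hflip : CasFlip R z) (hlast : CasLast R z) (p : ℕ) (hp : 0 < p)
    (hS : ∀ k, 0 < k → k < p → ∃ u ∈ HH R z k, N k u = 1) :
    ∃ y : ℕ → Hk R z, (∀ j, y j ∈ HH R z (p + p)) ∧
      (∀ j, ∀ a ∈ HH R z p, a * y j = y j * sh p a) ∧
      (Xp p p : Hk R z) = Xm p p + ∑ j ∈ Finset.Ico 1 p, z ^ j • Nm p (sh p) (AlgHom.id R _) (y j) +
        z ^ p • Nm p (sh p) (AlgHom.id R _) 1 := Cross.main hflip hlast p hp hS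

end Pool.Agent.Lib.Hecke59
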