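import Pool.Agent.Lib.Hecke59.Markov
import Pool.Agent.Lib.Hecke59.Block

/-! Closing a block of strands. -/

namespace Pool.Agent.Lib.Hecke59

open scoped TensorProduct

universe u v

variable {R : Type u} [CommRing R] {z : R} {V : Type v} [CommRing V] [Algebra R V]

/-- Closing `k` strands. -/
noncomputable def extn (δ κ : V) (m : ℕ) : ℕ → (Hk R z →ₗ[R] V) → (Hk R z →ₗ[R] V)
  | 0, g => g
  | k + 1, g => ext δ κ (m + k) (extn δ κ m k g)

theorem extn_succ (δ κ : V) (m k : ℕ) (g : Hk R z →ₗ[R] V) :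
    extn δ κ m (k + 1) g = ext δ κ (m + k) (extn δ κ m k g) := rfl

theorem extn_bimod (δ κ : V) (m k : ℕ) (g : Hk R z →ₗ[R] V) {a b : Hk R z} (ha : a ∈ HH R z m)
    (hb : b ∈ HH R z m) (x : Hk R z) :
    extn δ κ m k g (a * x * b) =
      extn δ κ m k (g ∘ₗ (LinearMap.mulLeft R a ∘ₗ LinearMap.mulRight R b)) x := by
  induction k generalizing x with
  | zero =>
    show g (a * x * b) = g (a * (x * b))
    rw [mul_assoc]
  | succ k ih =>
    rw [extn_succ, extn_succ, ext_bimod δ κ (m + k) _ (HH_mono (by omega) ha)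
      (HH_mono (by omega) hb)]
    congr 2
    apply LinearMap.ext
    intro y
    rw [← ih y]
    show extn δ κ m k g (a * (y * b)) = _
    rw [mul_assoc]

/-- the closure of a strand depends only on the functional on the algebra -/
theorem ext_congr (δ κ : V) (m : ℕ) {g g' : Hk R z →ₗ[R] V} (h : ∀ a ∈ HH R z m, g a = g' a)
    {x : Hk R z} (hx : x ∈ HH R z (m + 1)) : ext δ κ m g x = ext δ κ m g' x := by
  cases m with
  | zero =>
    obtain ⟨r, rfl⟩ := mem_HH_one.1 hx
    have h0 : algebraMap R (Hk R z) r ∈ HH R z 0 := algebraMap_mem _ _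
    rw [ext_of_mem δ κ 0 g h0, ext_of_mem δ κ 0 g' h0, h _ h0]
  | succ m =>
    refine HH_succ_induction (P := fun x => ext δ κ (m + 1) g x = ext δ κ (m + 1) g' x) ?_ ?_ ?_ hx
    · intro x hx
      rw [ext_of_mem δ κ _ g hx, ext_of_mem δ κ _ g' hx, h _ hx]
    · intro x y hx hy
      rw [map_add, map_add, hx, hy]
    · intro a ha b hb
      rw [ext_T δ κ m g ha hb, ext_T δ κ m g' ha hb, h _ (mul_mem ha hb)]

theorem extn_congr (δ κ : V) (m k : ℕ) {g g' : Hk R z →ₗ[R] V} (h : ∀ a ∈ HH R z m, g a = g' a)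
    {x : Hk R z} (hx : x ∈ HH R z (m + k)) : extn δ κ m k g x = extn δ κ m k g' x := by
  induction k generalizing x with
  | zero => exact h x hx
  | succ k ih => exact ext_congr δ κ (m + k) (fun a ha => ih ha) hx

theorem extn_Xp_aux (δ κ : V) (p : ℕ) (hp : 0 < p) (g : Hk R z →ₗ[R] V) (n : ℕ) {x : Hk R z}
    (hx : x ∈ HH R z p) {y : Hk R z} (hy : y ∈ HH R z p) :
    extn δ κ p n g (x * Xp p n * y) = κ ^ n * g (x * D 0 (p - 1) ^ n * y) := by
  induction n generalizing y with
  | zero =>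
    rw [pow_zero, pow_zero, one_mul]
    rfl
  | succ n ih =>
    obtain ⟨p', rfl⟩ : ∃ p', p = p' + 1 := ⟨p - 1, by omega⟩
    have hc : (D 0 p' : Hk R z) ∈ HH R z (p' + 1) := D_mem (by omega)
    have e1 : x * Xp (p' + 1) (n + 1) * y =
        (x * D n p') * T (p' + n) * (Xp (p' + 1) n * y) := by
      show x * (D n (p' + 1) * Xp (p' + 1) n) * y = _
      rw [D_succ, show n + p' = p' + n by omega]
      simp only [mul_assoc]
    have ha : x * D n p' ∈ HH R z (p' + n + 1) :=
      mul_mem (HH_mono (by omega) hx) (D_mem (by omega))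
    have hb : Xp (p' + 1) n * y ∈ HH R z (p' + n + 1) := by
      refine mul_mem ?_ (HH_mono (by omega) hy)
      have := Xp_mem (R := R) (z := z) (p' + 1) n
      rwa [show p' + 1 + n = p' + n + 1 by omega] at this
    have e2 : x * D n p' * (Xp (p' + 1) n * y) = x * Xp (p' + 1) n * (D 0 p' * y) := by
      have := Xp_mul (n := n) hc
      rw [sh_D, zero_add] at this
      calc x * D n p' * (Xp (p' + 1) n * y) = x * (D n p' * Xp (p' + 1) n) * y := by
            simp only [mul_assoc]
        _ = _ := by rw [← this]; simp only [mul_assoc]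
    rw [extn_succ, e1, show p' + 1 + n = p' + n + 1 by omega, ext_T δ κ (p' + n) _ ha hb, e2,
      ih (mul_mem hc hy), Nat.add_sub_cancel, pow_succ κ, pow_succ (D 0 p')]
    rw [mul_comm (κ ^ n) κ, mul_assoc κ]
    simp only [mul_assoc]

theorem extn_Xp (δ κ : V) (p : ℕ) (hp : 0 < p) (g : Hk R z →ₗ[R] V) {x : Hk R z}
    (hx : x ∈ HH R z p) :
    extn δ κ p p g (x * Xp p p) = κ ^ p * g (x * D 0 (p - 1) ^ p) := by
  have := extn_Xp_aux δ κ p hp g p hx (one_mem _)
  rwa [mul_one, mul_one] at this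

theorem extn_Xm_aux (δ κ : V) (p : ℕ) (hp : 0 < p) (g : Hk R z →ₗ[R] V) (n : ℕ) {x : Hk R z}
    (hx : x ∈ HH R z p) {y : Hk R z} (hy : y ∈ HH R z p) :
    extn δ κ p n g (x * Xm p n * y) =
      (κ - algebraMap R V z * δ) ^ n * g (x * Dm 0 (p - 1) ^ n * y) := by
  induction n generalizing y with
  | zero =>
    rw [pow_zero, pow_zero, one_mul]
    rfl
  | succ n ih =>
    obtain ⟨p', rfl⟩ : ∃ p', p = p' + 1 := ⟨p - 1, by omega⟩
    have hc : (Dm 0 p' : Hk R z) ∈ HH R z (p' + 1) := Dm_mem (by omega)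
    have e1 : x * Xm (p' + 1) (n + 1) * y =
        (x * Dm n p') * Ti (p' + n) * (Xm (p' + 1) n * y) := by
      show x * (Dm n (p' + 1) * Xm (p' + 1) n) * y = _
      rw [Dm_succ, show n + p' = p' + n by omega]
      simp only [mul_assoc]
    have ha : x * Dm n p' ∈ HH R z (p' + n + 1) :=
      mul_mem (HH_mono (by omega) hx) (Dm_mem (by omega))
    have hb : Xm (p' + 1) n * y ∈ HH R z (p' + n + 1) := by
      refine mul_mem ?_ (HH_mono (by omega) hy)
      have := Xm_mem (R := R) (z := z) (p' + 1) n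
      rwa [show p' + 1 + n = p' + n + 1 by omega] at this
    have e2 : x * Dm n p' * (Xm (p' + 1) n * y) = x * Xm (p' + 1) n * (Dm 0 p' * y) := by
      have := Xm_mul (n := n) hc
      rw [sh_Dm, zero_add] at this
      calc x * Dm n p' * (Xm (p' + 1) n * y) = x * (Dm n p' * Xm (p' + 1) n) * y := by
            simp only [mul_assoc]
        _ = _ := by rw [← this]; simp only [mul_assoc]
    rw [extn_succ, e1, show p' + 1 + n = p' + n + 1 by omega, ext_Ti δ κ (p' + n) _ ha hb, e2,
      ih (mul_mem hc hy), Nat.add_sub_cancel, pow_succ (κ - algebraMap R V z * δ),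
      pow_succ (Dm 0 p')]
    rw [mul_comm ((κ - algebraMap R V z * δ) ^ n) (κ - algebraMap R V z * δ),
      mul_assoc (κ - algebraMap R V z * δ)]
    simp only [mul_assoc]

theorem extn_Xm (δ κ : V) (p : ℕ) (hp : 0 < p) (g : Hk R z →ₗ[R] V) {x : Hk R z}
    (hx : x ∈ HH R z p) :
    extn δ κ p p g (x * Xm p p) =
      (κ - algebraMap R V z * δ) ^ p * g (x * Dm 0 (p - 1) ^ p) := by
  have := extn_Xm_aux δ κ p hp g p hx (one_mem _)
  rwa [mul_one, mul_one] at this

theorem extn_comm_left (δ κ : V) (m k : ℕ) (g : Hk R z →ₗ[R] V) (hg : IsTr m g) {u y : Hk R z}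
    (hu : u ∈ HH R z (m + k)) (hy : y ∈ HH R z m) :
    extn δ κ m k g (u * y) = extn δ κ m k g (y * u) := by
  have h1 := extn_bimod δ κ m k g (one_mem _) hy u
  have h2 := extn_bimod δ κ m k g hy (one_mem _) u
  rw [one_mul] at h1
  rw [mul_one] at h2
  rw [h1, h2]
  refine extn_congr δ κ m k (fun a ha => ?_) hu
  show g (1 * (a * y)) = g (y * (a * 1))
  rw [one_mul, mul_one]
  exact hg a ha y hy

theorem extn_comm_T (δ κ : V) (m k j : ℕ) (hj : j + 1 < k) (g : Hk R z →ₗ[R] V) {u : Hk R z}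
    (hu : u ∈ HH R z (m + k)) :
    extn δ κ m k g (u * T (j + m)) = extn δ κ m k g (T (j + m) * u) := by
  induction k generalizing u with
  | zero => omega
  | succ k ih =>
    rcases Nat.lt_or_ge (j + 1) k with h | h
    · have hT : (T (j + m) : Hk R z) ∈ HH R z (m + k) := T_mem (by omega)
      rw [extn_succ]
      have h1 := ext_bimod δ κ (m + k) (extn δ κ m k g) (one_mem _) hT u
      have h2 := ext_bimod δ κ (m + k) (extn δ κ m k g) hT (one_mem _) u
      rw [one_mul] at h1
      rw [mul_one] at h2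
      rw [h1, h2]
      refine ext_congr δ κ (m + k) (fun a ha => ?_) hu
      show extn δ κ m k g (1 * (a * T (j + m))) = extn δ κ m k g (T (j + m) * (a * 1))
      rw [one_mul, mul_one]
      exact ih h ha
    · have hk : k = j + 1 := by omega
      subst hk
      have := ext_ext_T δ κ (m + j) (extn δ κ m j g) (x := u)
        (by rwa [show m + j + 2 = m + (j + 1 + 1) by omega])
      rw [show m + j = j + m by omega] at this
      rw [extn_succ, extn_succ, show m + (j + 1) = j + m + 1 by omega, show m + j = j + m by omega]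
      exact this

theorem extn_comm_sh (δ κ : V) (m k : ℕ) (g : Hk R z →ₗ[R] V) {u y : Hk R z}
    (hu : u ∈ HH R z (m + k)) (hy : y ∈ HH R z k) :
    extn δ κ m k g (u * sh m y) = extn δ κ m k g (sh m y * u) := by
  revert u
  refine HH_induction_left (P := fun y => ∀ {u : Hk R z}, u ∈ HH R z (m + k) →
    extn δ κ m k g (u * sh m y) = extn δ κ m k g (sh m y * u)) ?_ ?_ ?_ ?_ hy
  · intro u _
    rw [map_one, mul_one, one_mul]
  · intro r x ih u hu
    rw [map_smul (sh m), mul_smul_comm, smul_mul_assoc, map_smul, map_smul, ih hu]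
  · intro x y hx hy u hu
    rw [map_add (sh m), mul_add, add_mul, map_add, map_add, hx hu, hy hu]
  · intro j hj x hx ih u hu
    have hT : (T (j + m) : Hk R z) ∈ HH R z (m + k) := T_mem (by omega)
    have hx' : sh m x ∈ HH R z (m + k) := by
      have := sh_mem (k := m) hx
      rwa [add_comm] at this
    rw [map_mul (sh m), sh_T, ← mul_assoc, ih (mul_mem hu hT), ← mul_assoc,
      extn_comm_T δ κ m k j hj g (mul_mem hx' hu), mul_assoc]

theorem extn_D (δ κ : V) (m k : ℕ) (g : Hk R z →ₗ[R] V) {x : Hk R z} (hx : x ∈ HH R z m) :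
    extn δ κ m (k + 1) g (x * D m k) = κ ^ k * δ * g x := by
  induction k with
  | zero =>
    rw [D_zero, mul_one, extn_succ, add_zero, ext_of_mem δ κ m _ hx, pow_zero, one_mul]
    rfl
  | succ k ih =>
    have ha : x * D m k ∈ HH R z (m + k + 1) :=
      mul_mem (HH_mono (by omega) hx) (D_mem (by omega))
    have h := ext_T δ κ (m + k) (extn δ κ m (k + 1) g) ha (one_mem _)
    rw [mul_one, mul_one, ih] at h
    rw [extn_succ, D_succ, ← mul_assoc x, ← add_assoc m k 1, h, pow_succ]
    ring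

theorem extn_AA (δ κ : V) (m k : ℕ) (hk : 0 < k) (g : Hk R z →ₗ[R] V) {x : Hk R z}
    (hx : x ∈ HH R z m) :
    extn δ κ m k g (x * sh m (AA k)) =
      (∑ j ∈ Finset.range k, κ ^ j * (κ - algebraMap R V z * δ) ^ (k - 1 - j)) * δ * g x := by
  obtain ⟨k, rfl⟩ : ∃ k', k = k' + 1 := ⟨k - 1, by omega⟩
  clear hk
  induction k with
  | zero =>
    have := extn_D δ κ m 0 g hx
    rw [D_zero, mul_one, pow_zero] at this
    rw [AA_one, map_one, mul_one, this]
    simp
  | succ k ih =>
    have hA : sh m (AA (k + 1) : Hk R z) ∈ HH R z (m + k + 1) := by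
      have := sh_mem (k := m) (AA_mem (R := R) (z := z) (k + 1))
      rwa [show k + 1 + m = m + k + 1 by omega] at this
    have ha : x * sh m (AA (k + 1)) ∈ HH R z (m + k + 1) := mul_mem (HH_mono (by omega) hx) hA
    have h1 := ext_Ti δ κ (m + k) (extn δ κ m (k + 1) g) ha (one_mem _)
    rw [mul_one, mul_one, ih] at h1
    have h2 := extn_D δ κ m (k + 1) g hx
    have e1 : x * sh m (AA (k + 1 + 1) : Hk R z) =
        x * sh m (AA (k + 1)) * Ti (m + k) + x * D m (k + 1) := by
      rw [AA_succ, map_add, map_mul, sh_Ti, sh_D, zero_add, mul_add, add_comm k m, mul_assoc]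
    rw [e1, map_add, h2, extn_succ, ← add_assoc m k 1, h1,
      Finset.sum_range_succ (n := k + 1)]
    have e2 : ∑ j ∈ Finset.range (k + 1), κ ^ j *
        (κ - algebraMap R V z * δ) ^ (k + 1 + 1 - 1 - j) = (κ - algebraMap R V z * δ) *
        ∑ j ∈ Finset.range (k + 1), κ ^ j * (κ - algebraMap R V z * δ) ^ (k + 1 - 1 - j) := by
      rw [Finset.mul_sum]
      refine Finset.sum_congr rfl fun j hj => ?_
      rw [Finset.mem_range] at hj
      rw [show k + 1 + 1 - 1 - j = (k + 1 - 1 - j) + 1 by omega, pow_succ]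
      ring
    rw [e2, show k + 1 + 1 - 1 - (k + 1) = 0 by omega, pow_zero, mul_one]
    ring

end Pool.Agent.Lib.Hecke59
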