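import Pool.Agent.Lib.Hecke59.Act

/-! Further definitions: decorations, symmetrisers, block crossings, the trace `tau`. -/

namespace Pool.Agent.Lib.Hecke59

open scoped TensorProduct

universe u v

variable {R : Type u} [CommRing R] {z : R}

theorem D_succ (i k : ℕ) : (D i (k + 1) : Hk R z) = D i k * T (i + k) := rfl
theorem E_succ (i k : ℕ) : (E i (k + 1) : Hk R z) = T (i + k) * E i k := rfl
theorem Dm_succ (i k : ℕ) : (Dm i (k + 1) : Hk R z) = Dm i k * Ti (i + k) := rfl
theorem Em_succ (i k : ℕ) : (Em i (k + 1) : Hk R z) = Ti (i + k) * Em i k := rfl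
@[simp] theorem D_zero (i : ℕ) : (D i 0 : Hk R z) = 1 := rfl
@[simp] theorem E_zero (i : ℕ) : (E i 0 : Hk R z) = 1 := rfl
@[simp] theorem Dm_zero (i : ℕ) : (Dm i 0 : Hk R z) = 1 := rfl
@[simp] theorem Em_zero (i : ℕ) : (Em i 0 : Hk R z) = 1 := rfl

theorem D_succ' (i k : ℕ) : (D i (k + 1) : Hk R z) = T i * D (i + 1) k := by
  induction k with
  | zero => simp [D]
  | succ k ih => rw [D_succ, ih, D_succ, mul_assoc, show i + 1 + k = i + (k + 1) by omega]

theorem E_succ' (i k : ℕ) : (E i (k + 1) : Hk R z) = E (i + 1) k * T i := by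
  induction k with
  | zero => simp [E]
  | succ k ih => rw [E_succ, ih, E_succ, mul_assoc, show i + 1 + k = i + (k + 1) by omega]

theorem Dm_succ' (i k : ℕ) : (Dm i (k + 1) : Hk R z) = Ti i * Dm (i + 1) k := by
  induction k with
  | zero => simp [Dm]
  | succ k ih => rw [Dm_succ, ih, Dm_succ, mul_assoc, show i + 1 + k = i + (k + 1) by omega]

theorem Em_succ' (i k : ℕ) : (Em i (k + 1) : Hk R z) = Em (i + 1) k * Ti i := by
  induction k with
  | zero => simp [Em]
  | succ k ih => rw [Em_succ, ih, Em_succ, mul_assoc, show i + 1 + k = i + (k + 1) by omega]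

theorem D_add (i k l : ℕ) : (D i (k + l) : Hk R z) = D i k * D (i + k) l := by
  induction l with
  | zero => simp
  | succ l ih => rw [← add_assoc, D_succ, ih, D_succ, mul_assoc, add_assoc]

theorem Dm_add (i k l : ℕ) : (Dm i (k + l) : Hk R z) = Dm i k * Dm (i + k) l := by
  induction l with
  | zero => simp
  | succ l ih => rw [← add_assoc, Dm_succ, ih, Dm_succ, mul_assoc, add_assoc]

theorem D_mem {i k n : ℕ} (h : k = 0 ∨ i + k < n) : (D i k : Hk R z) ∈ HH R z n := by
  induction k with
  | zero => exact one_mem _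
  | succ k ih => exact mul_mem (ih (by omega)) (T_mem (by omega))

theorem E_mem {i k n : ℕ} (h : k = 0 ∨ i + k < n) : (E i k : Hk R z) ∈ HH R z n := by
  induction k with
  | zero => exact one_mem _
  | succ k ih => exact mul_mem (T_mem (by omega)) (ih (by omega))

theorem Dm_mem {i k n : ℕ} (h : k = 0 ∨ i + k < n) : (Dm i k : Hk R z) ∈ HH R z n := by
  induction k with
  | zero => exact one_mem _
  | succ k ih => exact mul_mem (ih (by omega)) (Ti_mem (by omega))

theorem Em_mem {i k n : ℕ} (h : k = 0 ∨ i + k < n) : (Em i k : Hk R z) ∈ HH R z n := by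
  induction k with
  | zero => exact one_mem _
  | succ k ih => exact mul_mem (Ti_mem (by omega)) (ih (by omega))

@[simp] theorem sh_D (j i k : ℕ) : sh j (D i k : Hk R z) = D (i + j) k := by
  induction k with
  | zero => simp
  | succ k ih => rw [D_succ, map_mul, ih, sh_T, D_succ, show i + k + j = i + j + k by omega]

@[simp] theorem sh_E (j i k : ℕ) : sh j (E i k : Hk R z) = E (i + j) k := by
  induction k with
  | zero => simp
  | succ k ih => rw [E_succ, map_mul, ih, sh_T, E_succ, show i + k + j = i + j + k by omega]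

@[simp] theorem sh_Dm (j i k : ℕ) : sh j (Dm i k : Hk R z) = Dm (i + j) k := by
  induction k with
  | zero => simp
  | succ k ih => rw [Dm_succ, map_mul, ih, sh_Ti, Dm_succ, show i + k + j = i + j + k by omega]

@[simp] theorem sh_Em (j i k : ℕ) : sh j (Em i k : Hk R z) = Em (i + j) k := by
  induction k with
  | zero => simp
  | succ k ih => rw [Em_succ, map_mul, ih, sh_Ti, Em_succ, show i + k + j = i + j + k by omega]

@[simp] theorem rev_D (i k : ℕ) : rev (D i k : Hk R z) = E i k := by
  induction k with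
  | zero => simp
  | succ k ih => rw [D_succ, rev_mul, ih, rev_T, E_succ]

@[simp] theorem rev_E (i k : ℕ) : rev (E i k : Hk R z) = D i k := by
  rw [← rev_D, rev_rev]

theorem D_mul_Em (i k : ℕ) : (D i k : Hk R z) * Em i k = 1 := by
  induction k with
  | zero => simp
  | succ k ih =>
    rw [D_succ, Em_succ, mul_assoc, ← mul_assoc (T (i + k)), T_mul_Ti, one_mul, ih]

theorem Em_mul_D (i k : ℕ) : (Em i k : Hk R z) * D i k = 1 := by
  induction k with
  | zero => simp
  | succ k ih =>
    rw [D_succ', Em_succ', mul_assoc, ← mul_assoc (Ti i), Ti_mul_T, one_mul]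
    clear ih
    induction k generalizing i with
    | zero => simp
    | succ k ih => rw [D_succ', Em_succ', mul_assoc, ← mul_assoc (Ti _), Ti_mul_T, one_mul, ih]

/-- `T_j T_i ⋯ T_{i+k-1} = T_i ⋯ T_{i+k-1} T_{j-1}` for `i < j < i + k`. -/
theorem T_mul_D {i j k : ℕ} (h : i ≤ j) (h' : j + 1 < i + k) :
    (T (j + 1) : Hk R z) * D i k = D i k * T j := by
  induction k with
  | zero => omega
  | succ k ih =>
    rcases Nat.lt_or_ge (j + 1) (i + k) with h1 | h1
    · rw [D_succ, ← mul_assoc, ih h1, mul_assoc, mul_assoc,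
        T_comm (show j + 2 ≤ i + k by omega)]
    · obtain ⟨m, rfl⟩ : ∃ m, k = m + 1 := ⟨k - 1, by omega⟩
      have hj : j = i + m := by omega
      subst hj
      have hc : (D i m : Hk R z) * T (i + m + 1) = T (i + m + 1) * D i m :=
        comm_T (m := i + m + 1) le_rfl (D_mem (by omega))
      rw [D_succ, D_succ, show i + (m + 1) = i + m + 1 by omega]
      calc (T (i + m + 1) : Hk R z) * (D i m * T (i + m) * T (i + m + 1))
          = (T (i + m + 1) * D i m) * T (i + m) * T (i + m + 1) := by simp only [mul_assoc]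
        _ = D i m * (T (i + m + 1) * T (i + m) * T (i + m + 1)) := by
            rw [← hc]; simp only [mul_assoc]
        _ = D i m * (T (i + m) * T (i + m + 1) * T (i + m)) := by rw [T_braid]
        _ = _ := by simp only [mul_assoc]

/-- `T_{i+k-1} ⋯ T_i T_{j+1} = T_j T_{i+k-1} ⋯ T_i` for `i ≤ j`, `j + 1 < i + k`. -/
theorem E_mul_T {i j k : ℕ} (h : i ≤ j) (h' : j + 1 < i + k) :
    (E i k : Hk R z) * T (j + 1) = T j * E i k := by
  have := congrArg (fun x => rev x) (T_mul_D (R := R) (z := z) h h')
  simpa [rev_mul] using this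

theorem AA_one : (AA 1 : Hk R z) = 1 := rfl
theorem AA_succ (k : ℕ) : (AA (k + 2) : Hk R z) = AA (k + 1) * Ti k + D 0 (k + 1) := rfl

theorem AA_mem (k : ℕ) : (AA k : Hk R z) ∈ HH R z k := by
  induction k with
  | zero => exact zero_mem _
  | succ k ih =>
    cases k with
    | zero => exact one_mem _
    | succ k =>
      rw [AA_succ]
      exact add_mem (mul_mem (HH_mono (by omega) ih) (Ti_mem (by omega))) (D_mem (by omega))

/-- `AAl [k_r, ..., k_1] = AA k_1 ⊗ ⋯ ⊗ AA k_r` (the head of the list is the last block). -/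
def AAl : List ℕ → Hk R z
  | [] => 1
  | k :: l => AAl l * sh l.sum (AA k)

theorem AAl_mem (l : List ℕ) : (AAl l : Hk R z) ∈ HH R z l.sum := by
  induction l with
  | nil => exact one_mem _
  | cons k l ih =>
    rw [List.sum_cons]
    refine mul_mem (HH_mono (by omega) ih) (sh_mem (AA_mem k))

/-- `c_k = T_0 ⋯ T_{k-2}` on `k` strands. -/
def cc (k : ℕ) : Hk R z := D 0 (k - 1)

theorem cc_mem (k : ℕ) : (cc k : Hk R z) ∈ HH R z k := by
  unfold cc
  refine D_mem ?_
  omega

/-- The functional `f` is a trace on the first `n` strands. -/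
def IsTr {V : Type*} [AddCommGroup V] [Module R V] (n : ℕ) (f : Hk R z →ₗ[R] V) : Prop :=
  ∀ x ∈ HH R z n, ∀ y ∈ HH R z n, f (x * y) = f (y * x)

/-- `1 + q^2 + ⋯ + q^(2(k-1))` -/
def qn (q : R) (k : ℕ) : R := ∑ t ∈ Finset.range k, q ^ (2 * t)

/-- `[k] = ∑_{j<k} q^j qi^(k-1-j)` -/
def qint (q qi : R) (k : ℕ) : R := ∑ j ∈ Finset.range k, q ^ j * qi ^ (k - 1 - j)

/-- `∏_{j ≤ k} qn q j` -/
def qf (q : R) (k : ℕ) : R := ∏ j ∈ Finset.range k, qn q (j + 1)

/-- The symmetriser on `k` strands: `∑_{w ∈ S_k} q^(l(w)) T_w`. -/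
def Sy (q : R) : ℕ → Hk R z
  | 0 => 1
  | k + 1 => Sy q k * ∑ t ∈ Finset.range (k + 1), q ^ t • E (k - t) t

/-- Products of symmetrisers (the head of the list is the last block). -/
def Syl (q : R) : List ℕ → Hk R z
  | [] => 1
  | k :: l => Syl q l * sh l.sum (Sy q k)

theorem Sy_mem (q : R) (k : ℕ) : (Sy q k : Hk R z) ∈ HH R z k := by
  induction k with
  | zero => exact one_mem _
  | succ k ih =>
    refine mul_mem (HH_mono (by omega) ih) (sum_mem fun t ht => ?_)
    rw [Finset.mem_range] at ht
    exact Subalgebra.smul_mem _ (E_mem (by omega)) _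

theorem Syl_mem (q : R) (l : List ℕ) : (Syl q l : Hk R z) ∈ HH R z l.sum := by
  induction l with
  | nil => exact one_mem _
  | cons k l ih =>
    rw [List.sum_cons]
    refine mul_mem (HH_mono (by omega) ih) (sh_mem (Sy_mem q k))

/-- The trace `tau`: coefficient of `1` in the standard basis, as a matrix entry. -/
noncomputable def tau {q qi : R} (hq : q * qi = 1) : Hk R (q - qi) →ₗ[R] R :=
  ent hq (fun j => j) (fun j => j)

/-- The word of a list of block lengths (the head of the list is the LAST block, which carries the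
largest letter). -/
def wl : List ℕ → Wd
  | [] => fun j => j
  | k :: l => fun j => if j < l.sum then wl l j else if j < l.sum + k then l.length
      else l.length + 1 + j

/-- The content of a list of block lengths. -/
def cont : List ℕ → ℕ → ℕ
  | [] => fun _ => 0
  | k :: l => fun x => if x = l.length then k else cont l x

/-- Positive crossing of a block of `m` strands with a block of `n` strands. -/
def Xp (m : ℕ) : ℕ → Hk R z
  | 0 => 1
  | n + 1 => D n m * Xp m n

/-- Negative crossing of a block of `m` strands with a block of `n` strands. -/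
def Xm (m : ℕ) : ℕ → Hk R z
  | 0 => 1
  | n + 1 => Dm n m * Xm m n

end Pool.Agent.Lib.Hecke59
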