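import Pool.Agent.Lib.Hecke59.Defs

/-! Entries of the action of the Hecke algebra on words, sums over words of given content. -/

namespace Pool.Agent.Lib.Hecke59

open scoped TensorProduct

universe u v

variable {R : Type u} [CommRing R] {q qi : R} (hq : q * qi = 1)

open Classical in
theorem ent_def (v w : Wd) (x : Hk R (q - qi)) :
    ent hq v w x = act hq x (Pi.single w 1) v := by
  show act hq x (Pi.single w 1) v = _
  congr!

open Classical in
theorem ent_one (v w : Wd) : ent hq v w 1 = if v = w then 1 else 0 := by
  rw [ent_def, map_one, Module.End.one_apply, Pi.single_apply]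

theorem ent_one_self (w : Wd) : ent hq w w 1 = 1 := by
  classical
  rw [ent_one, if_pos rfl]

theorem ent_one_ne {v w : Wd} (h : v ≠ w) : ent hq v w 1 = 0 := by
  classical
  rw [ent_one, if_neg h]

theorem ent_smul (v w : Wd) (r : R) (x : Hk R (q - qi)) :
    ent hq v w (r • x) = r * ent hq v w x := by
  rw [map_smul, smul_eq_mul]

theorem ent_T_mul (i : ℕ) (v w : Wd) (x : Hk R (q - qi)) : ent hq v w (T i * x) =
    if v i = v (i + 1) then q * ent hq v w x
    else if v (i + 1) < v i then ent hq (sw i v) w x + (q - qi) * ent hq v w x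
    else ent hq (sw i v) w x := by
  classical
  simp only [ent_def]
  rw [map_mul, act_T, Module.End.mul_apply]
  rfl

theorem ent_T_mul_eq {i : ℕ} {v w : Wd} {x : Hk R (q - qi)} (h : v i = v (i + 1)) :
    ent hq v w (T i * x) = q * ent hq v w x := by rw [ent_T_mul, if_pos h]

theorem ent_T_mul_gt {i : ℕ} {v w : Wd} {x : Hk R (q - qi)} (h : v (i + 1) < v i) :
    ent hq v w (T i * x) = ent hq (sw i v) w x + (q - qi) * ent hq v w x := by
  rw [ent_T_mul, if_neg h.ne', if_pos h]

theorem ent_T_mul_lt {i : ℕ} {v w : Wd} {x : Hk R (q - qi)} (h : v i < v (i + 1)) :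
    ent hq v w (T i * x) = ent hq (sw i v) w x := by
  rw [ent_T_mul, if_neg h.ne, if_neg (not_lt.2 h.le)]

theorem sw_eq_self {i : ℕ} {w : Wd} (h : w i = w (i + 1)) : sw i w = w := by
  funext j
  by_cases h1 : j = i
  · subst h1; rw [sw_left, h]
  · by_cases h2 : j = i + 1
    · subst h2; rw [sw_right, h]
    · exact sw_ne _ h1 h2

theorem sw_eq_iff {i : ℕ} {u w : Wd} : sw i u = w ↔ u = sw i w :=
  ⟨fun h => by rw [← h, sw_sw], fun h => by rw [h, sw_sw]⟩

open Classical in
theorem actT_single (i : ℕ) (w : Wd) : actT q qi i (Pi.single w 1) =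
    if w i = w (i + 1) then q • Pi.single w 1
    else if w (i + 1) < w i then Pi.single (sw i w) 1 + (q - qi) • Pi.single w 1
    else Pi.single (sw i w) 1 := by
  funext u
  rcases lt_trichotomy (w i) (w (i + 1)) with h | h | h
  · rw [if_neg h.ne, if_neg (not_lt.2 h.le)]
    rcases lt_trichotomy (u i) (u (i + 1)) with h' | h' | h'
    · rw [actT_lt h', Pi.single_apply, Pi.single_apply, sw_eq_iff]
    · rw [actT_eq h', Pi.single_apply, Pi.single_apply, if_neg, if_neg, mul_zero]
      · rintro rfl; simp at h'; omega
      · rintro rfl; omega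
    · rw [actT_gt h', Pi.single_apply, Pi.single_apply, Pi.single_apply, sw_eq_iff,
        if_neg (fun e : u = w => by subst e; omega), mul_zero, add_zero]
  · rw [if_pos h, Pi.smul_apply, smul_eq_mul]
    rcases lt_trichotomy (u i) (u (i + 1)) with h' | h' | h'
    · rw [actT_lt h', Pi.single_apply, Pi.single_apply, sw_eq_iff, sw_eq_self h, if_neg, mul_zero]
      rintro rfl; omega
    · rw [actT_eq h']
    · rw [actT_gt h', Pi.single_apply, Pi.single_apply, sw_eq_iff, sw_eq_self h, if_neg, mul_zero,
        mul_zero, add_zero]
      rintro rfl; omega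
  · rw [if_neg h.ne', if_pos h, Pi.add_apply, Pi.smul_apply, smul_eq_mul]
    rcases lt_trichotomy (u i) (u (i + 1)) with h' | h' | h'
    · rw [actT_lt h', Pi.single_apply, Pi.single_apply, Pi.single_apply, sw_eq_iff,
        if_neg (fun e : u = w => by subst e; omega), mul_zero, add_zero]
    · rw [actT_eq h', Pi.single_apply, Pi.single_apply,
        if_neg (fun e : u = w => by subst e; omega),
        if_neg (fun e : u = sw i w => by subst e; simp at h'; omega), mul_zero, mul_zero, add_zero]
    · rw [actT_gt h', Pi.single_apply, Pi.single_apply, Pi.single_apply, sw_eq_iff]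

theorem ent_mul_T (i : ℕ) (v w : Wd) (x : Hk R (q - qi)) : ent hq v w (x * T i) =
    if w i = w (i + 1) then q * ent hq v w x
    else if w (i + 1) < w i then ent hq v (sw i w) x + (q - qi) * ent hq v w x
    else ent hq v (sw i w) x := by
  classical
  simp only [ent_def]
  rw [map_mul, act_T, Module.End.mul_apply, actT_single]
  split_ifs
  · rw [map_smul]; rfl
  · rw [map_add, map_smul]; rfl
  · rfl

theorem ent_mul_T_eq {i : ℕ} {v w : Wd} {x : Hk R (q - qi)} (h : w i = w (i + 1)) :
    ent hq v w (x * T i) = q * ent hq v w x := by rw [ent_mul_T, if_pos h]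

theorem ent_mul_T_gt {i : ℕ} {v w : Wd} {x : Hk R (q - qi)} (h : w (i + 1) < w i) :
    ent hq v w (x * T i) = ent hq v (sw i w) x + (q - qi) * ent hq v w x := by
  rw [ent_mul_T, if_neg h.ne', if_pos h]

theorem ent_mul_T_lt {i : ℕ} {v w : Wd} {x : Hk R (q - qi)} (h : w i < w (i + 1)) :
    ent hq v w (x * T i) = ent hq v (sw i w) x := by
  rw [ent_mul_T, if_neg h.ne, if_neg (not_lt.2 h.le)]

/-- Induction by multiplication by generators on the left, for all elements. -/
theorem wd_induction_left {z : R} {P : Hk R z → Prop} (h1 : P 1)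
    (hs : ∀ (r : R) x, P x → P (r • x)) (ha : ∀ x y, P x → P y → P (x + y))
    (hm : ∀ i x, P x → P (T i * x)) (x : Hk R z) : P x := by
  obtain ⟨n, hx⟩ := exists_HH x
  exact HH_induction_left h1 hs ha (fun i _ x _ h => hm i x h) hx

theorem ent_rev (v w : Wd) (x : Hk R (q - qi)) : ent hq v w (rev x) = ent hq w v x := by
  revert v w
  refine wd_induction_left (P := fun x => ∀ v w : Wd, ent hq v w (rev x) = ent hq w v x)
    ?_ ?_ ?_ ?_ x
  · intro v w
    classical
    rw [rev_one, ent_one, ent_one]
    exact if_congr eq_comm rfl rfl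
  · intro r x ih v w
    rw [map_smul, ent_smul, ent_smul, ih]
  · intro x y hx hy v w
    rw [map_add, map_add, map_add, hx, hy]
  · intro i x ih v w
    rw [rev_mul, rev_T, ent_mul_T, ent_T_mul, ih, ih]

/-- elements of `HH n` do not touch the letters from position `n` on (n ≥ 1) -/
theorem ent_support {n : ℕ} {x : Hk R (q - qi)} (hx : x ∈ HH R (q - qi) n) {v w : Wd}
    (h : ∃ j, n ≤ j ∧ v j ≠ w j) : ent hq v w x = 0 := by
  revert v w
  refine HH_induction_left (P := fun x => ∀ {v w : Wd}, (∃ j, n ≤ j ∧ v j ≠ w j) →
    ent hq v w x = 0) ?_ ?_ ?_ ?_ hx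
  · rintro v w ⟨j, _, hj⟩
    exact ent_one_ne hq (fun e => hj (by rw [e]))
  · intro r x ih v w h
    rw [ent_smul, ih h, mul_zero]
  · intro x y hx hy v w h
    rw [map_add, hx h, hy h, add_zero]
  · rintro i hi x _ ih v w ⟨j, hj, hne⟩
    have h1 : ent hq v w x = 0 := ih ⟨j, hj, hne⟩
    have h2 : ent hq (sw i v) w x = 0 :=
      ih ⟨j, hj, by rwa [sw_ne _ (by omega) (by omega)]⟩
    rw [ent_T_mul, h1, h2]
    split_ifs <;> simp

/-- and their entries do not depend on these letters -/
theorem ent_local {n : ℕ} {x : Hk R (q - qi)} (hx : x ∈ HH R (q - qi) n) {v w v' w' : Wd}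
    (h1 : ∀ j < n, v j = v' j) (h2 : ∀ j < n, w j = w' j) (h3 : ∀ j, n ≤ j → v j = w j)
    (h4 : ∀ j, n ≤ j → v' j = w' j) : ent hq v w x = ent hq v' w' x := by
  revert v v'
  refine HH_induction_left (P := fun x => ∀ {v v' : Wd}, (∀ j < n, v j = v' j) →
    (∀ j, n ≤ j → v j = w j) → (∀ j, n ≤ j → v' j = w' j) →
    ent hq v w x = ent hq v' w' x) ?_ ?_ ?_ ?_ hx
  · intro v v' h1 h3 h4
    classical
    rw [ent_one, ent_one]
    refine if_congr ⟨fun e => ?_, fun e => ?_⟩ rfl rfl
    · subst e
      funext j
      rcases Nat.lt_or_ge j n with h | h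
      · rw [← h1 j h, h2 j h]
      · exact h4 j h
    · subst e
      funext j
      rcases Nat.lt_or_ge j n with h | h
      · rw [h1 j h, h2 j h]
      · exact h3 j h
  · intro r x ih v v' h1 h3 h4
    rw [ent_smul, ent_smul, ih h1 h3 h4]
  · intro x y hx hy v v' h1 h3 h4
    rw [map_add, map_add, hx h1 h3 h4, hy h1 h3 h4]
  · intro i hi x _ ih v v' h1 h3 h4
    have e1 : ent hq v w x = ent hq v' w' x := ih h1 h3 h4
    have e2 : ent hq (sw i v) w x = ent hq (sw i v') w' x := by
      refine ih ?_ ?_ ?_
      · intro j hj
        by_cases hji : j = i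
        · subst hji; rw [sw_left, sw_left]; exact h1 _ hi
        · by_cases hji' : j = i + 1
          · subst hji'; rw [sw_right, sw_right]; exact h1 _ (by omega)
          · rw [sw_ne _ hji hji', sw_ne _ hji hji']; exact h1 _ hj
      · intro j hj
        rw [sw_ne _ (by omega) (by omega)]; exact h3 j hj
      · intro j hj
        rw [sw_ne _ (by omega) (by omega)]; exact h4 j hj
    rw [ent_T_mul, ent_T_mul, e1, e2, h1 i (by omega), h1 (i + 1) hi]

theorem ent_sh_zero {n : ℕ} {v w : Wd} (h : ∃ j < n, v j ≠ w j) (y : Hk R (q - qi)) :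
    ent hq v w (sh n y) = 0 := by
  revert v w
  refine wd_induction_left (P := fun y => ∀ {v w : Wd}, (∃ j < n, v j ≠ w j) →
    ent hq v w (sh n y) = 0) ?_ ?_ ?_ ?_ y
  · rintro v w ⟨j, _, hj⟩
    rw [map_one]
    exact ent_one_ne hq (fun e => hj (by rw [e]))
  · intro r x ih v w h
    rw [map_smul, ent_smul, ih h, mul_zero]
  · intro x y hx hy v w h
    rw [map_add, map_add, hx h, hy h, add_zero]
  · rintro i x ih v w ⟨j, hj, hne⟩
    have h1 : ent hq v w (sh n x) = 0 := ih ⟨j, hj, hne⟩
    have h2 : ent hq (sw (i + n) v) w (sh n x) = 0 :=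
      ih ⟨j, hj, by rwa [sw_ne _ (by omega) (by omega)]⟩
    rw [map_mul, sh_T, ent_T_mul, h1, h2]
    split_ifs <;> simp

theorem sw_shift (i n : ℕ) (v : Wd) :
    (fun j => sw (i + n) v (j + n)) = sw i (fun j => v (j + n)) := by
  funext j
  by_cases h1 : j = i
  · subst h1
    rw [sw_left, sw_left, show j + n + 1 = j + 1 + n by omega]
  · by_cases h2 : j = i + 1
    · subst h2
      rw [sw_right, show i + 1 + n = i + n + 1 by omega, sw_right]
    · rw [sw_ne _ (by omega) (by omega), sw_ne _ h1 h2]

theorem ent_sh (n : ℕ) (v w : Wd) (h : ∀ j < n, v j = w j) (y : Hk R (q - qi)) :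
    ent hq v w (sh n y) = ent hq (fun j => v (j + n)) (fun j => w (j + n)) y := by
  revert v w
  refine wd_induction_left (P := fun y => ∀ v w : Wd, (∀ j < n, v j = w j) →
    ent hq v w (sh n y) = ent hq (fun j => v (j + n)) (fun j => w (j + n)) y) ?_ ?_ ?_ ?_ y
  · intro v w h
    classical
    rw [map_one, ent_one, ent_one]
    refine if_congr ⟨fun e => by rw [e], fun e => ?_⟩ rfl rfl
    funext j
    rcases Nat.lt_or_ge j n with h' | h'
    · exact h j h'
    · have := congrFun e (j - n)
      simpa [Nat.sub_add_cancel h'] using this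
  · intro r x ih v w h
    rw [map_smul, ent_smul, ent_smul, ih v w h]
  · intro x y hx hy v w h
    rw [map_add, map_add, map_add, hx v w h, hy v w h]
  · intro i x ih v w h
    rw [map_mul, sh_T, ent_T_mul, ent_T_mul, ih v w h, ih (sw (i + n) v) w ?_, sw_shift,
      show i + n + 1 = i + 1 + n by omega]
    intro j hj
    rw [sw_ne _ (by omega) (by omega)]
    exact h j hj

theorem ent_mul_sh {n : ℕ} {x : Hk R (q - qi)} (hx : x ∈ HH R (q - qi) n) (y : Hk R (q - qi))
    (v w : Wd) (h : ∀ j, n ≤ j → v j = w j) : ent hq v w (x * sh n y) =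
      ent hq v w x * ent hq (fun j => w (j + n)) (fun j => w (j + n)) y := by
  revert v
  refine HH_induction_left (P := fun x => ∀ v : Wd, (∀ j, n ≤ j → v j = w j) →
    ent hq v w (x * sh n y) =
      ent hq v w x * ent hq (fun j => w (j + n)) (fun j => w (j + n)) y) ?_ ?_ ?_ ?_ hx
  · intro v h
    rw [one_mul]
    by_cases e : v = w
    · subst e
      rw [ent_one_self, one_mul, ent_sh hq n v v (fun _ _ => rfl)]
    · rw [ent_one_ne hq e, zero_mul]
      refine ent_sh_zero hq ?_ y
      by_contra hcon
      push Not at hcon
      apply e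
      funext j
      rcases Nat.lt_or_ge j n with h' | h'
      · exact hcon j h'
      · exact h j h'
  · intro r x ih v h
    rw [smul_mul_assoc, ent_smul, ent_smul, ih v h, mul_assoc]
  · intro x y hx hy v h
    rw [add_mul, map_add, map_add, hx v h, hy v h, add_mul]
  · intro i hi x _ ih v h
    rw [mul_assoc, ent_T_mul, ent_T_mul, ih v h, ih (sw i v) ?_]
    · split_ifs <;> ring
    · intro j hj
      rw [sw_ne _ (by omega) (by omega)]
      exact h j hj

theorem ent_diag_mul {n : ℕ} {x : Hk R (q - qi)} (hx : x ∈ HH R (q - qi) n) (y : Hk R (q - qi))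
    (w : Wd) : ent hq w w (x * sh n y) =
      ent hq w w x * ent hq (fun j => w (j + n)) (fun j => w (j + n)) y :=
  ent_mul_sh hq hx y w w (fun _ _ => rfl)

theorem ent_diag_T {n : ℕ} {x : Hk R (q - qi)} (hx : x ∈ HH R (q - qi) (n + 1)) (w : Wd) :
    ent hq w w (x * T n) = (if w n = w (n + 1) then q else if w (n + 1) < w n then q - qi else 0) *
      ent hq w w x := by
  rw [ent_mul_T]
  have h : w n ≠ w (n + 1) → ent hq w (sw n w) x = 0 := by
    intro h
    refine ent_support hq hx ⟨n + 1, le_rfl, ?_⟩
    rw [sw_right]
    exact h.symm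
  split_ifs with h1 h2
  · rfl
  · rw [h h1, zero_add]
  · rw [h h1, zero_mul]

theorem ent_mul_Ti (i : ℕ) (v w : Wd) (x : Hk R (q - qi)) : ent hq v w (x * Ti i) =
    ent hq v w (x * T i) - (q - qi) * ent hq v w x := by
  unfold Ti
  rw [mul_sub, map_sub, ← Algebra.commutes, ← Algebra.smul_def, ent_smul]

theorem ent_diag_Ti {n : ℕ} {x : Hk R (q - qi)} (hx : x ∈ HH R (q - qi) (n + 1)) (w : Wd) :
    ent hq w w (x * Ti n) = (if w n = w (n + 1) then qi else if w (n + 1) < w n then 0
      else -(q - qi)) * ent hq w w x := by
  rw [ent_mul_Ti, ent_diag_T hq hx]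
  split_ifs <;> ring

section S

variable {V : Type v} [AddCommMonoid V]

theorem S_zero (s : ℕ) (μ : ℕ → ℕ) (w : Wd) (B : Wd → V) :
    S s 0 μ w B = if ∀ x < s, μ x = 0 then B w else 0 := rfl

theorem S_succ (s m : ℕ) (μ : ℕ → ℕ) (w : Wd) (B : Wd → V) :
    S s (m + 1) μ w B = ∑ x ∈ Finset.range s,
      if 0 < μ x then S s m (Function.update μ x (μ x - 1)) (Function.update w m x) B else 0 := rfl

theorem S_add (s m : ℕ) (μ : ℕ → ℕ) (w : Wd) (B C : Wd → V) :
    S s m μ w (fun v => B v + C v) = S s m μ w B + S s m μ w C := by
  induction m generalizing μ w with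
  | zero =>
    simp only [S_zero]
    split_ifs
    · rfl
    · rw [add_zero]
  | succ m ih =>
    simp only [S_succ]
    rw [← Finset.sum_add_distrib]
    refine Finset.sum_congr rfl fun x _ => ?_
    split_ifs
    · exact ih _ _
    · rw [add_zero]

theorem S_map {V' : Type*} [AddCommMonoid V'] (f : V →+ V') (s m : ℕ) (μ : ℕ → ℕ) (w : Wd)
    (B : Wd → V) : S s m μ w (fun v => f (B v)) = f (S s m μ w B) := by
  induction m generalizing μ w with
  | zero =>
    simp only [S_zero]
    split_ifs
    · rfl
    · rw [map_zero]
  | succ m ih =>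
    simp only [S_succ]
    rw [map_sum]
    refine Finset.sum_congr rfl fun x _ => ?_
    split_ifs
    · exact ih _ _
    · rw [map_zero]

theorem S_congr {s m : ℕ} {μ : ℕ → ℕ} {w : Wd} {B C : Wd → V}
    (h : ∀ v : Wd, (∀ j, m ≤ j → v j = w j) → (∀ j < m, v j < s) → B v = C v) :
    S s m μ w B = S s m μ w C := by
  induction m generalizing μ w with
  | zero =>
    simp only [S_zero]
    rw [h w (fun _ _ => rfl) (fun j hj => absurd hj (Nat.not_lt_zero _))]
  | succ m ih =>
    simp only [S_succ]
    refine Finset.sum_congr rfl fun x hx => ?_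
    rw [Finset.mem_range] at hx
    split_ifs
    · refine ih fun v hv1 hv2 => h v ?_ ?_
      · intro j hj
        rw [hv1 j (by omega), Function.update_of_ne (by omega)]
      · intro j hj
        rcases Nat.lt_or_ge j m with h' | h'
        · exact hv2 j h'
        · have : j = m := by omega
          subst this
          rw [hv1 j le_rfl, Function.update_self]
          exact hx
    · rfl

theorem sw_update_of_le {m i : ℕ} (h : m < i) (w : Wd) (x : ℕ) :
    sw i (Function.update w m x) = Function.update (sw i w) m x := by
  funext j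
  by_cases h1 : j = m
  · subst h1
    rw [sw_ne _ (by omega) (by omega), Function.update_self, Function.update_self]
  · rw [Function.update_of_ne h1]
    by_cases h2 : j = i
    · subst h2
      rw [sw_left, sw_left, Function.update_of_ne (by omega)]
    · by_cases h3 : j = i + 1
      · subst h3
        rw [sw_right, sw_right, Function.update_of_ne (by omega)]
      · rw [sw_ne _ h2 h3, sw_ne _ h2 h3, Function.update_of_ne h1]

theorem S_sw_of_le {s m i : ℕ} (hi : m ≤ i) (μ : ℕ → ℕ) (w : Wd) (B : Wd → V) :
    S s m μ w (fun v => B (sw i v)) = S s m μ (sw i w) B := by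
  induction m generalizing μ w with
  | zero => rfl
  | succ m ih =>
    simp only [S_succ]
    refine Finset.sum_congr rfl fun x _ => ?_
    rw [ih (by omega), sw_update_of_le (by omega)]

theorem sw_update_update (i : ℕ) (w : Wd) (x y : ℕ) :
    sw i (Function.update (Function.update w (i + 1) x) i y) =
      Function.update (Function.update w (i + 1) y) i x := by
  funext j
  by_cases h2 : j = i
  · subst h2
    rw [sw_left, Function.update_of_ne (by omega), Function.update_self, Function.update_self]
  · by_cases h3 : j = i + 1
    · subst h3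
      rw [sw_right, Function.update_self, Function.update_of_ne (by omega), Function.update_self]
    · rw [sw_ne _ h2 h3, Function.update_of_ne h2, Function.update_of_ne h3,
        Function.update_of_ne h2, Function.update_of_ne h3]

/-- lowering a content at two letters commutes -/
theorem lower_comm (μ : ℕ → ℕ) (x y : ℕ) :
    Function.update (Function.update μ x (μ x - 1)) y (Function.update μ x (μ x - 1) y - 1) =
      Function.update (Function.update μ y (μ y - 1)) x (Function.update μ y (μ y - 1) x - 1) := by
  by_cases h : x = y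
  · subst h; rfl
  · rw [Function.update_of_ne h, Function.update_of_ne (Ne.symm h), Function.update_comm h]

theorem S_sw {s m i : ℕ} (hi : i + 1 < m) (μ : ℕ → ℕ) (w : Wd) (B : Wd → V) :
    S s m μ w (fun v => B (sw i v)) = S s m μ w B := by
  induction m generalizing μ w with
  | zero => omega
  | succ m ih =>
    rcases Nat.lt_or_ge (i + 1) m with h | h
    · simp only [S_succ]
      refine Finset.sum_congr rfl fun x _ => ?_
      rw [ih h]
    · have : m = i + 1 := by omega
      subst this
      simp only [S_succ]
      simp only [S_sw_of_le le_rfl, sw_update_update]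
      have e : ∀ (x : ℕ) (F : ℕ → V), (if 0 < μ x then ∑ y ∈ Finset.range s, F y else 0) =
          ∑ y ∈ Finset.range s, if 0 < μ x then F y else 0 := by
        intro x F
        split_ifs
        · rfl
        · rw [Finset.sum_const_zero]
      simp only [e]
      rw [Finset.sum_comm]
      refine Finset.sum_congr rfl fun x _ => Finset.sum_congr rfl fun y _ => ?_
      rw [lower_comm μ y x]
      by_cases hxy : x = y
      · subst hxy; rfl
      · rw [Function.update_of_ne hxy, Function.update_of_ne (Ne.symm hxy)]
        split_ifs <;> rfl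

/-- the content matters only on the letters below `s` -/
theorem S_mu_congr {s m : ℕ} {μ μ' : ℕ → ℕ} (h : ∀ x < s, μ x = μ' x) (w : Wd) (B : Wd → V) :
    S s m μ w B = S s m μ' w B := by
  induction m generalizing μ μ' w with
  | zero =>
    simp only [S_zero]
    refine if_congr ⟨fun e x hx => ?_, fun e x hx => ?_⟩ rfl rfl
    · rw [← h x hx]; exact e x hx
    · rw [h x hx]; exact e x hx
  | succ m ih =>
    simp only [S_succ]
    refine Finset.sum_congr rfl fun x hx => ?_
    rw [Finset.mem_range] at hx
    rw [h x hx]
    have : ∀ y < s, Function.update μ x (μ' x - 1) y = Function.update μ' x (μ' x - 1) y := by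
      intro y hy
      by_cases hxy : y = x
      · subst hxy; rw [Function.update_self, Function.update_self]
      · rw [Function.update_of_ne hxy, Function.update_of_ne hxy, h y hy]
    rw [ih this]

/-- a largest letter of multiplicity zero can be dropped -/
theorem S_drop {s m : ℕ} {μ : ℕ → ℕ} (h : μ s = 0) (w : Wd) (B : Wd → V) :
    S (s + 1) m μ w B = S s m μ w B := by
  induction m generalizing μ w with
  | zero =>
    simp only [S_zero]
    refine if_congr ⟨fun e x hx => e x (by omega), fun e x hx => ?_⟩ rfl rfl
    rcases Nat.lt_or_ge x s with h' | h'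
    · exact e x h'
    · have : x = s := by omega
      subst this
      exact h
  | succ m ih =>
    simp only [S_succ]
    rw [Finset.sum_range_succ, if_neg (show ¬ 0 < μ s by omega), add_zero]
    refine Finset.sum_congr rfl fun x hx => ?_
    rw [Finset.mem_range] at hx
    rw [ih (by rw [Function.update_of_ne (by omega)]; exact h)]

end S

theorem S_trace_T {s m i : ℕ} (hi : i + 1 < m) (y : Hk R (q - qi)) (μ : ℕ → ℕ) (w : Wd) :
    S s m μ w (fun v => ent hq v v (T i * y)) = S s m μ w (fun v => ent hq v v (y * T i)) := by
  set A : Wd → R := fun v => if v i = v (i + 1) then q * ent hq v v y else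
    if v (i + 1) < v i then (q - qi) * ent hq v v y else 0 with hA
  set C : Wd → R := fun v => if v i = v (i + 1) then 0 else ent hq (sw i v) v y with hC
  have e1 : (fun v => ent hq v v (T i * y)) = fun v => A v + C v := by
    funext v
    rw [ent_T_mul]
    simp only [hA, hC]
    split_ifs <;> ring
  have e2 : (fun v => ent hq v v (y * T i)) = fun v => A v + C (sw i v) := by
    funext v
    rw [ent_mul_T]
    simp only [hA, hC, sw_left, sw_right, sw_sw, eq_comm (a := v (i + 1))]
    split_ifs <;> ring
  rw [e1, e2, S_add, S_add, S_sw hi]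

theorem S_trace {s m : ℕ} {x : Hk R (q - qi)} (hx : x ∈ HH R (q - qi) m) (y : Hk R (q - qi))
    (μ : ℕ → ℕ) (w : Wd) :
    S s m μ w (fun v => ent hq v v (x * y)) = S s m μ w (fun v => ent hq v v (y * x)) := by
  revert y
  refine HH_induction_left (P := fun x => ∀ y : Hk R (q - qi),
    S s m μ w (fun v => ent hq v v (x * y)) = S s m μ w (fun v => ent hq v v (y * x)))
    ?_ ?_ ?_ ?_ hx
  · intro y; rw [one_mul, mul_one]
  · intro r x ih y
    have h1 : (fun v : Wd => ent hq v v (r • x * y)) = fun v : Wd => ent hq v v (x * (r • y)) := by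
      funext v; rw [smul_mul_assoc, mul_smul_comm]
    have h2 : (fun v : Wd => ent hq v v (y * r • x)) = fun v : Wd => ent hq v v ((r • y) * x) := by
      funext v; rw [smul_mul_assoc, mul_smul_comm]
    rw [h1, h2, ih]
  · intro x x' hx hx' y
    simp only [add_mul, mul_add, map_add]
    rw [S_add, S_add, hx, hx']
  · intro i hi x _ ih y
    rw [show (fun v : Wd => ent hq v v (T i * x * y)) = fun v : Wd => ent hq v v (T i * (x * y)) by
      simp only [mul_assoc], S_trace_T hq hi,
      show (fun v : Wd => ent hq v v (x * y * T i)) = fun v : Wd => ent hq v v (x * (y * T i)) by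
      simp only [mul_assoc], ih]
    simp only [mul_assoc]

theorem wd_rho_zero {z : R} (x : Hk R z) : rho 0 x = x := by
  unfold rho
  simp

theorem wd_rho_succ {z : R} (m : ℕ) (x : Hk R z) : rho (m + 1) x = x + T m * rho m x * T m := by
  unfold rho
  rw [Finset.sum_range_succ, Nat.sub_self, E_zero, D_zero, one_mul, mul_one, add_comm,
    Finset.mul_sum, Finset.sum_mul]
  congr 1
  refine Finset.sum_congr rfl fun i hi => ?_
  rw [Finset.mem_range] at hi
  rw [show m + 1 - i = (m - i) + 1 by omega, E_succ, D_succ, show i + (m - i) = m by omega]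
  simp only [mul_assoc]

theorem wd_qn_zero (q : R) : qn q 0 = 0 := by simp [qn]

theorem wd_qn_succ (q : R) (k : ℕ) : qn q (k + 1) = 1 + q ^ 2 * qn q k := by
  unfold qn
  rw [Finset.sum_range_succ', Finset.mul_sum, mul_zero, pow_zero, add_comm]
  congr 1
  refine Finset.sum_congr rfl fun t _ => ?_
  rw [← pow_add]
  congr 1
  ring

theorem S_rho (s m : ℕ) (μ : ℕ → ℕ) (w : Wd) (hμ : 0 < μ s) (x : Hk R (q - qi)) :
    S (s + 1) m (Function.update μ s (μ s - 1)) (Function.update w m s)
      (fun v => ent hq v v (rho m x)) =
    qn q (μ s) * S (s + 1) (m + 1) μ w (fun v => ent hq v v x) := by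
  induction m generalizing μ w with
  | zero =>
    rw [S_zero, S_succ, wd_rho_zero]
    by_cases h : ∀ y < s + 1, Function.update μ s (μ s - 1) y = 0
    · have h1 : μ s = 1 := by
        have := h s (by omega)
        rw [Function.update_self] at this
        omega
      have h2 : ∀ y < s, μ y = 0 := by
        intro y hy
        have := h y (by omega)
        rwa [Function.update_of_ne (by omega)] at this
      rw [if_pos h, Finset.sum_range_succ, if_pos hμ, S_zero, if_pos h, Finset.sum_eq_zero, h1,
        zero_add]
      · simp [qn]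
      · intro y hy
        rw [Finset.mem_range] at hy
        rw [if_neg (by rw [h2 y hy]; omega)]
    · rw [if_neg h, Finset.sum_eq_zero, mul_zero]
      intro y hy
      rw [Finset.mem_range] at hy
      split_ifs with h0
      · rw [S_zero, if_neg]
        intro h'
        by_cases hys : y = s
        · subst hys; exact h h'
        · have := h' s (by omega)
          rw [Function.update_of_ne (Ne.symm hys)] at this
          omega
      · rfl
  | succ m ih =>
    have key : S (s + 1) (m + 1) (Function.update μ s (μ s - 1)) (Function.update w (m + 1) s)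
        (fun v => ent hq v v (T m * rho m x * T m)) =
        q ^ 2 * qn q (μ s - 1) * S (s + 1) (m + 1) (Function.update μ s (μ s - 1))
          (Function.update w (m + 1) s) (fun v => ent hq v v x) +
        qn q (μ s) * ∑ y ∈ Finset.range s, if 0 < μ y then
          S (s + 1) (m + 1) (Function.update μ y (μ y - 1)) (Function.update w (m + 1) y)
            (fun v => ent hq v v x) else 0 := by
      rw [S_succ, Finset.sum_range_succ, add_comm]
      congr 1
      · -- the letter `s`
        rw [Function.update_self]
        have e1 : S (s + 1) m (Function.update (Function.update μ s (μ s - 1)) s (μ s - 1 - 1))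
            (Function.update (Function.update w (m + 1) s) m s)
            (fun v => ent hq v v (T m * rho m x * T m)) =
            q ^ 2 * S (s + 1) m (Function.update (Function.update μ s (μ s - 1)) s (μ s - 1 - 1))
            (Function.update (Function.update w (m + 1) s) m s)
            (fun v => ent hq v v (rho m x)) := by
          have hmap := S_map (AddMonoidHom.mulLeft (q ^ 2)) (s + 1) m
            (Function.update (Function.update μ s (μ s - 1)) s (μ s - 1 - 1))
            (Function.update (Function.update w (m + 1) s) m s)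
            (fun v => ent hq v v (rho m x))
          simp only [AddMonoidHom.coe_mulLeft] at hmap
          rw [← hmap]
          refine S_congr fun v hv _ => ?_
          have hm : v m = s := by rw [hv m le_rfl, Function.update_self]
          have hm1 : v (m + 1) = s := by
            rw [hv (m + 1) (by omega), Function.update_of_ne (by omega), Function.update_self]
          have hmm : v m = v (m + 1) := by rw [hm, hm1]
          rw [ent_mul_T_eq hq hmm, ent_T_mul_eq hq hmm]
          ring
        split_ifs with h0
        · have h2 := ih (Function.update μ s (μ s - 1)) (Function.update w (m + 1) s)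
            (by rw [Function.update_self]; exact h0)
          rw [Function.update_self] at h2
          rw [e1, h2]
          ring
        · have h3 : μ s - 1 = 0 := by omega
          rw [h3, wd_qn_zero]
          ring
      · rw [Finset.mul_sum]
        refine Finset.sum_congr rfl fun y hy => ?_
        rw [Finset.mem_range] at hy
        rw [Function.update_of_ne (show y ≠ s by omega)]
        split_ifs with h0
        · have h2 := ih (Function.update μ y (μ y - 1)) (Function.update w (m + 1) y)
            (by rw [Function.update_of_ne (show s ≠ y by omega)]; exact hμ)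
          rw [Function.update_of_ne (show s ≠ y by omega)] at h2
          rw [← h2, ← sw_update_update m w s y, ← S_sw_of_le le_rfl,
            Function.update_comm (show s ≠ y by omega)]
          refine S_congr fun v hv _ => ?_
          have hm : v m = y := by rw [hv m le_rfl, Function.update_self]
          have hm1 : v (m + 1) = s := by
            rw [hv (m + 1) (by omega), Function.update_of_ne (by omega), Function.update_self]
          have hmm : v m < v (m + 1) := by rw [hm, hm1]; exact hy
          rw [ent_mul_T_lt hq hmm, ent_T_mul_lt hq hmm]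
        · rw [mul_zero]
    simp only [wd_rho_succ, map_add]
    rw [S_add, key, S_succ (s + 1) (m + 1) μ w, Finset.sum_range_succ, if_pos hμ]
    have h3 : qn q (μ s) = 1 + q ^ 2 * qn q (μ s - 1) := by
      rw [← wd_qn_succ, Nat.sub_add_cancel hμ]
    rw [mul_add]
    generalize (∑ y ∈ Finset.range s, if 0 < μ y then
          S (s + 1) (m + 1) (Function.update μ y (μ y - 1)) (Function.update w (m + 1) y)
            (fun v => ent hq v v x) else 0) = X1
    generalize (S (s + 1) (m + 1) (Function.update μ s (μ s - 1)) (Function.update w (m + 1) s)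
      fun v => (ent hq v v) x) = X2
    rw [h3]
    ring

theorem wd_N_zero {z : R} (x : Hk R z) : N 0 x = x := by
  show sand (AlgHom.id R _) (AlgHom.id R _) x (1 : Hk R z ⊗[R] Hk R z) = x
  rw [Algebra.TensorProduct.one_def, sand_tmul]
  simp

/-- Sums of diagonal entries over the words of given content are functions of the norm. -/
theorem S_N_unit (hN : ∀ (n : ℕ) (x : Hk R (q - qi)), N (n + 1) x = N n (rho n x))
    (s m : ℕ) (μ : ℕ → ℕ) (w : Wd) (hu : ∀ x < s, ∀ k, 0 < k → k ≤ μ x → IsUnit (qn q k)) :
    ∃ Θ : Hk R (q - qi) →ₗ[R] R, ∀ x, S s m μ w (fun v => ent hq v v x) = Θ (N m x) := by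
  induction m generalizing s μ w with
  | zero =>
    by_cases h : ∀ x < s, μ x = 0
    · refine ⟨ent hq w w, fun x => ?_⟩
      rw [S_zero, if_pos h, wd_N_zero]
    · refine ⟨0, fun x => ?_⟩
      rw [S_zero, if_neg h, LinearMap.zero_apply]
  | succ m ihm =>
    induction s with
    | zero => exact ⟨0, fun x => by rw [S_succ, Finset.range_zero, Finset.sum_empty,
        LinearMap.zero_apply]⟩
    | succ s ihs =>
      by_cases h : μ s = 0
      · obtain ⟨Θ, hΘ⟩ := ihs (fun x hx => hu x (by omega))
        exact ⟨Θ, fun x => by rw [S_drop h, hΘ]⟩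
      · obtain ⟨Θ, hΘ⟩ := ihm (s + 1) (Function.update μ s (μ s - 1)) (Function.update w m s) (by
          intro x hx k hk hk'
          refine hu x hx k hk ?_
          by_cases hxs : x = s
          · subst hxs
            rw [Function.update_self] at hk'
            omega
          · rwa [Function.update_of_ne hxs] at hk')
        obtain ⟨c, hc⟩ := hu s (by omega) (μ s) (Nat.pos_of_ne_zero h) le_rfl
        refine ⟨(↑c⁻¹ : R) • Θ, fun x => ?_⟩
        rw [LinearMap.smul_apply, hN, ← hΘ, S_rho hq s m μ w (Nat.pos_of_ne_zero h), ← hc,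
          smul_eq_mul, ← mul_assoc, Units.inv_mul, one_mul]

/-- Explicit form. -/
theorem ent_N_wl (hN : ∀ (n : ℕ) (x : Hk R (q - qi)), N (n + 1) x = N n (rho n x))
    (l : List ℕ) (w : Wd) (hw : ∀ j < l.sum, w j = wl l j) (x : Hk R (q - qi)) :
    ent hq w w (N l.sum x) =
      (l.map (qf q)).prod * S l.length l.sum (cont l) w (fun v => ent hq v v x) := by
  induction l generalizing w x with
  | nil =>
    simp only [List.sum_nil, List.map_nil, List.prod_nil, List.length_nil, one_mul]
    rw [S_zero, if_pos (fun x hx => absurd hx (Nat.not_lt_zero _)), wd_N_zero]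
  | cons k l ih =>
    have key : ∀ t ≤ k, ∀ (w : Wd), (∀ j < l.sum + t, w j = wl (k :: l) j) →
        ∀ x : Hk R (q - qi), ent hq w w (N (l.sum + t) x) =
        qf q t * (l.map (qf q)).prod * S (l.length + 1) (l.sum + t)
          (Function.update (cont l) l.length t) w (fun v => ent hq v v x) := by
      intro t
      induction t with
      | zero =>
        intro _ w hw x
        rw [add_zero] at hw ⊢
        rw [ih w (fun j hj => ?_) x, S_drop (Function.update_self _ _ _)]
        · rw [S_mu_congr (μ := Function.update (cont l) l.length 0) (μ' := cont l)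
            (fun x hx => Function.update_of_ne (by omega) _ _)]
          simp [qf]
        · rw [hw j hj]
          show (if j < l.sum then wl l j else _) = _
          rw [if_pos hj]
      | succ t iht =>
        intro ht w hw x
        rw [← add_assoc, hN, iht (by omega) w (fun j hj => hw j (by omega))]
        have hwt : w (l.sum + t) = l.length := by
          rw [hw _ (by omega)]
          show (if l.sum + t < l.sum then wl l _ else if l.sum + t < l.sum + k then l.length
            else l.length + 1 + _) = _
          rw [if_neg (by omega), if_pos (by omega)]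
        have hw' : w = Function.update w (l.sum + t) l.length := by
          rw [← hwt, Function.update_eq_self]
        have hS := S_rho hq l.length (l.sum + t) (Function.update (cont l) l.length (t + 1)) w
          (by rw [Function.update_self]; omega) x
        rw [Function.update_self, ← hw', Nat.add_sub_cancel, Function.update_idem] at hS
        rw [hS]
        have hqf : qf q (t + 1) = qf q t * qn q (t + 1) := by
          unfold qf
          rw [Finset.prod_range_succ]
        rw [hqf]
        ring
    have h1 := key k le_rfl w (by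
      intro j hj
      exact hw j (by rw [List.sum_cons]; omega)) x
    rw [List.sum_cons, add_comm k, h1, List.map_cons, List.prod_cons, List.length_cons]
    congr 1
    refine S_mu_congr (fun y hy => ?_) _ _
    show _ = if y = l.length then k else cont l y
    by_cases h : y = l.length
    · rw [if_pos h, h, Function.update_self]
    · rw [if_neg h, Function.update_of_ne h]

end Pool.Agent.Lib.Hecke59
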