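import Pool.Agent.Lib.Hecke59.Markov
import Pool.Agent.Lib.Hecke59.Words
import Pool.Agent.Lib.Hecke59.Cas

/-! The symmetrising trace of the Hecke algebra, duality with the Casimir element. -/

namespace Pool.Agent.Lib.Hecke59

open scoped TensorProduct

universe u v

variable {R : Type u} [CommRing R] {q qi : R} (hq : q * qi = 1)

theorem tau_def (x : Hk R (q - qi)) : tau hq x = ent hq (fun j => j) (fun j => j) x := rfl

theorem tau_one : tau hq 1 = 1 := ent_one_self hq _

theorem tau_T {n : ℕ} {x y : Hk R (q - qi)} (hx : x ∈ HH R (q - qi) (n + 1))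
    (hy : y ∈ HH R (q - qi) (n + 1)) : tau hq (x * T n * y) = 0 := by
  rw [tau_def]
  have key : ∀ w : Wd, (∀ j, j < n + 1 → w j < n + 1) → (∀ j, n + 1 ≤ j → w j = j) →
      ent hq (fun j => j) w (x * T n * y) = 0 := by
    refine HH_induction_right (P := fun y => ∀ w : Wd, (∀ j, j < n + 1 → w j < n + 1) →
      (∀ j, n + 1 ≤ j → w j = j) → ent hq (fun j => j) w (x * T n * y) = 0) ?_ ?_ ?_ ?_ hy
    · intro w h1 h2
      have h3 : w n < w (n + 1) := by
        rw [h2 (n + 1) le_rfl]; exact h1 n (by omega)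
      rw [mul_one, ent_mul_T_lt hq h3]
      refine ent_support hq hx ⟨n + 1, le_rfl, ?_⟩
      rw [sw_right]
      have := h1 n (by omega)
      omega
    · intro r y ih w h1 h2
      rw [mul_smul_comm, ent_smul, ih w h1 h2, mul_zero]
    · intro y y' hy hy' w h1 h2
      rw [mul_add, map_add, hy w h1 h2, hy' w h1 h2, add_zero]
    · intro i hi y _ ih w h1 h2
      have h3 : ent hq (fun j => j) w (x * T n * y) = 0 := ih w h1 h2
      have h4 : ent hq (fun j => j) (sw i w) (x * T n * y) = 0 := by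
        refine ih _ ?_ ?_
        · intro j hj
          by_cases hji : j = i
          · subst hji; rw [sw_left]; exact h1 _ (by omega)
          · by_cases hji' : j = i + 1
            · subst hji'; rw [sw_right]; exact h1 _ (by omega)
            · rw [sw_ne _ hji hji']; exact h1 _ hj
        · intro j hj
          rw [sw_ne _ (by omega) (by omega)]
          exact h2 j hj
      rw [← mul_assoc, ent_mul_T, h3, h4]
      split_ifs <;> simp
  exact key _ (fun j hj => hj) (fun j _ => rfl)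

theorem tau_algebraMap (r : R) : tau hq (algebraMap R _ r) = r := by
  rw [Algebra.algebraMap_eq_smul_one, map_smul, tau_one, smul_eq_mul, mul_one]

theorem tau_mark (n : ℕ) {x : Hk R (q - qi)} (hx : x ∈ HH R (q - qi) n) :
    mark (1 : R) 0 n x = tau hq x := by
  have h0 : ∀ r : R, mark (1 : R) 0 0 (algebraMap R (Hk R (q - qi)) r) = r := by
    intro r
    rw [Algebra.algebraMap_eq_smul_one, map_smul, mark_zero_one, smul_eq_mul, mul_one]
  induction n using Nat.strong_induction_on generalizing x with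
  | _ n ih =>
  match n, ih, hx with
  | 0, _, hx =>
    rw [HH_zero, Algebra.mem_bot] at hx
    obtain ⟨r, rfl⟩ := hx
    rw [h0, tau_algebraMap]
  | 1, _, hx =>
    rw [HH_one, Algebra.mem_bot] at hx
    obtain ⟨r, rfl⟩ := hx
    rw [mark_succ (1 : R) 0 0 (algebraMap_mem _ _), h0, tau_algebraMap, one_mul]
  | n + 2, ih, hx =>
    refine HH_succ_induction (P := fun x => mark (1 : R) 0 (n + 2) x = tau hq x) ?_ ?_ ?_ hx
    · intro x hx
      rw [mark_succ (1 : R) 0 (n + 1) hx, one_mul, ih (n + 1) (by omega) hx]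
    · intro x y hx hy
      rw [map_add, map_add, hx, hy]
    · intro x hx y hy
      rw [mark_T (1 : R) 0 n hx hy, zero_mul, tau_T hq hx hy]

theorem tau_comm (x y : Hk R (q - qi)) : tau hq (x * y) = tau hq (y * x) := by
  obtain ⟨m, hx⟩ := exists_HH x
  obtain ⟨n, hy⟩ := exists_HH y
  have hx' := HH_mono (le_max_left m n) hx
  have hy' := HH_mono (le_max_right m n) hy
  rw [← tau_mark hq _ (mul_mem hx' hy'), ← tau_mark hq _ (mul_mem hy' hx'),
    mark_comm (1 : R) 0 _ hx' hy']

theorem ent_strictMono {θ : ℕ → ℕ} (hθ : StrictMono θ) (v w : Wd) (x : Hk R (q - qi)) :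
    ent hq (fun j => θ (v j)) (fun j => θ (w j)) x = ent hq v w x := by
  revert v
  refine wd_induction_left (P := fun x => ∀ v : Wd,
    ent hq (fun j => θ (v j)) (fun j => θ (w j)) x = ent hq v w x) ?_ ?_ ?_ ?_ x
  · intro v
    classical
    rw [ent_one, ent_one]
    refine if_congr ⟨fun e => ?_, fun e => by rw [e]⟩ rfl rfl
    funext j
    exact hθ.injective (congrFun e j)
  · intro r x ih v
    rw [ent_smul, ent_smul, ih]
  · intro x y hx hy v
    rw [map_add, map_add, hx, hy]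
  · intro i x ih v
    have e : sw i (fun j => θ (v j)) = fun j => θ (sw i v j) := rfl
    rw [ent_T_mul, ent_T_mul, e, ih, ih]
    refine if_congr hθ.injective.eq_iff rfl (if_congr hθ.lt_iff_lt rfl rfl)

theorem tau_sh (n : ℕ) (x : Hk R (q - qi)) : tau hq (sh n x) = tau hq x := by
  rw [tau_def, tau_def, ent_sh hq n _ _ (fun _ _ => rfl)]
  exact ent_strictMono hq (θ := fun j => j + n) (fun a b h => Nat.add_lt_add_right h n) _ _ x

/-- `a ⊗ b ↦ f a • b` -/
noncomputable def ctr {z : R} (f : Hk R z →ₗ[R] R) : Hk R z ⊗[R] Hk R z →ₗ[R] Hk R z :=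
  (TensorProduct.lid R (Hk R z)).toLinearMap ∘ₗ TensorProduct.map f LinearMap.id

theorem ctr_tmul {z : R} (f : Hk R z →ₗ[R] R) (a b : Hk R z) : ctr f (a ⊗ₜ b) = f a • b := rfl

theorem ctr_left {z : R} (f : Hk R z →ₗ[R] R) (x : Hk R z) (t : Hk R z ⊗[R] Hk R z) :
    ctr f ((x ⊗ₜ[R] 1) * t) = ctr (f ∘ₗ LinearMap.mulLeft R x) t := by
  induction t using TensorProduct.induction_on with
  | zero => simp
  | tmul a b =>
    rw [Algebra.TensorProduct.tmul_mul_tmul, ctr_tmul, ctr_tmul, one_mul]; rfl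
  | add s t hs ht => rw [mul_add, map_add, map_add, hs, ht]

theorem ctr_mul_left {z : R} (f : Hk R z →ₗ[R] R) (x : Hk R z) (t : Hk R z ⊗[R] Hk R z) :
    ctr f (t * (x ⊗ₜ[R] 1)) = ctr (f ∘ₗ LinearMap.mulRight R x) t := by
  induction t using TensorProduct.induction_on with
  | zero => simp
  | tmul a b =>
    rw [Algebra.TensorProduct.tmul_mul_tmul, ctr_tmul, ctr_tmul, mul_one]; rfl
  | add s t hs ht => rw [add_mul, map_add, map_add, hs, ht]

theorem ctr_right {z : R} (f : Hk R z →ₗ[R] R) (x : Hk R z) (t : Hk R z ⊗[R] Hk R z) :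
    ctr f (t * (1 ⊗ₜ[R] x)) = ctr f t * x := by
  induction t using TensorProduct.induction_on with
  | zero => simp
  | tmul a b =>
    rw [Algebra.TensorProduct.tmul_mul_tmul, ctr_tmul, ctr_tmul, mul_one, smul_mul_assoc]
  | add s t hs ht => rw [add_mul, map_add, map_add, hs, ht, add_mul]

theorem ctr_right' {z : R} (f : Hk R z →ₗ[R] R) (x : Hk R z) (t : Hk R z ⊗[R] Hk R z) :
    ctr f ((1 ⊗ₜ[R] x) * t) = x * ctr f t := by
  induction t using TensorProduct.induction_on with
  | zero => simp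
  | tmul a b =>
    rw [Algebra.TensorProduct.tmul_mul_tmul, ctr_tmul, ctr_tmul, one_mul, mul_smul_comm]
  | add s t hs ht => rw [mul_add, map_add, map_add, hs, ht, mul_add]

/-- The span of the tensors with both factors on `n` strands. -/
def TT (R : Type u) [CommRing R] (z : R) (n : ℕ) : Submodule R (Hk R z ⊗[R] Hk R z) :=
  Submodule.span R {w | ∃ a ∈ HH R z n, ∃ b ∈ HH R z n, w = a ⊗ₜ[R] b}

theorem ctr_congr {z : R} {n : ℕ} {f g : Hk R z →ₗ[R] R} (h : ∀ a ∈ HH R z n, f a = g a)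
    {t : Hk R z ⊗[R] Hk R z} (ht : t ∈ TT R z n) : ctr f t = ctr g t := by
  unfold TT at ht
  refine Submodule.span_induction (p := fun t _ => ctr f t = ctr g t) ?_ ?_ ?_ ?_ ht
  · rintro t ⟨a, ha, b, _, rfl⟩
    rw [ctr_tmul, ctr_tmul, h a ha]
  · rw [map_zero, map_zero]
  · intro s t _ _ hs ht
    rw [map_add, map_add, hs, ht]
  · intro r t _ ht
    rw [map_smul, map_smul, ht]

theorem ctr_zero_of {z : R} {n : ℕ} {f : Hk R z →ₗ[R] R} (h : ∀ a ∈ HH R z n, f a = 0)
    {t : Hk R z ⊗[R] Hk R z} (ht : t ∈ TT R z n) : ctr f t = 0 := by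
  have h1 : ctr f t = ctr (0 : Hk R z →ₗ[R] R) t := ctr_congr (fun a ha => h a ha) ht
  rw [h1]
  unfold ctr
  rw [TensorProduct.map_zero_left]
  simp

theorem ctr_mem {z : R} {n : ℕ} (f : Hk R z →ₗ[R] R) {t : Hk R z ⊗[R] Hk R z}
    (ht : t ∈ TT R z n) : ctr f t ∈ HH R z n := by
  unfold TT at ht
  refine Submodule.span_induction (p := fun t _ => ctr f t ∈ HH R z n) ?_ ?_ ?_ ?_ ht
  · rintro t ⟨a, _, b, hb, rfl⟩
    rw [ctr_tmul]
    exact Subalgebra.smul_mem _ hb _
  · rw [map_zero]; exact zero_mem _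
  · intro s t _ _ hs ht
    rw [map_add]; exact add_mem hs ht
  · intro r t _ ht
    rw [map_smul]; exact Subalgebra.smul_mem _ ht _

theorem cas_mem' {z : R} (n : ℕ) : Cas R z n ∈ TT R z n := cas_mem n

theorem cas_succ_eq {z : R} (n : ℕ) : Cas R z (n + 1) = ∑ i ∈ Finset.range (n + 1),
      (D i (n - i) ⊗ₜ[R] 1) * Cas R z n * (1 ⊗ₜ[R] E i (n - i)) := rfl

theorem ctr_cas_succ {z : R} (f : Hk R z →ₗ[R] R) (n : ℕ) : ctr f (Cas R z (n + 1)) =
    ∑ i ∈ Finset.range (n + 1),
      ctr (f ∘ₗ LinearMap.mulLeft R (D i (n - i))) (Cas R z n) * E i (n - i) := by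
  rw [cas_succ_eq, map_sum]
  refine Finset.sum_congr rfl fun i _ => ?_
  rw [ctr_right, ctr_left]

theorem ctr_tau_cas (n : ℕ) : ctr (tau hq) (Cas R (q - qi) n) = 1 := by
  induction n with
  | zero =>
    show ctr (tau hq) ((1 : Hk R (q - qi)) ⊗ₜ[R] 1) = 1
    rw [ctr_tmul, tau_one, one_smul]
  | succ n ih =>
    rw [ctr_cas_succ, Finset.sum_range_succ, Finset.sum_eq_zero, zero_add, Nat.sub_self, D_zero,
      E_zero, mul_one, LinearMap.mulLeft_one, LinearMap.comp_id, ih]
    intro i hi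
    rw [Finset.mem_range] at hi
    obtain ⟨m, rfl⟩ : ∃ m, n = m + 1 := ⟨n - 1, by omega⟩
    rw [ctr_zero_of (n := m + 1) _ (cas_mem' _), zero_mul]
    intro a ha
    rw [LinearMap.comp_apply, LinearMap.mulLeft_apply, show m + 1 - i = (m - i) + 1 by omega,
      D_succ, show i + (m - i) = m by omega]
    exact tau_T hq (D_mem (by omega)) ha

theorem dual (n : ℕ) {x : Hk R (q - qi)} (hx : x ∈ HH R (q - qi) n) :
    ctr (tau hq ∘ₗ LinearMap.mulLeft R x) (Cas R (q - qi) n) = x := by
  rw [← ctr_left, cas_left n hx, ctr_right, ctr_tau_cas, one_mul]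

theorem nondeg (n : ℕ) {x : Hk R (q - qi)} (hx : x ∈ HH R (q - qi) n)
    (h : ∀ y ∈ HH R (q - qi) n, tau hq (x * y) = 0) : x = 0 := by
  rw [← dual hq n hx]
  exact ctr_zero_of (fun a ha => h a ha) (cas_mem' n)

/-- `c ↦ ∑ τ (a_i c) b_i` for `C = ∑ a_i ⊗ b_i`. -/
noncomputable def Lc (C : Hk R (q - qi) ⊗[R] Hk R (q - qi)) :
    Hk R (q - qi) →ₗ[R] Hk R (q - qi) :=
  ctr (tau hq) ∘ₗ LinearMap.mulLeft R C ∘ₗ
    (Algebra.TensorProduct.includeLeft : Hk R (q - qi) →ₐ[R] _).toLinearMap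

theorem Lc_apply (C : Hk R (q - qi) ⊗[R] Hk R (q - qi)) (c : Hk R (q - qi)) :
    Lc hq C c = ctr (tau hq) (C * (c ⊗ₜ[R] 1)) := rfl

theorem Lc_add (C C' : Hk R (q - qi) ⊗[R] Hk R (q - qi)) :
    Lc hq (C + C') = Lc hq C + Lc hq C' := by
  ext c
  rw [LinearMap.add_apply, Lc_apply, Lc_apply, Lc_apply, add_mul, map_add]

theorem Lc_smul (r : R) (C : Hk R (q - qi) ⊗[R] Hk R (q - qi)) :
    Lc hq (r • C) = r • Lc hq C := by
  ext c
  rw [LinearMap.smul_apply, Lc_apply, Lc_apply, smul_mul_assoc, map_smul]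

theorem Lc_zero : Lc hq (0 : Hk R (q - qi) ⊗[R] Hk R (q - qi)) = 0 := by
  ext c
  rw [LinearMap.zero_apply, Lc_apply, zero_mul, map_zero]

theorem map_Lc_tmul (a b : Hk R (q - qi)) (t : Hk R (q - qi) ⊗[R] Hk R (q - qi)) :
    TensorProduct.map LinearMap.id (Lc hq (a ⊗ₜ[R] b)) (TensorProduct.comm R _ _ t) =
      (ctr (tau hq ∘ₗ LinearMap.mulLeft R a) t) ⊗ₜ[R] b := by
  induction t using TensorProduct.induction_on with
  | zero => simp
  | tmul c d =>
    rw [TensorProduct.comm_tmul, TensorProduct.map_tmul, Lc_apply,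
      Algebra.TensorProduct.tmul_mul_tmul, ctr_tmul, ctr_tmul, mul_one, LinearMap.id_apply,
      TensorProduct.tmul_smul, TensorProduct.smul_tmul']
    rfl
  | add s t hs ht => rw [map_add, map_add, map_add, hs, ht, TensorProduct.add_tmul]

theorem map_Lc_cas (n : ℕ) {C : Hk R (q - qi) ⊗[R] Hk R (q - qi)} (hC : C ∈ TT R (q - qi) n) :
    TensorProduct.map LinearMap.id (Lc hq C) (TensorProduct.comm R _ _ (Cas R (q - qi) n)) = C := by
  unfold TT at hC
  refine Submodule.span_induction (p := fun C _ => TensorProduct.map LinearMap.id (Lc hq C)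
    (TensorProduct.comm R _ _ (Cas R (q - qi) n)) = C) ?_ ?_ ?_ ?_ hC
  · rintro C ⟨a, ha, b, _, rfl⟩
    rw [map_Lc_tmul, dual hq n ha]
  · rw [Lc_zero, TensorProduct.map_zero_right, LinearMap.zero_apply]
  · intro s t _ _ hs ht
    rw [Lc_add, TensorProduct.map_add_right, LinearMap.add_apply, hs, ht]
  · intro r t _ ht
    rw [Lc_smul, TensorProduct.map_smul_right, LinearMap.smul_apply, ht]

theorem map_id_cas {z : R} (n : ℕ) {L : Hk R z →ₗ[R] Hk R z} (h : ∀ c ∈ HH R z n, L c = c)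
    {t : Hk R z ⊗[R] Hk R z} (ht : t ∈ TT R z n) :
    TensorProduct.map LinearMap.id L (TensorProduct.comm R _ _ t) = TensorProduct.comm R _ _ t := by
  unfold TT at ht
  refine Submodule.span_induction (p := fun t _ => TensorProduct.map LinearMap.id L
    (TensorProduct.comm R _ _ t) = TensorProduct.comm R _ _ t) ?_ ?_ ?_ ?_ ht
  · rintro t ⟨a, ha, b, _, rfl⟩
    rw [TensorProduct.comm_tmul, TensorProduct.map_tmul, h a ha, LinearMap.id_apply]
  · simp
  · intro s t _ _ hs ht
    rw [map_add, map_add, hs, ht]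
  · intro r t _ ht
    rw [map_smul, map_smul, ht]

include hq in
theorem cas_flip (n : ℕ) : TensorProduct.comm R (Hk R (q - qi)) (Hk R (q - qi))
    (Cas R (q - qi) n) = Cas R (q - qi) n := by
  have h1 := map_Lc_cas hq n (cas_mem' (R := R) (z := q - qi) n)
  rw [map_id_cas n (L := Lc hq (Cas R (q - qi) n)) ?_ (cas_mem' n)] at h1
  · exact h1
  · intro c hc
    rw [Lc_apply, ← cas_right n hc, ctr_right', ctr_tau_cas, mul_one]

theorem ctr_tau_comm (c : Hk R (q - qi)) (t : Hk R (q - qi) ⊗[R] Hk R (q - qi)) :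
    ctr (tau hq) (t * (c ⊗ₜ[R] 1)) = ctr (tau hq) ((c ⊗ₜ[R] 1) * t) := by
  rw [ctr_left, ctr_mul_left]
  congr 2
  ext x
  exact tau_comm hq x c

theorem cas_unique (n : ℕ) (C : Hk R (q - qi) ⊗[R] Hk R (q - qi))
    (hC : C ∈ Submodule.span R {w | ∃ a ∈ HH R (q - qi) n, ∃ b ∈ HH R (q - qi) n, w = a ⊗ₜ[R] b})
    (hl : ∀ x ∈ HH R (q - qi) n, (x ⊗ₜ[R] 1) * C = C * (1 ⊗ₜ[R] x))
    (h1 : ctr (tau hq) C = 1) : C = Cas R (q - qi) n := by
  have h2 := map_Lc_cas hq n hC
  rw [map_id_cas n (L := Lc hq C) ?_ (cas_mem' n)] at h2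
  · rw [← h2, cas_flip hq]
  · intro c hc
    rw [Lc_apply, ctr_tau_comm, hl c hc, ctr_right, h1, one_mul]

theorem tau_T_sh (b : Hk R (q - qi)) : tau hq (T 0 * sh 1 b) = 0 := by
  rw [tau_def, ent_T_mul_lt hq (show (fun j : ℕ => j) 0 < (fun j : ℕ => j) (0 + 1) from Nat.one_pos)]
  refine ent_sh_zero hq ⟨0, Nat.one_pos, ?_⟩ b
  rw [sw_left]
  exact Nat.one_ne_zero

theorem tau_E_sh (k : ℕ) (a : Hk R (q - qi)) : tau hq (E 0 (k + 1) * sh 1 a) = 0 := by
  have h : (E 0 (k + 1) : Hk R (q - qi)) = sh 1 (E 0 k) * T 0 := by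
    rw [E_succ', sh_E]
  rw [h, mul_assoc, tau_comm, mul_assoc, ← map_mul, tau_T_sh]

theorem ctr_sh {z : R} (f : Hk R z →ₗ[R] R) (t : Hk R z ⊗[R] Hk R z) :
    ctr f (Algebra.TensorProduct.map (sh 1) (sh 1) t) =
      sh 1 (ctr (f ∘ₗ (sh 1 : Hk R z →ₐ[R] Hk R z).toLinearMap) t) := by
  induction t using TensorProduct.induction_on with
  | zero => simp
  | tmul a b =>
    rw [Algebra.TensorProduct.map_tmul, ctr_tmul, ctr_tmul, map_smul]; rfl
  | add s t hs ht => rw [map_add, map_add, map_add, map_add, hs, ht]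

theorem sh_cas_mem {z : R} (n : ℕ) :
    Algebra.TensorProduct.map (sh 1) (sh 1) (Cas R z n) ∈ TT R z (n + 1) := by
  have h := Submodule.mem_map_of_mem
    (f := (Algebra.TensorProduct.map (sh 1) (sh 1) : Hk R z ⊗[R] Hk R z →ₐ[R] _).toLinearMap)
    (cas_mem (R := R) (z := z) n)
  rw [Submodule.map_span] at h
  refine Submodule.span_mono ?_ h
  rintro _ ⟨w, ⟨a, ha, b, hb, rfl⟩, rfl⟩
  exact ⟨_, sh_mem ha, _, sh_mem hb, rfl⟩

theorem sh_cas_left {z : R} (n : ℕ) {x : Hk R z} (hx : x ∈ HH R z n) :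
    (sh 1 x ⊗ₜ[R] 1) * Algebra.TensorProduct.map (sh 1) (sh 1) (Cas R z n) =
      Algebra.TensorProduct.map (sh 1) (sh 1) (Cas R z n) * (1 ⊗ₜ[R] sh 1 x) := by
  have h := congrArg (Algebra.TensorProduct.map (sh 1 : Hk R z →ₐ[R] _) (sh 1)) (cas_left n hx)
  simpa [map_mul] using h

theorem TT_mul {z : R} {n : ℕ} {a b : Hk R z} (ha : a ∈ HH R z n) (hb : b ∈ HH R z n)
    {t : Hk R z ⊗[R] Hk R z} (ht : t ∈ TT R z n) :
    (a ⊗ₜ[R] 1) * t * (1 ⊗ₜ[R] b) ∈ TT R z n := by
  unfold TT at ht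
  refine Submodule.span_induction (p := fun t _ => (a ⊗ₜ[R] 1) * t * (1 ⊗ₜ[R] b) ∈ TT R z n)
    ?_ ?_ ?_ ?_ ht
  · rintro t ⟨c, hc, d, hd, rfl⟩
    rw [Algebra.TensorProduct.tmul_mul_tmul, Algebra.TensorProduct.tmul_mul_tmul, one_mul, mul_one]
    exact Submodule.subset_span ⟨_, mul_mem ha hc, _, mul_mem hd hb, rfl⟩
  · rw [mul_zero, zero_mul]; exact zero_mem _
  · intro s t _ _ hs ht
    rw [mul_add, add_mul]; exact add_mem hs ht
  · intro r t _ ht
    rw [mul_smul_comm, smul_mul_assoc]; exact Submodule.smul_mem _ r ht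

section last

variable {z : R}

theorem last_left (n : ℕ) (C : Hk R z ⊗[R] Hk R z)
    (hC : ∀ x ∈ HH R z n, (sh 1 x ⊗ₜ[R] 1) * C = C * (1 ⊗ₜ[R] sh 1 x))
    {x : Hk R z} (hx : x ∈ HH R z (n + 1)) :
    (x ⊗ₜ[R] 1) * ∑ i ∈ Finset.range (n + 1), (E 0 i ⊗ₜ[R] 1) * C * (1 ⊗ₜ[R] D 0 i) =
      (∑ i ∈ Finset.range (n + 1), (E 0 i ⊗ₜ[R] 1) * C * (1 ⊗ₜ[R] D 0 i)) * (1 ⊗ₜ[R] x) := by
  set f : Hk R z →ₐ[R] Hk R z ⊗[R] Hk R z := Algebra.TensorProduct.includeLeft with hf
  set g : Hk R z →ₐ[R] Hk R z ⊗[R] Hk R z := Algebra.TensorProduct.includeRight with hg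
  have hf' : ∀ a : Hk R z, (a ⊗ₜ[R] (1 : Hk R z)) = f a := fun a => rfl
  have hg' : ∀ a : Hk R z, ((1 : Hk R z) ⊗ₜ[R] a) = g a := fun a => rfl
  simp only [hf', hg'] at hC ⊢
  refine HH_induction (P := fun x => f x * ∑ i ∈ Finset.range (n + 1), f (E 0 i) * C * g (D 0 i) =
      (∑ i ∈ Finset.range (n + 1), f (E 0 i) * C * g (D 0 i)) * g x) ?_ ?_ ?_ ?_ hx
  · intro r
    rw [AlgHom.commutes, AlgHom.commutes, Algebra.commutes]
  · intro j hj
    have hj' : j < n := by omega
    rw [Finset.mul_sum, Finset.sum_mul]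
    have hgen : ∀ i ∈ Finset.range (n + 1), i ≠ j → i ≠ j + 1 →
        f (T j) * (f (E 0 i) * C * g (D 0 i)) = f (E 0 i) * C * g (D 0 i) * g (T j) := by
      intro i hi h1 h2
      rw [Finset.mem_range] at hi
      have key : ∃ k, k + 1 < n ∧ (T j : Hk R z) * E 0 i = E 0 i * T (k + 1) ∧
          (D 0 i : Hk R z) * T j = T (k + 1) * D 0 i := by
        rcases Nat.lt_or_ge (j + 1) i with h | h
        · exact ⟨j, by omega, (E_mul_T (by omega) (by omega)).symm,
            (T_mul_D (by omega) (by omega)).symm⟩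
        · obtain ⟨k, rfl⟩ : ∃ k, j = k + 1 := ⟨j - 1, by omega⟩
          refine ⟨k, by omega, ?_, ?_⟩
          · exact (comm_T (m := k + 1) le_rfl (E_mem (by omega))).symm
          · exact comm_T (m := k + 1) le_rfl (D_mem (by omega))
      obtain ⟨k, hk, h3, h4⟩ := key
      have h5 := hC (T k) (T_mem hk)
      rw [sh_T] at h5
      calc f (T j) * (f (E 0 i) * C * g (D 0 i))
          = f (T j * E 0 i) * C * g (D 0 i) := by
            rw [map_mul]; simp only [mul_assoc]
        _ = f (E 0 i) * (f (T (k + 1)) * C) * g (D 0 i) := by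
            rw [h3, map_mul]; simp only [mul_assoc]
        _ = f (E 0 i) * C * g (T (k + 1) * D 0 i) := by
            rw [h5, map_mul]; simp only [mul_assoc]
        _ = _ := by rw [← h4, map_mul]; simp only [mul_assoc]
    have hm1 : j ∈ Finset.range (n + 1) := Finset.mem_range.2 (by omega)
    have hm2 : j + 1 ∈ (Finset.range (n + 1)).erase j :=
      Finset.mem_erase.2 ⟨by omega, Finset.mem_range.2 (by omega)⟩
    rw [← Finset.add_sum_erase _ _ hm1, ← Finset.add_sum_erase _ _ hm2,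
      ← Finset.add_sum_erase _ _ hm1, ← Finset.add_sum_erase _ _ hm2]
    rw [← add_assoc, ← add_assoc]
    congr 1
    · have hE : (T j : Hk R z) * E 0 j = E 0 (j + 1) := by rw [E_succ, zero_add]
      have hD : (D 0 j : Hk R z) * T j = D 0 (j + 1) := by rw [D_succ, zero_add]
      have hE1 : (T j : Hk R z) * E 0 (j + 1) = z • E 0 (j + 1) + E 0 j := by
        rw [← hE, ← mul_assoc, T_sq, add_mul, one_mul, smul_mul_assoc]
      have hD1 : (D 0 (j + 1) : Hk R z) * T j = z • D 0 (j + 1) + D 0 j := by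
        rw [← hD, mul_assoc, T_sq, mul_add, mul_one, mul_smul_comm]
      calc f (T j) * (f (E 0 j) * C * g (D 0 j)) +
            f (T j) * (f (E 0 (j + 1)) * C * g (D 0 (j + 1)))
          = f (T j * E 0 j) * C * g (D 0 j) +
            f (T j * E 0 (j + 1)) * C * g (D 0 (j + 1)) := by
            rw [map_mul, map_mul]; simp only [mul_assoc]
        _ = f (E 0 j) * C * g (D 0 j * T j) +
            f (E 0 (j + 1)) * C * g (D 0 (j + 1) * T j) := by
            rw [hE, hD, hE1, hD1]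
            simp only [map_add, map_smul, add_mul, mul_add, smul_mul_assoc, mul_smul_comm]
            abel
        _ = _ := by
            rw [map_mul, map_mul]; simp only [mul_assoc]
    · refine Finset.sum_congr rfl fun i hi => ?_
      rw [Finset.mem_erase, Finset.mem_erase] at hi
      exact hgen i hi.2.2 hi.2.1 hi.1
  · intro a b ha hb
    rw [map_add, map_add, add_mul, mul_add, ha, hb]
  · intro a b ha hb
    rw [map_mul, map_mul, mul_assoc, hb, ← mul_assoc, ha, mul_assoc]

end last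

include hq in
theorem cas_last (n : ℕ) : Cas R (q - qi) (n + 1) = ∑ i ∈ Finset.range (n + 1),
    (E 0 i ⊗ₜ[R] 1) * (Algebra.TensorProduct.map (sh 1) (sh 1) (Cas R (q - qi) n)) *
      (1 ⊗ₜ[R] D 0 i) := by
  symm
  refine cas_unique hq (n + 1) _ ?_ ?_ ?_
  · refine Submodule.sum_mem _ fun i hi => ?_
    rw [Finset.mem_range] at hi
    exact TT_mul (E_mem (by omega)) (D_mem (by omega)) (sh_cas_mem n)
  · intro x hx
    exact last_left n _ (fun y hy => sh_cas_left n hy) hx
  · rw [map_sum, Finset.sum_range_succ', Finset.sum_eq_zero, zero_add]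
    · rw [ctr_right, ctr_left, E_zero, D_zero, mul_one, LinearMap.mulLeft_one, LinearMap.comp_id,
        ctr_sh]
      have h : tau hq ∘ₗ (sh 1 : Hk R (q - qi) →ₐ[R] Hk R (q - qi)).toLinearMap = tau hq := by
        ext x
        exact tau_sh hq 1 x
      rw [h, ctr_tau_cas, map_one]
    · intro i _
      rw [ctr_right, ctr_left, ctr_sh, ctr_zero_of (n := n) _ (cas_mem' n), map_zero, zero_mul]
      intro a _
      exact tau_E_sh hq i a

theorem ctr_swap {z : R} (f Θ : Hk R z →ₗ[R] R) (t : Hk R z ⊗[R] Hk R z) :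
    Θ (ctr f t) = f (ctr Θ (TensorProduct.comm R _ _ t)) := by
  induction t using TensorProduct.induction_on with
  | zero => simp
  | tmul a b =>
    rw [TensorProduct.comm_tmul, ctr_tmul, ctr_tmul, map_smul, map_smul, smul_eq_mul, smul_eq_mul,
      mul_comm]
  | add s t hs ht => rw [map_add, map_add, map_add, map_add, map_add, hs, ht]

theorem tau_ctr (n : ℕ) (Θ : Hk R (q - qi) →ₗ[R] R) {y : Hk R (q - qi)}
    (hy : y ∈ HH R (q - qi) n) : Θ y = tau hq (y * ctr Θ (Cas R (q - qi) n)) := by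
  have h := congrArg Θ (dual hq n hy)
  rw [ctr_swap, cas_flip hq] at h
  exact h.symm

theorem represent (n : ℕ) (Θ : Hk R (q - qi) →ₗ[R] R) :
    ∃ v ∈ HH R (q - qi) n, ∀ y ∈ HH R (q - qi) n, Θ y = tau hq (y * v) :=
  ⟨_, ctr_mem Θ (cas_mem' n), fun _ hy => tau_ctr hq n Θ hy⟩

theorem tau_sand (x y : Hk R (q - qi)) (t : Hk R (q - qi) ⊗[R] Hk R (q - qi)) :
    tau hq (sand (AlgHom.id R _) (AlgHom.id R _) x t * y) =
      tau hq (x * sand (AlgHom.id R _) (AlgHom.id R _) y (TensorProduct.comm R _ _ t)) := by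
  induction t using TensorProduct.induction_on with
  | zero => simp
  | tmul a b =>
    rw [TensorProduct.comm_tmul, sand_tmul, sand_tmul]
    simp only [AlgHom.coe_id, id_eq]
    rw [mul_assoc, mul_assoc, tau_comm]
    simp only [mul_assoc]
  | add s t hs ht => rw [map_add, map_add, map_add, add_mul, mul_add, map_add, map_add, hs, ht]

theorem tau_N (n : ℕ) (x y : Hk R (q - qi)) : tau hq (N n x * y) = tau hq (x * N n y) := by
  have h := tau_sand hq x y (Cas R (q - qi) n)
  rw [cas_flip hq] at h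
  exact h

theorem ent_D_zero (m : ℕ) {a : Hk R (q - qi)} (ha : a ∈ HH R (q - qi) m) (w : Wd) :
    ∀ k i, i + k = m → ∀ v : Wd, (∀ j, i < j → j ≤ m → v i < v j) → v i ≠ w m →
      ent hq v w (D i k * a) = 0 := by
  intro k
  induction k with
  | zero =>
    intro i hi v _ h2
    rw [D_zero, one_mul]
    refine ent_support hq ha ⟨m, le_rfl, ?_⟩
    rw [← hi, add_zero] at h2 ⊢
    exact h2
  | succ k ih =>
    intro i hi v h1 h2
    rw [D_succ', mul_assoc, ent_T_mul_lt hq (h1 (i + 1) (by omega) (by omega))]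
    refine ih (i + 1) (by omega) _ ?_ ?_
    · intro j hj hjm
      rw [sw_right, sw_ne _ (by omega) (by omega)]
      exact h1 j (by omega) hjm
    · rw [sw_right]; exact h2

theorem ent_D (m : ℕ) {a : Hk R (q - qi)} (ha : a ∈ HH R (q - qi) m) {w : Wd}
    (hw : ∀ i j, i ≤ j → j ≤ m → w i ≤ w j) : ∀ k i, i + k = m →
      ent hq w w (D i k * a) = if w i = w m then q ^ k * ent hq w w a else 0 := by
  intro k
  induction k with
  | zero =>
    intro i hi
    rw [add_zero] at hi
    subst hi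
    rw [if_pos rfl, D_zero, one_mul, pow_zero, one_mul]
  | succ k ih =>
    intro i hi
    have h1 := hw i (i + 1) (by omega) (by omega)
    have h2 := hw (i + 1) m (by omega) le_rfl
    rcases Nat.lt_or_ge (w i) (w (i + 1)) with h | h
    · rw [if_neg (by omega)]
      refine ent_D_zero hq m ha w (k + 1) i hi w ?_ (by omega)
      intro j hj hjm
      have := hw (i + 1) j (by omega) hjm
      omega
    · have he : w i = w (i + 1) := by omega
      rw [D_succ', mul_assoc, ent_T_mul_eq hq he, ih (i + 1) (by omega), he]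
      split_ifs
      · rw [pow_succ]; ring
      · rw [mul_zero]

/-- The recursion for the symmetrisers of a nondecreasing word. -/
theorem ctr_ent_succ (m c : ℕ) {w : Wd} (hw : ∀ i j, i ≤ j → j ≤ m → w i ≤ w j) (hc : c ≤ m)
    (h1 : ∀ t ≤ c, w (m - t) = w m) (h2 : ∀ i, i + c < m → w i ≠ w m) :
    ctr (ent hq w w) (Cas R (q - qi) (m + 1)) = ctr (ent hq w w) (Cas R (q - qi) m) *
      ∑ t ∈ Finset.range (c + 1), q ^ t • E (m - t) t := by
  rw [ctr_cas_succ, Finset.mul_sum, ← Finset.sum_range_reflect]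
  have h3 : ∀ j ∈ Finset.range (m + 1),
      ctr (ent hq w w ∘ₗ LinearMap.mulLeft R (D (m + 1 - 1 - j) (m - (m + 1 - 1 - j))))
        (Cas R (q - qi) m) * E (m + 1 - 1 - j) (m - (m + 1 - 1 - j)) =
      if j < c + 1 then ctr (ent hq w w) (Cas R (q - qi) m) * (q ^ j • E (m - j) j) else 0 := by
    intro j hj
    rw [Finset.mem_range] at hj
    have e1 : m + 1 - 1 - j = m - j := by omega
    have e2 : m - (m - j) = j := by omega
    rw [e1, e2]
    have h4 : ctr (ent hq w w ∘ₗ LinearMap.mulLeft R (D (m - j) j)) (Cas R (q - qi) m) =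
        ctr ((if w (m - j) = w m then q ^ j else 0) • ent hq w w) (Cas R (q - qi) m) := by
      refine ctr_congr (n := m) (fun a ha => ?_) (cas_mem' m)
      rw [LinearMap.comp_apply, LinearMap.mulLeft_apply, ent_D hq m ha hw j (m - j) (by omega),
        LinearMap.smul_apply, smul_eq_mul]
      split_ifs
      · rfl
      · rw [zero_mul]
    have h5 : ∀ r : R, ctr (r • ent hq w w) (Cas R (q - qi) m) =
        r • ctr (ent hq w w) (Cas R (q - qi) m) := by
      intro r
      unfold ctr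
      rw [TensorProduct.map_smul_left]
      simp
    rw [h4, h5]
    by_cases hjc : j < c + 1
    · rw [if_pos hjc, if_pos (h1 j (by omega)), smul_mul_assoc, mul_smul_comm]
    · rw [if_neg hjc, if_neg (h2 (m - j) (by omega)), zero_smul, zero_mul]
  rw [Finset.sum_congr rfl h3, ← Finset.sum_filter]
  refine Finset.sum_congr ?_ fun _ _ => rfl
  ext j
  simp only [Finset.mem_filter, Finset.mem_range]
  omega

theorem wl_lt (l : List ℕ) : ∀ j < l.sum, wl l j < l.length := by
  induction l with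
  | nil => intro j hj; simp at hj
  | cons k l ih =>
    intro j hj
    rw [List.sum_cons] at hj
    show (if j < l.sum then wl l j else if j < l.sum + k then l.length
      else l.length + 1 + j) < l.length + 1
    split_ifs with h1 h2
    · exact Nat.lt_succ_of_lt (ih j h1)
    · omega
    · omega

theorem wl_cons_lt (k : ℕ) (l : List ℕ) {j : ℕ} (hj : j < l.sum) : wl (k :: l) j = wl l j := by
  show (if j < l.sum then wl l j else _) = _
  rw [if_pos hj]

theorem wl_cons_ge (k : ℕ) (l : List ℕ) {j : ℕ} (hj : l.sum ≤ j) (hj' : j < l.sum + k) :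
    wl (k :: l) j = l.length := by
  show (if j < l.sum then wl l j else if j < l.sum + k then l.length else _) = _
  rw [if_neg (by omega), if_pos hj']

theorem wl_mono (l : List ℕ) : ∀ i j, i ≤ j → j < l.sum → wl l i ≤ wl l j := by
  induction l with
  | nil => intro i j _ hj; simp at hj
  | cons k l ih =>
    intro i j hij hj
    rw [List.sum_cons] at hj
    rcases Nat.lt_or_ge j l.sum with h | h
    · rw [wl_cons_lt k l h, wl_cons_lt k l (by omega)]
      exact ih i j hij h
    · rw [wl_cons_ge k l h (by omega)]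
      rcases Nat.lt_or_ge i l.sum with h' | h'
      · rw [wl_cons_lt k l h']
        exact (wl_lt l i h').le
      · rw [wl_cons_ge k l h' (by omega)]

theorem ctr_wl (l : List ℕ) : ∀ w : Wd, (∀ j < l.sum, w j = wl l j) →
    ctr (ent hq w w) (Cas R (q - qi) l.sum) = Syl q l := by
  induction l with
  | nil =>
    intro w _
    show ctr (ent hq w w) ((1 : Hk R (q - qi)) ⊗ₜ[R] 1) = 1
    rw [ctr_tmul, ent_one_self, one_smul]
  | cons k l ih =>
    intro w hw
    have key : ∀ t ≤ k, ctr (ent hq w w) (Cas R (q - qi) (l.sum + t)) =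
        Syl q l * sh l.sum (Sy q t) := by
      intro t
      induction t with
      | zero =>
        intro _
        rw [add_zero, Sy, map_one, mul_one]
        refine ih w fun j hj => ?_
        rw [hw j (by rw [List.sum_cons]; omega), wl_cons_lt k l hj]
      | succ t iht =>
        intro ht
        have hw' : ∀ j, j < l.sum + k → w j = wl (k :: l) j := fun j hj =>
          hw j (by rw [List.sum_cons]; omega)
        rw [← add_assoc, ctr_ent_succ hq (l.sum + t) t, iht (by omega), Sy, map_mul, mul_assoc,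
          map_sum]
        · congr 2
          refine Finset.sum_congr rfl fun s hs => ?_
          rw [Finset.mem_range] at hs
          rw [map_smul, sh_E, show t - s + l.sum = l.sum + t - s by omega]
        · intro i j hij hj
          rw [hw' i (by omega), hw' j (by omega)]
          exact wl_mono (k :: l) i j hij (by rw [List.sum_cons]; omega)
        · omega
        · intro s hs
          rw [hw' _ (by omega), hw' _ (by omega), wl_cons_ge k l (by omega) (by omega),
            wl_cons_ge k l (by omega) (by omega)]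
        · intro i hi
          rw [hw' _ (by omega), hw' _ (by omega), wl_cons_ge k l (j := l.sum + t) (by omega)
            (by omega), wl_cons_lt k l (by omega)]
          exact (wl_lt l i (by omega)).ne
    have h := key k le_rfl
    rw [List.sum_cons, add_comm k, h]
    rfl

theorem tau_Syl (l : List ℕ) {y : Hk R (q - qi)} (hy : y ∈ HH R (q - qi) l.sum) :
    tau hq (y * Syl q l) = ent hq (wl l) (wl l) y := by
  rw [← ctr_wl hq l (wl l) (fun _ _ => rfl), ← tau_ctr hq l.sum _ hy]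

theorem tau_AA (k : ℕ) : tau hq (AA (k + 1)) = (-(q - qi)) ^ k := by
  induction k with
  | zero => rw [zero_add, AA_one, tau_one, pow_zero]
  | succ k ih =>
    have h1 : tau hq (D 0 (k + 1)) = 0 := by
      have := tau_T hq (n := k) (x := D 0 k) (y := 1) (D_mem (by omega)) (one_mem _)
      rw [mul_one] at this
      rw [D_succ, zero_add]
      exact this
    rw [AA_succ, map_add, h1, add_zero, tau_def, ent_diag_Ti hq (AA_mem (k + 1)), ← tau_def, ih,
      if_neg (by omega), if_neg (by omega), pow_succ]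
    ring

end Pool.Agent.Lib.Hecke59
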