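import Pool.Agent.Lib.Hecke59.Words

/-! Generating polynomials of the diagonal entries over all words in the letters `0, …, s-1`. -/

namespace Pool.Agent.Lib.Hecke59

open scoped TensorProduct

universe u v

variable {R : Type u} [CommRing R] {q qi : R} (hq : q * qi = 1)

/-- Generating polynomial of `B v` over the words `v` which agree with `w` from `m` on and whose
first `m` letters are `< s`; the letter `x` has weight `X x`. -/
noncomputable def Zp (s : ℕ) : ℕ → Wd → (Wd → R) → MvPolynomial ℕ R
  | 0, w, B => MvPolynomial.C (B w)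
  | m + 1, w, B => ∑ x ∈ Finset.range s, MvPolynomial.X x * Zp s m (Function.update w m x) B

theorem coeff_Zp (s m : ℕ) (w : Wd) (B : Wd → R) (μ : ℕ →₀ ℕ) (hμ : ∀ x, s ≤ x → μ x = 0) :
    MvPolynomial.coeff μ (Zp s m w B) = S s m μ w B := by
  classical
  induction m generalizing w μ with
  | zero =>
    unfold Zp S
    rw [MvPolynomial.coeff_C]
    have h : (0 = μ) ↔ ∀ x < s, μ x = 0 := by
      constructor
      · rintro rfl x _; rfl
      · intro h
        ext x
        rcases Nat.lt_or_ge x s with hx | hx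
        · simp [h x hx]
        · simp [hμ x hx]
    simp only [h]
  | succ m ih =>
    unfold Zp S
    rw [MvPolynomial.coeff_sum]
    apply Finset.sum_congr rfl
    intro x hx
    rw [Finset.mem_range] at hx
    rw [MvPolynomial.coeff_X_mul']
    have h1 : (x ∈ μ.support) ↔ 0 < μ x := by
      rw [Finsupp.mem_support_iff]; omega
    simp only [h1]
    split_ifs with h
    · rw [ih]
      · congr 1
        funext y
        by_cases hy : y = x
        · subst hy; simp
        · rw [Function.update_of_ne hy, Finsupp.tsub_apply, Finsupp.single_eq_of_ne (by tauto)]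
          simp
      · intro y hy
        rw [Finsupp.tsub_apply, hμ y hy]
        simp
    · rfl

theorem Zp_congr (s m : ℕ) (w w' : Wd) (B B' : Wd → R)
    (h : ∀ v v' : Wd, (∀ j < m, v j = v' j) → (∀ j, m ≤ j → v j = w j) →
      (∀ j, m ≤ j → v' j = w' j) → B v = B' v') : Zp s m w B = Zp s m w' B' := by
  induction m generalizing w w' with
  | zero =>
    unfold Zp
    rw [h w w' (by omega) (fun _ _ => rfl) (fun _ _ => rfl)]
  | succ m ih =>
    unfold Zp
    apply Finset.sum_congr rfl
    intro x _
    rw [ih]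
    intro v v' h1 h2 h3
    apply h
    · intro j hj
      rcases Nat.lt_or_ge j m with h4 | h4
      · exact h1 j h4
      · obtain rfl : j = m := by omega
        rw [h2 j le_rfl, h3 j le_rfl]
        simp
    · intro j hj
      rw [h2 j (by omega), Function.update_of_ne (by omega)]
    · intro j hj
      rw [h3 j (by omega), Function.update_of_ne (by omega)]

theorem Zp_smul (s m : ℕ) (w : Wd) (B : Wd → R) (c : R) :
    Zp s m w (fun v => c * B v) = MvPolynomial.C c * Zp s m w B := by
  induction m generalizing w with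
  | zero => simp [Zp]
  | succ m ih =>
    unfold Zp
    rw [Finset.mul_sum]
    apply Finset.sum_congr rfl
    intro x _
    rw [ih]
    ring

theorem Zp_add (s m : ℕ) (w : Wd) (B B' : Wd → R) :
    Zp s m w (fun v => B v + B' v) = Zp s m w B + Zp s m w B' := by
  induction m generalizing w with
  | zero => simp [Zp]
  | succ m ih =>
    unfold Zp
    rw [← Finset.sum_add_distrib]
    apply Finset.sum_congr rfl
    intro x _
    rw [ih]
    ring

theorem Zp_mul_aux (s a b : ℕ) (f g : Wd → R) (w w' w'' : Wd)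
    (hf : ∀ v v' : Wd, (∀ j < a, v j = v' j) → f v = f v')
    (hg : ∀ u u' : Wd, (∀ j < b, u j = u' j) → (∀ j, b ≤ j → u j = w (j + a)) →
      (∀ j, b ≤ j → u' j = w'' j) → g u = g u') :
    Zp s (a + b) w (fun v => f v * g (fun j => v (j + a))) = Zp s a w' f * Zp s b w'' g := by
  induction b generalizing w w'' with
  | zero =>
    rw [show Zp s 0 w'' g = MvPolynomial.C (g w'') from rfl, mul_comm (Zp s a w' f), ← Zp_smul]
    apply Zp_congr
    intro v v' h1 h2 h3
    rw [hf v v' h1, mul_comm, hg (fun j => v (j + a)) w'' (by omega) (fun j _ => h2 _ (by omega))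
      (fun j _ => rfl)]
  | succ b ih =>
    rw [← add_assoc]
    rw [show Zp s (a + b + 1) w (fun v => f v * g (fun j => v (j + a))) =
      ∑ x ∈ Finset.range s, MvPolynomial.X x *
        Zp s (a + b) (Function.update w (a + b) x) (fun v => f v * g (fun j => v (j + a))) from rfl,
      show Zp s (b + 1) w'' g = ∑ x ∈ Finset.range s, MvPolynomial.X x *
        Zp s b (Function.update w'' b x) g from rfl, Finset.mul_sum]
    apply Finset.sum_congr rfl
    intro x _
    rw [ih (Function.update w (a + b) x) (Function.update w'' b x)]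
    · ring
    · intro u u' h1 h2 h3
      apply hg
      · intro j hj
        rcases Nat.lt_or_ge j b with h4 | h4
        · exact h1 j h4
        · obtain rfl : j = b := by omega
          rw [h2 j le_rfl, h3 j le_rfl, add_comm j a]
          simp
      · intro j hj
        rw [h2 j (by omega), Function.update_of_ne (by omega)]
      · intro j hj
        rw [h3 j (by omega), Function.update_of_ne (by omega)]

theorem ent_diag_local {n : ℕ} {x : Hk R (q - qi)} (hx : x ∈ HH R (q - qi) n) {v w : Wd}
    (h : ∀ j < n, v j = w j) : ent hq v v x = ent hq w w x :=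
  ent_local hq hx h h (fun _ _ => rfl) (fun _ _ => rfl)

theorem Zp_mul (s a b : ℕ) (w : Wd) {x y : Hk R (q - qi)} (hx : x ∈ HH R (q - qi) a)
    (hy : y ∈ HH R (q - qi) b) (w' w'' : Wd) :
    Zp s (a + b) w (fun v => ent hq v v (x * sh a y)) =
      Zp s a w' (fun v => ent hq v v x) * Zp s b w'' (fun v => ent hq v v y) := by
  rw [← Zp_mul_aux s a b (fun v => ent hq v v x) (fun v => ent hq v v y) w w' w'']
  · congr 1
    funext v
    exact ent_diag_mul hq hx y v
  · intro v v' h
    exact ent_diag_local hq hx h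
  · intro v v' h _ _
    exact ent_diag_local hq hy h

/-! ### The value on `AA` -/

/-- The part of the generating polynomial with last letter `y`. -/
noncomputable def row (s n : ℕ) (B : Wd → R) (y : ℕ) : MvPolynomial ℕ R :=
  MvPolynomial.X y * Zp s n (Function.update (fun _ => 0) n y) B

theorem Zp_eq_row (s n : ℕ) (w : Wd) (B : Wd → R)
    (hB : ∀ v v' : Wd, (∀ j < n + 1, v j = v' j) → B v = B v') :
    Zp s (n + 1) w B = ∑ y ∈ Finset.range s, row s n B y := by
  rw [Zp_congr s (n + 1) w (fun _ => 0) B B (fun v v' h _ _ => hB v v' h)]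
  rfl

theorem row_add (s n : ℕ) (B B' : Wd → R) (y : ℕ) :
    row s n (fun v => B v + B' v) y = row s n B y + row s n B' y := by
  unfold row
  rw [Zp_add, mul_add]

theorem row_step (s n : ℕ) (d : ℕ → ℕ → R) (B : Wd → R)
    (hB : ∀ v v' : Wd, (∀ j < n + 1, v j = v' j) → B v = B v') (y : ℕ) :
    row s (n + 1) (fun v => d (v n) (v (n + 1)) * B v) y =
      ∑ x ∈ Finset.range s, row s n B x * (MvPolynomial.C (d x y) * MvPolynomial.X y) := by
  unfold row
  rw [show Zp s (n + 1) (Function.update (fun _ => 0) (n + 1) y)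
    (fun v => d (v n) (v (n + 1)) * B v) = ∑ x ∈ Finset.range s, MvPolynomial.X x *
      Zp s n (Function.update (Function.update (fun _ => 0) (n + 1) y) n x)
        (fun v => d (v n) (v (n + 1)) * B v) from rfl, Finset.mul_sum]
  apply Finset.sum_congr rfl
  intro x _
  have h : Zp s n (Function.update (Function.update (fun _ => 0) (n + 1) y) n x)
        (fun v => d (v n) (v (n + 1)) * B v) =
      Zp s n (Function.update (fun _ => 0) n x) (fun v => d x y * B v) := by
    apply Zp_congr
    intro v v' h1 h2 h3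
    have e1 : v n = x := by rw [h2 n le_rfl]; simp
    have e2 : v (n + 1) = y := by
      rw [h2 (n + 1) (by omega), Function.update_of_ne (by omega)]; simp
    rw [e1, e2, hB v v']
    intro j hj
    rcases Nat.lt_or_ge j n with h4 | h4
    · exact h1 j h4
    · obtain rfl : j = n := by omega
      rw [h2 j le_rfl, h3 j le_rfl]
      simp
  rw [h, Zp_smul]
  ring

/-- The diagonal weight of `T`. -/
def dp (q qi : R) (x y : ℕ) : R := if x = y then q else if y < x then q - qi else 0

/-- The diagonal weight of `Ti`. -/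
def dm (q qi : R) (x y : ℕ) : R := if x = y then qi else if y < x then 0 else -(q - qi)

theorem dp_sub_dm (x y : ℕ) : dp q qi x y - dm q qi x y = q - qi := by
  unfold dp dm
  split_ifs <;> ring

/-- The matrix of the diagonal weights. -/
noncomputable def Mt (d : ℕ → ℕ → R) (s : ℕ) : Matrix (Fin s) (Fin s) (MvPolynomial ℕ R) :=
  Matrix.of fun x y => MvPolynomial.C (d x y) * MvPolynomial.X (y : ℕ)

/-- The matrix all of whose rows are a given row. -/
noncomputable def Rw (s : ℕ) (r : ℕ → MvPolynomial ℕ R) :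
    Matrix (Fin s) (Fin s) (MvPolynomial ℕ R) :=
  Matrix.of fun _ y => r y

theorem Rw_step (s n : ℕ) (d : ℕ → ℕ → R) (B : Wd → R)
    (hB : ∀ v v' : Wd, (∀ j < n + 1, v j = v' j) → B v = B v') :
    Rw s (row s (n + 1) (fun v => d (v n) (v (n + 1)) * B v)) = Rw s (row s n B) * Mt d s := by
  ext1 x y
  rw [Matrix.mul_apply]
  unfold Rw Mt
  simp only [Matrix.of_apply]
  rw [row_step s n d B hB, Finset.sum_range]

theorem trace_Rw (s : ℕ) (r : ℕ → MvPolynomial ℕ R) :
    (Rw s r).trace = ∑ y ∈ Finset.range s, r y := by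
  rw [Finset.sum_range]
  rfl

theorem Rw_D (s n : ℕ) : Rw s (row s n (fun v => ent hq v v (D 0 n))) =
    Rw s (fun y => MvPolynomial.X y) * Mt (dp q qi) s ^ n := by
  induction n with
  | zero =>
    rw [pow_zero, mul_one]
    congr 1
    funext y
    unfold row Zp
    simp only [D_zero]
    rw [ent_one]
    simp
  | succ n ih =>
    have h : (fun v => ent hq v v (D 0 (n + 1))) =
        fun v => dp q qi (v n) (v (n + 1)) * ent hq v v (D 0 n) := by
      funext v
      rw [D_succ, zero_add, ent_diag_T hq (D_mem (by omega))]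
      rfl
    rw [h, Rw_step, ih, pow_succ, mul_assoc]
    intro v v' hv
    exact ent_diag_local hq (D_mem (by omega)) hv

theorem Rw_AA (s n : ℕ) : Rw s (row s (n + 1) (fun v => ent hq v v (AA (n + 2)))) =
    Rw s (row s n (fun v => ent hq v v (AA (n + 1)))) * Mt (dm q qi) s +
      Rw s (fun y => MvPolynomial.X y) * Mt (dp q qi) s ^ (n + 1) := by
  have h : (fun v => ent hq v v (AA (n + 2))) =
      fun v => dm q qi (v n) (v (n + 1)) * ent hq v v (AA (n + 1)) +
        ent hq v v (D 0 (n + 1)) := by
    funext v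
    rw [AA_succ, map_add, ent_diag_Ti hq (AA_mem (n + 1))]
    rfl
  rw [h, ← Rw_D hq, ← Rw_step]
  · ext1 x y
    unfold Rw
    simp only [Matrix.of_apply, Matrix.add_apply]
    rw [row_add]
  · intro v v' hv
    exact ent_diag_local hq (AA_mem (n + 1)) hv

theorem Mt_sub (s : ℕ) : Mt (dp q qi) s - Mt (dm q qi) s =
    (MvPolynomial.C (q - qi) : MvPolynomial ℕ R) • Rw s (fun y => MvPolynomial.X y) := by
  ext1 x y
  unfold Rw Mt
  simp only [Matrix.of_apply, Matrix.sub_apply, Matrix.smul_apply, smul_eq_mul]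
  rw [← sub_mul, ← map_sub, dp_sub_dm]

theorem trace_AA (s n j : ℕ) : MvPolynomial.C (q - qi) *
    (Rw s (row s n (fun v => ent hq v v (AA (n + 1)))) * Mt (dm q qi) s ^ j).trace =
    (Mt (dp q qi) s ^ (n + 1) * Mt (dm q qi) s ^ j).trace -
      (Mt (dm q qi) s ^ (n + 1 + j)).trace := by
  induction n generalizing j with
  | zero =>
    have h : Rw s (row s 0 (fun v => ent hq v v (AA (0 + 1)))) =
        Rw s (fun y => (MvPolynomial.X y : MvPolynomial ℕ R)) := by
      congr 1
      funext y
      unfold row Zp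
      simp only [zero_add, AA_one]
      rw [ent_one]
      simp
    rw [h, ← smul_eq_mul, ← Matrix.trace_smul, ← Matrix.smul_mul, ← Mt_sub, sub_mul,
      Matrix.trace_sub, zero_add, pow_one, add_comm 1 j, pow_succ']
  | succ n ih =>
    rw [Rw_AA hq, add_mul, Matrix.trace_add, mul_add, mul_assoc, ← pow_succ', ih (j + 1)]
    rw [← smul_eq_mul (MvPolynomial.C (q - qi))
      (Matrix.trace (Rw s (fun y => MvPolynomial.X y) * _ * _)), ← Matrix.trace_smul, mul_assoc,
      ← Matrix.smul_mul, ← Mt_sub, sub_mul, Matrix.trace_sub, ← mul_assoc, ← pow_succ',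
      Matrix.trace_mul_comm (Mt (dm q qi) s), mul_assoc, ← pow_succ,
      show n + 1 + (j + 1) = n + 1 + 1 + j by omega]
    ring

theorem tri_low {s : ℕ} {A : Type*} [CommRing A] (P : Matrix (Fin s) (Fin s) A)
    (h : ∀ x y, x < y → P x y = 0) (n : ℕ) :
    (∀ x y, x < y → (P ^ n) x y = 0) ∧ ∀ x, (P ^ n) x x = P x x ^ n := by
  induction n with
  | zero =>
    refine ⟨fun x y hxy => ?_, fun x => ?_⟩
    · rw [pow_zero, Matrix.one_apply_ne hxy.ne]
    · rw [pow_zero, pow_zero, Matrix.one_apply_eq]
  | succ n ih =>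
    refine ⟨fun x y hxy => ?_, fun x => ?_⟩
    · rw [pow_succ, Matrix.mul_apply]
      apply Finset.sum_eq_zero
      intro k _
      rcases lt_or_ge x k with h1 | h1
      · rw [ih.1 x k h1, zero_mul]
      · rw [h k y (lt_of_le_of_lt h1 hxy), mul_zero]
    · rw [pow_succ, pow_succ, Matrix.mul_apply, Finset.sum_eq_single x, ih.2]
      · intro k _ hk
        rcases lt_or_gt_of_ne hk with h1 | h1
        · rw [h k x h1, mul_zero]
        · rw [ih.1 x k h1, zero_mul]
      · intro h; exact absurd (Finset.mem_univ x) h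

theorem tri_up {s : ℕ} {A : Type*} [CommRing A] (P : Matrix (Fin s) (Fin s) A)
    (h : ∀ x y, y < x → P x y = 0) (n : ℕ) (x : Fin s) : (P ^ n) x x = P x x ^ n := by
  have h1 := (tri_low P.transpose (fun x y hxy => h y x hxy) n).2 x
  rw [← Matrix.transpose_pow] at h1
  exact h1

theorem trace_dp (s n : ℕ) : (Mt (dp q qi) s ^ n).trace =
    MvPolynomial.C (q ^ n) * ∑ x ∈ Finset.range s, MvPolynomial.X x ^ n := by
  rw [Finset.sum_range, Finset.mul_sum]
  unfold Matrix.trace
  apply Finset.sum_congr rfl
  intro x _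
  rw [Matrix.diag_apply, (tri_low _ _ n).2]
  · simp [Mt, dp, mul_pow]
  · intro x y hxy
    have h1 : (x : ℕ) ≠ y := by omega
    have h2 : ¬ (y : ℕ) < x := by omega
    unfold Mt dp
    rw [Matrix.of_apply, if_neg h1, if_neg h2, map_zero, zero_mul]

theorem trace_dm (s n : ℕ) : (Mt (dm q qi) s ^ n).trace =
    MvPolynomial.C (qi ^ n) * ∑ x ∈ Finset.range s, MvPolynomial.X x ^ n := by
  rw [Finset.sum_range, Finset.mul_sum]
  unfold Matrix.trace
  apply Finset.sum_congr rfl
  intro x _
  rw [Matrix.diag_apply, tri_up _ _ n]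
  · simp [Mt, dm, mul_pow]
  · intro x y hxy
    have h1 : (x : ℕ) ≠ y := by omega
    have h2 : (y : ℕ) < x := by omega
    unfold Mt dm
    rw [Matrix.of_apply, if_neg h1, if_pos h2, map_zero, zero_mul]

theorem Zp_AA (hz : IsUnit (q - qi)) (s k : ℕ) (hk : 0 < k) (w : Wd) :
    Zp s k w (fun v => ent hq v v (AA k)) =
      MvPolynomial.C (qint q qi k) * ∑ x ∈ Finset.range s, MvPolynomial.X x ^ k := by
  obtain ⟨n, rfl⟩ : ∃ n, k = n + 1 := ⟨k - 1, by omega⟩
  rw [Zp_eq_row s n w _ (fun v v' hv => ent_diag_local hq (AA_mem (n + 1)) hv), ← trace_Rw]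
  have h := trace_AA hq s n 0
  rw [pow_zero, mul_one, mul_one, add_zero, trace_dp, trace_dm, ← sub_mul, ← map_sub] at h
  have h2 : q ^ (n + 1) - qi ^ (n + 1) = (q - qi) * qint q qi (n + 1) := by
    unfold qint
    rw [mul_comm]
    exact (Commute.geom_sum₂_mul (Commute.all q qi) (n + 1)).symm
  rw [h2, map_mul, mul_assoc] at h
  exact (hz.map MvPolynomial.C).mul_left_cancel h

theorem qint_eq (hq : q * qi = 1) (k : ℕ) : qint q qi (k + 1) = qi ^ k * qn q (k + 1) := by
  unfold qint qn
  rw [Finset.mul_sum]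
  apply Finset.sum_congr rfl
  intro j hj
  rw [Finset.mem_range] at hj
  have h1 : qi ^ k = qi ^ (k - j) * qi ^ j := by rw [← pow_add]; congr 1; omega
  have h2 : q ^ (2 * j) = q ^ j * q ^ j := by rw [← pow_add]; congr 1; omega
  have h3 : qi ^ j * q ^ j = 1 := by rw [← mul_pow, mul_comm, hq, one_pow]
  rw [h1, h2, show k + 1 - 1 - j = k - j by omega]
  calc q ^ j * qi ^ (k - j) = qi ^ (k - j) * (1 * q ^ j) := by ring
    _ = _ := by rw [← h3]; ring

theorem Zp_AAl (hz : IsUnit (q - qi)) (s : ℕ) (l : List ℕ) (hl : ∀ k ∈ l, 0 < k) (w : Wd) :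
    Zp s l.sum w (fun v => ent hq v v (AAl l)) =
      MvPolynomial.C (l.map (qint q qi)).prod *
        (l.map (fun k => ∑ x ∈ Finset.range s, (MvPolynomial.X x : MvPolynomial ℕ R) ^ k)).prod := by
  induction l generalizing w with
  | nil =>
    simp only [List.sum_nil, AAl, List.map_nil, List.prod_nil, map_one, mul_one]
    unfold Zp
    beta_reduce
    rw [ent_one]
    simp
  | cons k l ih =>
    have h1 : ∀ k ∈ l, 0 < k := fun k hk => hl k (List.mem_cons_of_mem _ hk)
    have h2 : 0 < k := hl k List.mem_cons_self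
    rw [List.sum_cons, add_comm k l.sum, List.map_cons, List.map_cons, List.prod_cons,
      List.prod_cons]
    rw [show (fun v => ent hq v v (AAl (k :: l))) =
      fun v => ent hq v v (AAl l * sh l.sum (AA k)) from rfl,
      Zp_mul hq s l.sum k w (AAl_mem l) (AA_mem k) w w, ih h1 w, Zp_AA hq hz s k h2 w, map_mul]
    ring

end Pool.Agent.Lib.Hecke59
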