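import Pool.Agent.Lib.Hecke59.Span
import Pool.Agent.Lib.Hecke59.Zpoly
import Pool.Agent.Lib.Hecke59.Tau

/-! The norm of the element `AA p` vanishes when `[p]^2 = 0`. -/

namespace Pool.Agent.Lib.Hecke59

open scoped TensorProduct

universe u v

variable {R : Type u} [CommRing R] {q qi : R}

/-- The hypotheses on the ring: `q` is a unit, `q - q⁻¹` is a unit, `[k]` is a unit for
`0 < k < p` and `[p]^2 = 0`. -/
structure Good (p : ℕ) (q qi : R) : Prop where
  hq : q * qi = 1
  hz : IsUnit (q - qi)
  hu : ∀ k, 0 < k → k < p → IsUnit (qn q k)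
  h0 : (qn q p) ^ 2 = 0

theorem coeff_pow_sum (s k : ℕ) (μ : ℕ →₀ ℕ) (h : ∀ x, μ ≠ Finsupp.single x k) :
    MvPolynomial.coeff μ (∑ x ∈ Finset.range s, (MvPolynomial.X x : MvPolynomial ℕ R) ^ k) = 0 := by
  rw [MvPolynomial.coeff_sum]
  refine Finset.sum_eq_zero fun x _ => ?_
  rw [MvPolynomial.coeff_X_pow, if_neg]
  exact fun h' => h x h'.symm

theorem cont_head (k : ℕ) (l : List ℕ) : cont (k :: l) l.length = k := by simp [cont]

theorem cont_lt {l : List ℕ} {x : ℕ} (hx : l.length ≤ x) : cont l x = 0 := by
  induction l with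
  | nil => rfl
  | cons k l ih =>
    simp only [List.length_cons] at hx
    simp only [cont]
    rw [if_neg (by omega), ih (by omega)]

theorem cont_cons_lt {k : ℕ} {l : List ℕ} {x : ℕ} (hx : x < l.length) :
    cont (k :: l) x = cont l x := by
  simp only [cont]
  rw [if_neg (by omega)]

theorem N_AA {p : ℕ} (hp : 0 < p) (G : Good p q qi) : N p (AA p : Hk R (q - qi)) = 0 := by
  have hN : ∀ (n : ℕ) (x : Hk R (q - qi)), N (n + 1) x = N n (rho n x) := N_rho
  have hNm : N p (AA p : Hk R (q - qi)) ∈ HH R (q - qi) p := N_mem (AA_mem p)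
  refine nondeg G.hq p hNm ?_
  set f : Hk R (q - qi) →ₗ[R] R := tau G.hq ∘ₗ LinearMap.mulLeft R (N p (AA p)) with hf
  have hftr : IsTr p f := by
    intro x hx y hy
    simp only [hf, LinearMap.comp_apply, LinearMap.mulLeft_apply]
    rw [← mul_assoc, ← N_central _ hx, mul_assoc, tau_comm, mul_assoc]
  have key : ∀ x ∈ HH R (q - qi) p, f x = 0 := by
    refine span_Sy G.hq p f hftr G.hu ?_
    intro l hl hpos
    simp only [hf, LinearMap.comp_apply, LinearMap.mulLeft_apply]
    subst hl
    rw [tau_Syl G.hq l hNm, ent_N_wl G.hq hN l (wl l) (fun _ _ => rfl)]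
    have hc : S l.length l.sum (cont l) (wl l) (fun v => ent G.hq v v (AA l.sum)) =
        MvPolynomial.coeff (Finsupp.onFinset (Finset.range l.length) (cont l)
          (fun x hx => by
            by_contra h
            exact hx (cont_lt (by simpa using h))))
          (Zp l.length l.sum (wl l) (fun v => ent G.hq v v (AA l.sum))) := by
      rw [coeff_Zp]
      · rfl
      · intro x hx; exact cont_lt hx
    rw [hc, Zp_AA G.hq G.hz l.length l.sum hp]
    rw [MvPolynomial.coeff_C_mul]
    rcases l with _ | ⟨k, _ | ⟨k', l'⟩⟩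
    · exact absurd hp (lt_irrefl _)
    · have hk : 0 < k := by simpa using hp
      have e : (qf q k) * (qint q qi k) = 0 := by
        obtain ⟨m, rfl⟩ : ∃ m, k = m + 1 := ⟨k - 1, by omega⟩
        rw [qint_eq G.hq, qf, Finset.prod_range_succ]
        have h0 : (qn q (m + 1)) ^ 2 = 0 := by simpa using G.h0
        linear_combination ((∏ j ∈ Finset.range m, qn q (j + 1)) * qi ^ m) * h0
      simp only [List.map_cons, List.map_nil, List.prod_cons, List.prod_nil, mul_one,
        List.sum_cons, List.sum_nil, add_zero]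
      rw [← mul_assoc, e, zero_mul]
    · rw [coeff_pow_sum, mul_zero, mul_zero]
      intro x hx
      have h1 := DFunLike.congr_fun hx (k' :: l').length
      have h2 := DFunLike.congr_fun hx l'.length
      rw [Finsupp.onFinset_apply, cont_head, Finsupp.single_apply] at h1
      rw [Finsupp.onFinset_apply, cont_cons_lt (by simp), cont_head, Finsupp.single_apply] at h2
      have hk : 0 < k := hpos k (by simp)
      have hk' : 0 < k' := hpos k' (by simp)
      simp only [List.length_cons] at h1
      split_ifs at h1 h2 <;> omega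
  intro y hy
  exact key y hy

end Pool.Agent.Lib.Hecke59
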