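import Pool.Agent.Lib.Hecke59.Star
import Pool.Agent.Lib.Hecke59.Cross
import Pool.Agent.Lib.Hecke59.Curl
import Pool.Agent.Lib.Hecke59.NA

/-! The facts on Hecke algebras used for the congruence: separability of the small Hecke algebras,
the element `AA p` spans the kernel of the norm, crossing changes of decorated blocks, curls. -/

namespace Pool.Agent.Lib.Hecke59

open scoped TensorProduct

universe u v

/-- The Casimir element as an explicit sum. -/
theorem cas_sum (R : Type u) [CommRing R] (z : R) (n : ℕ) :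
    ∃ (m : ℕ) (c d : Fin m → Hk R z), (∀ i, c i ∈ HH R z n) ∧ (∀ i, d i ∈ HH R z n) ∧
      Cas R z n = ∑ i, c i ⊗ₜ[R] d i := by
  have h := cas_mem (R := R) (z := z) n
  refine Submodule.span_induction (p := fun C _ => ∃ (m : ℕ) (c d : Fin m → Hk R z),
    (∀ i, c i ∈ HH R z n) ∧ (∀ i, d i ∈ HH R z n) ∧ C = ∑ i, c i ⊗ₜ[R] d i) ?_ ?_ ?_ ?_ h
  · rintro w ⟨a, ha, b, hb, rfl⟩
    exact ⟨1, fun _ => a, fun _ => b, fun _ => ha, fun _ => hb, by simp⟩
  · exact ⟨0, Fin.elim0, Fin.elim0, fun i => i.elim0, fun i => i.elim0, by simp⟩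
  · rintro x y _ _ ⟨m, c, d, hc, hd, rfl⟩ ⟨m', c', d', hc', hd', rfl⟩
    refine ⟨m + m', Fin.append c c', Fin.append d d', ?_, ?_, ?_⟩
    · intro i
      refine Fin.addCases (fun j => ?_) (fun j => ?_) i
      · rw [Fin.append_left]; exact hc j
      · rw [Fin.append_right]; exact hc' j
    · intro i
      refine Fin.addCases (fun j => ?_) (fun j => ?_) i
      · rw [Fin.append_left]; exact hd j
      · rw [Fin.append_right]; exact hd' j
    · rw [Fin.sum_univ_add]
      simp only [Fin.append_left, Fin.append_right]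
  · rintro r x _ ⟨m, c, d, hc, hd, rfl⟩
    refine ⟨m, fun i => r • c i, d, fun i => Subalgebra.smul_mem _ (hc i) r, hd, ?_⟩
    rw [Finset.smul_sum]
    rfl

section sums

variable {R : Type u} [CommRing R] {z : R} {n m : ℕ} {c d : Fin m → Hk R z}
    (h : Cas R z n = ∑ i, c i ⊗ₜ[R] d i)

include h

theorem sum_left {W : Type*} [AddCommGroup W] [Module R W] (B : Hk R z →ₗ[R] Hk R z →ₗ[R] W)
    {x : Hk R z} (hx : x ∈ HH R z n) : ∑ i, B (x * c i) (d i) = ∑ i, B (c i) (d i * x) := by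
  have := congrArg (TensorProduct.lift B) (cas_left n hx)
  rw [h, Finset.mul_sum, Finset.sum_mul, map_sum, map_sum] at this
  simpa using this

theorem sum_right {W : Type*} [AddCommGroup W] [Module R W] (B : Hk R z →ₗ[R] Hk R z →ₗ[R] W)
    {x : Hk R z} (hx : x ∈ HH R z n) : ∑ i, B (c i) (x * d i) = ∑ i, B (c i * x) (d i) := by
  have := congrArg (TensorProduct.lift B) (cas_right n hx)
  rw [h, Finset.mul_sum, Finset.sum_mul, map_sum, map_sum] at this
  simpa using this

theorem Nm_eq_sum {B : Type*} [Ring B] [Algebra R B] (f g : Hk R z →ₐ[R] B) (y : B) :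
    Nm n f g y = ∑ i, f (c i) * y * g (d i) := by
  unfold Nm
  rw [h, map_sum]
  simp

theorem N_eq_sum (x : Hk R z) : N n x = ∑ i, c i * x * d i := by
  unfold N
  rw [Nm_eq_sum h]
  rfl

end sums

section flip

variable {R : Type u} [CommRing R] {q qi : R} {n m : ℕ} {c d : Fin m → Hk R (q - qi)}
    (hq : q * qi = 1) (h : Cas R (q - qi) n = ∑ i, c i ⊗ₜ[R] d i)

include hq h

theorem sum_flip {W : Type*} [AddCommGroup W] [Module R W]
    (B : Hk R (q - qi) →ₗ[R] Hk R (q - qi) →ₗ[R] W) :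
    ∑ i, B (d i) (c i) = ∑ i, B (c i) (d i) := by
  have := congrArg (TensorProduct.lift B) (cas_flip hq n)
  rw [h, map_sum, map_sum, map_sum] at this
  simpa using this

theorem N_eq_sum' (x : Hk R (q - qi)) : N n x = ∑ i, d i * x * c i := by
  rw [N_eq_sum h]
  exact (sum_flip hq h ((LinearMap.mul R (Hk R (q - qi))).comp (LinearMap.mulRight R x))).symm

theorem dual_sum {x : Hk R (q - qi)} (hx : x ∈ HH R (q - qi) n) :
    ∑ i, tau hq (x * c i) • d i = x := by
  have := dual hq n hx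
  rw [h, map_sum] at this
  simpa [ctr_tmul] using this

theorem dual_sum' {x : Hk R (q - qi)} (hx : x ∈ HH R (q - qi) n) :
    ∑ i, tau hq (x * d i) • c i = x :=
  (sum_flip hq h ((LinearMap.lsmul R (Hk R (q - qi))).comp
    (tau hq ∘ₗ LinearMap.mulLeft R x))).trans (dual_sum hq h hx)

end flip

variable {R : Type u} [CommRing R] {q qi : R} {p : ℕ}

/-- Projection onto `H_n`. -/
theorem exists_proj (hq : q * qi = 1) (n : ℕ) : ∃ P : Hk R (q - qi) →ₗ[R] Hk R (q - qi),
    (∀ x, P x ∈ HH R (q - qi) n) ∧ ∀ x ∈ HH R (q - qi) n, P x = x := by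
  obtain ⟨m, c, d, hc, hd, h⟩ := cas_sum R (q - qi) n
  refine ⟨∑ i, (tau hq ∘ₗ LinearMap.mulRight R (c i)).smulRight (d i), ?_, ?_⟩
  · intro x
    rw [LinearMap.sum_apply]
    exact sum_mem fun i _ => Subalgebra.smul_mem _ (hd i) _
  · intro x hx
    rw [LinearMap.sum_apply]
    exact dual_sum hq h hx

/-- The Hecke algebras on fewer than `p` strands are separable. -/
theorem sep [Algebra ℚ R] (G : Good p q qi) {k : ℕ} (hk : 0 < k) (hkp : k < p) :
    ∃ u ∈ HH R (q - qi) k, N k u = 1 := by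
  obtain ⟨Θ, hΘ⟩ := star G.hq G.hz k hk (tau G.hq) (fun x _ y _ => tau_comm G.hq x y)
    (fun j h1 h2 => G.hu j h1 (by omega)) (Or.inl (G.hu k hk hkp))
  obtain ⟨v, hv, hv'⟩ := represent G.hq k Θ
  refine ⟨v, hv, ?_⟩
  have h0 : N k v - 1 = 0 := by
    refine nondeg G.hq k (sub_mem (N_mem hv) (one_mem _)) fun y hy => ?_
    rw [sub_mul, one_mul, map_sub, sub_eq_zero, hΘ y hy, hv' _ (N_mem hy), tau_N, tau_comm]
  exact sub_eq_zero.1 h0

/-- For a bilinear functional which is a trace in both variables, the Casimir element decorated by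
`AA p` is a multiple of `AA p ⊗ AA p`. -/
theorem biA [Algebra ℚ R] (hp : 0 < p) (G : Good p q qi) {V : Type v} [AddCommGroup V] [Module R V]
    (F : Hk R (q - qi) →ₗ[R] Hk R (q - qi) →ₗ[R] V)
    (h1 : ∀ a ∈ HH R (q - qi) p, ∀ x ∈ HH R (q - qi) p, ∀ y ∈ HH R (q - qi) p,
      F a (x * y) = F a (y * x))
    (h2 : ∀ a ∈ HH R (q - qi) p, ∀ x ∈ HH R (q - qi) p, ∀ y ∈ HH R (q - qi) p,
      F (x * y) a = F (y * x) a)
    {m : ℕ} {c d : Fin m → Hk R (q - qi)} (hc : ∀ i, c i ∈ HH R (q - qi) p)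
    (hd : ∀ i, d i ∈ HH R (q - qi) p) (h : Cas R (q - qi) p = ∑ i, c i ⊗ₜ[R] d i) :
    tau G.hq (AA p) • ∑ i, F (c i) (AA p * d i) = F (AA p) (AA p) := by
  obtain ⟨P, hP1, hP2⟩ := exists_proj G.hq p
  have hA : (AA p : Hk R (q - qi)) ∈ HH R (q - qi) p := AA_mem p
  -- functionals which are traces
  let W : Submodule R (Hk R (q - qi) →ₗ[R] V) :=
    { carrier := {g | IsTr p g}
      add_mem' := fun {a b} ha hb x hx y hy => by
        rw [LinearMap.add_apply, LinearMap.add_apply, ha x hx y hy, hb x hx y hy]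
      zero_mem' := fun x _ y _ => by simp
      smul_mem' := fun r g hg x hx y hy => by
        rw [LinearMap.smul_apply, LinearMap.smul_apply, hg x hx y hy] }
  let f : Hk R (q - qi) →ₗ[R] W :=
    { toFun := fun x => ⟨F.flip (P x) ∘ₗ P, fun a ha b hb => by
        rw [LinearMap.comp_apply, LinearMap.comp_apply, LinearMap.flip_apply,
          LinearMap.flip_apply, hP2 _ (mul_mem ha hb), hP2 _ (mul_mem hb ha)]
        exact h2 _ (hP1 x) a ha b hb⟩
      map_add' := fun x y => by
        ext w; simp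
      map_smul' := fun r x => by
        ext w; simp }
  have hf : ∀ x a, (f x).1 a = F (P a) (P x) := fun x a => rfl
  let g : Hk R (q - qi) →ₗ[R] W := tau G.hq (AA p) • f - (tau G.hq).smulRight (f (AA p))
  have hg : ∀ x, g x = tau G.hq (AA p) • f x - tau G.hq x • f (AA p) := fun x => rfl
  have hgtr : IsTr p g := by
    intro x hx y hy
    rw [hg, hg, tau_comm G.hq x y]
    have : f (x * y) = f (y * x) := by
      apply Subtype.ext
      apply LinearMap.ext
      intro a
      rw [hf, hf, hP2 _ (mul_mem hx hy), hP2 _ (mul_mem hy hx)]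
      exact h1 _ (hP1 a) x hx y hy
    rw [this]
  have hgA : g (AA p) = 0 := by rw [hg, sub_self]
  obtain ⟨Θ, hΘ⟩ := star G.hq G.hz p hp g hgtr G.hu (Or.inr hgA)
  -- the sum vanishes
  have key : ∑ i, (g (AA p * d i)).1 (c i) = 0 := by
    have step : ∀ i, (g (AA p * d i)).1 (c i) =
        ∑ j, (Θ (c j * (AA p * d i) * d j)).1 (c i) := by
      intro i
      rw [hΘ _ (mul_mem hA (hd i)), N_eq_sum h, map_sum]
      simp
    have step2 : ∀ j, ∑ i, (Θ (c j * (AA p * d i) * d j)).1 (c i) =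
        ∑ i, (Θ (c j * AA p * d j * d i)).1 (c i) := by
      intro j
      let B : Hk R (q - qi) →ₗ[R] Hk R (q - qi) →ₗ[R] V :=
        (W.subtype ∘ₗ Θ ∘ₗ LinearMap.mulLeft R (c j * AA p)).flip
      have hB : ∀ a b, B a b = (Θ (c j * AA p * b)).1 a := fun a b => rfl
      calc ∑ i, (Θ (c j * (AA p * d i) * d j)).1 (c i) = ∑ i, B (c i) (d i * d j) := by
            refine Finset.sum_congr rfl fun i _ => ?_
            rw [hB]; simp only [mul_assoc]
        _ = ∑ i, B (d j * c i) (d i) := (sum_left h B (hd j)).symm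
        _ = ∑ i, B (c i * d j) (d i) := by
            refine Finset.sum_congr rfl fun i _ => ?_
            rw [hB, hB]
            exact (Θ _).2 _ (hd j) _ (hc i)
        _ = ∑ i, B (c i) (d j * d i) := (sum_right h B (hd j)).symm
        _ = _ := by
            refine Finset.sum_congr rfl fun i _ => ?_
            rw [hB]; simp only [mul_assoc]
    calc ∑ i, (g (AA p * d i)).1 (c i) = ∑ i, ∑ j, (Θ (c j * (AA p * d i) * d j)).1 (c i) :=
          Finset.sum_congr rfl fun i _ => step i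
      _ = ∑ j, ∑ i, (Θ (c j * (AA p * d i) * d j)).1 (c i) := Finset.sum_comm
      _ = ∑ j, ∑ i, (Θ (c j * AA p * d j * d i)).1 (c i) :=
          Finset.sum_congr rfl fun j _ => step2 j
      _ = ∑ i, ∑ j, (Θ (c j * AA p * d j * d i)).1 (c i) := Finset.sum_comm
      _ = ∑ i, (Θ (N p (AA p) * d i)).1 (c i) := by
          refine Finset.sum_congr rfl fun i _ => ?_
          rw [N_eq_sum h, Finset.sum_mul, map_sum]
          simp
      _ = 0 := by
          refine Finset.sum_eq_zero fun i _ => ?_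
          rw [N_AA hp G, zero_mul, map_zero]
          rfl
  have key2 : ∀ i, (g (AA p * d i)).1 (c i) =
      tau G.hq (AA p) • F (c i) (AA p * d i) - tau G.hq (AA p * d i) • F (c i) (AA p) := by
    intro i
    rw [hg]
    show tau G.hq (AA p) • (f (AA p * d i)).1 (c i) -
      tau G.hq (AA p * d i) • (f (AA p)).1 (c i) = _
    rw [hf, hf, hP2 _ (hc i), hP2 _ (mul_mem hA (hd i)), hP2 _ hA]
  rw [Finset.sum_congr rfl fun i _ => key2 i, Finset.sum_sub_distrib, sub_eq_zero] at key
  rw [Finset.smul_sum, key]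
  have := congrArg (F.flip (AA p)) (dual_sum' G.hq h hA)
  rw [map_sum] at this
  rw [LinearMap.flip_apply] at this
  rw [← this]
  refine Finset.sum_congr rfl fun i _ => ?_
  rw [map_smul, LinearMap.flip_apply]

theorem casFlip (hq : q * qi = 1) : CasFlip R (q - qi) := fun n => cas_flip hq n

theorem casLast (hq : q * qi = 1) : CasLast R (q - qi) := fun n => cas_last hq n

/-- Crossing change of two blocks on the same component. -/
theorem fact_self [Algebra ℚ R] (hp : 0 < p) (G : Good p q qi) {V : Type v} [AddCommGroup V]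
    [Module R V] (φ : Hk R (q - qi) →ₗ[R] V)
    (h1 : ∀ u ∈ HH R (q - qi) p, ∀ y ∈ HH R (q - qi) (p + p), φ (u * y) = φ (y * u))
    (h2 : ∀ u ∈ HH R (q - qi) p, ∀ y ∈ HH R (q - qi) (p + p),
      φ (sh p u * y) = φ (y * sh p u)) :
    φ (AA p * Xp p p) - φ (AA p * Xm p p) =
      ((-1) ^ (p - 1) * (q - qi)) • φ (AA p * sh p (AA p)) := by
  obtain ⟨y, hy1, hy2, hy3⟩ := cross_decomp (casFlip G.hq) (casLast G.hq) p hp
    (fun k hk hkp => sep G hk hkp)
  obtain ⟨m, c, d, hc, hd, h⟩ := cas_sum R (q - qi) p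
  have hA : (AA p : Hk R (q - qi)) ∈ HH R (q - qi) p := AA_mem p
  have hle : ∀ {a : Hk R (q - qi)}, a ∈ HH R (q - qi) p → a ∈ HH R (q - qi) (p + p) :=
    fun ha => HH_mono (by omega) ha
  have hsh : ∀ {a : Hk R (q - qi)}, a ∈ HH R (q - qi) p → sh p a ∈ HH R (q - qi) (p + p) :=
    fun ha => sh_mem ha
  have hcom : ∀ {a : Hk R (q - qi)}, a ∈ HH R (q - qi) p → ∀ b, a * sh p b = sh p b * a :=
    fun ha b => comm_sh le_rfl ha b
  have hnorm : ∀ j, φ (AA p * Nm p (sh p) (AlgHom.id R _) (y j)) = 0 := by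
    intro j
    rw [Nm_eq_sum h, Finset.mul_sum, map_sum]
    have : ∀ i, φ (AA p * (sh p (c i) * y j * (AlgHom.id R _) (d i))) =
        φ (d i * AA p * c i * y j) := by
      intro i
      rw [AlgHom.id_apply]
      calc φ (AA p * (sh p (c i) * y j * d i)) = φ (sh p (c i) * (AA p * y j * d i)) := by
            congr 1
            simp only [← mul_assoc]
            rw [hcom hA]
        _ = φ (AA p * y j * d i * sh p (c i)) :=
            h2 _ (hc i) _ (mul_mem (mul_mem (hle hA) (hy1 j)) (hle (hd i)))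
        _ = φ (AA p * y j * sh p (c i) * d i) := by
            rw [mul_assoc (AA p * y j), hcom (hd i), ← mul_assoc]
        _ = φ (d i * (AA p * y j * sh p (c i))) :=
            (h1 _ (hd i) _ (mul_mem (mul_mem (hle hA) (hy1 j)) (hsh (hc i)))).symm
        _ = _ := by
            rw [mul_assoc (AA p), ← hy2 j _ (hc i)]
            simp only [mul_assoc]
    rw [Finset.sum_congr rfl fun i _ => this i, ← map_sum, ← Finset.sum_mul, ← N_eq_sum' G.hq h,
      N_AA hp G, zero_mul, map_zero]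
  have hC : tau G.hq (AA p) • φ (AA p * Nm p (sh p) (AlgHom.id R _) 1) =
      φ (AA p * sh p (AA p)) := by
    let F : Hk R (q - qi) →ₗ[R] Hk R (q - qi) →ₗ[R] V :=
      ((LinearMap.mul R (Hk R (q - qi))) ∘ₗ (sh p : Hk R (q - qi) →ₐ[R] Hk R (q - qi)).toLinearMap).compr₂ φ
    have hF : ∀ a b, F a b = φ (sh p a * b) := fun a b => rfl
    have := biA hp G F
      (by
        intro a ha x hx w hw
        rw [hF, hF]
        calc φ (sh p a * (x * w)) = φ (x * (sh p a * w)) := by
              rw [← mul_assoc, ← hcom hx, mul_assoc]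
          _ = φ (sh p a * w * x) := h1 _ hx _ (mul_mem (hsh ha) (hle hw))
          _ = _ := by rw [mul_assoc])
      (by
        intro a ha x hx w hw
        rw [hF, hF, map_mul (sh p) x w, map_mul (sh p) w x]
        calc φ (sh p x * sh p w * a) = φ (sh p x * (sh p w * a)) := by rw [mul_assoc]
          _ = φ (sh p w * a * sh p x) := h2 _ hx _ (mul_mem (hsh hw) (hle ha))
          _ = _ := by rw [mul_assoc, hcom ha, ← mul_assoc])
      hc hd h
    rw [hF, ← hcom hA] at this
    rw [← this]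
    congr 1
    rw [Nm_eq_sum h, Finset.mul_sum, map_sum]
    refine Finset.sum_congr rfl fun i _ => ?_
    rw [hF, AlgHom.id_apply, mul_one, ← mul_assoc, ← mul_assoc, hcom hA]
  rw [hy3, mul_add, mul_add, map_add, map_add, Finset.mul_sum, map_sum]
  have h3 : ∑ j ∈ Finset.Ico 1 p, φ (AA p * (q - qi) ^ j • Nm p (sh p) (AlgHom.id R _) (y j)) = 0 := by
    refine Finset.sum_eq_zero fun j _ => ?_
    rw [mul_smul_comm, map_smul, hnorm, smul_zero]
  rw [h3, add_zero, add_sub_cancel_left, mul_smul_comm, map_smul, ← hC]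
  obtain ⟨k, rfl⟩ : ∃ k, p = k + 1 := ⟨p - 1, by omega⟩
  rw [tau_AA, smul_smul]
  congr 1
  rw [Nat.add_sub_cancel]
  have e1 : (-(q - qi)) ^ k = (-1) ^ k * (q - qi) ^ k := neg_pow _ _
  have e2 : ((-1 : R) ^ k) * (-1) ^ k = 1 := by rw [← mul_pow]; simp
  rw [e1]
  generalize ((-1 : R) ^ k) = s at e2 ⊢
  generalize hw : (q - qi) = w
  rw [pow_succ]
  linear_combination (-(w ^ k * w)) * e2

/-- Crossing change of blocks on two components. -/
theorem fact_linking [Algebra ℚ R] (hp : 0 < p) (G : Good p q qi) {V : Type v} [AddCommGroup V]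
    [Module R V] (φ : Hk R (q - qi) →ₗ[R] V)
    (h1 : ∀ u ∈ HH R (q - qi) p, ∀ y ∈ HH R (q - qi) (p + p), φ (u * y) = φ (y * sh p u))
    (h2 : ∀ u ∈ HH R (q - qi) p, ∀ y ∈ HH R (q - qi) (p + p), φ (sh p u * y) = φ (y * u)) :
    φ (AA p * sh p (AA p) * Xp p p) = φ (AA p * sh p (AA p) * Xm p p) := by
  obtain ⟨y, hy1, hy2, hy3⟩ := cross_decomp (casFlip G.hq) (casLast G.hq) p hp
    (fun k hk hkp => sep G hk hkp)
  obtain ⟨m, c, d, hc, hd, h⟩ := cas_sum R (q - qi) p
  have hA : (AA p : Hk R (q - qi)) ∈ HH R (q - qi) p := AA_mem p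
  have hle : ∀ {a : Hk R (q - qi)}, a ∈ HH R (q - qi) p → a ∈ HH R (q - qi) (p + p) :=
    fun ha => HH_mono (by omega) ha
  have hsh : ∀ {a : Hk R (q - qi)}, a ∈ HH R (q - qi) p → sh p a ∈ HH R (q - qi) (p + p) :=
    fun ha => sh_mem ha
  have hcom : ∀ {a : Hk R (q - qi)}, a ∈ HH R (q - qi) p → ∀ b, a * sh p b = sh p b * a :=
    fun ha b => comm_sh le_rfl ha b
  have hnorm : ∀ y ∈ HH R (q - qi) (p + p),
      φ (AA p * sh p (AA p) * Nm p (sh p) (AlgHom.id R _) y) = 0 := by
    intro y hy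
    rw [Nm_eq_sum h, Finset.mul_sum, map_sum]
    have : ∀ i, φ (AA p * sh p (AA p) * (sh p (c i) * y * (AlgHom.id R _) (d i))) =
        φ (AA p * sh p (d i * AA p * c i) * y) := by
      intro i
      rw [AlgHom.id_apply]
      calc φ (AA p * sh p (AA p) * (sh p (c i) * y * d i))
          = φ (AA p * sh p (AA p) * sh p (c i) * y * d i) := by simp only [mul_assoc]
        _ = φ (sh p (d i) * (AA p * sh p (AA p) * sh p (c i) * y)) :=
            (h2 _ (hd i) _ (mul_mem (mul_mem (mul_mem (hle hA) (hsh hA)) (hsh (hc i))) hy)).symm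
        _ = _ := by
            rw [map_mul (sh p) (d i * AA p), map_mul (sh p) (d i)]
            simp only [← mul_assoc]
            rw [← hcom hA]
    rw [Finset.sum_congr rfl fun i _ => this i, ← map_sum, ← Finset.sum_mul, ← Finset.mul_sum,
      ← map_sum, ← N_eq_sum' G.hq h, N_AA hp G, map_zero, mul_zero, zero_mul, map_zero]
  rw [hy3, mul_add, mul_add, map_add, map_add, Finset.mul_sum, map_sum]
  have h3 : ∑ j ∈ Finset.Ico 1 p,
      φ (AA p * sh p (AA p) * (q - qi) ^ j • Nm p (sh p) (AlgHom.id R _) (y j)) = 0 := by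
    refine Finset.sum_eq_zero fun j _ => ?_
    rw [mul_smul_comm, map_smul, hnorm _ (hy1 j), smul_zero]
  rw [h3, add_zero, mul_smul_comm, map_smul, hnorm _ (one_mem _), smul_zero, add_zero]

/-- A full curl on a decorated block. -/
theorem fact_twist [Algebra ℚ R] (hp : 0 < p) (G : Good p q qi) (f : Hk R (q - qi) →ₗ[R] R)
    (hf : IsTr p f) : f (AA p * D 0 (p - 1) ^ p) = (-1) ^ (p - 1) * f (AA p) := by
  obtain ⟨zi, hzi⟩ := G.hz.exists_right_inv
  have hA : (AA p : Hk R (q - qi)) ∈ HH R (q - qi) p := AA_mem p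
  have hκ : (1 : R) - algebraMap R R (q - qi) * zi = 0 := by
    rw [Algebra.algebraMap_self, RingHom.id_apply, hzi, sub_self]
  have := fact_self hp G (extn zi 1 p p f)
    (fun u hu y hy => (extn_comm_left zi 1 p p f hf hy hu).symm)
    (fun u hu y hy => (extn_comm_sh zi 1 p p f hy hu).symm)
  rw [extn_Xp _ _ p hp f hA, extn_Xm _ _ p hp f hA, extn_AA _ _ p p hp f hA, hκ,
    zero_pow (by omega), zero_mul, sub_zero, one_pow, one_mul] at this
  rw [this]
  have hs : ∑ j ∈ Finset.range p, (1 : R) ^ j * 0 ^ (p - 1 - j) = 1 := by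
    rw [Finset.sum_eq_single (p - 1)]
    · simp
    · intro b hb hb'
      rw [Finset.mem_range] at hb
      rw [zero_pow (by omega), mul_zero]
    · intro h
      exact absurd (Finset.mem_range.2 (by omega)) h
  rw [hs, smul_eq_mul]
  linear_combination ((-1) ^ (p - 1) * f (AA p)) * hzi

end Pool.Agent.Lib.Hecke59
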