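import Pool.Agent.Lib.Hecke59.Base

/-! Existence of Markov functionals on the Hecke algebra on infinitely many strands. -/

namespace Pool.Agent.Lib.Hecke59

universe u v

variable {R : Type u} [CommRing R] {z : R} {V : Type v} [CommRing V] [Algebra R V]

/-- The action of `T_j` on the position module. -/
noncomputable def op (j : ℕ) : (ℕ → Hk R z) →ₗ[R] (ℕ → Hk R z) where
  toFun F i := if j + 1 < i then T j * F i else if i < j then T (j - 1) * F i else
    if i = j then z • F j + F (j + 1) else F j
  map_add' F G := by
    funext i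
    simp only [Pi.add_apply]
    split_ifs
    · rw [mul_add]
    · rw [mul_add]
    · rw [smul_add]; abel
    · rfl
  map_smul' r F := by
    funext i
    simp only [Pi.smul_apply, RingHom.id_apply]
    split_ifs
    · rw [mul_smul_comm]
    · rw [mul_smul_comm]
    · rw [smul_add, smul_comm]
    · rfl

theorem op_gt {j i : ℕ} (h : j + 1 < i) (F : ℕ → Hk R z) : op j F i = T j * F i := by
  show (if j + 1 < i then T j * F i else _) = _
  rw [if_pos h]

theorem op_lt {j i : ℕ} (h : i < j) (F : ℕ → Hk R z) : op j F i = T (j - 1) * F i := by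
  show (if j + 1 < i then T j * F i else if i < j then T (j - 1) * F i else _) = _
  rw [if_neg (by omega), if_pos h]

theorem op_self (j : ℕ) (F : ℕ → Hk R z) : op j F j = z • F j + F (j + 1) := by
  show (if j + 1 < j then T j * F j else if j < j then T (j - 1) * F j else
    if j = j then z • F j + F (j + 1) else F j) = _
  rw [if_neg (by omega), if_neg (by omega), if_pos rfl]

theorem op_succ (j : ℕ) (F : ℕ → Hk R z) : op j F (j + 1) = F j := by
  show (if j + 1 < j + 1 then T j * F (j + 1) else if j + 1 < j then T (j - 1) * F (j + 1) else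
    if j + 1 = j then z • F j + F (j + 1) else F j) = _
  rw [if_neg (by omega), if_neg (by omega), if_neg (by omega)]

theorem mkT_sq_mul (i : ℕ) (x : Hk R z) : T i * (T i * x) = z • (T i * x) + x := by
  rw [← mul_assoc, T_sq, add_mul, one_mul, smul_mul_assoc]

theorem mkT_comm_mul {i j : ℕ} (h : i + 2 ≤ j) (x : Hk R z) : T i * (T j * x) = T j * (T i * x) := by
  rw [← mul_assoc, T_comm h, mul_assoc]

theorem mkT_braid_mul (i : ℕ) (x : Hk R z) :
    T i * (T (i + 1) * (T i * x)) = T (i + 1) * (T i * (T (i + 1) * x)) := by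
  have := T_braid (R := R) (z := z) i
  calc T i * (T (i + 1) * (T i * x)) = (T i * T (i + 1) * T i) * x := by simp only [mul_assoc]
    _ = _ := by rw [this]; simp only [mul_assoc]

theorem op_quad (i : ℕ) : (op i * op i : Module.End R (ℕ → Hk R z)) = z • op i + 1 := by
  apply LinearMap.ext
  intro F
  funext p
  show op i (op i F) p = z • op i F p + F p
  rcases Nat.lt_or_ge p i with h | h
  · rw [op_lt h, op_lt h, mkT_sq_mul]
  · rcases Nat.lt_or_ge (i + 1) p with h' | h'
    · rw [op_gt h', op_gt h', mkT_sq_mul]
    · have : p = i ∨ p = i + 1 := by omega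
      rcases this with rfl | rfl
      · rw [op_self, op_self, op_succ]
      · rw [op_succ, op_succ, op_self]

theorem op_far (i j : ℕ) (h : i + 2 ≤ j) :
    (op i * op j : Module.End R (ℕ → Hk R z)) = op j * op i := by
  apply LinearMap.ext
  intro F
  funext p
  show op i (op j F) p = op j (op i F) p
  have hcase : p < i ∨ p = i ∨ p = i + 1 ∨ (i + 1 < p ∧ p < j) ∨ p = j ∨ p = j + 1 ∨ j + 1 < p := by
    omega
  rcases hcase with h1 | rfl | rfl | ⟨h1, h2⟩ | rfl | rfl | h1
  · rw [op_lt h1, op_lt (by omega : p < j), op_lt (by omega : p < j), op_lt h1,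
      mkT_comm_mul (by omega)]
  · rw [op_self, op_lt (by omega : p < j), op_lt (by omega : p < j), op_lt (by omega : p + 1 < j),
      op_self, mul_add, mul_smul_comm]
  · rw [op_succ, op_lt (by omega : i < j), op_lt (by omega : i + 1 < j), op_succ]
  · rw [op_gt h1, op_lt h2, op_lt h2, op_gt h1, mkT_comm_mul (by omega)]
  · rw [op_gt (by omega : i + 1 < p), op_self, op_self, op_gt (by omega : i + 1 < p),
      op_gt (by omega : i + 1 < p + 1), mul_add, mul_smul_comm]
  · rw [op_gt (by omega : i + 1 < j + 1), op_succ, op_succ, op_gt (by omega : i + 1 < j)]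
  · rw [op_gt (by omega : i + 1 < p), op_gt h1, op_gt h1, op_gt (by omega : i + 1 < p),
      mkT_comm_mul h]

theorem op_braid (i : ℕ) : (op i * op (i + 1) * op i : Module.End R (ℕ → Hk R z)) =
    op (i + 1) * op i * op (i + 1) := by
  apply LinearMap.ext
  intro F
  funext p
  show op i (op (i + 1) (op i F)) p = op (i + 1) (op i (op (i + 1) F)) p
  have hcase : p < i ∨ p = i ∨ p = i + 1 ∨ p = i + 2 ∨ i + 2 < p := by omega
  rcases hcase with h1 | rfl | rfl | rfl | h1
  · obtain ⟨k, rfl⟩ : ∃ k, i = k + 1 := ⟨i - 1, by omega⟩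
    rw [op_lt h1, op_lt (by omega : p < k + 1 + 1), op_lt h1, op_lt (by omega : p < k + 1 + 1),
      op_lt h1, op_lt (by omega : p < k + 1 + 1)]
    simp only [Nat.add_sub_cancel]
    exact mkT_braid_mul k _
  · rw [op_self, op_lt (by omega : p < p + 1), op_self, op_self, op_succ,
      op_gt (by omega : p + 1 < p + 1 + 1), op_lt (by omega : p < p + 1), op_self,
      op_lt (by omega : p < p + 1), op_self]
    simp only [Nat.add_sub_cancel]
    rw [mul_add, mul_add, mul_smul_comm, mul_smul_comm, mkT_sq_mul]
    simp only [mul_add, mul_smul_comm, smul_add]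
    abel
  · rw [op_succ, op_lt (by omega : i < i + 1), op_self, op_self, op_succ, op_lt (by omega : i < i + 1),
      op_gt (by omega : i + 1 < i + 1 + 1), op_succ]
    simp only [Nat.add_sub_cancel]
    rw [mul_add, mul_smul_comm]
  · rw [op_gt (by omega : i + 1 < i + 2), op_succ, op_succ, op_succ, op_succ,
      op_lt (by omega : i < i + 1)]
    simp only [Nat.add_sub_cancel]
  · rw [op_gt (by omega : i + 1 < p), op_gt (by omega : i + 1 + 1 < p), op_gt (by omega : i + 1 < p),
      op_gt (by omega : i + 1 + 1 < p), op_gt (by omega : i + 1 < p),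
      op_gt (by omega : i + 1 + 1 < p)]
    exact mkT_braid_mul i _

/-- The action on the position module. -/
noncomputable def posAct : Hk R z →ₐ[R] Module.End R (ℕ → Hk R z) :=
  lift op op_quad op_far op_braid

@[simp] theorem posAct_T (j : ℕ) : posAct (T j : Hk R z) = op j := lift_T _ _ _ _ _

theorem posAct_mul (x y : Hk R z) (F : ℕ → Hk R z) :
    posAct (x * y) F = posAct x (posAct y F) := by rw [map_mul]; rfl

/-- Right multiplication. -/
theorem posAct_right (x : Hk R z) (F : ℕ → Hk R z) (c : Hk R z) :
    posAct x (fun i => F i * c) = fun i => posAct x F i * c := by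
  refine Hk_induction (P := fun x => ∀ F : ℕ → Hk R z,
    posAct x (fun i => F i * c) = fun i => posAct x F i * c) ?_ ?_ ?_ ?_ x F
  · intro r F
    rw [AlgHom.commutes]
    funext i
    simp [Module.algebraMap_end_apply]
  · intro j F
    rw [posAct_T]
    funext i
    rcases Nat.lt_or_ge i j with h | h
    · rw [op_lt h, op_lt h, mul_assoc]
    · rcases Nat.lt_or_ge (j + 1) i with h' | h'
      · rw [op_gt h', op_gt h', mul_assoc]
      · have : i = j ∨ i = j + 1 := by omega
        rcases this with rfl | rfl
        · rw [op_self, op_self, add_mul, smul_mul_assoc]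
        · rw [op_succ, op_succ]
  · intro x y hx hy F
    rw [map_add]
    funext i
    rw [LinearMap.add_apply, LinearMap.add_apply, hx, hy]
    simp [add_mul]
  · intro x y hx hy F
    rw [posAct_mul, hy, hx, posAct_mul]

/-- Elements on `m` strands act on the position `m` by left multiplication. -/
theorem posAct_single {m : ℕ} {a : Hk R z} (ha : a ∈ HH R z m) (c : Hk R z) :
    posAct a (Pi.single m c) = Pi.single m (a * c) := by
  refine HH_induction (P := fun a => ∀ c : Hk R z,
    posAct a (Pi.single m c) = Pi.single m (a * c)) ?_ ?_ ?_ ?_ ha c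
  · intro r c
    rw [AlgHom.commutes, Module.algebraMap_end_apply, ← Algebra.smul_def, Pi.single_smul]
  · intro j hj c
    rw [posAct_T]
    funext i
    rcases Nat.lt_or_ge i j with h | h
    · rw [op_lt h, Pi.single_eq_of_ne (by omega), Pi.single_eq_of_ne (by omega), mul_zero]
    · rcases Nat.lt_or_ge (j + 1) i with h' | h'
      · rw [op_gt h']
        by_cases him : i = m
        · subst him; rw [Pi.single_eq_same, Pi.single_eq_same]
        · rw [Pi.single_eq_of_ne him, Pi.single_eq_of_ne him, mul_zero]
      · have : i = j ∨ i = j + 1 := by omega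
        rcases this with rfl | rfl
        · rw [op_self, Pi.single_eq_of_ne (by omega), Pi.single_eq_of_ne (by omega),
            Pi.single_eq_of_ne (by omega), smul_zero, add_zero]
        · rw [op_succ, Pi.single_eq_of_ne (by omega), Pi.single_eq_of_ne (by omega)]
  · intro x y hx hy c
    rw [map_add, LinearMap.add_apply, hx, hy, add_mul, Pi.single_add]
  · intro x y hx hy c
    rw [posAct_mul, hy, hx, mul_assoc]

theorem posAct_apply_self {m : ℕ} {a : Hk R z} (ha : a ∈ HH R z m) (F : ℕ → Hk R z) :
    posAct a F m = a * F m := by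
  refine HH_induction (P := fun a => ∀ F : ℕ → Hk R z, posAct a F m = a * F m) ?_ ?_ ?_ ?_ ha F
  · intro r F
    rw [AlgHom.commutes, Module.algebraMap_end_apply, ← Algebra.smul_def]; rfl
  · intro j hj F
    rw [posAct_T, op_gt hj]
  · intro x y hx hy F
    rw [map_add, LinearMap.add_apply, Pi.add_apply, hx, hy, add_mul]
  · intro x y hx hy F
    rw [posAct_mul, hx, hy, mul_assoc]

theorem mkD_succ' (i k : ℕ) : (D i (k + 1) : Hk R z) = T i * D (i + 1) k := by
  induction k with
  | zero => simp [D]
  | succ k ih =>
    rw [D, ih, D, mul_assoc, show i + (k + 1) = i + 1 + k by omega]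

theorem mkD_comm_low {j i : ℕ} (h : j + 2 ≤ i) (k : ℕ) :
    (D i k : Hk R z) * T j = T j * D i k := by
  induction k with
  | zero => simp [D]
  | succ k ih =>
    rw [D, mul_assoc, ← T_comm (show j + 2 ≤ i + k by omega), ← mul_assoc, ih, mul_assoc]

/-- `T_k ⋯ T_{n} T_{j-1} = T_j T_k ⋯ T_n`. -/
theorem mkD_comm_mid (k : ℕ) : ∀ (l : ℕ) (j : ℕ), k < j → j < k + l →
    (D k l : Hk R z) * T (j - 1) = T j * D k l := by
  intro l
  induction l with
  | zero => intro j h1 h2; omega
  | succ l ih =>
    intro j h1 h2
    rcases Nat.lt_or_ge j (k + l) with h | h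
    · rw [D, mul_assoc, ← T_comm (show j - 1 + 2 ≤ k + l by omega), ← mul_assoc, ih j h1 h, mul_assoc]
    · have hj : j = k + l := by omega
      subst hj
      obtain ⟨l', rfl⟩ : ∃ l', l = l' + 1 := ⟨l - 1, by omega⟩
      have e : k + (l' + 1) - 1 = k + l' := by omega
      rw [e]
      have hc : (D k l' : Hk R z) * T (k + (l' + 1)) = T (k + (l' + 1)) * D k l' := by
        clear ih h1 h2 h e
        have : ∀ n, k + n + 1 ≤ k + (l' + 1) →
            (D k n : Hk R z) * T (k + (l' + 1)) = T (k + (l' + 1)) * D k n := by
          intro n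
          induction n with
          | zero => intro _; simp [D]
          | succ n ih =>
            intro hn
            rw [D, mul_assoc, T_comm (show k + n + 2 ≤ k + (l' + 1) by omega), ← mul_assoc,
              ih (by omega), mul_assoc]
        exact this l' (by omega)
      rw [D, D]
      have hb := T_braid (R := R) (z := z) (k + l')
      rw [show k + l' + 1 = k + (l' + 1) by omega] at hb
      calc D k l' * T (k + l') * T (k + (l' + 1)) * T (k + l')
          = D k l' * (T (k + l') * T (k + (l' + 1)) * T (k + l')) := by simp only [mul_assoc]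
        _ = D k l' * T (k + (l' + 1)) * T (k + l') * T (k + (l' + 1)) := by
            rw [hb]; simp only [mul_assoc]
        _ = _ := by rw [hc]; simp only [mul_assoc]

/-- The second component. -/
noncomputable def Q (m : ℕ) : (ℕ → Hk R z) →ₗ[R] Hk R z where
  toFun F := ∑ k ∈ Finset.range m, D k (m - 1 - k) * F k
  map_add' F G := by
    simp only [Pi.add_apply, mul_add, Finset.sum_add_distrib]
  map_smul' r F := by
    simp only [Pi.smul_apply, mul_smul_comm, RingHom.id_apply, Finset.smul_sum]

theorem Q_apply (m : ℕ) (F : ℕ → Hk R z) :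
    Q m F = ∑ k ∈ Finset.range m, D k (m - 1 - k) * F k := rfl

theorem Q_op {m j : ℕ} (h : j + 1 < m) (F : ℕ → Hk R z) : Q m (op j F) = T j * Q m F := by
  rw [Q_apply, Q_apply, Finset.mul_sum]
  have hj : j ∈ Finset.range m := Finset.mem_range.2 (by omega)
  have hj1 : j + 1 ∈ (Finset.range m).erase j :=
    Finset.mem_erase.2 ⟨by omega, Finset.mem_range.2 h⟩
  rw [← Finset.add_sum_erase _ _ hj, ← Finset.add_sum_erase _ _ hj1,
    ← Finset.add_sum_erase (Finset.range m) (fun k => T j * (D k (m - 1 - k) * F k)) hj,
    ← Finset.add_sum_erase _ (fun k => T j * (D k (m - 1 - k) * F k)) hj1]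
  have e1 : (D j (m - 1 - j) : Hk R z) = T j * D (j + 1) (m - 1 - (j + 1)) := by
    rw [show m - 1 - j = (m - 1 - (j + 1)) + 1 by omega, mkD_succ']
  have hrest : ∑ k ∈ ((Finset.range m).erase j).erase (j + 1), D k (m - 1 - k) * op j F k =
      ∑ k ∈ ((Finset.range m).erase j).erase (j + 1), T j * (D k (m - 1 - k) * F k) := by
    apply Finset.sum_congr rfl
    intro k hk
    rw [Finset.mem_erase, Finset.mem_erase, Finset.mem_range] at hk
    rcases Nat.lt_or_ge k j with h' | h'
    · rw [op_lt h', ← mul_assoc, mkD_comm_mid k _ j h' (by omega), mul_assoc]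
    · rw [op_gt (by omega), ← mul_assoc, mkD_comm_low (by omega), mul_assoc]
  rw [hrest, op_self, op_succ, ← add_assoc, ← add_assoc]
  congr 1
  rw [e1, mul_add, mul_smul_comm, mul_assoc, mul_assoc, mkT_sq_mul]
  rw [← mul_assoc (T j) (D (j + 1) (m - 1 - (j + 1))) (F (j + 1))]
  rw [← mul_assoc (T j) (D (j + 1) (m - 1 - (j + 1))) (F j)]
  abel

theorem Q_posAct {m : ℕ} {a : Hk R z} (ha : a ∈ HH R z m) (F : ℕ → Hk R z) :
    Q m (posAct a F) = a * Q m F := by
  refine HH_induction (P := fun a => ∀ F : ℕ → Hk R z, Q m (posAct a F) = a * Q m F)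
    ?_ ?_ ?_ ?_ ha F
  · intro r F
    rw [AlgHom.commutes, Module.algebraMap_end_apply, map_smul, ← Algebra.smul_def]
  · intro j hj F
    rw [posAct_T, Q_op hj]
  · intro x y hx hy F
    rw [map_add, LinearMap.add_apply, map_add, hx, hy, add_mul]
  · intro x y hx hy F
    rw [posAct_mul, hx, hy, mul_assoc]

theorem Q_right (m : ℕ) (F : ℕ → Hk R z) (c : Hk R z) : Q m (fun i => F i * c) = Q m F * c := by
  rw [Q_apply, Q_apply, Finset.sum_mul]
  apply Finset.sum_congr rfl
  intro k _
  rw [mul_assoc]

/-- `X ↦ X e_m`. -/
noncomputable def col (m : ℕ) : Hk R z →ₗ[R] (ℕ → Hk R z) :=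
  (LinearMap.applyₗ (Pi.single m (1 : Hk R z) : ℕ → Hk R z)).comp (posAct (R := R) (z := z)).toLinearMap

theorem col_apply (m : ℕ) (x : Hk R z) : col m x = posAct x (Pi.single m 1) := rfl

/-- Partial closure of the strand `m` (from functionals on `H_m` to functionals on `H_{m+1}`). -/
noncomputable def ext (δ κ : V) (m : ℕ) (g : Hk R z →ₗ[R] V) : Hk R z →ₗ[R] V :=
  (LinearMap.mulLeft R δ).comp (g.comp ((LinearMap.proj m).comp (col m))) +
    (LinearMap.mulLeft R κ).comp (g.comp ((Q m).comp (col m)))

theorem ext_apply (δ κ : V) (m : ℕ) (g : Hk R z →ₗ[R] V) (x : Hk R z) :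
    ext δ κ m g x = δ * g (col m x m) + κ * g (Q m (col m x)) := rfl

theorem single_right (m : ℕ) (c : Hk R z) :
    (Pi.single m c : ℕ → Hk R z) = fun i => (Pi.single m (1 : Hk R z) : ℕ → Hk R z) i * c := by
  funext i
  by_cases h : i = m
  · subst h; simp
  · rw [Pi.single_eq_of_ne h, Pi.single_eq_of_ne h, zero_mul]

theorem col_bimod (m : ℕ) {a b : Hk R z} (hb : b ∈ HH R z m) (x : Hk R z) :
    col m (a * x * b) = posAct a (fun i => col m x i * b) := by
  rw [col_apply, mul_assoc, posAct_mul, posAct_mul, posAct_single hb, mul_one, single_right,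
    posAct_right]
  rfl

theorem ext_bimod (δ κ : V) (m : ℕ) (g : Hk R z →ₗ[R] V) {a b : Hk R z} (ha : a ∈ HH R z m)
    (hb : b ∈ HH R z m) (x : Hk R z) :
    ext δ κ m g (a * x * b) =
      ext δ κ m (g ∘ₗ (LinearMap.mulLeft R a ∘ₗ LinearMap.mulRight R b)) x := by
  rw [ext_apply, ext_apply, col_bimod m hb, posAct_apply_self ha, Q_posAct ha, Q_right]
  rfl

theorem col_of_mem (m : ℕ) {x : Hk R z} (hx : x ∈ HH R z m) : col m x = Pi.single m x := by
  rw [col_apply, posAct_single hx, mul_one]

theorem ext_of_mem (δ κ : V) (m : ℕ) (g : Hk R z →ₗ[R] V) {x : Hk R z} (hx : x ∈ HH R z m) :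
    ext δ κ m g x = δ * g x := by
  have h : Q m (Pi.single m x : ℕ → Hk R z) = 0 := by
    rw [Q_apply]
    apply Finset.sum_eq_zero
    intro k hk
    rw [Finset.mem_range] at hk
    rw [Pi.single_eq_of_ne (by omega), mul_zero]
  rw [ext_apply, col_of_mem m hx, h, map_zero, mul_zero, add_zero, Pi.single_eq_same]

theorem ext_T (δ κ : V) (m : ℕ) (g : Hk R z →ₗ[R] V) {a b : Hk R z} (ha : a ∈ HH R z (m + 1))
    (hb : b ∈ HH R z (m + 1)) : ext δ κ (m + 1) g (a * T m * b) = κ * g (a * b) := by
  have hcol : ∀ k, k ≤ m + 1 → col (m + 1) (T m : Hk R z) k = if k = m then 1 else 0 := by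
    intro k hk
    rw [col_apply, posAct_T]
    rcases Nat.lt_or_ge k m with h | h
    · rw [op_lt h, Pi.single_eq_of_ne (by omega), mul_zero, if_neg (by omega)]
    · have : k = m ∨ k = m + 1 := by omega
      rcases this with rfl | rfl
      · rw [op_self, Pi.single_eq_of_ne (by omega), smul_zero, Pi.single_eq_same, zero_add,
          if_pos rfl]
      · rw [op_succ, Pi.single_eq_of_ne (by omega), if_neg (by omega)]
  have hQ : Q (m + 1) (col (m + 1) (T m : Hk R z)) = 1 := by
    rw [Q_apply, Finset.sum_eq_single m]
    · rw [hcol m (by omega), if_pos rfl, mul_one, show m + 1 - 1 - m = 0 by omega]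
      rfl
    · intro k hk hne
      rw [Finset.mem_range] at hk
      rw [hcol k (by omega), if_neg hne, mul_zero]
    · intro h; exact absurd (Finset.mem_range.2 (by omega)) h
  rw [ext_bimod δ κ (m + 1) g ha hb, ext_apply, hQ, hcol (m + 1) le_rfl, if_neg (by omega), map_zero,
    mul_zero, zero_add]
  simp

theorem ext_Ti (δ κ : V) (m : ℕ) (g : Hk R z →ₗ[R] V) {a b : Hk R z} (ha : a ∈ HH R z (m + 1))
    (hb : b ∈ HH R z (m + 1)) :
    ext δ κ (m + 1) g (a * Ti m * b) = (κ - algebraMap R V z * δ) * g (a * b) := by
  have e : a * Ti m * b = a * T m * b - z • (a * b) := by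
    unfold Ti
    rw [mul_sub, sub_mul, ← Algebra.commutes, mul_assoc (algebraMap R (Hk R z) z), ← Algebra.smul_def]
  rw [e, map_sub, map_smul, ext_T δ κ m g ha hb, ext_of_mem δ κ (m + 1) g (mul_mem ha hb),
    Algebra.smul_def]
  ring

theorem ext_ext_T (δ κ : V) (m : ℕ) (g : Hk R z →ₗ[R] V) {x : Hk R z}
    (hx : x ∈ HH R z (m + 2)) :
    ext δ κ (m + 1) (ext δ κ m g) (x * T m) = ext δ κ (m + 1) (ext δ κ m g) (T m * x) := by
  have one1 : (1 : Hk R z) ∈ HH R z (m + 1) := one_mem _
  refine HH_succ_induction (P := fun x => ext δ κ (m + 1) (ext δ κ m g) (x * T m) =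
    ext δ κ (m + 1) (ext δ κ m g) (T m * x)) ?_ ?_ ?_ hx
  · intro x hx
    have h1 := ext_T δ κ m (ext δ κ m g) hx one1
    have h2 := ext_T δ κ m (ext δ κ m g) one1 hx
    rw [mul_one, mul_one] at h1
    rw [one_mul, one_mul] at h2
    rw [h1, h2]
  · intro x y hx hy
    rw [add_mul, mul_add, map_add, map_add, hx, hy]
  · intro a ha b hb
    cases m with
    | zero =>
      obtain ⟨r, rfl⟩ := mem_HH_one.1 ha
      obtain ⟨s, rfl⟩ := mem_HH_one.1 hb
      congr 1
      rw [← Algebra.smul_def, ← Algebra.commutes, ← Algebra.smul_def, smul_mul_assoc, smul_mul_assoc,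
        mul_smul_comm, mul_smul_comm]
    | succ m =>
      set E := ext δ κ (m + 1 + 1) (ext δ κ (m + 1) g) with hE
      set G := ext δ κ (m + 1) g with hG
      have sS : (T m : Hk R z) ∈ HH R z (m + 1 + 1) := T_mem (by omega)
      have up : ∀ {y : Hk R z}, y ∈ HH R z (m + 1) → y ∈ HH R z (m + 1 + 1) :=
        fun h => HH_mono (by omega) h
      have cS : ∀ {y : Hk R z}, y ∈ HH R z (m + 1) → ∀ w, y * (T (m + 1) * w) = T (m + 1) * (y * w) := by
        intro y hy w
        rw [← mul_assoc, comm_T le_rfl hy, mul_assoc]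
      have cS' : ∀ {y : Hk R z}, y ∈ HH R z (m + 1) → y * T (m + 1) = T (m + 1) * y :=
        fun hy => comm_T le_rfl hy
      have ET : ∀ {a b : Hk R z}, a ∈ HH R z (m + 1 + 1) → b ∈ HH R z (m + 1 + 1) →
          E (a * T (m + 1) * b) = κ * G (a * b) := fun ha hb => ext_T δ κ (m + 1) G ha hb
      have Em : ∀ {a : Hk R z}, a ∈ HH R z (m + 1 + 1) → E a = δ * G a :=
        fun ha => ext_of_mem δ κ (m + 1 + 1) G ha
      have GT : ∀ {a b : Hk R z}, a ∈ HH R z (m + 1) → b ∈ HH R z (m + 1) →
          G (a * T m * b) = κ * g (a * b) := fun ha hb => ext_T δ κ m g ha hb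
      have Gm : ∀ {a : Hk R z}, a ∈ HH R z (m + 1) → G a = δ * g a :=
        fun ha => ext_of_mem δ κ (m + 1) g ha
      have br := T_braid (R := R) (z := z) m
      -- the four cases
      have main : ∀ a ∈ HH R z (m + 1 + 1), ∀ b ∈ HH R z (m + 1 + 1),
          E (a * T (m + 1) * b * T (m + 1)) = E (T (m + 1) * (a * T (m + 1) * b)) := by
        intro a ha
        refine HH_succ_induction (P := fun a => ∀ b ∈ HH R z (m + 1 + 1),
          E (a * T (m + 1) * b * T (m + 1)) = E (T (m + 1) * (a * T (m + 1) * b))) ?_ ?_ ?_ ha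
        · intro a ha b hb
          refine HH_succ_induction (P := fun b =>
            E (a * T (m + 1) * b * T (m + 1)) = E (T (m + 1) * (a * T (m + 1) * b))) ?_ ?_ ?_ hb
          · intro b hb
            congr 1
            rw [mul_assoc _ b, cS' hb, mul_assoc, mul_assoc]
            exact cS ha _
          · intro x y hx hy
            rw [mul_add, add_mul, mul_add, map_add, map_add, hx, hy]
          · intro c hc d hd
            have e1 : a * T (m + 1) * (c * T m * d) * T (m + 1) =
                (a * c * T m) * T (m + 1) * (T m * d) := by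
              calc a * T (m + 1) * (c * T m * d) * T (m + 1)
                  = a * (T (m + 1) * c) * T m * (d * T (m + 1)) := by simp only [mul_assoc]
                _ = a * (c * T (m + 1)) * T m * (T (m + 1) * d) := by rw [← cS' hc, cS' hd]
                _ = a * c * (T (m + 1) * T m * T (m + 1)) * d := by simp only [mul_assoc]
                _ = _ := by rw [← br]; simp only [mul_assoc]
            have e2 : T (m + 1) * (a * T (m + 1) * (c * T m * d)) =
                z • ((a * c) * T (m + 1) * (T m * d)) + a * c * T m * d := by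
              calc T (m + 1) * (a * T (m + 1) * (c * T m * d))
                  = (T (m + 1) * a) * (T (m + 1) * c) * T m * d := by simp only [mul_assoc]
                _ = (a * T (m + 1)) * (c * T (m + 1)) * T m * d := by rw [← cS' ha, ← cS' hc]
                _ = a * (T (m + 1) * c) * T (m + 1) * T m * d := by simp only [mul_assoc]
                _ = a * (c * T (m + 1)) * T (m + 1) * T m * d := by rw [← cS' hc]
                _ = a * c * (T (m + 1) * T (m + 1)) * T m * d := by simp only [mul_assoc]
                _ = _ := by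
                  rw [T_sq]
                  simp only [mul_add, add_mul, mul_one, mul_smul_comm, smul_mul_assoc, mul_assoc]
            have hac := mul_mem ha hc
            rw [e1, e2, map_add, map_smul,
              ET (mul_mem (up hac) sS) (mul_mem sS (up hd)),
              ET (up hac) (mul_mem sS (up hd)),
              Em (mul_mem (mul_mem (up hac) sS) (up hd)), GT hac hd]
            have e3 : a * c * T m * (T m * d) = z • (a * c * T m * d) + a * c * d := by
              rw [mul_assoc (a * c), mkT_sq_mul, mul_add, mul_smul_comm, ← mul_assoc (a * c) (T m)]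
            have e4 : a * c * (T m * d) = a * c * T m * d := by rw [← mul_assoc]
            rw [e3, e4, map_add, map_smul, GT hac hd, Gm (mul_mem hac hd), Algebra.smul_def,
              Algebra.smul_def]
            ring
        · intro x y hx hy b hb
          rw [add_mul, add_mul, add_mul, mul_add, map_add, map_add, hx b hb, hy b hb]
        · intro c hc d hd b hb
          refine HH_succ_induction (P := fun b =>
            E (c * T m * d * T (m + 1) * b * T (m + 1)) =
              E (T (m + 1) * (c * T m * d * T (m + 1) * b))) ?_ ?_ ?_ hb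
          · intro b hb
            have hdb := mul_mem hd hb
            have e1 : c * T m * d * T (m + 1) * b * T (m + 1) =
                z • ((c * T m) * T (m + 1) * (d * b)) + c * T m * (d * b) := by
              calc c * T m * d * T (m + 1) * b * T (m + 1)
                  = c * T m * (d * T (m + 1)) * (b * T (m + 1)) := by simp only [mul_assoc]
                _ = c * T m * (T (m + 1) * d) * (T (m + 1) * b) := by rw [cS' hd, cS' hb]
                _ = c * T m * T (m + 1) * (d * T (m + 1)) * b := by simp only [mul_assoc]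
                _ = c * T m * T (m + 1) * (T (m + 1) * d) * b := by rw [cS' hd]
                _ = c * T m * (T (m + 1) * T (m + 1)) * (d * b) := by simp only [mul_assoc]
                _ = _ := by
                  rw [T_sq]
                  simp only [mul_add, add_mul, mul_one, mul_smul_comm, smul_mul_assoc, mul_assoc]
            have e2 : T (m + 1) * (c * T m * d * T (m + 1) * b) =
                (c * T m) * T (m + 1) * (T m * (d * b)) := by
              calc T (m + 1) * (c * T m * d * T (m + 1) * b)
                  = (T (m + 1) * c) * T m * (d * T (m + 1)) * b := by simp only [mul_assoc]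
                _ = (c * T (m + 1)) * T m * (T (m + 1) * d) * b := by rw [← cS' hc, cS' hd]
                _ = c * (T (m + 1) * T m * T (m + 1)) * d * b := by simp only [mul_assoc]
                _ = _ := by rw [← br]; simp only [mul_assoc]
            rw [e1, e2, map_add, map_smul, ET (mul_mem (up hc) sS) (up hdb),
              Em (mul_mem (mul_mem (up hc) sS) (up hdb)),
              ET (mul_mem (up hc) sS) (mul_mem sS (up hdb)), GT hc hdb]
            have e3 : c * T m * (T m * (d * b)) = z • (c * T m * (d * b)) + c * (d * b) := by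
              rw [mul_assoc c, mkT_sq_mul, mul_add, mul_smul_comm, ← mul_assoc c (T m)]
            rw [e3, map_add, map_smul, GT hc hdb, Gm (mul_mem hc hdb), Algebra.smul_def,
              Algebra.smul_def]
            ring
          · intro x y hx hy
            rw [mul_add, add_mul, mul_add, map_add, map_add, hx, hy]
          · intro c' hc' d' hd'
            have hdc := mul_mem hd hc'
            have e1 : c * T m * d * T (m + 1) * (c' * T m * d') * T (m + 1) =
                (c * T m * (d * c') * T m) * T (m + 1) * (T m * d') := by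
              calc c * T m * d * T (m + 1) * (c' * T m * d') * T (m + 1)
                  = c * T m * d * (T (m + 1) * c') * T m * (d' * T (m + 1)) := by
                    simp only [mul_assoc]
                _ = c * T m * d * (c' * T (m + 1)) * T m * (T (m + 1) * d') := by
                    rw [← cS' hc', cS' hd']
                _ = c * T m * (d * c') * (T (m + 1) * T m * T (m + 1)) * d' := by
                    simp only [mul_assoc]
                _ = _ := by rw [← br]; simp only [mul_assoc]
            have e2 : T (m + 1) * (c * T m * d * T (m + 1) * (c' * T m * d')) =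
                (c * T m) * T (m + 1) * (T m * (d * c') * T m * d') := by
              calc T (m + 1) * (c * T m * d * T (m + 1) * (c' * T m * d'))
                  = (T (m + 1) * c) * T m * (d * T (m + 1)) * (c' * T m * d') := by
                    simp only [mul_assoc]
                _ = (c * T (m + 1)) * T m * (T (m + 1) * d) * (c' * T m * d') := by
                    rw [← cS' hc, cS' hd]
                _ = c * (T (m + 1) * T m * T (m + 1)) * d * (c' * T m * d') := by
                    simp only [mul_assoc]
                _ = _ := by rw [← br]; simp only [mul_assoc]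
            have m1 : c * T m * (d * c') * T m ∈ HH R z (m + 1 + 1) :=
              mul_mem (mul_mem (mul_mem (up hc) sS) (up hdc)) sS
            have m2 : T m * (d * c') * T m * d' ∈ HH R z (m + 1 + 1) :=
              mul_mem (mul_mem (mul_mem sS (up hdc)) sS) (up hd')
            rw [e1, e2, ET m1 (mul_mem sS (up hd')), ET (mul_mem (up hc) sS) m2]
            have e3 : c * T m * (d * c') * T m * (T m * d') =
                z • (c * T m * (d * c') * T m * d') + c * T m * (d * c' * d') := by
              rw [mul_assoc _ (T m) (T m * d'), mkT_sq_mul, mul_add, mul_smul_comm]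
              simp only [mul_assoc]
            have e4 : c * T m * (T m * (d * c') * T m * d') =
                z • (c * T m * (d * c') * T m * d') + (c * (d * c')) * T m * d' := by
              have : c * T m * (T m * (d * c') * T m * d') =
                  c * (T m * (T m * ((d * c') * T m * d'))) := by simp only [mul_assoc]
              rw [this, mkT_sq_mul, mul_add, mul_smul_comm]
              simp only [mul_assoc]
            rw [e3, e4, map_add, map_add, GT hc (mul_mem hdc hd'), GT (mul_mem hc hdc) hd']
            simp only [mul_assoc]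
      exact main a ha b hb

/-- The representation `T_i ↦ !![0, 1; 1, z]`. -/
noncomputable def rep2 : Hk R z →ₐ[R] Matrix (Fin 2) (Fin 2) R :=
  lift (fun _ => !![0, 1; 1, z])
    (fun _ => by
      ext i j
      fin_cases i <;> fin_cases j <;> simp [Matrix.mul_apply, Fin.sum_univ_two] <;> ring)
    (fun _ _ _ => rfl) (fun _ => rfl)

/-- Markov functionals. -/
noncomputable def mark (δ κ : V) : ℕ → (Hk R z →ₗ[R] V)
  | 0 => (Algebra.linearMap R V).comp ((Matrix.entryLinearMap R R (0 : Fin 2) (0 : Fin 2)).comp
      (rep2 (R := R) (z := z)).toLinearMap)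
  | n + 1 => ext δ κ n (mark δ κ n)

theorem mark_zero_one (δ κ : V) : (mark δ κ 0 : Hk R z →ₗ[R] V) 1 = 1 := by
  show algebraMap R V ((rep2 (R := R) (z := z) 1) 0 0) = 1
  rw [map_one]
  simp

theorem mark_eq_ext (δ κ : V) (n : ℕ) :
    (mark δ κ (n + 1) : Hk R z →ₗ[R] V) = ext δ κ n (mark δ κ n) := rfl

theorem mark_comm (δ κ : V) (n : ℕ) {x y : Hk R z} (hx : x ∈ HH R z n) (hy : y ∈ HH R z n) :
    mark δ κ n (x * y) = mark δ κ n (y * x) := by
  have key : ∀ n, ∀ y ∈ HH R z n, ∀ x ∈ HH R z n, mark δ κ n (x * y) = mark δ κ n (y * x) := by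
    intro n
    induction n using Nat.strong_induction_on with
    | _ n ih =>
    intro y hy
    have hgen : ∀ i, i + 1 < n → ∀ x ∈ HH R z n,
        mark δ κ n (x * T i) = mark δ κ n (T i * x) := by
      intro i hi x hx
      obtain ⟨k, rfl⟩ : ∃ k, n = k + 2 := ⟨n - 2, by omega⟩
      rcases Nat.lt_or_ge i k with h | h
      · have hTi : (T i : Hk R z) ∈ HH R z (k + 1) := T_mem (by omega)
        refine HH_succ_induction (P := fun x =>
          mark δ κ (k + 2) (x * T i) = mark δ κ (k + 2) (T i * x)) ?_ ?_ ?_ hx
        · intro x hx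
          rw [mark_eq_ext, ext_of_mem δ κ (k + 1) _ (mul_mem hx hTi),
            ext_of_mem δ κ (k + 1) _ (mul_mem hTi hx), ih (k + 1) (by omega) _ hTi _ hx]
        · intro x y hx hy
          rw [add_mul, mul_add, map_add, map_add, hx, hy]
        · intro a ha b hb
          have e1 : a * T k * b * T i = a * T k * (b * T i) := by simp only [mul_assoc]
          have e2 : T i * (a * T k * b) = (T i * a) * T k * b := by simp only [mul_assoc]
          rw [e1, e2, mark_eq_ext, ext_T δ κ k _ ha (mul_mem hb hTi),
            ext_T δ κ k _ (mul_mem hTi ha) hb, ← mul_assoc, mul_assoc (T i),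
            ih (k + 1) (by omega) _ hTi _ (mul_mem ha hb)]
      · have hik : i = k := by omega
        subst hik
        exact ext_ext_T δ κ i (mark δ κ i) hx
    have hall : y ∈ HH R z n ∧ ∀ x ∈ HH R z n, mark δ κ n (x * y) = mark δ κ n (y * x) := by
      refine Algebra.adjoin_induction (p := fun y _ => y ∈ HH R z n ∧ ∀ x ∈ HH R z n,
        mark δ κ n (x * y) = mark δ κ n (y * x)) ?_ ?_ ?_ ?_ hy
      · rintro y ⟨i, hi, rfl⟩
        exact ⟨T_mem hi, hgen i hi⟩
      · intro r
        refine ⟨algebraMap_mem _ _, fun x _ => ?_⟩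
        rw [Algebra.commutes]
      · rintro y w _ _ ⟨hy1, hy2⟩ ⟨hw1, hw2⟩
        refine ⟨add_mem hy1 hw1, fun x hx => ?_⟩
        rw [mul_add, add_mul, map_add, map_add, hy2 x hx, hw2 x hx]
      · rintro y w _ _ ⟨hy1, hy2⟩ ⟨hw1, hw2⟩
        refine ⟨mul_mem hy1 hw1, fun x hx => ?_⟩
        rw [← mul_assoc, hw2 _ (mul_mem hx hy1), ← mul_assoc, hy2 _ (mul_mem hw1 hx), mul_assoc]
    exact hall.2
  exact key n y hy x hx

theorem mark_succ (δ κ : V) (n : ℕ) {x : Hk R z} (hx : x ∈ HH R z n) :
    mark δ κ (n + 1) x = δ * mark δ κ n x := by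
  rw [mark_eq_ext, ext_of_mem δ κ n _ hx]

theorem mark_T (δ κ : V) (n : ℕ) {x y : Hk R z} (hx : x ∈ HH R z (n + 1))
    (hy : y ∈ HH R z (n + 1)) :
    mark δ κ (n + 2) (x * T n * y) = κ * mark δ κ (n + 1) (x * y) := by
  rw [mark_eq_ext, ext_T δ κ n _ hx hy]

end Pool.Agent.Lib.Hecke59
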