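import Pool.Agent.Lib.Hecke59.Defs

/-! Spanning sets of the cocenter of the Hecke algebra. -/

namespace Pool.Agent.Lib.Hecke59

open scoped TensorProduct

universe u v

variable {R : Type u} [CommRing R] {z : R}

theorem TC_aux (m : ℕ) : ((m + 1 : ℕ) : R) • (D 0 m : Hk R z) =
    AA (m + 1) + z • ∑ j ∈ Finset.Ico 1 (m + 1), AA j * D j (m - j) := by
  induction m with
  | zero => simp [AA_one]
  | succ m ih =>
    have e1 : (((m + 1 + 1 : ℕ) : R)) • (D 0 (m + 1) : Hk R z) =
        (((m + 1 : ℕ) : R) • (D 0 m : Hk R z)) * T m + D 0 (m + 1) := by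
      rw [Nat.cast_succ, add_smul, one_smul, D_succ, zero_add, smul_mul_assoc]
    have e2 : (T m : Hk R z) = Ti m + algebraMap R _ z := by
      rw [← T_sub_Ti m]; abel
    have e3 : ∀ j ∈ Finset.Ico 1 (m + 1), (AA j * D j (m - j) : Hk R z) * T m =
        AA j * D j (m + 1 - j) := by
      intro j hj
      rw [Finset.mem_Ico] at hj
      rw [show m + 1 - j = m - j + 1 by omega, D_succ, show j + (m - j) = m by omega, mul_assoc]
    have e4 : (AA (m + 1) : Hk R z) * T m = AA (m + 1) * Ti m + z • AA (m + 1) := by
      conv_lhs => rw [e2]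
      rw [mul_add, ← Algebra.commutes, ← Algebra.smul_def]
    rw [e1, ih, add_mul, smul_mul_assoc, Finset.sum_mul, Finset.sum_congr rfl e3, e4,
      Finset.sum_Ico_succ_top (show 1 ≤ m + 1 by omega), Nat.sub_self, D_zero, mul_one, AA_succ,
      smul_add]
    abel

theorem TC (k : ℕ) (hk : 0 < k) : (k : R) • (cc k : Hk R z) =
    AA k + z • ∑ j ∈ Finset.Ico 1 k, AA j * sh j (cc (k - j)) := by
  obtain ⟨m, rfl⟩ : ∃ m, k = m + 1 := ⟨k - 1, by omega⟩
  unfold cc
  rw [Nat.add_sub_cancel, TC_aux]
  congr 2
  refine Finset.sum_congr rfl fun j hj => ?_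
  rw [Finset.mem_Ico] at hj
  rw [sh_D, zero_add, show m + 1 - j - 1 = m - j by omega]

section
variable {V : Type v} [AddCommGroup V] [Module R V]

theorem IsTr.mulSh {n k : ℕ} {f : Hk R z →ₗ[R] V} (hf : IsTr n f) {c : Hk R z}
    (hk : k ≤ n) (hc : c ∈ HH R z k) :
    IsTr (n - k) (f.comp (LinearMap.mulRight R (sh (n - k) c))) := by
  intro x hx y hy
  have hxn : x ∈ HH R z n := HH_mono (by omega) hx
  have hyn : y ∈ HH R z n := HH_mono (by omega) hy
  have hcn : sh (n - k) c ∈ HH R z n := by
    have := sh_mem (k := n - k) hc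
    rwa [show k + (n - k) = n by omega] at this
  show f (x * y * sh (n - k) c) = f (y * x * sh (n - k) c)
  rw [mul_assoc, hf x hxn _ (mul_mem hyn hcn), mul_assoc, ← comm_sh le_rfl hx, mul_assoc]

theorem IsTr.shMul {n k : ℕ} {f : Hk R z →ₗ[R] V} (hf : IsTr n f) {x : Hk R z}
    (hk : k ≤ n) (hx : x ∈ HH R z (n - k)) :
    IsTr k (f.comp ((LinearMap.mulLeft R x).comp (sh (n - k)).toLinearMap)) := by
  intro y hy y' hy'
  have hxn : x ∈ HH R z n := HH_mono (by omega) hx
  have hyn : sh (n - k) y ∈ HH R z n := by
    have := sh_mem (k := n - k) hy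
    rwa [show k + (n - k) = n by omega] at this
  have hyn' : sh (n - k) y' ∈ HH R z n := by
    have := sh_mem (k := n - k) hy'
    rwa [show k + (n - k) = n by omega] at this
  show f (x * sh (n - k) (y * y')) = f (x * sh (n - k) (y' * y))
  rw [map_mul (sh (n - k)) y, map_mul (sh (n - k)) y', ← mul_assoc,
    hf _ (mul_mem hxn hyn) _ hyn', ← mul_assoc, ← comm_sh le_rfl hx, mul_assoc]

/-- the final step of the two spanning theorems -/
theorem span_of_cc {n : ℕ} (hn : 0 < n) (f : Hk R z →ₗ[R] V) (hf : IsTr n f)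
    (h2 : ∀ k, 0 < k → k ≤ n → ∀ x ∈ HH R z (n - k), f (x * sh (n - k) (cc k)) = 0) :
    ∀ x ∈ HH R z n, f x = 0 := by
  have key : ∀ d, d < n → ∀ x ∈ HH R z (d + 1), f (x * sh d (cc (n - d))) = 0 := by
    intro d
    induction d with
    | zero =>
      intro _ x hx
      obtain ⟨r, rfl⟩ := mem_HH_one.1 hx
      have := h2 n hn le_rfl (algebraMap R _ r) (algebraMap_mem _ _)
      rwa [Nat.sub_self] at this
    | succ d ih =>
      intro hd x hx
      refine HH_succ_induction (P := fun x => f (x * sh (d + 1) (cc (n - (d + 1)))) = 0)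
        ?_ ?_ ?_ hx
      · intro x hx
        have := h2 (n - (d + 1)) (by omega) (by omega) x
        rw [show n - (n - (d + 1)) = d + 1 by omega] at this
        exact this hx
      · intro x y hx hy
        rw [add_mul, map_add, hx, hy, add_zero]
      · intro a ha b hb
        have hcn : sh (d + 1) (cc (n - (d + 1)) : Hk R z) ∈ HH R z n := by
          have := sh_mem (k := d + 1) (cc_mem (R := R) (z := z) (n - (d + 1)))
          rwa [show n - (d + 1) + (d + 1) = n by omega] at this
        have han : a ∈ HH R z n := HH_mono (by omega) ha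
        have hbn : b ∈ HH R z n := HH_mono (by omega) hb
        have hTn : (T d : Hk R z) ∈ HH R z n := T_mem (by omega)
        have e1 : (T d : Hk R z) * sh (d + 1) (cc (n - (d + 1))) = sh d (cc (n - d)) := by
          unfold cc
          rw [sh_D, sh_D, zero_add, zero_add, show n - d - 1 = (n - (d + 1) - 1) + 1 by omega,
            D_succ']
        have e2 : a * T d * b * sh (d + 1) (cc (n - (d + 1)) : Hk R z) =
            (a * T d * sh (d + 1) (cc (n - (d + 1)))) * b := by
          rw [mul_assoc (a * T d) b, comm_sh le_rfl hb]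
          simp only [mul_assoc]
        rw [e2, hf _ (mul_mem (mul_mem han hTn) hcn) _ hbn, mul_assoc a, e1, ← mul_assoc]
        exact ih (by omega) _ (mul_mem hb ha)
  intro x hx
  have := key (n - 1) (by omega) x (by rwa [Nat.sub_add_cancel hn])
  rw [show n - (n - 1) = 1 by omega] at this
  simpa [cc] using this

theorem span_AA [Algebra ℚ R] (n : ℕ)
    (f : Hk R z →ₗ[R] V) (hf : IsTr n f)
    (h : ∀ l : List ℕ, l.sum = n → (∀ k ∈ l, 0 < k) → f (AAl l) = 0) :
    ∀ x ∈ HH R z n, f x = 0 := by
  induction n using Nat.strong_induction_on generalizing f with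
  | _ n IH =>
    rcases Nat.eq_zero_or_pos n with rfl | hn
    · intro x hx
      rw [HH_zero, Algebra.mem_bot] at hx
      obtain ⟨r, rfl⟩ := hx
      have := h [] rfl (by simp)
      rw [Algebra.algebraMap_eq_smul_one, map_smul]
      change f 1 = 0 at this
      rw [this, smul_zero]
    · have h1 : ∀ k, 0 < k → k ≤ n → ∀ x ∈ HH R z (n - k), f (x * sh (n - k) (AA k)) = 0 := by
        intro k hk hkn
        refine IH (n - k) (by omega) (f.comp (LinearMap.mulRight R (sh (n - k) (AA k))))
          (hf.mulSh hkn (AA_mem k)) ?_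
        intro l hl hpos
        have := h (k :: l) (by rw [List.sum_cons, hl]; omega) (by
          intro j hj
          rcases List.mem_cons.1 hj with rfl | hj
          · exact hk
          · exact hpos j hj)
        rw [← hl]
        exact this
      refine span_of_cc hn f hf ?_
      intro k
      induction k using Nat.strong_induction_on with
      | _ k IHk =>
        intro hk hkn x hx
        have hz : ∑ j ∈ Finset.Ico 1 k,
            f (x * sh (n - k) (AA j * sh j (cc (k - j)))) = 0 := by
          refine Finset.sum_eq_zero fun j hj => ?_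
          rw [Finset.mem_Ico] at hj
          rw [map_mul (sh (n - k)), sh_sh, ← mul_assoc]
          have := IHk (k - j) (by omega) (by omega) (by omega) (x * sh (n - k) (AA j)) (by
            have h3 := sh_mem (k := n - k) (AA_mem (R := R) (z := z) j)
            rw [show n - (k - j) = j + (n - k) by omega]
            exact mul_mem (HH_mono (by omega) hx) h3)
          rwa [show n - (k - j) = j + (n - k) by omega] at this
        have h4 : (k : R) • f (x * sh (n - k) (cc k)) = 0 := by
          rw [← map_smul, ← mul_smul_comm, ← map_smul, TC k hk, map_add, mul_add, map_add,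
            h1 k hk hkn x hx, zero_add, map_smul, mul_smul_comm, map_smul, map_sum, Finset.mul_sum,
            map_sum, hz, smul_zero]
        have hu : IsUnit (k : R) := by
          have : (k : R) = algebraMap ℚ R k := by rw [map_natCast]
          rw [this]
          exact (IsUnit.mk0 (k : ℚ) (by positivity)).map (algebraMap ℚ R)
        exact (hu.smul_eq_zero).1 h4

end

section
variable {q qi : R} (hq : q * qi = 1)

/-- The right factor of the symmetriser. -/
def XX (q : R) (k : ℕ) : Hk R z := ∑ t ∈ Finset.range (k + 1), q ^ t • E (k - t) t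

theorem Sy_succ (q : R) (k : ℕ) : (Sy q (k + 1) : Hk R z) = Sy q k * XX q k := rfl

theorem XX_zero (q : R) : (XX q 0 : Hk R z) = 1 := by simp [XX]

theorem XX_succ (q : R) (k : ℕ) : (XX q (k + 1) : Hk R z) = 1 + q • (T k * XX q k) := by
  unfold XX
  rw [Finset.sum_range_succ', pow_zero, one_smul, E_zero, add_comm, Finset.mul_sum,
    Finset.smul_sum]
  congr 1
  refine Finset.sum_congr rfl fun t ht => ?_
  rw [Finset.mem_range] at ht
  rw [mul_smul_comm, smul_smul, pow_succ', show k + 1 - (t + 1) = k - t by omega, E_succ,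
    show k - t + t = k by omega]

theorem XX_mem (q : R) (k : ℕ) : (XX q k : Hk R z) ∈ HH R z (k + 1) := by
  refine sum_mem fun t ht => ?_
  rw [Finset.mem_range] at ht
  exact Subalgebra.smul_mem _ (E_mem (by omega)) _

include hq in
theorem qz : 1 + q * (q - qi) = q ^ 2 := by linear_combination (-1 : R) * hq

include hq in
theorem T_mul_XX (k : ℕ) : (T k : Hk R (q - qi)) * XX q k * XX q (k + 1) =
    q • (XX q k * XX q (k + 1)) := by
  have hz := qz hq
  induction k with
  | zero =>
    rw [XX_succ, XX_zero, mul_one, one_mul, mul_add, mul_smul_comm, T_sq]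
    have : (T 0 : Hk R (q - qi)) * 1 + q • ((q - qi) • T 0 + 1) =
        q • 1 + (1 + q * (q - qi)) • (T 0 : Hk R (q - qi)) := by
      rw [mul_one]; module
    rw [this, hz]
    module
  | succ k ih =>
    have hT := T_sq (R := R) (z := q - qi) (k + 1)
    have hb := T_braid (R := R) (z := q - qi) k
    have hc : (XX q k : Hk R (q - qi)) * T (k + 1) = T (k + 1) * XX q k :=
      comm_T le_rfl (XX_mem q k)
    rw [XX_succ q (k + 1)]
    rw [XX_succ q k] at ih ⊢
    generalize (XX q k : Hk R (q - qi)) = Z at *
    generalize (T (k + 1) : Hk R (q - qi)) = A at *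
    generalize (T k : Hk R (q - qi)) = B at *
    have e1 : A * (1 + q • (B * Z)) * (1 + q • (A * (1 + q • (B * Z)))) =
        A + q • (A * A) + q ^ 2 • (A * A * B * Z) + q • (A * B * Z) + q ^ 2 • (A * B * A * Z) +
          q ^ 3 • (A * B * A * Z * B * Z) := by
      have h1 : A * B * (Z * A) = A * B * A * Z := by rw [hc]; simp only [mul_assoc]
      have h2 : A * B * (Z * A) * B * Z = A * B * A * Z * B * Z := by rw [h1]
      calc A * (1 + q • (B * Z)) * (1 + q • (A * (1 + q • (B * Z))))
          = A + q • (A * A) + q ^ 2 • (A * A * B * Z) + q • (A * B * Z) +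
            q ^ 2 • (A * B * (Z * A)) + q ^ 3 • (A * B * (Z * A) * B * Z) := by
            simp only [mul_add, add_mul, mul_one, one_mul, smul_mul_assoc, mul_smul_comm, smul_add,
              smul_smul, mul_assoc]
            module
        _ = _ := by rw [h2, h1]
    have e2 : q ^ 2 • (A * B * A * Z) + q ^ 3 • (A * B * A * Z * B * Z) =
        q ^ 3 • (B * Z * A) + q ^ 4 • (B * Z * A * B * Z) := by
      have h1 : q ^ 2 • (A * B * A * Z) + q ^ 3 • (A * B * A * Z * B * Z) =
          q ^ 2 • (B * A * (B * Z * (1 + q • (B * Z)))) := by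
        rw [← hb]
        simp only [mul_add, add_mul, mul_one, one_mul, smul_mul_assoc, mul_smul_comm, smul_add,
          smul_smul, mul_assoc]
        module
      rw [h1, ih]
      have h2 : B * A * Z = B * Z * A := by rw [mul_assoc, ← hc, mul_assoc]
      have h3 : B * A * Z * B * Z = B * Z * A * B * Z := by rw [h2]
      rw [← h3, ← h2]
      simp only [mul_add, add_mul, mul_one, one_mul, smul_mul_assoc, mul_smul_comm, smul_add,
        smul_smul, mul_assoc]
      module
    rw [e1, add_assoc, e2, hT]
    have e3 : ((q - qi) • A + 1) * B * Z = (q - qi) • (A * B * Z) + B * Z := by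
      simp only [add_mul, smul_mul_assoc, one_mul]
    rw [e3]
    have e4 : q • ((1 + q • (B * Z)) * (1 + q • (A * (1 + q • (B * Z))))) =
        q • 1 + q ^ 2 • A + q ^ 3 • (A * B * Z) + q ^ 2 • (B * Z) + q ^ 3 • (B * Z * A) +
          q ^ 4 • (B * Z * A * B * Z) := by
      simp only [mul_add, add_mul, mul_one, one_mul, smul_mul_assoc, mul_smul_comm, smul_add,
        smul_smul, mul_assoc]
      module
    rw [e4]
    have e5 : A + q • ((q - qi) • A + 1) + q ^ 2 • ((q - qi) • (A * B * Z) + B * Z) +
        q • (A * B * Z) = q • 1 + (1 + q * (q - qi)) • A +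
          (q * (1 + q * (q - qi))) • (A * B * Z) + q ^ 2 • (B * Z) := by
      module
    rw [e5, hz]
    module

include hq in
theorem T_mul_Sy {i n : ℕ} (h : i + 1 < n) :
    (T i : Hk R (q - qi)) * Sy q n = q • Sy q n := by
  induction n with
  | zero => omega
  | succ n ih =>
    rcases Nat.lt_or_ge (i + 1) n with h' | h'
    · rw [Sy_succ, ← mul_assoc, ih h', smul_mul_assoc]
    · have : n = i + 1 := by omega
      subst this
      have hc : (Sy q i : Hk R (q - qi)) * T i = T i * Sy q i := comm_T le_rfl (Sy_mem q i)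
      rw [Sy_succ, Sy_succ]
      calc (T i : Hk R (q - qi)) * (Sy q i * XX q i * XX q (i + 1))
          = (T i * Sy q i) * XX q i * XX q (i + 1) := by simp only [mul_assoc]
        _ = Sy q i * (T i * XX q i * XX q (i + 1)) := by rw [← hc]; simp only [mul_assoc]
        _ = _ := by rw [T_mul_XX hq, mul_smul_comm, mul_assoc]

theorem XX_eq (q : R) (k : ℕ) : (XX q k : Hk R z) =
    ∑ a ∈ Finset.range (k + 1), q ^ (k - a) • E a (k - a) := by
  unfold XX
  rw [← Finset.sum_range_reflect]
  refine Finset.sum_congr rfl fun a ha => ?_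
  rw [Finset.mem_range] at ha
  rw [show k + 1 - 1 - a = k - a by omega, show k - (k - a) = a by omega]

include hq in
theorem Sy_mul_T {i n : ℕ} (h : i + 1 < n) :
    (Sy q n : Hk R (q - qi)) * T i = q • Sy q n := by
  induction n generalizing i with
  | zero => omega
  | succ k ih =>
    have hz := qz hq
    obtain ⟨r, rfl⟩ : ∃ r, k = i + (r + 1) := ⟨k - (i + 1), by omega⟩
    set k := i + (r + 1) with hk
    rw [Sy_succ, XX_eq]
    have hsplit : ∀ F : ℕ → Hk R (q - qi), ∑ a ∈ Finset.range (k + 1), F a =
        ∑ a ∈ Finset.range i, F a + (∑ a ∈ Finset.range r, F (i + (a + 1 + 1)) +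
          F (i + (0 + 1)) + F (i + 0)) := by
      intro F
      rw [hk, show i + (r + 1) + 1 = i + (r + 1 + 1) by omega, Finset.sum_range_add,
        Finset.sum_range_succ' (fun x => F (i + x)), Finset.sum_range_succ' (fun x => F (i + (x + 1)))]
    rw [mul_assoc, Finset.sum_mul, Finset.mul_sum, Finset.mul_sum, Finset.smul_sum, hsplit, hsplit]
    have h1 : ∀ a ∈ Finset.range i, (Sy q k : Hk R (q - qi)) * (q ^ (k - a) • E a (k - a) * T i) =
        q • (Sy q k * q ^ (k - a) • E a (k - a)) := by
      intro a ha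
      rw [Finset.mem_range] at ha
      obtain ⟨j, rfl⟩ : ∃ j, i = j + 1 := ⟨i - 1, by omega⟩
      rw [smul_mul_assoc, E_mul_T (by omega) (by omega), mul_smul_comm, ← mul_assoc,
        ih (i := j) (by omega), smul_mul_assoc, mul_smul_comm, smul_comm]
    have h2 : ∀ a ∈ Finset.range r, (Sy q k : Hk R (q - qi)) *
        (q ^ (k - (i + (a + 1 + 1))) • E (i + (a + 1 + 1)) (k - (i + (a + 1 + 1))) * T i) =
        q • (Sy q k * q ^ (k - (i + (a + 1 + 1))) •
          E (i + (a + 1 + 1)) (k - (i + (a + 1 + 1)))) := by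
      intro a ha
      rw [Finset.mem_range] at ha
      have hc : (E (i + (a + 1 + 1)) (k - (i + (a + 1 + 1))) : Hk R (q - qi)) * T i =
          T i * E (i + (a + 1 + 1)) (k - (i + (a + 1 + 1))) := by
        have := comm_sh (m := i + 2) (k := i + 2) le_rfl (T_mem (show i + 1 < i + 2 by omega))
          (E a (k - (i + (a + 1 + 1))) : Hk R (q - qi))
        rw [sh_E, show a + (i + 2) = i + (a + 1 + 1) by omega] at this
        exact this.symm
      rw [smul_mul_assoc, hc, mul_smul_comm, ← mul_assoc, ih (i := i) (by omega), smul_mul_assoc,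
        mul_smul_comm, smul_comm]
    rw [Finset.sum_congr rfl h1, Finset.sum_congr rfl h2, ← Finset.smul_sum, ← Finset.smul_sum]
    have h3 : (Sy q k : Hk R (q - qi)) *
          (q ^ (k - (i + (0 + 1))) • E (i + (0 + 1)) (k - (i + (0 + 1))) * T i) +
        Sy q k * (q ^ (k - (i + 0)) • E (i + 0) (k - (i + 0)) * T i) =
        q • (Sy q k * q ^ (k - (i + (0 + 1))) • E (i + (0 + 1)) (k - (i + (0 + 1)))) +
        q • (Sy q k * q ^ (k - (i + 0)) • E (i + 0) (k - (i + 0))) := by
      rw [show k - (i + (0 + 1)) = r by omega, show k - (i + 0) = r + 1 by omega, add_zero, zero_add]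
      have e1 : (E (i + 1) r : Hk R (q - qi)) * T i = E i (r + 1) := (E_succ' i r).symm
      have e2 : (E i (r + 1) : Hk R (q - qi)) * T i = (q - qi) • E i (r + 1) + E (i + 1) r := by
        rw [E_succ', mul_assoc, T_sq, mul_add, mul_one, mul_smul_comm]
      rw [smul_mul_assoc, smul_mul_assoc, e1, e2]
      simp only [mul_smul_comm, mul_add, smul_add, smul_smul]
      have e3 : q ^ r • (Sy q k * E i (r + 1)) + ((q ^ (r + 1) * (q - qi)) •
          (Sy q k * E i (r + 1)) + q ^ (r + 1) • ((Sy q k : Hk R (q - qi)) * E (i + 1) r)) =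
          (q ^ r * (1 + q * (q - qi))) • (Sy q k * E i (r + 1)) +
            q ^ (r + 1) • ((Sy q k : Hk R (q - qi)) * E (i + 1) r) := by
        module
      rw [e3, hz]
      module
    rw [add_assoc (q • ∑ x ∈ Finset.range r, _), h3]
    abel

include hq in
theorem E_mul_Sy {i j n : ℕ} (h : j = 0 ∨ i + j < n) :
    (E i j : Hk R (q - qi)) * Sy q n = q ^ j • Sy q n := by
  induction j with
  | zero => simp
  | succ j ih =>
    rw [E_succ, mul_assoc, ih (by omega), mul_smul_comm, T_mul_Sy hq (by omega), smul_smul,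
      pow_succ]

include hq in
theorem XX_mul_Sy (k : ℕ) :
    (XX q k : Hk R (q - qi)) * Sy q (k + 1) = qn q (k + 1) • Sy q (k + 1) := by
  unfold XX qn
  rw [Finset.sum_mul, Finset.sum_smul]
  refine Finset.sum_congr rfl fun t ht => ?_
  rw [Finset.mem_range] at ht
  rw [smul_mul_assoc, E_mul_Sy hq (by omega), smul_smul, ← pow_add]
  congr 2
  omega

include hq in
theorem Sy_step {V : Type v} [AddCommGroup V] [Module R V] {k m r : ℕ} (hk : m + 1 + r = k)
    (f : Hk R (q - qi) →ₗ[R] V) (hf : IsTr k f) :
    f (Sy q (m + 1) * D m r) = f (Sy q m * D m r) + (q * qn q m) • f (Sy q m * D (m - 1) (r + 1)) := by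
  rw [Sy_succ]
  cases m with
  | zero =>
    rw [XX_zero, mul_one]
    simp [qn]
  | succ m =>
    rw [XX_succ, mul_add, mul_one, add_mul, map_add, Nat.add_sub_cancel]
    congr 1
    have hX : (XX q m : Hk R (q - qi)) ∈ HH R (q - qi) (m + 1) := XX_mem q m
    have hXk : (XX q m : Hk R (q - qi)) ∈ HH R (q - qi) k := HH_mono (by omega) hX
    have hSk : (Sy q (m + 1) : Hk R (q - qi)) ∈ HH R (q - qi) k :=
      HH_mono (by omega) (Sy_mem q (m + 1))
    have hTk : (T m : Hk R (q - qi)) ∈ HH R (q - qi) k := T_mem (by omega)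
    have hDk : (D (m + 1) r : Hk R (q - qi)) ∈ HH R (q - qi) k := D_mem (by omega)
    have hc : (XX q m : Hk R (q - qi)) * D (m + 1) r = D (m + 1) r * XX q m := by
      have := comm_sh (k := m + 1) le_rfl hX (D 0 r)
      rwa [sh_D, zero_add] at this
    calc f (Sy q (m + 1) * q • (T m * XX q m) * D (m + 1) r)
        = q • f ((Sy q (m + 1) * T m * D (m + 1) r) * XX q m) := by
          rw [← map_smul]
          congr 1
          rw [mul_smul_comm, smul_mul_assoc, mul_assoc, mul_assoc (T m), hc]
          simp only [mul_assoc]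
      _ = q • f (XX q m * (Sy q (m + 1) * T m * D (m + 1) r)) := by
          rw [hf _ (mul_mem (mul_mem hSk hTk) hDk) _ hXk]
      _ = _ := by
          rw [← mul_assoc, ← mul_assoc, XX_mul_Sy hq, smul_mul_assoc, smul_mul_assoc, map_smul,
            smul_smul, mul_assoc (Sy q (m + 1)), ← D_succ']

/-- the `q`-Newton type recursion for traces -/
theorem Sy_expand_aux (hq : q * qi = 1) {V : Type v} [AddCommGroup V] [Module R V] (k : ℕ)
    (f : Hk R (q - qi) →ₗ[R] V) (hf : IsTr k f) (r m : ℕ) (hk : m + 1 + r = k) :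
    f (Sy q k) = ∑ j ∈ Finset.range (r + 1),
      (q ^ j * ∏ i ∈ Finset.range j, qn q (k - 1 - i)) •
        f (Sy q (k - 1 - j) * D (k - 1 - j) j) +
      (q ^ (r + 1) * ∏ i ∈ Finset.range (r + 1), qn q (k - 1 - i)) •
        f (Sy q m * D (m - 1) (r + 1)) := by
  induction r generalizing m with
  | zero =>
    have := Sy_step hq (r := 0) hk f hf
    rw [add_zero] at hk
    subst hk
    rw [D_zero, mul_one, mul_one, zero_add] at this
    rw [this]
    simp
  | succ r ih =>
    rw [ih (m + 1) (by omega), Finset.sum_range_succ (n := r + 1), add_assoc]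
    congr 1
    have h1 : k - 1 - (r + 1) = m := by omega
    rw [Nat.add_sub_cancel, Sy_step hq (r := r + 1) hk f hf, h1, smul_add, smul_smul]
    congr 2
    rw [Finset.prod_range_succ (n := r + 1), h1, pow_succ q (r + 1)]
    ring

/-- the `q`-Newton type recursion for traces -/
theorem Sy_expand (hq : q * qi = 1) {V : Type v} [AddCommGroup V] [Module R V] (k : ℕ) (hk : 0 < k)
    (f : Hk R (q - qi) →ₗ[R] V) (hf : IsTr k f) :
    f (Sy q k) = ∑ j ∈ Finset.Icc 1 k,
      (q ^ (j - 1) * ∏ i ∈ Finset.range (j - 1), qn q (k - 1 - i)) •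
        f (Sy q (k - j) * sh (k - j) (cc j)) := by
  rw [Sy_expand_aux hq k f hf (k - 1) 0 (by omega)]
  rw [Finset.prod_range_succ, Nat.sub_self, show qn q 0 = 0 by simp [qn], mul_zero, mul_zero,
    zero_smul, add_zero, Nat.sub_add_cancel hk]
  have : Finset.Icc 1 k = Finset.Ico 1 (k + 1) := by
    ext j; simp only [Finset.mem_Icc, Finset.mem_Ico]; omega
  rw [this, Finset.sum_Ico_eq_sum_range, Nat.add_sub_cancel]
  refine Finset.sum_congr rfl fun j hj => ?_
  unfold cc
  rw [sh_D, zero_add, Nat.add_sub_cancel_left, show k - (1 + j) = k - 1 - j by omega]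

theorem span_Sy (hq : q * qi = 1) {V : Type v} [AddCommGroup V] [Module R V] (n : ℕ)
    (f : Hk R (q - qi) →ₗ[R] V) (hf : IsTr n f) (hu : ∀ k, 0 < k → k < n → IsUnit (qn q k))
    (h : ∀ l : List ℕ, l.sum = n → (∀ k ∈ l, 0 < k) → f (Syl q l) = 0) :
    ∀ x ∈ HH R (q - qi) n, f x = 0 := by
  induction n using Nat.strong_induction_on generalizing f with
  | _ n IH =>
    rcases Nat.eq_zero_or_pos n with rfl | hn
    · intro x hx
      rw [HH_zero, Algebra.mem_bot] at hx
      obtain ⟨r, rfl⟩ := hx
      have := h [] rfl (by simp)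
      rw [Algebra.algebraMap_eq_smul_one, map_smul]
      change f 1 = 0 at this
      rw [this, smul_zero]
    · have h1 : ∀ k, 0 < k → k ≤ n → ∀ x ∈ HH R (q - qi) (n - k),
          f (x * sh (n - k) (Sy q k)) = 0 := by
        intro k hk hkn
        refine IH (n - k) (by omega) (f.comp (LinearMap.mulRight R (sh (n - k) (Sy q k))))
          (hf.mulSh hkn (Sy_mem q k)) (fun j hj hj' => hu j hj (by omega)) ?_
        intro l hl hpos
        have := h (k :: l) (by rw [List.sum_cons, hl]; omega) (by
          intro j hj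
          rcases List.mem_cons.1 hj with rfl | hj
          · exact hk
          · exact hpos j hj)
        rw [← hl]
        exact this
      refine span_of_cc hn f hf ?_
      intro k
      induction k using Nat.strong_induction_on with
      | _ k IHk =>
        intro hk hkn x hx
        have hexp := Sy_expand hq k hk _ (hf.shMul hkn hx)
        have h0 : (f.comp ((LinearMap.mulLeft R x).comp (sh (n - k)).toLinearMap)) (Sy q k) = 0 :=
          h1 k hk hkn x hx
        rw [h0, Finset.sum_eq_single k] at hexp
        · have hunit : IsUnit (q ^ (k - 1) * ∏ i ∈ Finset.range (k - 1), qn q (k - 1 - i)) := by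
            refine IsUnit.mul ((IsUnit.of_mul_eq_one qi hq).pow _) ?_
            refine Finset.prod_induction _ IsUnit (fun _ _ => IsUnit.mul) isUnit_one ?_
            intro i hi
            rw [Finset.mem_range] at hi
            exact hu _ (by omega) (by omega)
          have := (hunit.smul_eq_zero).1 hexp.symm
          rw [Nat.sub_self, sh_zero] at this
          change f (x * sh (n - k) (1 * cc k)) = 0 at this
          rwa [one_mul] at this
        · intro j hj hjk
          rw [Finset.mem_Icc] at hj
          have h5 := IHk j (by omega) (by omega) (by omega) (x * sh (n - k) (Sy q (k - j))) (by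
            have h3 := sh_mem (k := n - k) (Sy_mem (R := R) (z := q - qi) q (k - j))
            rw [show n - j = k - j + (n - k) by omega]
            exact mul_mem (HH_mono (by omega) hx) h3)
          have h6 : f (x * sh (n - k) (Sy q (k - j) * sh (k - j) (cc j))) = 0 := by
            rw [map_mul (sh (n - k)), sh_sh, ← mul_assoc]
            rwa [show n - j = k - j + (n - k) by omega] at h5
          change (q ^ (j - 1) * ∏ i ∈ Finset.range (j - 1), qn q (k - 1 - i)) •
            f (x * sh (n - k) (Sy q (k - j) * sh (k - j) (cc j))) = 0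
          rw [h6, smul_zero]
        · intro hk'
          exact absurd (Finset.mem_Icc.2 ⟨hk, le_rfl⟩) hk'

end

end Pool.Agent.Lib.Hecke59
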