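import Pool.Agent.Lib.Hecke59.Span
import Pool.Agent.Lib.Hecke59.Block
import Pool.Agent.Lib.Hecke59.Zpoly
import Pool.Agent.Lib.Hecke59.Words
import Pool.Agent.Lib.Hecke59.Cas

/-! Every trace on `n` strands killing `AA n` factors through the norm. -/

namespace Pool.Agent.Lib.Hecke59

open scoped TensorProduct

universe u v

/-! ### Monomials in power sums -/

/-- The exponent of the monomial `∏ X (φ j) ^ a j`. -/
noncomputable def mexp {r : ℕ} (a φ : Fin r → ℕ) : ℕ →₀ ℕ :=
  ∑ j, Finsupp.single (φ j) (a j)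

theorem mexp_apply {r : ℕ} (a φ : Fin r → ℕ) (i : ℕ) :
    mexp a φ i = ∑ j, if φ j = i then a j else 0 := by
  unfold mexp
  rw [Finsupp.finsetSum_apply]
  refine Finset.sum_congr rfl fun j _ => ?_
  rw [Finsupp.single_apply]

theorem mexp_pos {r : ℕ} {a φ : Fin r → ℕ} {i : ℕ} (h : 0 < mexp a φ i) : ∃ j, φ j = i := by
  by_contra hc
  push Not at hc
  rw [mexp_apply, Finset.sum_eq_zero fun j _ => if_neg (hc j)] at h
  exact lt_irrefl _ h

theorem mexp_pos_of {r : ℕ} {a φ : Fin r → ℕ} (ha : ∀ j, 0 < a j) {i : ℕ} (h : ∃ j, φ j = i) :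
    0 < mexp a φ i := by
  obtain ⟨j, hj⟩ := h
  rw [mexp_apply]
  refine Finset.sum_pos' (fun _ _ => Nat.zero_le _) ⟨j, Finset.mem_univ _, ?_⟩
  rw [if_pos hj]
  exact ha j

theorem mexp_perm {r : ℕ} (a : Fin r → ℕ) (σ : Equiv.Perm (Fin r)) (i : Fin r) :
    mexp a (fun j => (σ j : ℕ)) i = a (σ.symm i) := by
  rw [mexp_apply, Finset.sum_eq_single (σ.symm i)]
  · rw [if_pos (by simp)]
  · intro j _ hj
    rw [if_neg]
    intro h
    apply hj
    rw [Equiv.eq_symm_apply]
    exact Fin.ext h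
  · intro h; exact absurd (Finset.mem_univ _) h

theorem mexp_mem {r s n : ℕ} {a φ : Fin r → ℕ} (ha : ∑ j, a j = n) (hφ : ∀ j, φ j < s) :
    mexp a φ ∈ Finset.finsuppAntidiag (Finset.range s) n := by
  rw [Finset.mem_finsuppAntidiag]
  constructor
  · rw [← ha]
    simp only [mexp_apply]
    rw [Finset.sum_comm]
    refine Finset.sum_congr rfl fun j _ => ?_
    rw [Finset.sum_ite_eq, if_pos (Finset.mem_range.2 (hφ j))]
  · intro i hi
    rw [Finsupp.mem_support_iff, Nat.ne_zero_iff_zero_lt] at hi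
    obtain ⟨j, rfl⟩ := mexp_pos hi
    exact Finset.mem_range.2 (hφ j)

variable {R : Type u} [CommRing R]

theorem psum_prod (s r : ℕ) (a : Fin r → ℕ) :
    ((List.ofFn a).map (fun k => ∑ x ∈ Finset.range s,
      (MvPolynomial.X x : MvPolynomial ℕ R) ^ k)).prod =
    ∑ φ ∈ Fintype.piFinset (fun _ : Fin r => Finset.range s),
      MvPolynomial.monomial (mexp a φ) 1 := by
  rw [List.map_ofFn, List.prod_ofFn]
  simp only [Function.comp_apply]
  rw [Finset.prod_univ_sum]
  refine Finset.sum_congr rfl fun φ _ => ?_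
  unfold mexp
  rw [MvPolynomial.monomial_sum_one]
  refine Finset.prod_congr rfl fun j _ => ?_
  rw [MvPolynomial.X_pow_eq_monomial]

/-- A part is bounded by the sum minus the number of the other parts. -/
theorem part_le {ι : Type*} [DecidableEq ι] (T : Finset ι) (F : ι → ℕ) (hF : ∀ i ∈ T, 0 < F i)
    {x : ι} (hx : x ∈ T) : F x + T.card ≤ ∑ i ∈ T, F i + 1 := by
  have h := Finset.card_nsmul_le_sum (T.erase x) F 1 fun i hi => hF i (Finset.mem_of_mem_erase hi)
  rw [Finset.card_erase_of_mem hx, smul_eq_mul, mul_one] at h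
  have h2 : (T.erase x).sum F + F x = T.sum F := Finset.sum_erase_add T F hx
  have h3 : F x + T.card ≤ T.sum F + 1 := by omega
  exact h3

/-- The surjections `Fin s → range s`, as functions to `ℕ`. -/
def surj (s : ℕ) : Finset (Fin s → ℕ) :=
  (Fintype.piFinset (fun _ : Fin s => Finset.range s)).filter fun φ => ∀ i < s, ∃ j, φ j = i

theorem surj_card (s : ℕ) : (surj s).card ≠ 0 := by
  rw [Finset.card_ne_zero]
  refine ⟨fun j => j, ?_⟩
  unfold surj
  rw [Finset.mem_filter, Fintype.mem_piFinset]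
  exact ⟨fun j => Finset.mem_range.2 j.2, fun i hi => ⟨⟨i, hi⟩, rfl⟩⟩

theorem surj_perm {s : ℕ} {φ : Fin s → ℕ} (h : φ ∈ surj s) :
    ∃ σ : Equiv.Perm (Fin s), φ = fun j => (σ j : ℕ) := by
  unfold surj at h
  rw [Finset.mem_filter, Fintype.mem_piFinset] at h
  have h1 : ∀ j, φ j < s := fun j => Finset.mem_range.1 (h.1 j)
  have h2 : Function.Surjective (fun j => (⟨φ j, h1 j⟩ : Fin s)) := by
    intro i
    obtain ⟨j, hj⟩ := h.2 i i.2
    exact ⟨j, Fin.ext hj⟩
  have h3 : Function.Bijective (fun j => (⟨φ j, h1 j⟩ : Fin s)) :=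
    ⟨Finite.injective_iff_surjective.2 h2, h2⟩
  exact ⟨Equiv.ofBijective _ h3, rfl⟩

variable {q qi : R}

theorem qint_unit (hq : q * qi = 1) {k : ℕ} (hk : 0 < k) (h : IsUnit (qn q k)) :
    IsUnit (qint q qi k) := by
  obtain ⟨m, rfl⟩ : ∃ m, k = m + 1 := ⟨k - 1, by omega⟩
  rw [qint_eq hq]
  exact ((IsUnit.of_mul_eq_one q (by rw [mul_comm, hq])).pow m).mul h

/-- The inductive step. -/
theorem star_step [Algebra ℚ R] (hq : q * qi = 1) (hz : IsUnit (q - qi)) {V : Type v}
    [AddCommGroup V] [Module R V] (n s : ℕ)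
    (g : Hk R (q - qi) →ₗ[R] V) (hg : IsTr n g)
    (hu : ∀ k, 0 < k → k + s ≤ n → IsUnit (qn q k))
    (h0 : ∀ l : List ℕ, l.sum = n → (∀ k ∈ l, 0 < k) → l.length ≤ s → g (AAl l) = 0) :
    ∃ Θ : Hk R (q - qi) →ₗ[R] V, ∀ l : List ℕ, l.sum = n → (∀ k ∈ l, 0 < k) →
      l.length ≤ s + 1 → g (AAl l) = Θ (N n (AAl l)) := by
  classical
  set w : Wd := fun _ => 0 with hw
  set A : Finset (ℕ →₀ ℕ) := (Finset.finsuppAntidiag (Finset.range (s + 1)) n).filter
    (fun μ => ∀ i < s + 1, 0 < μ i) with hA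
  have hθ : ∀ μ : ℕ →₀ ℕ, μ ∈ A → ∃ Θ : Hk R (q - qi) →ₗ[R] R,
      ∀ x, S (s + 1) n μ w (fun v => ent hq v v x) = Θ (N n x) := by
    intro μ hμ
    rw [hA, Finset.mem_filter, Finset.mem_finsuppAntidiag] at hμ
    refine S_N_unit hq N_rho (s + 1) n μ w fun x hx k hk hkx => hu k hk ?_
    have h1 := part_le (Finset.range (s + 1)) μ
      (fun i hi => hμ.2 i (Finset.mem_range.1 hi)) (Finset.mem_range.2 hx)
    rw [Finset.card_range, hμ.1.1] at h1
    omega
  choose! θ hθ using hθ
  set G : (ℕ →₀ ℕ) → V := fun μ =>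
    Ring.inverse (((surj (s + 1)).card : R) * ∏ i : Fin (s + 1), qint q qi (μ i)) •
      g (AAl (List.ofFn (fun i : Fin (s + 1) => μ i))) with hG
  refine ⟨∑ μ ∈ A, (θ μ).smulRight (G μ), fun l hl hpos hlen => ?_⟩
  rw [LinearMap.sum_apply]
  simp only [LinearMap.smulRight_apply]
  obtain ⟨r, a, rfl⟩ : ∃ (r : ℕ) (a : Fin r → ℕ), l = List.ofFn a :=
    ⟨l.length, l.get, (List.ofFn_get l).symm⟩
  rw [List.length_ofFn] at hlen
  have hsum : ∑ j, a j = n := by rw [← List.sum_ofFn, hl]
  have hpos' : ∀ j, 0 < a j := fun j => hpos _ (List.mem_ofFn.2 ⟨j, rfl⟩)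
  -- the value at one `μ`
  have hval : ∀ μ ∈ A, θ μ (N n (AAl (List.ofFn a))) =
      (((List.ofFn a).map (qint q qi)).prod) *
        ∑ φ ∈ Fintype.piFinset (fun _ : Fin r => Finset.range (s + 1)),
          if mexp a φ = μ then 1 else 0 := by
    intro μ hμ
    have hμ' := hμ
    rw [hA, Finset.mem_filter, Finset.mem_finsuppAntidiag] at hμ'
    rw [← hθ μ hμ, ← coeff_Zp (s + 1) n w _ μ]
    · have h1 := Zp_AAl hq hz (s + 1) (List.ofFn a) hpos w
      rw [hl] at h1
      rw [h1, MvPolynomial.coeff_C_mul, psum_prod, MvPolynomial.coeff_sum]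
      simp only [MvPolynomial.coeff_monomial]
    · intro x hx
      by_contra hne
      have := hμ'.1.2 (Finsupp.mem_support_iff.2 hne)
      rw [Finset.mem_range] at this
      omega
  have hsum2 : ∑ μ ∈ A, θ μ (N n (AAl (List.ofFn a))) • G μ =
      ∑ φ ∈ Fintype.piFinset (fun _ : Fin r => Finset.range (s + 1)),
        if mexp a φ ∈ A then (((List.ofFn a).map (qint q qi)).prod) • G (mexp a φ) else 0 := by
    rw [Finset.sum_congr rfl fun μ hμ => by rw [hval μ hμ, Finset.mul_sum, Finset.sum_smul]]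
    rw [Finset.sum_comm]
    refine Finset.sum_congr rfl fun φ _ => ?_
    simp only [mul_ite, mul_one, mul_zero, ite_smul, zero_smul]
    rw [Finset.sum_ite_eq]
  rw [hsum2]
  rcases Nat.lt_or_ge r (s + 1) with hr | hr
  · -- short lists
    rw [h0 _ hl hpos (by rw [List.length_ofFn]; omega), Finset.sum_eq_zero]
    intro φ hφ
    rw [if_neg]
    intro hmem
    rw [hA, Finset.mem_filter] at hmem
    have h1 : Finset.range (s + 1) ⊆ Finset.univ.image φ := by
      intro i hi
      obtain ⟨j, hj⟩ := mexp_pos (hmem.2 i (Finset.mem_range.1 hi))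
      exact Finset.mem_image.2 ⟨j, Finset.mem_univ _, hj⟩
    have h2 := Finset.card_le_card h1
    have h3 : (Finset.univ.image φ).card ≤ (Finset.univ : Finset (Fin r)).card :=
      Finset.card_image_le
    rw [Finset.card_range] at h2
    rw [Finset.card_univ, Fintype.card_fin] at h3
    omega
  · obtain rfl : r = s + 1 := by omega
    have hQ : IsUnit (((surj (s + 1)).card : R) * ∏ i : Fin (s + 1), qint q qi (a i)) := by
      refine IsUnit.mul ?_ ?_
      · have : ((surj (s + 1)).card : R) = algebraMap ℚ R ((surj (s + 1)).card : ℚ) := by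
          rw [map_natCast]
        rw [this]
        exact (IsUnit.mk0 _ (Nat.cast_ne_zero.2 (surj_card (s + 1)))).map _
      · rw [IsUnit.prod_univ_iff]
        intro i
        refine qint_unit hq (hpos' i) (hu _ (hpos' i) ?_)
        have h1 := part_le Finset.univ a (fun i _ => hpos' i) (Finset.mem_univ i)
        rw [Finset.card_univ, Fintype.card_fin, hsum] at h1
        omega
    have hprod : ((List.ofFn a).map (qint q qi)).prod = ∏ i : Fin (s + 1), qint q qi (a i) := by
      rw [List.map_ofFn, List.prod_ofFn]; rfl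
    rw [← Finset.sum_filter]
    have hfil : (Fintype.piFinset (fun _ : Fin (s + 1) => Finset.range (s + 1))).filter
        (fun φ => mexp a φ ∈ A) = surj (s + 1) := by
      unfold surj
      refine Finset.filter_congr fun φ hφ => ?_
      rw [Fintype.mem_piFinset] at hφ
      rw [hA, Finset.mem_filter]
      constructor
      · rintro ⟨_, h⟩ i hi
        exact mexp_pos (h i hi)
      · intro h
        exact ⟨mexp_mem hsum fun j => Finset.mem_range.1 (hφ j),
          fun i hi => mexp_pos_of hpos' (h i hi)⟩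
    rw [hfil]
    have hterm : ∀ φ ∈ surj (s + 1),
        (((List.ofFn a).map (qint q qi)).prod) • G (mexp a φ) =
        ((∏ i : Fin (s + 1), qint q qi (a i)) *
          Ring.inverse (((surj (s + 1)).card : R) * ∏ i : Fin (s + 1), qint q qi (a i))) •
            g (AAl (List.ofFn a)) := by
      intro φ hφ
      obtain ⟨σ, rfl⟩ := surj_perm hφ
      rw [hprod, hG]
      simp only [mexp_perm]
      have e1 : ∏ i : Fin (s + 1), qint q qi (a (σ.symm i)) =
          ∏ i : Fin (s + 1), qint q qi (a i) :=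
        Equiv.prod_comp σ.symm (fun i => qint q qi (a i))
      have hperm : (List.ofFn (fun i : Fin (s + 1) => a (σ.symm i))).Perm (List.ofFn a) :=
        Equiv.Perm.ofFn_comp_perm σ.symm a
      have e2 : g (AAl (List.ofFn (fun i : Fin (s + 1) => a (σ.symm i)))) =
          g (AAl (List.ofFn a)) :=
        AAl_perm g hg hperm (by rw [hperm.sum_eq, hl])
      rw [e1, e2, smul_smul]
    rw [Finset.sum_congr rfl hterm, Finset.sum_const, ← Nat.cast_smul_eq_nsmul R, smul_smul,
      ← mul_assoc, Ring.mul_inverse_cancel _ hQ, one_smul]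

theorem star_aux [Algebra ℚ R] (hq : q * qi = 1) (hz : IsUnit (q - qi)) {V : Type v}
    [AddCommGroup V] [Module R V] (n s d : ℕ) (hd : n ≤ s + d)
    (g : Hk R (q - qi) →ₗ[R] V) (hg : IsTr n g)
    (hu : ∀ k, 0 < k → k + s ≤ n → IsUnit (qn q k))
    (h0 : ∀ l : List ℕ, l.sum = n → (∀ k ∈ l, 0 < k) → l.length ≤ s → g (AAl l) = 0) :
    ∃ Θ : Hk R (q - qi) →ₗ[R] V, ∀ x ∈ HH R (q - qi) n, g x = Θ (N n x) := by
  induction d generalizing s g with
  | zero =>
    refine ⟨0, fun x hx => ?_⟩
    rw [LinearMap.zero_apply]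
    refine span_AA n g hg (fun l hl hpos => h0 l hl hpos ?_) x hx
    have : ∀ l : List ℕ, (∀ k ∈ l, 0 < k) → l.length ≤ l.sum := by
      intro l
      induction l with
      | nil => intro _; exact le_rfl
      | cons k l ih =>
        intro h
        have h1 := ih fun k hk => h k (List.mem_cons_of_mem _ hk)
        have h2 := h k List.mem_cons_self
        rw [List.length_cons, List.sum_cons]
        omega
    have := this l hpos
    omega
  | succ d ih =>
    obtain ⟨Θ, hΘ⟩ := star_step hq hz n s g hg hu h0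
    obtain ⟨Θ', hΘ'⟩ := ih (s + 1) (by omega) (g - Θ ∘ₗ Nlin R (q - qi) n)
      (by
        intro x hx y hy
        simp only [LinearMap.sub_apply, LinearMap.comp_apply, Nlin_apply]
        rw [hg x hx y hy, N_comm y hx])
      (fun k hk hkn => hu k hk (by omega))
      (by
        intro l hl hpos hlen
        simp only [LinearMap.sub_apply, LinearMap.comp_apply, Nlin_apply]
        rw [hΘ l hl hpos hlen, sub_self])
    refine ⟨Θ' + Θ, fun x hx => ?_⟩
    have := hΘ' x hx
    simp only [LinearMap.sub_apply, LinearMap.comp_apply, Nlin_apply] at this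
    rw [LinearMap.add_apply, ← this, sub_add_cancel]

theorem star [Algebra ℚ R] (hq : q * qi = 1) (hz : IsUnit (q - qi)) {V : Type v} [AddCommGroup V]
    [Module R V] (n : ℕ) (hn : 0 < n) (f : Hk R (q - qi) →ₗ[R] V) (hf : IsTr n f)
    (hu : ∀ k, 0 < k → k < n → IsUnit (qn q k)) (hA : IsUnit (qn q n) ∨ f (AA n) = 0) :
    ∃ Θ : Hk R (q - qi) →ₗ[R] V, ∀ x ∈ HH R (q - qi) n, f x = Θ (N n x) := by
  rcases hA with hA | hA
  · refine star_aux hq hz n 0 n (by omega) f hf (fun k hk hkn => ?_) ?_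
    · rcases Nat.lt_or_ge k n with h | h
      · exact hu k hk h
      · obtain rfl : k = n := by omega
        exact hA
    · intro l hl _ hlen
      obtain rfl : l = [] := List.length_eq_zero_iff.1 (by omega)
      rw [List.sum_nil] at hl
      omega
  · refine star_aux hq hz n 1 n (by omega) f hf (fun k hk hkn => hu k hk (by omega)) ?_
    intro l hl hpos hlen
    rcases Nat.lt_or_ge l.length 1 with h | h
    · obtain rfl : l = [] := List.length_eq_zero_iff.1 (by omega)
      rw [List.sum_nil] at hl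
      omega
    · obtain ⟨k, rfl⟩ := List.length_eq_one_iff.1 (show l.length = 1 by omega)
      rw [List.sum_singleton] at hl
      subst hl
      have : (AAl [k] : Hk R (q - qi)) = AA k := by
        show AAl [] * sh ([] : List ℕ).sum (AA k) = AA k
        rw [List.sum_nil, sh_zero]
        exact one_mul _
      rw [this, hA]

end Pool.Agent.Lib.Hecke59
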